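import Pool.Agent.Lib.MP_f3eb7e_an.Tiny

set_option autoImplicit false

open MeasureTheory Set Filter Topology
open scoped ENNReal

namespace Pool.Agent.MP_f3eb7e

/-- cell length -/
noncomputable def cl (α β : ℝ) (J : ℕ) : ℝ := (β - α) / J
/-- left endpoints -/
noncomputable def ca (α β : ℝ) (J : ℕ) (i : Fin J) : ℝ := α + (i : ℝ) * cl α β J

section
variable {α β : ℝ} {J : ℕ}

lemma cl_pos (h : α < β) (hJ : 0 < J) : 0 < cl α β J := by
  unfold cl
  have : (0 : ℝ) < J := by exact_mod_cast hJ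
  exact div_pos (by linarith) this

lemma cl_mul (hJ : 0 < J) : (J : ℝ) * cl α β J = β - α := by
  unfold cl
  have : (0 : ℝ) < J := by exact_mod_cast hJ
  field_simp

lemma le_ca (h : α < β) (hJ : 0 < J) (i : Fin J) : α ≤ ca α β J i := by
  unfold ca
  have := cl_pos h hJ
  have : 0 ≤ (i : ℝ) * cl α β J := by positivity
  linarith

lemma ca_add_le (h : α < β) (hJ : 0 < J) (i : Fin J) : ca α β J i + cl α β J ≤ β := by
  unfold ca
  have h1 := cl_pos h hJ
  have h2 := cl_mul (α := α) (β := β) hJ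
  have h3 : ((i : ℕ) : ℝ) + 1 ≤ J := by exact_mod_cast i.2
  have h4 : (((i : ℕ) : ℝ) + 1) * cl α β J ≤ J * cl α β J := by gcongr
  linarith

lemma cell_unique (h : α < β) (hJ : 0 < J) {i j : Fin J} {y : ℝ}
    (hi : ca α β J i ≤ y ∧ y < ca α β J i + cl α β J)
    (hj : ca α β J j ≤ y ∧ y < ca α β J j + cl α β J) : i = j := by
  have hc := cl_pos h hJ
  unfold ca at hi hj
  have h1 : ((i : ℕ) : ℝ) * cl α β J < (((j : ℕ) : ℝ) + 1) * cl α β J := by linarith
  have h2 : ((j : ℕ) : ℝ) * cl α β J < (((i : ℕ) : ℝ) + 1) * cl α β J := by linarith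
  have h3 := lt_of_mul_lt_mul_right h1 hc.le
  have h4 := lt_of_mul_lt_mul_right h2 hc.le
  have h5 : (i : ℕ) < j + 1 := by exact_mod_cast h3
  have h6 : (j : ℕ) < i + 1 := by exact_mod_cast h4
  exact Fin.ext (by omega)

lemma cell_disj (h : α < β) (hJ : 0 < J) :
    Pairwise (Function.onFun Disjoint fun i : Fin J => Ico (ca α β J i) (ca α β J i + cl α β J)) := by
  intro i j hij
  rw [Function.onFun, Set.disjoint_left]
  intro y hi hj
  exact hij (cell_unique h hJ hi hj)

lemma exists_cell (h : α < β) (hJ : 0 < J) {y : ℝ} (hy : y ∈ Ico α β) :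
    ∃ i : Fin J, y ∈ Ico (ca α β J i) (ca α β J i + cl α β J) := by
  have hc := cl_pos h hJ
  have h2 := cl_mul (α := α) (β := β) hJ
  have h0 : 0 ≤ (y - α) / cl α β J := div_nonneg (by linarith [hy.1]) hc.le
  have hlt : ⌊(y - α) / cl α β J⌋₊ < J := by
    rw [Nat.floor_lt h0, div_lt_iff₀ hc, h2]
    linarith [hy.2]
  refine ⟨⟨⌊(y - α) / cl α β J⌋₊, hlt⟩, ?_, ?_⟩
  · unfold ca
    have := Nat.floor_le h0
    have h3 := mul_le_mul_of_nonneg_right this hc.le
    rw [div_mul_cancel₀ _ hc.ne'] at h3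
    simp only
    linarith
  · unfold ca
    have := Nat.lt_floor_add_one ((y - α) / cl α β J)
    have h3 := mul_lt_mul_of_pos_right this hc
    rw [div_mul_cancel₀ _ hc.ne'] at h3
    simp only
    linarith

lemma cell_subset (h : α < β) (hJ : 0 < J) (i : Fin J) :
    Ico (ca α β J i) (ca α β J i + cl α β J) ⊆ Ico α β := by
  intro y hy
  exact ⟨(le_ca h hJ i).trans hy.1, hy.2.trans_le (ca_add_le h hJ i)⟩

lemma iUnion_cells (h : α < β) (hJ : 0 < J) :
    ⋃ i : Fin J, Ico (ca α β J i) (ca α β J i + cl α β J) = Ico α β := by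
  apply subset_antisymm
  · exact iUnion_subset fun i => cell_subset h hJ i
  · intro y hy
    exact mem_iUnion.2 (exists_cell h hJ hy)

lemma sum_ind_mul (h : α < β) (hJ : 0 < J) (c : Fin J → ℝ) {i : Fin J} {y : ℝ}
    (hy : y ∈ Ico (ca α β J i) (ca α β J i + cl α β J)) :
    ∑ j, ind (ca α β J j) (ca α β J j + cl α β J) y * c j = c i := by
  rw [Finset.sum_eq_single i]
  · unfold ind; rw [indicator_of_mem hy, one_mul]
  · intro j _ hj
    have : y ∉ Ico (ca α β J j) (ca α β J j + cl α β J) := fun h' => hj (cell_unique h hJ h' hy)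
    unfold ind; rw [indicator_of_notMem this, zero_mul]
  · intro h'; exact absurd (Finset.mem_univ i) h'

lemma sum_ind_mul_off (h : α < β) (hJ : 0 < J) (c : Fin J → ℝ) {y : ℝ} (hy : y ∉ Ico α β) :
    ∑ j, ind (ca α β J j) (ca α β J j + cl α β J) y * c j = 0 := by
  apply Finset.sum_eq_zero
  intro j _
  have : y ∉ Ico (ca α β J j) (ca α β J j + cl α β J) := fun h' => hy (cell_subset h hJ j h')
  unfold ind; rw [indicator_of_notMem this, zero_mul]

lemma sum_setIntegral_cells (h : α < β) (hJ : 0 < J) {g : ℝ → ℝ} {ν : Measure ℝ}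
    (hg : IntegrableOn g (Ico α β) ν) :
    ∑ i : Fin J, ∫ y in Ico (ca α β J i) (ca α β J i + cl α β J), g y ∂ν = ∫ y in Ico α β, g y ∂ν := by
  rw [← iUnion_cells h hJ, integral_iUnion_fintype (fun i => measurableSet_Ico) (cell_disj h hJ)]
  intro i
  exact hg.mono_set (cell_subset h hJ i)

open Classical in
/-- bad cells: those containing a breakpoint in the interior -/
noncomputable def bad (α β : ℝ) (J : ℕ) (E : Finset ℝ) : Finset (Fin J) :=
  Finset.univ.filter fun i => ∃ e ∈ E, ca α β J i < e ∧ e < ca α β J i + cl α β J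

lemma card_bad_le (h : α < β) (hJ : 0 < J) (E : Finset ℝ) : (bad α β J E).card ≤ E.card := by
  classical
  have hex : ∀ i ∈ bad α β J E, ∃ e ∈ E, ca α β J i < e ∧ e < ca α β J i + cl α β J := by
    intro i hi
    unfold bad at hi
    simpa using hi
  choose! f hf1 hf2 using hex
  apply Finset.card_le_card_of_injOn f (fun i hi => hf1 i hi)
  intro i hi j hj hij
  have a1 := hf2 i hi
  have a2 := hf2 j hj
  rw [hij] at a1
  exact cell_unique h hJ ⟨a1.1.le, a1.2⟩ ⟨a2.1.le, a2.2⟩

lemma notMem_bad {E : Finset ℝ} {i : Fin J} (hi : i ∉ bad α β J E) :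
    ∀ e ∈ E, ¬ (ca α β J i < e ∧ e < ca α β J i + cl α β J) := by
  intro e he h
  apply hi
  unfold bad
  simp only [Finset.mem_filter, Finset.mem_univ, true_and]
  exact ⟨e, he, h⟩

lemma const_on_good {hf : ℝ → ℝ} {E : Finset ℝ}
    (hE : ∀ x y, x ≤ y → (∀ e ∈ E, ¬ (x < e ∧ e ≤ y)) → hf x = hf y) {i : Fin J}
    (hi : i ∉ bad α β J E) {y : ℝ} (hy : y ∈ Ico (ca α β J i) (ca α β J i + cl α β J)) :
    hf y = hf (ca α β J i) := by
  symm
  apply hE _ _ hy.1
  intro e he h
  exact notMem_bad hi e he ⟨h.1, h.2.trans_lt hy.2⟩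

end

/-- replacing a step function by cell constants costs little -/
theorem NN_cell_replace {α β : ℝ} (hαβ : α < β) {hf : ℝ → ℝ} (hs : IsStep hf) (B : ℝ) (hB0 : 0 ≤ B)
    (hB : ∀ y, |hf y| ≤ B) {ε : ℝ≥0∞} (hε : ε ≠ 0) (E : Finset ℝ) :
    ∃ J₀ : ℕ, ∀ J : ℕ, J₀ ≤ J → 0 < J → ∀ c : Fin J → ℝ, (∀ i, |c i| ≤ B) →
      (∀ i, i ∉ bad α β J E → ∀ y ∈ Ico (ca α β J i) (ca α β J i + cl α β J), hf y = c i) →
      NN (fun y => ∑ i, ind (ca α β J i) (ca α β J i + cl α β J) y * (c i - hf y)) ≤ ε := by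
  obtain ⟨V, hV0, hV⟩ := hs.prop.bv
  set ε' : ℝ≥0∞ := ε / (E.card + 1) with hε'
  have hε'0 : ε' ≠ 0 := by
    rw [hε']
    exact (ENNReal.div_pos hε (by exact_mod_cast ENNReal.natCast_ne_top (E.card + 1))).ne'
  obtain ⟨ℓ₀, hℓ₀, H⟩ := tiny (V := 2 * B + V) (B := 2 * B) (by positivity) hε'0
  obtain ⟨J₀, hJ₀⟩ := exists_nat_gt ((β - α) / ℓ₀)
  refine ⟨J₀, ?_⟩
  intro J hJJ hJ c hc hgood
  have hJpos : (0 : ℝ) < J := by exact_mod_cast hJ
  have hcl : cl α β J ≤ ℓ₀ := by
    unfold cl
    rw [div_le_iff₀ hJpos]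
    rw [div_lt_iff₀ hℓ₀] at hJ₀
    have : (J₀ : ℝ) ≤ J := by exact_mod_cast hJJ
    nlinarith
  have hmeas := hs.prop.meas
  have hterm : ∀ i, Measurable fun y => ind (ca α β J i) (ca α β J i + cl α β J) y * (c i - hf y) := by
    intro i
    exact (measurable_ind _ _).mul (measurable_const.sub hmeas)
  have hbd : ∀ i y, |ind (ca α β J i) (ca α β J i + cl α β J) y * (c i - hf y)| ≤ 2 * B := by
    intro i y
    rw [abs_mul]
    have h1 := abs_ind_le (ca α β J i) (ca α β J i + cl α β J) y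
    have h2 : |c i - hf y| ≤ 2 * B := (abs_sub _ _).trans (by linarith [hc i, hB y])
    calc _ ≤ 1 * (2 * B) := mul_le_mul h1 h2 (abs_nonneg _) (by norm_num)
      _ = 2 * B := one_mul _
  refine (NN_finset_sum_le Finset.univ _ fun i _ => integrable_mu_of_bdd (hterm i) (hbd i)).trans ?_
  have hone : ∀ i, NN (fun y => ind (ca α β J i) (ca α β J i + cl α β J) y * (c i - hf y)) ≤ ε' := by
    intro i
    apply H (ca α β J i) (ca α β J i + cl α β J) _ (by linarith) (hterm i) (hbd i)
    · intro y hy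
      unfold ind
      rw [indicator_of_notMem (fun h => hy ⟨h.1, h.2.le⟩), zero_mul]
    · have i1 : Integrable (fun y => c i * ind (ca α β J i) (ca α β J i + cl α β J) y) mu :=
        (integrable_ind _ _).const_mul _
      have i2 : Integrable (fun y => (-1) * (ind (ca α β J i) (ca α β J i + cl α β J) y * hf y)) mu := by
        apply Integrable.const_mul
        refine integrable_mu_of_bdd ((measurable_ind _ _).mul hmeas) (C := B) fun y => ?_
        rw [abs_mul]
        calc _ ≤ 1 * B := mul_le_mul (abs_ind_le _ _ y) (hB y) (abs_nonneg _) (by norm_num)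
          _ = B := one_mul _
      have h1 := ((BVle_ind (ca α β J i) (ca α β J i + cl α β J)).const_mul (c i)).add
        ((hV (ca α β J i) (ca α β J i + cl α β J)).const_mul (-1)) i1 i2
      have e : (fun y => ind (ca α β J i) (ca α β J i + cl α β J) y * (c i - hf y))
          = fun x => c i * ind (ca α β J i) (ca α β J i + cl α β J) x
            + -1 * (ind (ca α β J i) (ca α β J i + cl α β J) x * hf x) := by
        funext y; ring
      rw [e]
      apply h1.mono
      have := hc i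
      rw [abs_neg, abs_one]
      nlinarith
  have hzero : ∀ i, i ∉ bad α β J E →
      NN (fun y => ind (ca α β J i) (ca α β J i + cl α β J) y * (c i - hf y)) = 0 := by
    intro i hi
    have e : (fun y => ind (ca α β J i) (ca α β J i + cl α β J) y * (c i - hf y)) = fun _ => 0 := by
      funext y
      by_cases hy : y ∈ Ico (ca α β J i) (ca α β J i + cl α β J)
      · rw [hgood i hi y hy]; ring
      · unfold ind; rw [indicator_of_notMem hy, zero_mul]
    rw [e, NN_zero]
  calc ∑ i, NN (fun y => ind (ca α β J i) (ca α β J i + cl α β J) y * (c i - hf y))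
      = ∑ i ∈ bad α β J E, NN (fun y => ind (ca α β J i) (ca α β J i + cl α β J) y * (c i - hf y)) := by
        symm
        apply Finset.sum_subset (Finset.subset_univ _)
        intro i _ hi
        exact hzero i hi
    _ ≤ ∑ _i ∈ bad α β J E, ε' := Finset.sum_le_sum fun i _ => hone i
    _ = (bad α β J E).card * ε' := by rw [Finset.sum_const, nsmul_eq_mul]
    _ ≤ (E.card + 1) * ε' := by
        gcongr
        exact (by exact_mod_cast (card_bad_le hαβ hJ E) : ((bad α β J E).card : ℝ≥0∞) ≤ E.card).trans le_self_add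
    _ = ε := by
        rw [hε']
        apply ENNReal.mul_div_cancel
        · simp
        · exact_mod_cast ENNReal.natCast_ne_top (E.card + 1)

end Pool.Agent.MP_f3eb7e
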