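import Pool.Agent.Lib.MP_f3eb7e_an.NN

set_option autoImplicit false

open MeasureTheory Set Filter Topology
open scoped ENNReal

namespace Pool.Agent.MP_f3eb7e

/-- the pattern `ξ`, periodically shifted by `u`, placed on the cell `[a, a+ℓ)` -/
noncomputable def cf (a ℓ : ℝ) (ξ : ℝ → ℝ) (u y : ℝ) : ℝ :=
  (Ico a (a + ℓ)).indicator (fun y => ξ (Int.fract ((y - a) / ℓ + u))) y

lemma measurable_cf2 {a ℓ : ℝ} {ξ : ℝ → ℝ} (hξ : Measurable ξ) :
    Measurable (fun p : ℝ × ℝ => cf a ℓ ξ p.1 p.2) := by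
  have h1 : Measurable (fun p : ℝ × ℝ => ξ (Int.fract ((p.2 - a) / ℓ + p.1))) := by
    apply hξ.comp
    apply measurable_fract.comp
    fun_prop
  have h2 : MeasurableSet {p : ℝ × ℝ | p.2 ∈ Ico a (a + ℓ)} := measurableSet_Ico.preimage measurable_snd
  exact h1.indicator h2

lemma measurable_cf {a ℓ : ℝ} {ξ : ℝ → ℝ} (hξ : Measurable ξ) (u : ℝ) :
    Measurable (cf a ℓ ξ u) :=
  (measurable_cf2 hξ).comp (measurable_const.prodMk measurable_id)

lemma abs_cf_le {a ℓ : ℝ} {ξ : ℝ → ℝ} {C : ℝ} (hC : ∀ t, |ξ t| ≤ C) (u y : ℝ) :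
    |cf a ℓ ξ u y| ≤ C := by
  unfold cf indicator
  split_ifs
  · exact hC _
  · rw [abs_zero]; exact (abs_nonneg _).trans (hC 0)

lemma integrable_mu_of_bdd {f : ℝ → ℝ} (hf : Measurable f) {C : ℝ} (hC : ∀ x, |f x| ≤ C) :
    Integrable f mu :=
  Integrable.of_bound hf.aestronglyMeasurable C (Eventually.of_forall fun ω => by
    rw [Real.norm_eq_abs]; exact hC ω)

lemma integral_comp_fract (f : ℝ → ℝ) : ∫ s in (0 : ℝ)..1, f (Int.fract s) = ∫ s in (0 : ℝ)..1, f s := by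
  apply intervalIntegral.integral_congr_ae
  have h1 : ∀ᵐ x : ℝ, x ≠ 1 := by
    have : volume ({1} : Set ℝ) = 0 := by simp
    exact compl_mem_ae_iff.2 this
  filter_upwards [h1] with x hx hx2
  rw [uIoc_of_le (by norm_num)] at hx2
  rw [Int.fract_eq_self.2 ⟨hx2.1.le, lt_of_le_of_ne hx2.2 hx⟩]

lemma integral_shift_fract (f : ℝ → ℝ) (t : ℝ) :
    ∫ s in t..t + 1, f (Int.fract s) = ∫ s in (0 : ℝ)..1, f s := by
  have hper : Function.Periodic (fun s => f (Int.fract s)) 1 := by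
    intro x; simp only [Int.fract_add_one]
  rw [hper.intervalIntegral_add_eq t 0, zero_add, integral_comp_fract]

/-- averaging over the shift -/
lemma integral_fract_add (f : ℝ → ℝ) (t : ℝ) :
    ∫ u in (0 : ℝ)..1, f (Int.fract (t + u)) = ∫ s in (0 : ℝ)..1, f s := by
  have := intervalIntegral.integral_comp_add_left (fun s => f (Int.fract s)) t (a := 0) (b := 1)
  rw [this, add_zero, integral_shift_fract]

/-- averaging over the cell -/
lemma integral_cell_fract (f : ℝ → ℝ) {a ℓ : ℝ} (hℓ : 0 < ℓ) (u : ℝ) :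
    ∫ y in a..a + ℓ, f (Int.fract ((y - a) / ℓ + u)) = ℓ * ∫ s in (0 : ℝ)..1, f s := by
  have h := intervalIntegral.integral_comp_div_add (a := a) (b := a + ℓ)
    (fun s => f (Int.fract s)) hℓ.ne' (u - a / ℓ)
  have e : ∀ y, (y - a) / ℓ + u = y / ℓ + (u - a / ℓ) := by intro y; ring
  simp_rw [e]
  rw [h, smul_eq_mul]
  have e1 : a / ℓ + (u - a / ℓ) = u := by ring
  have e2 : (a + ℓ) / ℓ + (u - a / ℓ) = u + 1 := by field_simp; ring
  rw [e1, e2, integral_shift_fract]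

lemma integral_cf_mul {a ℓ : ℝ} (hℓ : 0 < ℓ) (ha : -1 ≤ a) (hb : a + ℓ ≤ 1) (ξ k : ℝ → ℝ) (u : ℝ) :
    ∫ y, cf a ℓ ξ u y * k y ∂mu = ∫ y in a..a + ℓ, ξ (Int.fract ((y - a) / ℓ + u)) * k y := by
  have e : ∀ y, cf a ℓ ξ u y * k y
      = (Ico a (a + ℓ)).indicator (fun y => ξ (Int.fract ((y - a) / ℓ + u)) * k y) y := by
    intro y
    unfold cf indicator
    split_ifs <;> simp
  simp_rw [e]
  unfold mu
  rw [setIntegral_indicator measurableSet_Ico, intervalIntegral.integral_of_le (by linarith)]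
  have : Icc (-1 : ℝ) 1 ∩ Ico a (a + ℓ) = Ico a (a + ℓ) := by
    apply inter_eq_right.2
    intro y hy
    exact ⟨by linarith [hy.1], by linarith [hy.2]⟩
  rw [this, integral_Ico_eq_integral_Ioc]

lemma integral_cf_sq {a ℓ : ℝ} (hℓ : 0 < ℓ) (ha : -1 ≤ a) (hb : a + ℓ ≤ 1) (ξ : ℝ → ℝ) (u : ℝ) :
    ∫ y, cf a ℓ ξ u y ^ 2 ∂mu = ℓ * ∫ s in (0 : ℝ)..1, ξ s ^ 2 := by
  have e : ∀ y, cf a ℓ ξ u y ^ 2 = cf a ℓ (fun s => ξ s ^ 2) u y * 1 := by
    intro y
    unfold cf indicator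
    split_ifs <;> simp
  simp_rw [e]
  rw [integral_cf_mul hℓ ha hb _ (fun _ => 1)]
  simp_rw [mul_one]
  exact integral_cell_fract (fun s => ξ s ^ 2) hℓ u

lemma integral_cf {a ℓ : ℝ} (hℓ : 0 < ℓ) (ha : -1 ≤ a) (hb : a + ℓ ≤ 1) (ξ : ℝ → ℝ) (u : ℝ) :
    ∫ y, cf a ℓ ξ u y ∂mu = ℓ * ∫ s in (0 : ℝ)..1, ξ s := by
  have h := integral_cf_mul hℓ ha hb ξ (fun _ => 1) u
  simp_rw [mul_one] at h
  rw [h]
  exact integral_cell_fract ξ hℓ u

lemma ii_bdd_mul {f k : ℝ → ℝ} (hf : Measurable f) {C : ℝ} (hC : ∀ t, |f t| ≤ C) (hk : Continuous k)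
    (c d : ℝ) : IntervalIntegrable (fun s => f s * k s) volume c d := by
  rw [intervalIntegrable_iff]
  have h : IntegrableOn k (uIoc c d) volume := intervalIntegrable_iff.1 (hk.intervalIntegrable c d)
  exact Integrable.bdd_mul h hf.aestronglyMeasurable
    (Eventually.of_forall fun s => by rw [Real.norm_eq_abs]; exact hC s)

/-- the variation-type property on subintervals of `[0,1]` -/
def RegP (ξ : ℝ → ℝ) (V : ℝ) : Prop :=
  ∀ k K : ℝ → ℝ, Continuous k → (∀ y, HasDerivAt K (k y) y) →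
    ∀ M c d : ℝ, 0 ≤ c → c ≤ d → d ≤ 1 → (∀ y ∈ Icc c d, |K y| ≤ M) →
      |∫ s in c..d, ξ s * k s| ≤ V * M

lemma RegP_const (c₀ : ℝ) : RegP (fun _ => c₀) (2 * |c₀|) := by
  intro k K hk hK M c d hc hcd hd hM
  rw [intervalIntegral.integral_const_mul,
    intervalIntegral.integral_eq_sub_of_hasDerivAt (fun y _ => hK y) (hk.intervalIntegrable _ _),
    abs_mul]
  have h1 := hM c ⟨le_refl _, hcd⟩
  have h2 := hM d ⟨hcd, le_refl _⟩
  have h3 : |K d - K c| ≤ 2 * M := (abs_sub _ _).trans (by linarith)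
  calc |c₀| * |K d - K c| ≤ |c₀| * (2 * M) := by gcongr
    _ = 2 * |c₀| * M := by ring

/-- Heaviside function -/
noncomputable def hv (P t : ℝ) : ℝ := if P ≤ t then 1 else 0

lemma measurable_hv (P : ℝ) : Measurable (hv P) :=
  Measurable.ite measurableSet_Ici measurable_const measurable_const

lemma hv_nonneg (P t : ℝ) : 0 ≤ hv P t := by unfold hv; split_ifs <;> norm_num
lemma hv_le_one (P t : ℝ) : hv P t ≤ 1 := by unfold hv; split_ifs <;> norm_num

lemma RegP_hv (P : ℝ) : RegP (hv P) 2 := by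
  intro k K hk hK M c d hc hcd hd hM
  have hM0 : 0 ≤ M := (abs_nonneg _).trans (hM c ⟨le_refl _, hcd⟩)
  have key : ∀ c' d', c ≤ c' → c' ≤ d' → d' ≤ d → |∫ s in c'..d', k s| ≤ 2 * M := by
    intro c' d' h1 h2 h3
    rw [intervalIntegral.integral_eq_sub_of_hasDerivAt (fun y _ => hK y) (hk.intervalIntegrable _ _)]
    have a1 := hM c' ⟨h1, h2.trans h3⟩
    have a2 := hM d' ⟨h1.trans h2, h3⟩
    exact (abs_sub _ _).trans (by linarith)
  have z : ∀ c' d', c' ≤ d' → d' ≤ P → ∫ s in c'..d', hv P s * k s = 0 := by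
    intro c' d' h1 h2
    have : ∫ s in c'..d', hv P s * k s = ∫ s in c'..d', (0 : ℝ) := by
      apply intervalIntegral.integral_congr_ae
      have h1' : ∀ᵐ x : ℝ, x ≠ d' := by
        have : volume ({d'} : Set ℝ) = 0 := by simp
        exact compl_mem_ae_iff.2 this
      filter_upwards [h1'] with x hx hx2
      rw [uIoc_of_le h1] at hx2
      have : ¬ P ≤ x := by
        have := lt_of_le_of_ne hx2.2 hx
        linarith
      simp [hv, this]
    rw [this]; simp
  have o : ∀ c' d', c' ≤ d' → P ≤ c' → ∫ s in c'..d', hv P s * k s = ∫ s in c'..d', k s := by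
    intro c' d' h1 h2
    apply intervalIntegral.integral_congr
    intro x hx
    rw [uIcc_of_le h1] at hx
    have : P ≤ x := by linarith [hx.1]
    simp [hv, this]
  rcases le_total P c with h | h
  · rw [o c d hcd h]; exact key c d (le_refl _) hcd (le_refl _)
  · rcases le_total d P with h' | h'
    · rw [z c d hcd h', abs_zero]; positivity
    · have hi : ∀ c' d', IntervalIntegrable (fun s => hv P s * k s) volume c' d' := by
        intro c' d'
        refine ii_bdd_mul (measurable_hv P) (C := 1) (fun s => ?_) hk c' d'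
        rw [abs_of_nonneg (hv_nonneg _ _)]
        exact hv_le_one _ _
      rw [← intervalIntegral.integral_add_adjacent_intervals (hi c P) (hi P d), z c P h (le_refl _),
        o P d h' (le_refl _), zero_add]
      exact key P d h h' (le_refl _)

lemma RegP.add {ξ η : ℝ → ℝ} {V W : ℝ} (h1 : RegP ξ V) (h2 : RegP η W)
    (m1 : Measurable ξ) (m2 : Measurable η) {C : ℝ} (b1 : ∀ t, |ξ t| ≤ C) (b2 : ∀ t, |η t| ≤ C) :
    RegP (fun t => ξ t + η t) (V + W) := by
  intro k K hk hK M c d hc hcd hd hM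
  have i1 : IntervalIntegrable (fun s => ξ s * k s) volume c d := ii_bdd_mul m1 b1 hk c d
  have i2 : IntervalIntegrable (fun s => η s * k s) volume c d := ii_bdd_mul m2 b2 hk c d
  have e : ∀ s, (ξ s + η s) * k s = ξ s * k s + η s * k s := by intro s; ring
  simp_rw [e]
  rw [intervalIntegral.integral_add i1 i2]
  have a1 := h1 k K hk hK M c d hc hcd hd hM
  have a2 := h2 k K hk hK M c d hc hcd hd hM
  calc _ ≤ |∫ s in c..d, ξ s * k s| + |∫ s in c..d, η s * k s| := abs_add_le _ _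
    _ ≤ V * M + W * M := add_le_add a1 a2
    _ = (V + W) * M := by ring

lemma RegP.const_mul {ξ : ℝ → ℝ} {V : ℝ} (h1 : RegP ξ V) (c₀ : ℝ) :
    RegP (fun t => c₀ * ξ t) (|c₀| * V) := by
  intro k K hk hK M c d hc hcd hd hM
  have e : ∀ s, (c₀ * ξ s) * k s = c₀ * (ξ s * k s) := by intro s; ring
  simp_rw [e]
  rw [intervalIntegral.integral_const_mul, abs_mul, mul_assoc]
  exact mul_le_mul_of_nonneg_left (h1 k K hk hK M c d hc hcd hd hM) (abs_nonneg _)

/-- cell version -/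
lemma RegP.cell {ξ : ℝ → ℝ} {V : ℝ} (h1 : RegP ξ V) (m1 : Measurable ξ) {C : ℝ} (b1 : ∀ t, |ξ t| ≤ C)
    {a ℓ : ℝ} (hℓ : 0 < ℓ) (u : ℝ) {k K : ℝ → ℝ} (hk : Continuous k) (hK : ∀ y, HasDerivAt K (k y) y)
    {M : ℝ} (hM : ∀ y ∈ Icc a (a + ℓ), |K y| ≤ M) :
    |∫ y in a..a + ℓ, ξ (Int.fract ((y - a) / ℓ + u)) * k y| ≤ 2 * V * M := by
  set v := Int.fract u with hv
  have hv0 : 0 ≤ v := Int.fract_nonneg u
  have hv1 : v < 1 := Int.fract_lt_one u
  set b := a + ℓ * (1 - v) with hb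
  have hab : a ≤ b := by rw [hb]; nlinarith
  have hbe : b ≤ a + ℓ := by rw [hb]; nlinarith
  have hfr : ∀ y, Int.fract ((y - a) / ℓ + u) = Int.fract ((y - a) / ℓ + v) := by
    intro y
    rw [hv, Int.fract, Int.fract, Int.fract]
    have : (y - a) / ℓ + (u - (⌊u⌋ : ℝ)) = ((y - a) / ℓ + u) - (⌊u⌋ : ℝ) := by ring
    rw [this, Int.floor_sub_intCast]
    push_cast
    ring
  have hfm : Measurable fun y => ξ (Int.fract ((y - a) / ℓ + u)) := by
    apply m1.comp
    apply measurable_fract.comp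
    fun_prop
  have hi : ∀ c' d', IntervalIntegrable (fun y => ξ (Int.fract ((y - a) / ℓ + u)) * k y) volume c' d' := by
    intro c' d'
    exact ii_bdd_mul hfm (fun s => b1 _) hk c' d'
  -- first part
  have p1 : |∫ y in a..b, ξ (Int.fract ((y - a) / ℓ + u)) * k y| ≤ V * M := by
    have e1 : ∫ y in a..b, ξ (Int.fract ((y - a) / ℓ + u)) * k y
        = ∫ y in a..b, ξ ((y - a) / ℓ + v) * k y := by
      apply intervalIntegral.integral_congr_ae
      have h1' : ∀ᵐ x : ℝ, x ≠ b := by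
        have : volume ({b} : Set ℝ) = 0 := by simp
        exact compl_mem_ae_iff.2 this
      filter_upwards [h1'] with x hx hx2
      rw [uIoc_of_le hab] at hx2
      have hxb : x < b := lt_of_le_of_ne hx2.2 hx
      rw [hfr, Int.fract_eq_self.2]
      constructor
      · have : 0 ≤ (x - a) / ℓ := div_nonneg (by linarith [hx2.1]) hℓ.le
        linarith
      · have : (x - a) / ℓ < 1 - v := by
          rw [div_lt_iff₀ hℓ]; rw [hb] at hxb; linarith
        linarith
    have e2 : ∫ y in a..b, ξ ((y - a) / ℓ + v) * k y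
        = ∫ s in v..1, ξ s * (ℓ * k (ℓ * s + (a - ℓ * v))) := by
      have h := intervalIntegral.integral_comp_mul_add (a := v) (b := 1)
        (fun y => ξ ((y - a) / ℓ + v) * k y) hℓ.ne' (a - ℓ * v)
      have e3 : ℓ * v + (a - ℓ * v) = a := by ring
      have e4 : ℓ * 1 + (a - ℓ * v) = b := by rw [hb]; ring
      rw [e3, e4] at h
      have e5 : ∀ s, (ℓ * s + (a - ℓ * v) - a) / ℓ + v = s := by intro s; field_simp; ring
      simp_rw [e5] at h
      have e6 : ∀ s, ξ s * (ℓ * k (ℓ * s + (a - ℓ * v))) = ℓ * (ξ s * k (ℓ * s + (a - ℓ * v))) := by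
        intro s; ring
      simp_rw [e6]
      rw [intervalIntegral.integral_const_mul, h, smul_eq_mul, ← mul_assoc, mul_inv_cancel₀ hℓ.ne', one_mul]
    rw [e1, e2]
    apply h1 (fun s => ℓ * k (ℓ * s + (a - ℓ * v))) (fun s => K (ℓ * s + (a - ℓ * v))) (by fun_prop)
    · intro y
      have h0 : HasDerivAt (fun s : ℝ => ℓ * s + (a - ℓ * v)) ℓ y := by
        simpa using ((hasDerivAt_id' y).const_mul ℓ).add_const (a - ℓ * v)
      have h2 := (hK (ℓ * y + (a - ℓ * v))).scomp y h0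
      exact h2.congr_deriv (by simp)
    · exact hv0
    · exact hv1.le
    · exact le_refl _
    · intro s hs
      apply hM
      constructor
      · nlinarith [hs.1]
      · nlinarith [hs.2]
  have p2 : |∫ y in b..a + ℓ, ξ (Int.fract ((y - a) / ℓ + u)) * k y| ≤ V * M := by
    have e1 : ∫ y in b..a + ℓ, ξ (Int.fract ((y - a) / ℓ + u)) * k y
        = ∫ y in b..a + ℓ, ξ ((y - a) / ℓ + v - 1) * k y := by
      apply intervalIntegral.integral_congr_ae
      have h1' : ∀ᵐ x : ℝ, x ≠ a + ℓ := by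
        have : volume ({a + ℓ} : Set ℝ) = 0 := by simp
        exact compl_mem_ae_iff.2 this
      filter_upwards [h1'] with x hx hx2
      rw [uIoc_of_le hbe] at hx2
      have hxb : x < a + ℓ := lt_of_le_of_ne hx2.2 hx
      have g1 : 1 - v < (x - a) / ℓ := by
        rw [lt_div_iff₀ hℓ]; have := hx2.1; rw [hb] at this; linarith
      have g2 : (x - a) / ℓ < 1 := by
        rw [div_lt_one hℓ]; linarith
      rw [hfr, ← Int.fract_sub_one, Int.fract_eq_self.2 ⟨by linarith, by linarith⟩]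
    have e2 : ∫ y in b..a + ℓ, ξ ((y - a) / ℓ + v - 1) * k y
        = ∫ s in (0 : ℝ)..v, ξ s * (ℓ * k (ℓ * s + (a + ℓ - ℓ * v))) := by
      have h := intervalIntegral.integral_comp_mul_add (a := 0) (b := v)
        (fun y => ξ ((y - a) / ℓ + v - 1) * k y) hℓ.ne' (a + ℓ - ℓ * v)
      have e3 : ℓ * 0 + (a + ℓ - ℓ * v) = b := by rw [hb]; ring
      have e4 : ℓ * v + (a + ℓ - ℓ * v) = a + ℓ := by ring
      rw [e3, e4] at h
      have e5 : ∀ s, (ℓ * s + (a + ℓ - ℓ * v) - a) / ℓ + v - 1 = s := by intro s; field_simp; ring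
      simp_rw [e5] at h
      have e6 : ∀ s, ξ s * (ℓ * k (ℓ * s + (a + ℓ - ℓ * v))) = ℓ * (ξ s * k (ℓ * s + (a + ℓ - ℓ * v))) := by
        intro s; ring
      simp_rw [e6]
      rw [intervalIntegral.integral_const_mul, h, smul_eq_mul, ← mul_assoc, mul_inv_cancel₀ hℓ.ne', one_mul]
    rw [e1, e2]
    apply h1 (fun s => ℓ * k (ℓ * s + (a + ℓ - ℓ * v))) (fun s => K (ℓ * s + (a + ℓ - ℓ * v))) (by fun_prop)
    · intro y
      have h0 : HasDerivAt (fun s : ℝ => ℓ * s + (a + ℓ - ℓ * v)) ℓ y := by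
        simpa using ((hasDerivAt_id' y).const_mul ℓ).add_const (a + ℓ - ℓ * v)
      have h2 := (hK (ℓ * y + (a + ℓ - ℓ * v))).scomp y h0
      exact h2.congr_deriv (by simp)
    · exact le_refl _
    · exact hv0
    · exact hv1.le
    · intro s hs
      apply hM
      constructor
      · nlinarith [hs.1]
      · nlinarith [hs.2]
  rw [← intervalIntegral.integral_add_adjacent_intervals (hi a b) (hi b (a + ℓ))]
  calc _ ≤ |∫ y in a..b, ξ (Int.fract ((y - a) / ℓ + u)) * k y|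
        + |∫ y in b..a + ℓ, ξ (Int.fract ((y - a) / ℓ + u)) * k y| := abs_add_le _ _
    _ ≤ V * M + V * M := add_le_add p1 p2
    _ = 2 * V * M := by ring

end Pool.Agent.MP_f3eb7e
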