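import Mathlib

set_option autoImplicit false

open MeasureTheory Set Filter Topology ProbabilityTheory
open scoped ENNReal

namespace Pool.Agent.MP_f3eb7e

/-! ### fourth moments of independent sums -/

section Moment

variable {Ω ι : Type*} [MeasurableSpace Ω] {P : Measure Ω} [IsProbabilityMeasure P]

lemma integrable_of_bdd' {f : Ω → ℝ} (hf : Measurable f) {C : ℝ} (hC : ∀ ω, |f ω| ≤ C) :
    Integrable f P :=
  Integrable.of_bound hf.aestronglyMeasurable C (Eventually.of_forall fun ω => by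
    rw [Real.norm_eq_abs]; exact hC ω)

lemma moment_aux [DecidableEq ι] (X : ι → Ω → ℝ) (hX : ∀ i, Measurable (X i)) (d : ι → ℝ)
    (hd : ∀ i ω, |X i ω| ≤ d i) (hind : iIndepFun X P) (h0 : ∀ i, ∫ ω, X i ω ∂P = 0)
    (s : Finset ι) :
    (∫ ω, (∑ i ∈ s, X i ω) ∂P = 0) ∧
    (∫ ω, (∑ i ∈ s, X i ω) ^ 2 ∂P = ∑ i ∈ s, ∫ ω, X i ω ^ 2 ∂P) ∧
    (∫ ω, (∑ i ∈ s, X i ω) ^ 4 ∂P ≤ 3 * (∑ i ∈ s, ∫ ω, X i ω ^ 2 ∂P) ^ 2
      + ∑ i ∈ s, ∫ ω, X i ω ^ 4 ∂P) := by
  induction s using Finset.induction_on with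
  | empty => simp
  | insert a s ha ih =>
    obtain ⟨ih1, ih2, ih4⟩ := ih
    set T : Ω → ℝ := fun ω => ∑ i ∈ s, X i ω with hT
    have hTm : Measurable T := by
      apply Finset.measurable_sum
      intro i _; exact hX i
    have hTb : ∀ ω, |T ω| ≤ ∑ i ∈ s, d i := by
      intro ω
      exact (Finset.abs_sum_le_sum_abs _ _).trans (Finset.sum_le_sum fun i _ => hd i ω)
    have hI : IndepFun T (X a) P := by
      have := hind.indepFun_finsetSum_of_notMem hX ha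
      have e : (∑ j ∈ s, X j) = T := by
        funext ω; simp [hT, Finset.sum_apply]
      rwa [e] at this
    have hprod : ∀ p q : ℕ, ∫ ω, T ω ^ p * X a ω ^ q ∂P = (∫ ω, T ω ^ p ∂P) * ∫ ω, X a ω ^ q ∂P := by
      intro p q
      have h := hI.comp (φ := fun t => t ^ p) (ψ := fun t => t ^ q) (by fun_prop) (by fun_prop)
      exact h.integral_fun_mul_eq_mul_integral ((hTm.pow_const p).aestronglyMeasurable)
        (((hX a).pow_const q).aestronglyMeasurable)
    have hint : ∀ p q : ℕ, Integrable (fun ω => T ω ^ p * X a ω ^ q) P := by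
      intro p q
      refine integrable_of_bdd' ((hTm.pow_const p).mul ((hX a).pow_const q))
        (C := (∑ i ∈ s, d i) ^ p * (d a) ^ q) ?_
      intro ω
      rw [abs_mul, abs_pow, abs_pow]
      have h1 := hTb ω
      have h2 := hd a ω
      have h3 : 0 ≤ ∑ i ∈ s, d i := (abs_nonneg _).trans h1
      gcongr
    have hA0 : ∫ ω, X a ω ∂P = 0 := h0 a
    have e1 : ∀ ω, ∑ i ∈ insert a s, X i ω = X a ω + T ω := by
      intro ω; rw [Finset.sum_insert ha]
    have iT : Integrable T P := by simpa using hint 1 0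
    have iX : Integrable (X a) P := by simpa using hint 0 1
    refine ⟨?_, ?_, ?_⟩
    · simp_rw [e1]
      rw [integral_add iX iT, hA0, ih1]; ring
    · simp_rw [e1]
      have e2 : ∀ ω, (X a ω + T ω) ^ 2 = T ω ^ 2 * X a ω ^ 0 + 2 * (T ω ^ 1 * X a ω ^ 1)
          + T ω ^ 0 * X a ω ^ 2 := by intro ω; ring
      simp_rw [e2]
      rw [integral_add, integral_add, integral_const_mul, hprod 1 1, hprod 2 0,
        hprod 0 2, Finset.sum_insert ha]
      · simp only [pow_zero, pow_one, integral_const, probReal_univ, smul_eq_mul, mul_one, one_mul]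
        rw [hA0, ih2]; ring
      · exact hint 2 0
      · exact (hint 1 1).const_mul 2
      · exact (hint 2 0).add ((hint 1 1).const_mul 2)
      · exact hint 0 2
    · simp_rw [e1]
      have e4 : ∀ ω, (X a ω + T ω) ^ 4 = T ω ^ 4 * X a ω ^ 0 + 4 * (T ω ^ 3 * X a ω ^ 1)
          + 6 * (T ω ^ 2 * X a ω ^ 2) + 4 * (T ω ^ 1 * X a ω ^ 3) + T ω ^ 0 * X a ω ^ 4 := by
        intro ω; ring
      simp_rw [e4]
      rw [integral_add, integral_add, integral_add, integral_add, integral_const_mul,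
        integral_const_mul, integral_const_mul, hprod, hprod, hprod, hprod, hprod,
        Finset.sum_insert ha, Finset.sum_insert ha]
      · simp only [pow_zero, pow_one, integral_const, probReal_univ, smul_eq_mul, mul_one, one_mul]
        rw [hA0, ih2, ih1]
        have hn : 0 ≤ ∫ ω, X a ω ^ 2 ∂P := integral_nonneg fun ω => by positivity
        nlinarith [sq_nonneg (∫ ω, X a ω ^ 2 ∂P)]
      · exact hint 4 0
      · exact (hint 3 1).const_mul 4
      · exact (hint 4 0).add ((hint 3 1).const_mul 4)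
      · exact (hint 2 2).const_mul 6
      · exact ((hint 4 0).add ((hint 3 1).const_mul 4)).add ((hint 2 2).const_mul 6)
      · exact (hint 1 3).const_mul 4
      · exact (((hint 4 0).add ((hint 3 1).const_mul 4)).add ((hint 2 2).const_mul 6)).add
          ((hint 1 3).const_mul 4)
      · exact hint 0 4

/-- fourth moment inequality -/
lemma four_moment [Fintype ι] (X : ι → Ω → ℝ) (hX : ∀ i, Measurable (X i)) (d : ι → ℝ)
    (hd : ∀ i ω, |X i ω| ≤ d i) (hind : iIndepFun X P) (h0 : ∀ i, ∫ ω, X i ω ∂P = 0) {B : ℝ}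
    (hB : ∑ i, d i ^ 2 ≤ B) :
    ∫ ω, (∑ i, X i ω) ^ 4 ∂P ≤ 4 * B * ∑ i, ∫ ω, X i ω ^ 2 ∂P := by
  classical
  have h := (moment_aux X hX d hd hind h0 Finset.univ).2.2
  have hd0 : ∀ i, 0 ≤ d i := by
    intro i
    have : Nonempty Ω := nonempty_of_isProbabilityMeasure P
    obtain ⟨ω⟩ := this
    exact (abs_nonneg _).trans (hd i ω)
  have hsq : ∀ i ω, X i ω ^ 2 ≤ d i ^ 2 := by
    intro i ω
    rw [← sq_abs]
    have := hd i ω
    gcongr
  have hint : ∀ i (p : ℕ), Integrable (fun ω => X i ω ^ p) P := by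
    intro i p
    refine integrable_of_bdd' ((hX i).pow_const p) (C := d i ^ p) ?_
    intro ω
    rw [abs_pow]
    have := hd i ω
    gcongr
  have h2 : ∀ i, ∫ ω, X i ω ^ 2 ∂P ≤ d i ^ 2 := by
    intro i
    calc ∫ ω, X i ω ^ 2 ∂P ≤ ∫ _ω, d i ^ 2 ∂P :=
          integral_mono (hint i 2) (integrable_const _) (hsq i)
      _ = d i ^ 2 := by simp
  have h4 : ∀ i, ∫ ω, X i ω ^ 4 ∂P ≤ d i ^ 2 * ∫ ω, X i ω ^ 2 ∂P := by
    intro i
    rw [← integral_const_mul]
    apply integral_mono (hint i 4) ((hint i 2).const_mul _)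
    intro ω
    have := hsq i ω
    have h' : 0 ≤ X i ω ^ 2 := sq_nonneg _
    have e : X i ω ^ 4 = X i ω ^ 2 * X i ω ^ 2 := by ring
    simp only
    rw [e]
    gcongr
  set S := ∑ i, ∫ ω, X i ω ^ 2 ∂P with hS
  have hS0 : 0 ≤ S := Finset.sum_nonneg fun i _ => integral_nonneg fun ω => by positivity
  have hSB : S ≤ B := (Finset.sum_le_sum fun i _ => h2 i).trans hB
  have hdB : ∀ i, d i ^ 2 ≤ B := fun i =>
    (Finset.single_le_sum (f := fun i => d i ^ 2) (fun i _ => sq_nonneg _) (Finset.mem_univ i)).trans hB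
  have h4s : ∑ i, ∫ ω, X i ω ^ 4 ∂P ≤ B * S := by
    rw [hS, Finset.mul_sum]
    apply Finset.sum_le_sum
    intro i _
    refine (h4 i).trans ?_
    have : 0 ≤ ∫ ω, X i ω ^ 2 ∂P := integral_nonneg fun ω => by positivity
    have := hdB i
    gcongr
  nlinarith [h, hSB, hS0]

end Moment

/-! ### chaining -/

section Chaining

variable {Ω : Type*}

lemma pow_four_ineq (a b : ℝ≥0∞) : 125 * (a + b) ^ 4 ≤ 27000 * a ^ 4 + 216 * b ^ 4 := by
  by_cases ha : a = ∞
  · subst ha; simp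
  by_cases hb : b = ∞
  · subst hb; simp
  lift a to NNReal using ha
  lift b to NNReal using hb
  norm_cast
  rw [← NNReal.coe_le_coe]
  push_cast
  have hpos : (0 : ℝ) ≤ ((b : ℝ) - 5 * a) ^ 2 * (91 * (b : ℝ) ^ 2 + 410 * a * b + 1075 * (a : ℝ) ^ 2) := by
    positivity
  nlinarith [hpos]

/-- dyadic block maximum -/
noncomputable def blockMax (Y : ℕ → Ω → ℝ) (r m : ℕ) (ω : Ω) : ℝ≥0∞ :=
  ⨆ j : ℕ, ⨆ _ : j ≤ 2 ^ r, ‖Y (m + j) ω - Y m ω‖ₑ

lemma measurable_blockMax [MeasurableSpace Ω] {Y : ℕ → Ω → ℝ} (hY : ∀ n, Measurable (Y n)) (r m : ℕ) :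
    Measurable (blockMax Y r m) := by
  unfold blockMax
  refine Measurable.iSup fun j => Measurable.iSup fun _ => ?_
  exact ((hY (m + j)).sub (hY m)).enorm

lemma le_blockMax (Y : ℕ → Ω → ℝ) (r m j : ℕ) (hj : j ≤ 2 ^ r) (ω : Ω) :
    ‖Y (m + j) ω - Y m ω‖ₑ ≤ blockMax Y r m ω :=
  le_iSup₂ (f := fun (j : ℕ) (_ : j ≤ 2 ^ r) => ‖Y (m + j) ω - Y m ω‖ₑ) j hj

lemma blockMax_succ_le (Y : ℕ → Ω → ℝ) (r m : ℕ) (ω : Ω) :
    blockMax Y (r + 1) m ω ≤ ‖Y (m + 2 ^ r) ω - Y m ω‖ₑ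
      + max (blockMax Y r m ω) (blockMax Y r (m + 2 ^ r) ω) := by
  unfold blockMax
  apply iSup₂_le
  intro j hj
  rcases le_total j (2 ^ r) with h | h
  · refine (le_blockMax Y r m j h ω).trans ?_
    exact le_add_left (le_max_left _ _)
  · obtain ⟨i, rfl⟩ := Nat.exists_eq_add_of_le h
    have hi : i ≤ 2 ^ r := by
      rw [pow_succ] at hj; omega
    have h1 := le_blockMax Y r (m + 2 ^ r) i hi ω
    calc ‖Y (m + (2 ^ r + i)) ω - Y m ω‖ₑ
        = ‖(Y (m + 2 ^ r) ω - Y m ω) + (Y (m + 2 ^ r + i) ω - Y (m + 2 ^ r) ω)‖ₑ := by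
          congr 1; rw [add_assoc]; ring
      _ ≤ ‖Y (m + 2 ^ r) ω - Y m ω‖ₑ + ‖Y (m + 2 ^ r + i) ω - Y (m + 2 ^ r) ω‖ₑ := enorm_add_le _ _
      _ ≤ _ := by
        gcongr
        exact h1.trans (le_max_right _ _)

lemma lintegral_blockMax_le [MeasurableSpace Ω] {P : Measure Ω} {Y : ℕ → Ω → ℝ} (hY : ∀ n, Measurable (Y n)) {A : ℝ≥0∞} {a b : ℕ}
    (hA : ∀ m n, a ≤ m → m ≤ n → n ≤ b →
      ∫⁻ ω, ‖Y n ω - Y m ω‖ₑ ^ 4 ∂P ≤ A * ((n - m : ℕ) : ℝ≥0∞) ^ 2) (r : ℕ) :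
    ∀ m, a ≤ m → m + 2 ^ r ≤ b → ∫⁻ ω, blockMax Y r m ω ^ 4 ∂P ≤ 400 * 4 ^ r * A := by
  induction r with
  | zero =>
    intro m hm hb
    have h := hA m (m + 1) hm (by omega) (by simpa using hb)
    have e : ∀ ω, blockMax Y 0 m ω = ‖Y (m + 1) ω - Y m ω‖ₑ := by
      intro ω
      apply le_antisymm
      · unfold blockMax
        apply iSup₂_le
        intro j hj
        have hj' : j = 0 ∨ j = 1 := by
          have : j ≤ 1 := by simpa using hj
          omega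
        rcases hj' with rfl | rfl
        · simp
        · exact le_refl _
      · exact le_blockMax Y 0 m 1 (by norm_num) ω
    simp_rw [e]
    refine h.trans ?_
    simp only [add_tsub_cancel_left, Nat.cast_one, one_pow, mul_one, pow_zero]
    calc A = 1 * A := (one_mul A).symm
      _ ≤ 400 * A := by gcongr; norm_num
  | succ r ih =>
    intro m hm hb
    have hpow : 0 < 2 ^ r := by positivity
    have hb' : m + 2 ^ r + 2 ^ r ≤ b := by rw [pow_succ] at hb; omega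
    have h1 := ih m hm (by omega)
    have h2 := ih (m + 2 ^ r) (by omega) hb'
    have h3 := hA m (m + 2 ^ r) hm (by omega) (by omega)
    have e3 : (m + 2 ^ r - m : ℕ) = 2 ^ r := by omega
    rw [e3] at h3
    have e4 : (((2 ^ r : ℕ) : ℝ≥0∞)) ^ 2 = 4 ^ r := by
      push_cast
      rw [← pow_mul, mul_comm, pow_mul]
      norm_num
    rw [e4] at h3
    have hpt : ∀ ω, 125 * blockMax Y (r + 1) m ω ^ 4 ≤ 27000 * ‖Y (m + 2 ^ r) ω - Y m ω‖ₑ ^ 4
        + 216 * (blockMax Y r m ω ^ 4 + blockMax Y r (m + 2 ^ r) ω ^ 4) := by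
      intro ω
      have hb1 := blockMax_succ_le Y r m ω
      calc 125 * blockMax Y (r + 1) m ω ^ 4
          ≤ 125 * (‖Y (m + 2 ^ r) ω - Y m ω‖ₑ
            + max (blockMax Y r m ω) (blockMax Y r (m + 2 ^ r) ω)) ^ 4 := by gcongr
        _ ≤ 27000 * ‖Y (m + 2 ^ r) ω - Y m ω‖ₑ ^ 4
            + 216 * (max (blockMax Y r m ω) (blockMax Y r (m + 2 ^ r) ω)) ^ 4 := pow_four_ineq _ _
        _ ≤ _ := by
          gcongr
          rcases le_total (blockMax Y r m ω) (blockMax Y r (m + 2 ^ r) ω) with h | h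
          · rw [max_eq_right h]; exact le_add_self
          · rw [max_eq_left h]; exact le_self_add
    have hint := lintegral_mono (μ := P) hpt
    have mY : Measurable fun ω => ‖Y (m + 2 ^ r) ω - Y m ω‖ₑ ^ 4 :=
      (((hY (m + 2 ^ r)).sub (hY m)).enorm).pow_const 4
    have m1 := (measurable_blockMax hY r m).pow_const 4
    have m2 := (measurable_blockMax hY r (m + 2 ^ r)).pow_const 4
    have m12 : Measurable fun ω => blockMax Y r m ω ^ 4 + blockMax Y r (m + 2 ^ r) ω ^ 4 := m1.add m2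
    have m0 := (measurable_blockMax hY (r + 1) m).pow_const 4
    rw [lintegral_const_mul _ m0, lintegral_add_left (mY.const_mul _), lintegral_const_mul _ mY,
      lintegral_const_mul _ m12, lintegral_add_left m1] at hint
    have hfin : 125 * ∫⁻ ω, blockMax Y (r + 1) m ω ^ 4 ∂P ≤ 125 * (400 * 4 ^ (r + 1) * A) := by
      refine hint.trans ?_
      calc 27000 * ∫⁻ ω, ‖Y (m + 2 ^ r) ω - Y m ω‖ₑ ^ 4 ∂P
          + 216 * (∫⁻ ω, blockMax Y r m ω ^ 4 ∂P + ∫⁻ ω, blockMax Y r (m + 2 ^ r) ω ^ 4 ∂P)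
          ≤ 27000 * (A * 4 ^ r) + 216 * (400 * 4 ^ r * A + 400 * 4 ^ r * A) := by gcongr
        _ = 199800 * (4 ^ r * A) := by ring
        _ ≤ 200000 * (4 ^ r * A) := by gcongr; norm_num
        _ = 125 * (400 * 4 ^ (r + 1) * A) := by ring
    exact (ENNReal.mul_le_mul_iff_right (by norm_num) (by norm_num)).1 hfin

/-- control of all partial sums by block maxima -/
lemma enorm_le_blocks (Y : ℕ → Ω → ℝ) (h0 : ∀ ω, Y 0 ω = 0) (r₀ : ℕ) (ω : Ω) (s : ℕ) :
    ∀ n, n ≤ 2 ^ (r₀ + s) → ‖Y n ω‖ₑ ≤ blockMax Y r₀ 0 ω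
      + ∑ r ∈ Finset.range s, blockMax Y (r₀ + r) (2 ^ (r₀ + r)) ω := by
  induction s with
  | zero =>
    intro n hn
    have h := le_blockMax Y r₀ 0 n (by simpa using hn) ω
    rw [zero_add, h0, sub_zero] at h
    simpa using h
  | succ s ih =>
    intro n hn
    rcases le_total n (2 ^ (r₀ + s)) with h | h
    · refine (ih n h).trans ?_
      gcongr
      exact Nat.le_succ s
    · obtain ⟨j, rfl⟩ := Nat.exists_eq_add_of_le h
      have hj : j ≤ 2 ^ (r₀ + s) := by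
        rw [← add_assoc, pow_succ] at hn; omega
      have h1 := le_blockMax Y (r₀ + s) (2 ^ (r₀ + s)) j hj ω
      have h2 := ih (2 ^ (r₀ + s)) (le_refl _)
      rw [Finset.sum_range_succ, ← add_assoc]
      calc ‖Y (2 ^ (r₀ + s) + j) ω‖ₑ
          = ‖Y (2 ^ (r₀ + s)) ω + (Y (2 ^ (r₀ + s) + j) ω - Y (2 ^ (r₀ + s)) ω)‖ₑ := by
            congr 1; ring
        _ ≤ ‖Y (2 ^ (r₀ + s)) ω‖ₑ + ‖Y (2 ^ (r₀ + s) + j) ω - Y (2 ^ (r₀ + s)) ω‖ₑ := enorm_add_le _ _
        _ ≤ _ := add_le_add h2 h1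

lemma iSup_enorm_le_blocks (Y : ℕ → Ω → ℝ) (h0 : ∀ ω, Y 0 ω = 0) (r₀ : ℕ) (ω : Ω) :
    ⨆ n, ‖Y n ω‖ₑ ≤ blockMax Y r₀ 0 ω + ∑' r, blockMax Y (r₀ + r) (2 ^ (r₀ + r)) ω := by
  apply iSup_le
  intro n
  have hn : n ≤ 2 ^ (r₀ + n) :=
    (Nat.lt_two_pow_self (n := n)).le.trans (Nat.pow_le_pow_right (by norm_num) (by omega))
  refine (enorm_le_blocks Y h0 r₀ ω n n hn).trans ?_
  gcongr
  exact ENNReal.sum_le_tsum _

end Chaining

end Pool.Agent.MP_f3eb7e
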