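import Pool.Agent.Lib.MP_f3eb7e_an.Disc

set_option autoImplicit false

open MeasureTheory Set Filter Topology
open scoped ENNReal

namespace Pool.Agent.MP_f3eb7e

/-! ### isomorphisms which are the identity off a set -/

lemma MIso.mem_iff_of_id_off {Q : Set ℝ} (ω : MIso mu mu)
    (h : ∀ᵐ x ∂mu, x ∉ Q → ω.f x = x) : ∀ᵐ x ∂mu, (ω.f x ∈ Q ↔ x ∈ Q) := by
  have h1 := ω.mf.quasiMeasurePreserving.ae h
  have h2 := ω.mf.quasiMeasurePreserving.ae ω.gf
  filter_upwards [h, h1, h2, ω.gf] with x a1 a2 a3 a4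
  constructor
  · intro hx
    by_contra hn
    rw [a1 hn] at hx
    exact hn hx
  · intro hx
    by_contra hn
    have h3 := a2 hn
    rw [h3, a4] at a3
    rw [← a3] at hn
    exact hn hx

lemma restrict_mu {α β : ℝ} (hα : -1 ≤ α) (hβ : β ≤ 1) :
    mu.restrict (Ico α β) = volume.restrict (Ico α β) := by
  unfold mu
  rw [Measure.restrict_restrict measurableSet_Ico]
  congr 1
  apply inter_eq_left.2
  intro y hy
  exact ⟨hα.trans hy.1, hy.2.le.trans hβ⟩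

lemma setIntegral_comp_MIso {α β : ℝ} (hα : -1 ≤ α) (hβ : β ≤ 1) (ω : MIso mu mu)
    (h : ∀ᵐ x ∂mu, x ∉ Ico α β → ω.f x = x) {φ : ℝ → ℝ} (hφ : Measurable φ) :
    ∫ x in Ico α β, φ (ω.f x) = ∫ x in Ico α β, φ x := by
  rw [← restrict_mu hα hβ, ← integral_indicator measurableSet_Ico, ← integral_indicator measurableSet_Ico]
  have hm : Measurable ((Ico α β).indicator φ) := hφ.indicator measurableSet_Ico
  have e1 : ∫ x, (Ico α β).indicator φ x ∂mu = ∫ x, (Ico α β).indicator φ (ω.f x) ∂mu := by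
    conv_lhs => rw [← ω.mf.map_eq]
    exact integral_map ω.mf.measurable.aemeasurable hm.aestronglyMeasurable
  rw [e1]
  apply integral_congr_ae
  filter_upwards [ω.mem_iff_of_id_off h] with x hx
  by_cases hxQ : x ∈ Ico α β
  · rw [indicator_of_mem hxQ, indicator_of_mem (hx.2 hxQ)]
  · rw [indicator_of_notMem hxQ, indicator_of_notMem (fun h' => hxQ (hx.1 h'))]

lemma avQ_comp_MIso {α β : ℝ} (hα : -1 ≤ α) (hβ : β ≤ 1) (ω : MIso mu mu)
    (h : ∀ᵐ x ∂mu, x ∉ Ico α β → ω.f x = x) {φ : ℝ → ℝ} (hφ : Measurable φ) :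
    avQ α β (fun x => φ (ω.f x)) = avQ α β φ := by
  unfold avQ
  rw [setIntegral_comp_MIso hα hβ ω h hφ]

lemma varQ_comp_MIso {α β : ℝ} (hα : -1 ≤ α) (hβ : β ≤ 1) (ω : MIso mu mu)
    (h : ∀ᵐ x ∂mu, x ∉ Ico α β → ω.f x = x) {φ : ℝ → ℝ} (hφ : Measurable φ) :
    varQ α β (fun x => φ (ω.f x)) = varQ α β φ := by
  unfold varQ
  rw [avQ_comp_MIso hα hβ ω h hφ]
  exact avQ_comp_MIso hα hβ ω h (φ := fun y => (φ y - avQ α β φ) ^ 2) ((hφ.sub_const _).pow_const 2)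

/-! ### choice of parameters -/

lemma params {T γ K ε' ρ : ℝ} (hT : 0 < T) (hγ : 0 < γ) (hK : 0 ≤ K) (hε : 0 < ε') (hρ : 0 < ρ) :
    ∃ θ d : ℝ, 0 < θ ∧ θ < 1 ∧ 0 < d ∧ θ * 2 ≤ ε' ∧ θ * K ≤ ε' ∧ (θ * T + 2 * d) * K ≤ ε' ∧
      ((2 * d) ^ 2 + 4 * T ^ 2 * θ) / (4 * T ^ 2) ≤ ρ ∧ 4 * T * (2 * d) ≤ θ * (γ / 2) := by
  set θ := min (1 / 2) (min (ε' / (4 * (K + 1) * (T + 1))) (ρ / 2)) with hθ
  have hθ0 : 0 < θ := lt_min (by norm_num) (lt_min (by positivity) (by positivity))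
  have t1 : θ ≤ 1 / 2 := min_le_left _ _
  have t2 : θ ≤ ε' / (4 * (K + 1) * (T + 1)) := (min_le_right _ _).trans (min_le_left _ _)
  have t3 : θ ≤ ρ / 2 := (min_le_right _ _).trans (min_le_right _ _)
  set d := min (θ * γ / (16 * T)) (min (ε' / (4 * (K + 1))) (T * min 1 (ρ / 2))) with hd
  have hd0 : 0 < d := lt_min (by positivity) (lt_min (by positivity) (by
    have : 0 < min 1 (ρ / 2) := lt_min one_pos (by positivity)
    positivity))
  have d1 : d ≤ θ * γ / (16 * T) := min_le_left _ _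
  have d2 : d ≤ ε' / (4 * (K + 1)) := (min_le_right _ _).trans (min_le_left _ _)
  have d3 : d ≤ T * min 1 (ρ / 2) := (min_le_right _ _).trans (min_le_right _ _)
  have t2' : θ * (4 * (K + 1) * (T + 1)) ≤ ε' := by rwa [le_div_iff₀ (by positivity)] at t2
  have d2' : d * (4 * (K + 1)) ≤ ε' := by rwa [le_div_iff₀ (by positivity)] at d2
  have d1' : d * (16 * T) ≤ θ * γ := by rwa [le_div_iff₀ (by positivity)] at d1
  refine ⟨θ, d, hθ0, by linarith, hd0, ?_, ?_, ?_, ?_, ?_⟩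
  · have : θ * 2 ≤ θ * (4 * (K + 1) * (T + 1)) := by
      apply mul_le_mul_of_nonneg_left _ hθ0.le
      nlinarith [mul_nonneg hK hT.le]
    linarith
  · have : θ * K ≤ θ * (4 * (K + 1) * (T + 1)) := by
      apply mul_le_mul_of_nonneg_left _ hθ0.le
      nlinarith [mul_nonneg hK hT.le]
    linarith
  · have h1 : θ * T * K ≤ ε' / 4 := by
      have : θ * T * K ≤ θ * ((K + 1) * (T + 1)) := by
        rw [mul_assoc]
        apply mul_le_mul_of_nonneg_left _ hθ0.le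
        nlinarith [mul_nonneg hK hT.le]
      linarith
    have h2 : 2 * d * K ≤ ε' / 2 := by
      have : d * K ≤ d * (K + 1) := by gcongr; linarith
      linarith
    linarith
  · rw [div_le_iff₀ (by positivity)]
    have h1 : d ^ 2 ≤ T ^ 2 * (ρ / 2) := by
      have hm0 : 0 < min 1 (ρ / 2) := lt_min one_pos (by positivity)
      have hm1 : min 1 (ρ / 2) ≤ 1 := min_le_left _ _
      have hm2 : min 1 (ρ / 2) ≤ ρ / 2 := min_le_right _ _
      calc d ^ 2 ≤ (T * min 1 (ρ / 2)) ^ 2 := by gcongr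
        _ = T ^ 2 * (min 1 (ρ / 2) * min 1 (ρ / 2)) := by ring
        _ ≤ T ^ 2 * (1 * (ρ / 2)) := by gcongr
        _ = T ^ 2 * (ρ / 2) := by ring
    have h2 : 4 * T ^ 2 * θ ≤ 4 * T ^ 2 * (ρ / 2) := by gcongr
    nlinarith
  · linarith

/-- running minimum -/
noncomputable def rmin (d : ℕ → ℝ) : ℕ → ℝ
  | 0 => d 0
  | (j + 1) => min (rmin d j) (d (j + 1))

lemma rmin_le (d : ℕ → ℝ) (j : ℕ) : rmin d j ≤ d j := by
  cases j with
  | zero => exact le_refl _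
  | succ j => exact min_le_right _ _

lemma rmin_succ_le (d : ℕ → ℝ) (j : ℕ) : rmin d (j + 1) ≤ rmin d j := min_le_left _ _

lemma rmin_pos {d : ℕ → ℝ} (hd : ∀ j, 0 < d j) (j : ℕ) : 0 < rmin d j := by
  induction j with
  | zero => exact hd 0
  | succ j ih => exact lt_min ih (hd (j + 1))

end Pool.Agent.MP_f3eb7e
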