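import Pool.Agent.Lib.MP_f3eb7e_an.Cont

set_option autoImplicit false

open MeasureTheory Set Filter Topology
open scoped ENNReal

namespace Pool.Agent.MP_f3eb7e

lemma le_ofReal_of_toReal_le {x : ℝ≥0∞} (hx : x ≠ ∞) {K : ℝ} (h : x.toReal ≤ K) :
    x ≤ ENNReal.ofReal K := by
  rw [← ENNReal.ofReal_toReal hx]
  exact ENNReal.ofReal_le_ofReal h

/-- **Continuation theorem.** -/
theorem cont {α β T : ℝ} (hα : -1 ≤ α) (hαβ : α < β) (hβ : β ≤ 1) (hT : 0 < T) {γ : ℝ} (hγ : 0 < γ)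
    {B : ℝ≥0∞} (hB : B ≠ ∞) {ε : ℝ} (hε : 0 < ε) :
    ∃ d : ℝ, 0 < d ∧ ∀ (g h : ℝ → ℝ), Measurable g → (∀ y, |g y| ≤ T) → (∀ y, y ∉ Ico α β → g y = 0) →
      γ ≤ varQ α β g → IsStep h → (∀ y, |h y| ≤ T) → (∀ y, y ∉ Ico α β → h y = 0) →
      (∀ᵐ x ∂mu, x ∈ Ico α β → |g x - h x| ≤ d) → NN h ≤ B →
      ∃ ω : MIso mu mu, (∀ᵐ x ∂mu, x ∉ Ico α β → ω.f x = x) ∧
        mu {x | ω.f x ≠ x} ≤ ENNReal.ofReal ε ∧ NN (fun x => g (ω.f x)) ≤ NN h + ENNReal.ofReal ε := by
  set K := max (NN (ind α β)).toReal (B + ENNReal.ofReal ε).toReal with hK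
  have hK0 : 0 ≤ K := le_max_of_le_left ENNReal.toReal_nonneg
  have hindtop : NN (ind α β) ≠ ∞ := (IsStep_ind α β).prop.nn.ne
  have hK1 : NN (ind α β) ≤ ENNReal.ofReal K := le_ofReal_of_toReal_le hindtop (le_max_left _ _)
  have hK2 : B + ENNReal.ofReal ε ≤ ENNReal.ofReal K :=
    le_ofReal_of_toReal_le (ENNReal.add_ne_top.2 ⟨hB, ENNReal.ofReal_ne_top⟩) (le_max_right _ _)
  set e : ℕ → ℝ := fun j => ε / 8 / 2 ^ j with he
  have he0 : ∀ j, 0 < e j := fun j => by simp only [he]; positivity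
  have hpar : ∀ j, ∃ θ d ρ : ℝ, 0 < θ ∧ θ < 1 ∧ 0 < d ∧ θ * 2 ≤ e j ∧ θ * K ≤ e j ∧
      (θ * T + 2 * d) * K ≤ e j ∧ ((2 * d) ^ 2 + 4 * T ^ 2 * θ) / (4 * T ^ 2) ≤ ρ ∧
      4 * T * (2 * d) ≤ θ * (γ / 2) ∧
      (∀ (ι : Type) [Fintype ι] (S : CellSys ι), S.ρ ≤ ρ → ∃ u, NN (S.psi u) ≤ ENNReal.ofReal (e j / (2 * T))) := by
    intro j
    have h1 : ENNReal.ofReal (e j / (2 * T)) ≠ 0 := by
      rw [ne_eq, ENNReal.ofReal_eq_zero, not_le]
      have := he0 j
      positivity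
    obtain ⟨ρ, hρ, H⟩ := CellSys.RS1 h1
    obtain ⟨θ, d, a1, a2, a3, a4, a5, a6, a7, a8⟩ := params hT hγ hK0 (he0 j) hρ
    exact ⟨θ, d, ρ, a1, a2, a3, a4, a5, a6, a7, a8, H⟩
  choose θ d ρ a1 a2 a3 a4 a5 a6 a7 a8 H using hpar
  set dm := rmin d with hdm
  have dm0 : ∀ j, 0 < dm j := rmin_pos a3
  have dmle : ∀ j, dm j ≤ d j := rmin_le d
  refine ⟨dm 0, dm0 0, ?_⟩
  intro g h hg hgb hg0 hγg hh hhb hh0 hgh hhB
  set P : ℕ → MIso mu mu × (ℝ → ℝ) → Prop := fun j s =>
    IsStep s.2 ∧ (∀ y, |s.2 y| ≤ T) ∧ (∀ y, y ∉ Ico α β → s.2 y = 0) ∧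
    (∀ x, x ∉ Ico α β → s.1.f x = x) ∧ (∀ᵐ x ∂mu, x ∈ Ico α β → |g (s.1.f x) - s.2 x| ≤ dm j) ∧
    NN s.2 ≤ NN h + ENNReal.ofReal (ε * (1 - 1 / 2 ^ j)) with hP
  have P0 : P 0 (MIso.refl mu, h) := by
    refine ⟨hh, hhb, hh0, fun x _ => rfl, hgh, le_self_add⟩
  have step : ∀ (j : ℕ) (s : {s // P j s}), ∃ (σ : MIso mu mu) (s' : {s // P (j + 1) s}),
      s'.1.1 = σ.trans s.1.1 ∧ mu {x | σ.f x ≠ x} ≤ ENNReal.ofReal (2 * e j) := by
    rintro j ⟨⟨ω, k⟩, b1, b2, b3, b4, b5, b6⟩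
    simp only at b1 b2 b3 b4 b5 b6
    have b4' : ∀ᵐ x ∂mu, x ∉ Ico α β → ω.f x = x := Eventually.of_forall b4
    have hdj := dmle j
    have hd0 := dm0 j
    have hρj : ((2 * dm j) ^ 2 + 4 * T ^ 2 * θ j) / (4 * T ^ 2) ≤ ρ j := by
      refine le_trans ?_ (a7 j)
      gcongr
    have hγj : 4 * T * (2 * dm j) ≤ θ j * (γ / 2) := le_trans (by gcongr) (a8 j)
    obtain ⟨σ, k', c1, c2, c3, c4, c5, c6, c7⟩ := one_step' hα hαβ hβ hT (H j) (a1 j) (a2 j) hρj hγ hγj
      (g := fun x => g (ω.f x)) (hg.comp ω.mf.measurable) (fun y => hgb _)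
      (by rw [varQ_comp_MIso hα hβ ω b4' hg]; exact hγg) b1 b2 b3 b5 (dm0 (j + 1))
      (rmin_succ_le d j) (he0 j)
    have hkB : NN k ≤ ENNReal.ofReal K := by
      refine b6.trans (le_trans ?_ hK2)
      refine add_le_add hhB (ENNReal.ofReal_le_ofReal ?_)
      have : (0 : ℝ) < 1 / 2 ^ j := by positivity
      nlinarith
    have hincr : NN (fun y => k' y - k y) ≤ ENNReal.ofReal (4 * e j) := by
      refine c7.trans ?_
      have f1 : ENNReal.ofReal (2 * T) * ENNReal.ofReal (e j / (2 * T)) = ENNReal.ofReal (e j) := by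
        rw [← ENNReal.ofReal_mul (by positivity)]
        congr 1; field_simp
      have f2 : ENNReal.ofReal (θ j) * NN k ≤ ENNReal.ofReal (e j) := by
        calc _ ≤ ENNReal.ofReal (θ j) * ENNReal.ofReal K := by gcongr
          _ = ENNReal.ofReal (θ j * K) := by rw [ENNReal.ofReal_mul (a1 j).le]
          _ ≤ _ := ENNReal.ofReal_le_ofReal (a5 j)
      have f3 : ENNReal.ofReal (θ j * T + 2 * dm j) * NN (ind α β) ≤ ENNReal.ofReal (e j) := by
        have h0 := a1 j
        calc _ ≤ ENNReal.ofReal (θ j * T + 2 * d j) * ENNReal.ofReal K := by gcongr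
          _ = ENNReal.ofReal ((θ j * T + 2 * d j) * K) := by
              rw [ENNReal.ofReal_mul]
              have := a3 j
              positivity
          _ ≤ _ := ENNReal.ofReal_le_ofReal (a6 j)
      have f4 : ENNReal.ofReal (4 * e j) = ENNReal.ofReal (e j) + ENNReal.ofReal (e j)
          + ENNReal.ofReal (e j) + ENNReal.ofReal (e j) := by
        have := (he0 j).le
        rw [← ENNReal.ofReal_add this this, ← ENNReal.ofReal_add (by linarith) this,
          ← ENNReal.ofReal_add (by linarith) this]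
        congr 1; ring
      rw [f4, f1]
      gcongr
    refine ⟨σ, ⟨⟨σ.trans ω, k'⟩, c1, c2, c3, ?_, ?_, ?_⟩, rfl, ?_⟩
    · intro x hx
      show ω.f (σ.f x) = x
      rw [c4 x hx, b4 x hx]
    · exact c5
    · simp only
      have hk1 : NN k' ≤ NN (fun y => k' y - k y) + NN k := by
        have := NN_add_le (c1.integrable.sub b1.integrable) b1.integrable
        refine le_trans (le_of_eq ?_) this
        congr 1; funext y; simp
      refine hk1.trans ?_
      calc _ ≤ ENNReal.ofReal (4 * e j) + (NN h + ENNReal.ofReal (ε * (1 - 1 / 2 ^ j))) := by gcongr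
        _ = NN h + (ENNReal.ofReal (ε * (1 - 1 / 2 ^ j)) + ENNReal.ofReal (4 * e j)) := by ring
        _ = NN h + ENNReal.ofReal (ε * (1 - 1 / 2 ^ (j + 1))) := by
            rw [← ENNReal.ofReal_add]
            · congr 2
              simp only [he]
              field_simp
              ring
            · have : (1 : ℝ) / 2 ^ j ≤ 1 := by
                rw [div_le_one (by positivity)]
                exact one_le_pow₀ (by norm_num)
              nlinarith
            · have := he0 j; linarith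
    · refine c6.trans (ENNReal.ofReal_le_ofReal ?_)
      have h1 := a4 j
      have h2 : θ j * (β - α) ≤ θ j * 2 := by
        apply mul_le_mul_of_nonneg_left _ (a1 j).le
        linarith
      linarith
  choose σ' next hnext1 hnext2 using step
  let seq : ∀ j, {s // P j s} := fun j => Nat.rec ⟨(MIso.refl mu, h), P0⟩ (fun j s => next j s) j
  set σ : ℕ → MIso mu mu := fun j => σ' j (seq j) with hσ
  have hcomp : ∀ j, (seq j).1.1 = comps σ j := by
    intro j
    induction j with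
    | zero => rfl
    | succ j ih =>
      have h1 : (seq (j + 1)).1.1 = (σ j).trans (seq j).1.1 := hnext1 j (seq j)
      rw [h1, ih]
      rfl
  have hsmall : ∀ j, mu {x | (σ j).f x ≠ x} ≤ ENNReal.ofReal (2 * e j) := fun j => hnext2 j (seq j)
  have hsum0 : ∑' j, mu {x | (σ j).f x ≠ x} ≤ ENNReal.ofReal (ε / 2) := by
    refine (ENNReal.tsum_le_tsum hsmall).trans (le_of_eq ?_)
    have e1 : ∀ j, 2 * e j = (ε / 2) / 2 / 2 ^ j := by intro j; simp only [he]; ring
    simp_rw [e1]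
    rw [← ENNReal.ofReal_tsum_of_nonneg (fun j => by positivity) (summable_geometric_two' _),
      tsum_geometric_two']
  have hsum : ∑' j, mu {x | (σ j).f x ≠ x} ≤ ENNReal.ofReal ε :=
    hsum0.trans (ENNReal.ofReal_le_ofReal (by linarith))
  obtain ⟨ω, hω1, hω2⟩ := MIso.limit σ (lt_of_le_of_lt hsum ENNReal.ofReal_lt_top).ne
  set hs : ℕ → ℝ → ℝ := fun j => (seq j).1.2 with hhs
  have q1 : ∀ j, IsStep (hs j) := fun j => (seq j).2.1
  have q2 : ∀ j y, |hs j y| ≤ T := fun j => (seq j).2.2.1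
  have q3 : ∀ j y, y ∉ Ico α β → hs j y = 0 := fun j => (seq j).2.2.2.1
  have q4 : ∀ j x, x ∉ Ico α β → (comps σ j).f x = x := fun j => by
    rw [← hcomp]; exact (seq j).2.2.2.2.1
  have q5 : ∀ j, ∀ᵐ x ∂mu, x ∈ Ico α β → |g ((comps σ j).f x) - hs j x| ≤ dm j := fun j => by
    rw [← hcomp]; exact (seq j).2.2.2.2.2.1
  have q6 : ∀ j, NN (hs j) ≤ NN h + ENNReal.ofReal ε := fun j => by
    refine (seq j).2.2.2.2.2.2.trans ?_
    refine add_le_add (le_refl _) (ENNReal.ofReal_le_ofReal ?_)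
    have : (0 : ℝ) < 1 / 2 ^ j := by positivity
    nlinarith
  have hid : ∀ᵐ x ∂mu, x ∉ Ico α β → ω.f x = x := by
    filter_upwards [hω1] with x hx hxQ
    obtain ⟨j, hj⟩ := hx.exists
    rw [← hj, q4 j x hxQ]
  refine ⟨ω, hid, hω2.trans hsum, ?_⟩
  have dmtend : Tendsto dm atTop (𝓝 0) := by
    have hb : ∀ j, dm j ≤ (ε * γ / (256 * T)) * (1 / 2) ^ j := by
      intro j
      have h1 := a8 j
      have h2 := a4 j
      have h3 := dmle j
      have h4 : 8 * T * dm j ≤ (e j / 2) * (γ / 2) := by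
        calc 8 * T * dm j ≤ 8 * T * d j := by gcongr
          _ = 4 * T * (2 * d j) := by ring
          _ ≤ θ j * (γ / 2) := h1
          _ ≤ (e j / 2) * (γ / 2) := by gcongr; linarith
      have h5 : (ε * γ / (256 * T)) * (1 / 2) ^ j = (e j / 2) * (γ / 2) / (8 * T) := by
        simp only [he]
        rw [one_div, inv_pow]
        field_simp
        ring
      rw [h5, le_div_iff₀ (by positivity)]
      linarith
    have ht : Tendsto (fun j => (ε * γ / (256 * T)) * (1 / 2 : ℝ) ^ j) atTop (𝓝 0) := by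
      have := (tendsto_pow_atTop_nhds_zero_of_lt_one (r := (1 / 2 : ℝ)) (by norm_num) (by norm_num)).const_mul
        (ε * γ / (256 * T))
      rwa [mul_zero] at this
    exact squeeze_zero (fun j => (dm0 j).le) hb ht
  have hpt : ∀ᵐ x ∂mu, Tendsto (fun j => hs j x) atTop (𝓝 (g (ω.f x))) := by
    have q5' : ∀ᵐ x ∂mu, ∀ j, x ∈ Ico α β → |g ((comps σ j).f x) - hs j x| ≤ dm j := ae_all_iff.2 q5
    filter_upwards [hω1, q5', hid] with x h1 h2 h3
    by_cases hxQ : x ∈ Ico α β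
    · rw [tendsto_iff_norm_sub_tendsto_zero]
      refine squeeze_zero' (Eventually.of_forall fun j => norm_nonneg _) ?_ dmtend
      filter_upwards [h1] with j hj
      rw [Real.norm_eq_abs, abs_sub_comm, ← hj]
      exact h2 j hxQ
    · rw [h3 hxQ, hg0 x hxQ]
      simp_rw [q3 _ x hxQ]
      exact tendsto_const_nhds
  have hcoef : ∀ k, Tendsto (fun j => coef (hs j) k) atTop (𝓝 (coef (fun x => g (ω.f x)) k)) := by
    intro k
    obtain ⟨C, hC⟩ := exists_bound_of_continuous (continuous_phi k)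
    unfold coef
    refine tendsto_integral_of_dominated_convergence (fun _ => T * C) ?_ (integrable_const _) ?_ ?_
    · intro j
      exact ((q1 j).prop.meas.mul (continuous_phi k).measurable).aestronglyMeasurable
    · intro j
      filter_upwards [hC] with x hx
      rw [norm_mul]
      exact mul_le_mul (q2 j x) hx (norm_nonneg _) hT.le
    · filter_upwards [hpt] with x hx
      exact hx.mul_const _
  refine (NN_le_liminf hcoef).trans ?_
  refine (liminf_le_liminf (Eventually.of_forall q6)).trans ?_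
  rw [liminf_const]

end Pool.Agent.MP_f3eb7e
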