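import Mathlib

/-!
# Definitions for the rearrangement hull of the Legendre maximal operator

`S = [-1,1]` carries Lebesgue measure. All sets of functions below are sets of real functions on `S`.
-/

set_option autoImplicit false

open MeasureTheory Set
open scoped ENNReal

namespace Pool.Agent.MP_f3eb7e

/-- The interval `S = [-1,1]`. -/
abbrev S : Type := Set.Icc (-1 : ℝ) 1

/-- Lebesgue measure on `S`: the measure of `E ⊆ S` is the Lebesgue measure of `E` as a subset of the line. -/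
noncomputable def lebS : Measure S := Measure.comap Subtype.val volume

/-- The Legendre polynomials `P_n`, by Bonnet's recursion
`(n+2) P_{n+2} = (2n+3) x P_{n+1} - (n+1) P_n`, `P_0 = 1`, `P_1 = x`. -/
noncomputable def legendreP : ℕ → ℝ → ℝ
  | 0, _ => 1
  | 1, x => x
  | (n + 2), x =>
      ((2 * (n : ℝ) + 3) * x * legendreP (n + 1) x - ((n : ℝ) + 1) * legendreP n x) / ((n : ℝ) + 2)

/-- The `k`-th Fourier-Legendre coefficient `(k + 1/2) * ∫_S f P_k` (note that `∫_S P_k ^ 2 = 1/(k+1/2)`). -/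
noncomputable def legendreCoeff (f : S → ℝ) (k : ℕ) : ℝ :=
  ((k : ℝ) + 1 / 2) * ∫ y : S, f y * legendreP k y ∂lebS

/-- The `n`-th partial sum `S_n f` of the Fourier-Legendre expansion of `f`. -/
noncomputable def partialSum (n : ℕ) (f : S → ℝ) (x : S) : ℝ :=
  ∑ k ∈ Finset.range (n + 1), legendreCoeff f k * legendreP k x

/-- The maximal function `S^* f = sup_n |S_n f|`. -/
noncomputable def maximalFn (f : S → ℝ) (x : S) : ℝ≥0∞ := ⨆ n : ℕ, ‖partialSum n f x‖ₑ

/-- The class `A = {f ∈ L^1 : S^* f ∈ L^1}`. -/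
def classA : Set (S → ℝ) :=
  {f | Integrable f lebS ∧ ∫⁻ x : S, maximalFn f x ∂lebS < ∞}

/-- `Ω_ε`: invertible measure preserving maps of `S` moving a set of measure at most `ε`. -/
def Omega (ε : ℝ) : Set (S ≃ᵐ S) :=
  {ω | MeasurePreserving ω lebS lebS ∧ lebS {x : S | ω x ≠ x} ≤ ENNReal.ofReal ε}

/-- `R_ε(A) = {g ∘ ω : g ∈ A, ω ∈ Ω_ε}`. -/
def R (ε : ℝ) (A : Set (S → ℝ)) : Set (S → ℝ) :=
  {f | ∃ g ∈ A, ∃ ω ∈ Omega ε, f = fun x => g (ω x)}

/-- `RH_0(A)`, the intersection of `R_ε(A)` over all `ε > 0`. -/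
def RH0 (A : Set (S → ℝ)) : Set (S → ℝ) := {f | ∀ ε : ℝ, 0 < ε → f ∈ R ε A}

/-- The class `M^p`: integrable `f` with
`∫_0^∞ t^(p-2) |∫_{|f| > t} f| dt < ∞`. -/
def classM (p : ℝ) : Set (S → ℝ) :=
  {f | Integrable f lebS ∧
    ∫⁻ t in Ioi (0 : ℝ),
      ENNReal.ofReal (t ^ (p - 2) * |∫ x : S, (if t < |f x| then f x else 0) ∂lebS|) < ∞}

end Pool.Agent.MP_f3eb7e
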