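import Pool.Agent.Lib.MP_f3eb7e_an.Pattern

set_option autoImplicit false

open MeasureTheory Set Filter Topology
open scoped ENNReal

namespace Pool.Agent.MP_f3eb7e

lemma isFiniteMeasure_Ico (a b : ℝ) : IsFiniteMeasure (volume.restrict (Ico a b)) := by
  constructor; rw [Measure.restrict_apply_univ]; simp

lemma integrableOn_bdd {f : ℝ → ℝ} (hf : Measurable f) {C : ℝ} (hC : ∀ y, |f y| ≤ C) (a b : ℝ) :
    IntegrableOn f (Ico a b) volume := by
  have := isFiniteMeasure_Ico a b
  refine Integrable.of_bound (C := C) hf.aestronglyMeasurable ?_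
  exact Eventually.of_forall fun y => by rw [Real.norm_eq_abs]; exact hC y

lemma abs_setIntegral_le {f : ℝ → ℝ} (hf : Measurable f) {C : ℝ} (hC0 : 0 ≤ C) {a b : ℝ} (hab : a ≤ b)
    (hC : ∀ y ∈ Ico a b, |f y| ≤ C) (hC' : ∃ D, ∀ y, |f y| ≤ D) :
    |∫ y in Ico a b, f y| ≤ C * (b - a) := by
  obtain ⟨D, hD⟩ := hC'
  refine abs_integral_le_integral_abs.trans ?_
  calc ∫ y in Ico a b, |f y| ≤ ∫ _y in Ico a b, C := by
        apply setIntegral_mono_on (integrableOn_bdd hf hD a b).abs _ measurableSet_Ico hC
        have := isFiniteMeasure_Ico a b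
        exact integrable_const C
    _ = C * (b - a) := by
        rw [setIntegral_const, smul_eq_mul, Measure.real, Real.volume_Ico, ENNReal.toReal_ofReal (by linarith)]
        ring

/-- approximating an integer valued function by constants on small cells -/
theorem density {α β : ℝ} (hαβ : α < β) {N : ℝ → ℕ} (hN : Measurable N) {r : ℕ} (hr : ∀ y, N y ≤ r)
    {ε : ℝ} (hε : 0 < ε) :
    ∃ J₀ : ℕ, ∀ J : ℕ, J₀ ≤ J → 0 < J → ∃ v : Fin J → ℕ,
      ∑ i, ∫ y in Ico (ca α β J i) (ca α β J i + cl α β J), (if N y ≠ v i then (1 : ℝ) else 0) ≤ ε := by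
  have hNr : Measurable fun y => (N y : ℝ) := (measurable_of_countable _).comp hN
  have hNb : ∀ y, |(N y : ℝ)| ≤ r := by
    intro y
    rw [abs_of_nonneg (by positivity)]; exact_mod_cast hr y
  have hint := integrableOn_bdd hNr hNb α β
  obtain ⟨g, _, hg1, hg2, hg3⟩ := Integrable.exists_hasCompactSupport_integral_sub_le hint
    (ε := ε / 4) (by positivity)
  have huc := isCompact_Icc.uniformContinuousOn_of_continuous (hg2.continuousOn (s := Icc α β))
  rw [Metric.uniformContinuousOn_iff] at huc
  obtain ⟨d, hd, hdd⟩ := huc (1 / 4) (by norm_num)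
  obtain ⟨J₀, hJ₀⟩ := exists_nat_gt ((β - α) / d)
  refine ⟨J₀, ?_⟩
  intro J hJJ hJ
  have hc := cl_pos hαβ hJ
  have hJpos : (0 : ℝ) < J := by exact_mod_cast hJ
  have hcl : cl α β J < d := by
    unfold cl
    rw [div_lt_iff₀ hJpos]
    rw [div_lt_iff₀ hd] at hJ₀
    have : (J₀ : ℝ) ≤ J := by exact_mod_cast hJJ
    nlinarith
  set v : Fin J → ℕ := fun i => (round (max (g (ca α β J i)) 0)).toNat with hv
  refine ⟨v, ?_⟩
  have hdiff : IntegrableOn (fun y => |(N y : ℝ) - g y|) (Ico α β) volume := (hint.sub hg3).abs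
  have hcell : ∀ i, ∫ y in Ico (ca α β J i) (ca α β J i + cl α β J), (if N y ≠ v i then (1 : ℝ) else 0)
      ≤ ∫ y in Ico (ca α β J i) (ca α β J i + cl α β J), 4 * |(N y : ℝ) - g y| := by
    intro i
    apply setIntegral_mono_on
    · exact integrableOn_phi_N hN (fun n => if n ≠ v i then 1 else 0) (B := 1)
        (fun y => by split_ifs <;> simp) _ _
    · exact (hdiff.mono_set (cell_subset hαβ hJ i)).const_mul 4
    · exact measurableSet_Ico
    · intro y hy
      split_ifs with hne
      · -- distance estimate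
        set c := max (g (ca α β J i)) 0 with hcdef
        have hc0 : 0 ≤ c := le_max_right _ _
        have hround : 0 ≤ round c := by
          rw [round_eq]
          apply Int.floor_nonneg.2; linarith
        have hvi : ((v i : ℕ) : ℝ) = (round c : ℝ) := by
          have : ((round c).toNat : ℤ) = round c := Int.toNat_of_nonneg hround
          exact_mod_cast this
        have h1 := abs_sub_round c
        have h2 : (1 : ℝ) ≤ |(N y : ℝ) - v i| := by
          have : (N y : ℤ) - v i ≠ 0 := by
            intro h; apply hne; omega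
          have h3 := Int.one_le_abs this
          exact_mod_cast h3
        have h4 : 1 / 2 ≤ |(N y : ℝ) - c| := by
          have : |(N y : ℝ) - v i| ≤ |(N y : ℝ) - c| + |c - round c| := by
            rw [hvi]; exact abs_sub_le _ _ _
          linarith
        have h5 : |(N y : ℝ) - c| ≤ |(N y : ℝ) - g (ca α β J i)| := by
          rcases le_total 0 (g (ca α β J i)) with h | h
          · rw [hcdef, max_eq_left h]
          · rw [hcdef, max_eq_right h, sub_zero]
            have hn0 : (0 : ℝ) ≤ N y := by positivity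
            rw [abs_of_nonneg hn0, abs_of_nonneg (by linarith)]
            linarith
        have ha1 : ca α β J i ∈ Icc α β :=
          ⟨le_ca hαβ hJ i, by linarith [ca_add_le hαβ hJ i]⟩
        have ha2 : y ∈ Icc α β := ⟨(le_ca hαβ hJ i).trans hy.1, by linarith [ca_add_le hαβ hJ i, hy.2]⟩
        have h6 := hdd _ ha1 _ ha2 (by
          rw [Real.dist_eq, abs_sub_comm, abs_of_nonneg (by linarith [hy.1])]
          linarith [hy.2])
        rw [Real.dist_eq] at h6
        have h7 : |(N y : ℝ) - g (ca α β J i)| ≤ |(N y : ℝ) - g y| + |g y - g (ca α β J i)| :=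
          abs_sub_le _ _ _
        rw [abs_sub_comm (g y)] at h7
        linarith
      · positivity
  refine (Finset.sum_le_sum fun i _ => hcell i).trans ?_
  rw [sum_setIntegral_cells hαβ hJ (hdiff.const_mul 4), integral_const_mul]
  simp only [Real.norm_eq_abs] at hg1
  linarith

/-! ### averages and densities -/

section Dens

variable (α β : ℝ) (J : ℕ)

/-- average over `[α,β)` -/
noncomputable def avQ (f : ℝ → ℝ) : ℝ := (∫ y in Ico α β, f y) / (β - α)

/-- average over a cell -/
noncomputable def avC (f : ℝ → ℝ) (i : Fin J) : ℝ :=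
  (∫ y in Ico (ca α β J i) (ca α β J i + cl α β J), f y) / cl α β J

/-- variance over `[α,β)` -/
noncomputable def varQ (f : ℝ → ℝ) : ℝ := avQ α β (fun y => (f y - avQ α β f) ^ 2)

/-- tilts -/
noncomputable def tau (T θ : ℝ) (F h : ℝ → ℝ) (i : Fin J) : ℝ :=
  (2 * T / (θ * varQ α β F)) * ((1 - θ) * ((avC α β J h i - avC α β J F i) + (avQ α β F - avQ α β h)))

/-- tilted densities -/
noncomputable def gd (T θ : ℝ) (F h : ℝ → ℝ) (i : Fin J) (y : ℝ) : ℝ :=
  (1 - θ) / cl α β J * ind (ca α β J i) (ca α β J i + cl α β J) y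
    + (θ / (β - α)) * (1 + tau α β J T θ F h i * (F y - avQ α β F) / (2 * T))

variable {α β J}

lemma abs_avQ_le (hαβ : α < β) {f : ℝ → ℝ} (hf : Measurable f) {C : ℝ} (hC : ∀ y, |f y| ≤ C) :
    |avQ α β f| ≤ C := by
  have hC0 : 0 ≤ C := (abs_nonneg _).trans (hC 0)
  have hL : 0 < β - α := by linarith
  unfold avQ
  rw [abs_div, abs_of_pos hL, div_le_iff₀ hL]
  exact abs_setIntegral_le hf hC0 hαβ.le (fun y _ => hC y) ⟨C, hC⟩

lemma sum_avC (hαβ : α < β) (hJ : 0 < J) {f : ℝ → ℝ} (hf : Measurable f) {C : ℝ} (hC : ∀ y, |f y| ≤ C) :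
    ∑ i, cl α β J * avC α β J f i = (β - α) * avQ α β f := by
  have hc := cl_pos hαβ hJ
  have hL : 0 < β - α := by linarith
  unfold avC avQ
  have : ∀ i : Fin J, cl α β J * ((∫ y in Ico (ca α β J i) (ca α β J i + cl α β J), f y) / cl α β J)
      = ∫ y in Ico (ca α β J i) (ca α β J i + cl α β J), f y := by
    intro i; field_simp
  simp_rw [this]
  rw [sum_setIntegral_cells hαβ hJ (integrableOn_bdd hf hC α β)]
  field_simp

lemma sum_cl (hJ : 0 < J) (x : ℝ) : ∑ _i : Fin J, cl α β J * x = (β - α) * x := by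
  rw [Finset.sum_const, Finset.card_univ, Fintype.card_fin, nsmul_eq_mul, ← mul_assoc, cl_mul hJ]

variable {T θ δ' : ℝ} {F h : ℝ → ℝ}

section

variable (hαβ : α < β) (hJ : 0 < J) (hT : 0 < T) (hθ0 : 0 < θ) (hθ1 : θ < 1)
  (hF : Measurable F) (hFb : ∀ y, |F y| ≤ T) (hh : Measurable h) (hhb : ∀ y, |h y| ≤ T)
  (hδ : ∀ᵐ y, y ∈ Ico α β → |F y - h y| ≤ δ') (hv : 0 < varQ α β F) (hvar : 4 * T * δ' ≤ θ * varQ α β F)

include hαβ hJ hF hFb hh hhb in
lemma sum_tau (T θ : ℝ) : ∑ i, tau α β J T θ F h i = 0 := by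
  have hc := cl_pos hαβ hJ
  have h1 := sum_avC hαβ hJ hF hFb
  have h2 := sum_avC hαβ hJ hh hhb
  have h3 := sum_cl (α := α) (β := β) hJ (avQ α β F - avQ α β h)
  unfold tau
  rw [← Finset.mul_sum, ← Finset.mul_sum]
  have h4 : cl α β J * ∑ i, ((avC α β J h i - avC α β J F i) + (avQ α β F - avQ α β h)) = 0 := by
    rw [Finset.mul_sum]
    have : ∀ i, cl α β J * ((avC α β J h i - avC α β J F i) + (avQ α β F - avQ α β h))
        = cl α β J * avC α β J h i - cl α β J * avC α β J F i + cl α β J * (avQ α β F - avQ α β h) := by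
      intro i; ring
    simp_rw [this]
    rw [Finset.sum_add_distrib, Finset.sum_sub_distrib, h1, h2, h3]
    ring
  rcases mul_eq_zero.1 h4 with h5 | h5
  · exact absurd h5 hc.ne'
  · rw [h5]; ring

include hαβ hJ hF hFb hh hhb hδ in
lemma abs_avC_sub_le (i : Fin J) : |avC α β J h i - avC α β J F i| ≤ δ' := by
  have hc := cl_pos hαβ hJ
  unfold avC
  rw [← sub_div, abs_div, abs_of_pos hc, div_le_iff₀ hc,
    ← integral_sub (integrableOn_bdd hh hhb _ _) (integrableOn_bdd hF hFb _ _)]
  refine abs_integral_le_integral_abs.trans ?_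
  calc ∫ y in Ico (ca α β J i) (ca α β J i + cl α β J), |h y - F y|
      ≤ ∫ _y in Ico (ca α β J i) (ca α β J i + cl α β J), δ' := by
        have := isFiniteMeasure_Ico (ca α β J i) (ca α β J i + cl α β J)
        apply setIntegral_mono_on_ae
          ((integrableOn_bdd hh hhb _ _).sub (integrableOn_bdd hF hFb _ _)).abs (integrable_const _)
          measurableSet_Ico
        filter_upwards [hδ] with y hy hy2
        show |h y - F y| ≤ δ'
        rw [abs_sub_comm]
        exact hy (cell_subset hαβ hJ i hy2)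
    _ = δ' * cl α β J := by
        rw [setIntegral_const, smul_eq_mul, Measure.real, Real.volume_Ico, ENNReal.toReal_ofReal (by linarith)]
        ring

include hαβ hF hFb hh hhb hδ in
lemma abs_avQ_sub_le : |avQ α β F - avQ α β h| ≤ δ' := by
  have hL : 0 < β - α := by linarith
  unfold avQ
  rw [← sub_div, abs_div, abs_of_pos hL, div_le_iff₀ hL,
    ← integral_sub (integrableOn_bdd hF hFb _ _) (integrableOn_bdd hh hhb _ _)]
  refine abs_integral_le_integral_abs.trans ?_
  calc ∫ y in Ico α β, |F y - h y| ≤ ∫ _y in Ico α β, δ' := by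
        have := isFiniteMeasure_Ico α β
        apply setIntegral_mono_on_ae
          ((integrableOn_bdd hF hFb _ _).sub (integrableOn_bdd hh hhb _ _)).abs (integrable_const _)
          measurableSet_Ico
        filter_upwards [hδ] with y hy hy2
        exact hy hy2
    _ = δ' * (β - α) := by
        rw [setIntegral_const, smul_eq_mul, Measure.real, Real.volume_Ico, ENNReal.toReal_ofReal (by linarith)]
        ring

include hαβ hJ hT hθ0 hθ1 hF hFb hh hhb hδ hv hvar in
lemma abs_tau_le (i : Fin J) : |tau α β J T θ F h i| ≤ 1 := by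
  have h1 := abs_avC_sub_le hαβ hJ hF hFb hh hhb hδ i
  have h2 := abs_avQ_sub_le hαβ hF hFb hh hhb hδ
  have hδ0 : 0 ≤ δ' := (abs_nonneg _).trans h2
  unfold tau
  rw [abs_mul, abs_of_nonneg (by positivity), abs_mul, abs_of_nonneg (by linarith : 0 ≤ 1 - θ)]
  have h3 : |avC α β J h i - avC α β J F i + (avQ α β F - avQ α β h)| ≤ 2 * δ' :=
    (abs_add_le _ _).trans (by linarith)
  calc 2 * T / (θ * varQ α β F) * ((1 - θ) * |avC α β J h i - avC α β J F i + (avQ α β F - avQ α β h)|)
      ≤ 2 * T / (θ * varQ α β F) * (1 * (2 * δ')) := by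
        gcongr
        linarith
    _ = (4 * T * δ') / (θ * varQ α β F) := by ring
    _ ≤ 1 := by rw [div_le_one (by positivity)]; exact hvar

include hαβ hJ hT hθ0 hθ1 hF hFb hh hhb hδ hv hvar in
lemma tilt_bounds (i : Fin J) (y : ℝ) :
    0 ≤ 1 + tau α β J T θ F h i * (F y - avQ α β F) / (2 * T) ∧
    1 + tau α β J T θ F h i * (F y - avQ α β F) / (2 * T) ≤ 2 := by
  have h1 := abs_tau_le hαβ hJ hT hθ0 hθ1 hF hFb hh hhb hδ hv hvar i
  have h2 : |F y - avQ α β F| ≤ 2 * T :=
    (abs_sub _ _).trans (by linarith [hFb y, abs_avQ_le hαβ hF hFb])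
  have h3 : |tau α β J T θ F h i * (F y - avQ α β F) / (2 * T)| ≤ 1 := by
    rw [abs_div, abs_mul, abs_of_pos (by linarith : 0 < 2 * T), div_le_one (by linarith)]
    calc _ ≤ 1 * (2 * T) := mul_le_mul h1 h2 (abs_nonneg _) (by norm_num)
      _ = 2 * T := one_mul _
  have h4 := abs_le.1 h3
  constructor <;> linarith [h4.1, h4.2]

include hF in
lemma measurable_gd (i : Fin J) : Measurable (gd α β J T θ F h i) := by
  unfold gd
  have := measurable_ind (ca α β J i) (ca α β J i + cl α β J)
  fun_prop

lemma integral_centered (hαβ : α < β) (hF : Measurable F) (hFb : ∀ y, |F y| ≤ T) :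
    ∫ y in Ico α β, (F y - avQ α β F) = 0 := by
  have hL : 0 < β - α := by linarith
  have := isFiniteMeasure_Ico α β
  rw [integral_sub (integrableOn_bdd hF hFb α β) (integrable_const _), setIntegral_const, smul_eq_mul,
    Measure.real, Real.volume_Ico, ENNReal.toReal_ofReal hL.le]
  unfold avQ
  field_simp
  ring

/-- integration against the density -/
lemma integral_mul_gd (hαβ : α < β) (hJ : 0 < J) (hF : Measurable F) (hFb : ∀ y, |F y| ≤ T)
    (i : Fin J) {f : ℝ → ℝ} (hf : Measurable f) {C : ℝ} (hC : ∀ y, |f y| ≤ C) :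
    ∫ y in Ico α β, f y * gd α β J T θ F h i y
      = (1 - θ) * avC α β J f i + θ * (avQ α β f
        + tau α β J T θ F h i / (2 * T) * avQ α β (fun y => f y * (F y - avQ α β F))) := by
  have hL : 0 < β - α := by linarith
  have hc := cl_pos hαβ hJ
  set t := tau α β J T θ F h i with ht
  have m1 := measurable_ind (ca α β J i) (ca α β J i + cl α β J)
  have hC0 : 0 ≤ C := (abs_nonneg _).trans (hC 0)
  have e : ∀ y, f y * gd α β J T θ F h i y
      = (1 - θ) / cl α β J * (ind (ca α β J i) (ca α β J i + cl α β J) y * f y)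
        + ((θ / (β - α)) * f y + (θ / (β - α)) * (t / (2 * T)) * (f y * (F y - avQ α β F))) := by
    intro y; unfold gd; rw [← ht]; ring
  simp_rw [e]
  have i1 : IntegrableOn (fun y => ind (ca α β J i) (ca α β J i + cl α β J) y * f y) (Ico α β) volume := by
    apply integrableOn_bdd (f := fun y => ind (ca α β J i) (ca α β J i + cl α β J) y * f y) (m1.mul hf) (C := C)
    intro y
    show |ind (ca α β J i) (ca α β J i + cl α β J) y * f y| ≤ C
    rw [abs_mul]
    calc _ ≤ 1 * C := mul_le_mul (abs_ind_le _ _ _) (hC y) (abs_nonneg _) (by norm_num)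
      _ = C := one_mul _
  have i2 := integrableOn_bdd hf hC α β
  have i3 : IntegrableOn (fun y => f y * (F y - avQ α β F)) (Ico α β) volume := by
    apply integrableOn_bdd (f := fun y => f y * (F y - avQ α β F)) (hf.mul (hF.sub_const _)) (C := C * (T + T))
    intro y
    show |f y * (F y - avQ α β F)| ≤ C * (T + T)
    rw [abs_mul]
    apply mul_le_mul (hC y) _ (abs_nonneg _) hC0
    exact (abs_sub _ _).trans (add_le_add (hFb y) (abs_avQ_le hαβ hF hFb))
  have j1 : IntegrableOn (fun y => (1 - θ) / cl α β J * (ind (ca α β J i) (ca α β J i + cl α β J) y * f y))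
      (Ico α β) volume := i1.const_mul _
  have j2 : IntegrableOn (fun y => (θ / (β - α)) * f y) (Ico α β) volume := i2.const_mul _
  have j3 : IntegrableOn (fun y => (θ / (β - α)) * (t / (2 * T)) * (f y * (F y - avQ α β F)))
      (Ico α β) volume := i3.const_mul _
  have j23 : IntegrableOn (fun y => (θ / (β - α)) * f y + (θ / (β - α)) * (t / (2 * T)) * (f y * (F y - avQ α β F)))
      (Ico α β) volume := j2.add j3
  rw [integral_add j1 j23,
    integral_add j2 j3, integral_const_mul, integral_const_mul,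
    integral_const_mul]
  have e1 : ∫ y in Ico α β, ind (ca α β J i) (ca α β J i + cl α β J) y * f y
      = ∫ y in Ico (ca α β J i) (ca α β J i + cl α β J), f y := by
    have : ∀ y, ind (ca α β J i) (ca α β J i + cl α β J) y * f y
        = (Ico (ca α β J i) (ca α β J i + cl α β J)).indicator f y := by
      intro y; unfold ind indicator; split_ifs <;> simp
    simp_rw [this]
    rw [setIntegral_indicator measurableSet_Ico, inter_eq_right.2 (cell_subset hαβ hJ i)]
  rw [e1]
  unfold avC avQ
  field_simp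

include hαβ hJ hT hθ0 hθ1 hF hFb hh hhb hδ hv hvar in
lemma Dens_gd (i : Fin J) : Dens α β (gd α β J T θ F h i) := by
  have hL : 0 < β - α := by linarith
  have hc := cl_pos hαβ hJ
  refine ⟨measurable_gd hF i, ?_, ⟨(1 - θ) / cl α β J * 1 + (θ / (β - α)) * 2, ?_⟩, ?_⟩
  · intro y _
    unfold gd
    have h1 := (tilt_bounds hαβ hJ hT hθ0 hθ1 hF hFb hh hhb hδ hv hvar i y).1
    have h2 := ind_nonneg (ca α β J i) (ca α β J i + cl α β J) y
    have h3 : 0 ≤ 1 - θ := by linarith
    positivity
  · intro y
    unfold gd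
    have h1 := tilt_bounds hαβ hJ hT hθ0 hθ1 hF hFb hh hhb hδ hv hvar i y
    have h2 := ind_nonneg (ca α β J i) (ca α β J i + cl α β J) y
    have h2' := abs_ind_le (ca α β J i) (ca α β J i + cl α β J) y
    rw [abs_of_nonneg h2] at h2'
    have h3 : 0 ≤ 1 - θ := by linarith
    rw [abs_of_nonneg (by have := h1.1; positivity)]
    have := h1.2
    gcongr
  · have h1 := integral_mul_gd (θ := θ) (h := h) hαβ hJ hF hFb i (f := fun _ => 1) measurable_const (C := 1)
      (fun _ => by norm_num)
    simp only [one_mul] at h1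
    rw [h1]
    have e1 : avC α β J (fun _ => 1) i = 1 := by
      unfold avC
      rw [setIntegral_const, smul_eq_mul, Measure.real, Real.volume_Ico, ENNReal.toReal_ofReal (by linarith)]
      field_simp; ring
    have e2 : avQ α β (fun _ => 1) = 1 := by
      unfold avQ
      rw [setIntegral_const, smul_eq_mul, Measure.real, Real.volume_Ico, ENNReal.toReal_ofReal (by linarith)]
      field_simp
    have e3 : avQ α β (fun y => F y - avQ α β F) = 0 := by
      have h2 := integral_centered hαβ hF hFb
      have e4 : avQ α β (fun y => F y - avQ α β F) = (∫ y in Ico α β, (F y - avQ α β F)) / (β - α) := rfl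
      rw [e4, h2, zero_div]
    rw [e1, e2, e3]; ring

include hαβ hJ hF hFb hh hhb in
lemma sum_gd {y : ℝ} (hy : y ∈ Ico α β) : ∑ i, cl α β J * gd α β J T θ F h i y = 1 := by
  have hL : 0 < β - α := by linarith
  have hc := cl_pos hαβ hJ
  obtain ⟨i₀, hi₀⟩ := exists_cell hαβ hJ hy
  have h1 := sum_ind_mul hαβ hJ (fun _ => (1 : ℝ)) hi₀
  have h2 := sum_tau hαβ hJ hF hFb hh hhb T θ
  have e : ∀ i, cl α β J * gd α β J T θ F h i y
      = (1 - θ) * (ind (ca α β J i) (ca α β J i + cl α β J) y * 1)
        + (cl α β J * (θ / (β - α)) + (cl α β J * (θ / (β - α)) * ((F y - avQ α β F) / (2 * T)))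
          * tau α β J T θ F h i) := by
    intro i; unfold gd; field_simp
  have s1 : ∑ i : Fin J, (1 - θ) * (ind (ca α β J i) (ca α β J i + cl α β J) y * 1) = (1 - θ) * 1 := by
    rw [← Finset.mul_sum, h1]
  have s2 : ∑ i : Fin J, (cl α β J * (θ / (β - α)) * ((F y - avQ α β F) / (2 * T)))
          * tau α β J T θ F h i = 0 := by
    rw [← Finset.mul_sum, h2, mul_zero]
  have s3 : ∑ _i : Fin J, cl α β J * (θ / (β - α)) = (β - α) * (θ / (β - α)) := sum_cl hJ _
  simp_rw [e]
  rw [Finset.sum_add_distrib, Finset.sum_add_distrib, s1, s2, s3]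
  field_simp
  ring

include hαβ hJ hT hθ0 hθ1 hF hFb hh hhb hδ hv hvar in
lemma low_gd (i : Fin J) {y : ℝ} (hy : y ∈ Ico (ca α β J i) (ca α β J i + cl α β J)) :
    (1 - θ) / cl α β J ≤ gd α β J T θ F h i y := by
  have hL : 0 < β - α := by linarith
  have h1 := (tilt_bounds hαβ hJ hT hθ0 hθ1 hF hFb hh hhb hδ hv hvar i y).1
  have h2 : ind (ca α β J i) (ca α β J i + cl α β J) y = 1 := by
    unfold ind; exact indicator_of_mem hy _
  unfold gd
  rw [h2, mul_one]
  have : 0 ≤ θ / (β - α) * (1 + tau α β J T θ F h i * (F y - avQ α β F) / (2 * T)) := by positivity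
  linarith

/-- the constant shift -/
noncomputable def shiftc (α β θ : ℝ) (F h : ℝ → ℝ) : ℝ :=
  θ * avQ α β F + (1 - θ) * (avQ α β F - avQ α β h)

include hαβ hJ hT hθ0 hF hFb hv in
/-- the mean of `F` under the density -/
lemma mean_gd (i : Fin J) :
    ∫ y in Ico α β, F y * gd α β J T θ F h i y
      = (1 - θ) * avC α β J h i + shiftc α β θ F h := by
  rw [integral_mul_gd hαβ hJ hF hFb i hF hFb]
  have hL : 0 < β - α := by linarith
  have e1 : avQ α β (fun y => F y * (F y - avQ α β F)) = varQ α β F := by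
    have h0 := integral_centered hαβ hF hFb
    unfold varQ
    have e2 : ∀ y, F y * (F y - avQ α β F) = (F y - avQ α β F) ^ 2 + avQ α β F * (F y - avQ α β F) := by
      intro y; ring
    have i1 : IntegrableOn (fun y => F y - avQ α β F) (Ico α β) volume := by
      have := isFiniteMeasure_Ico α β
      exact (integrableOn_bdd hF hFb α β).sub (integrable_const _)
    have i2 : IntegrableOn (fun y => (F y - avQ α β F) ^ 2) (Ico α β) volume := by
      apply integrableOn_bdd ((hF.sub_const _).pow_const 2) (C := (T + T) ^ 2)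
      intro y
      rw [abs_pow]
      gcongr
      exact (abs_sub _ _).trans (add_le_add (hFb y) (abs_avQ_le hαβ hF hFb))
    unfold avQ at *
    congr 1
    simp_rw [e2]
    rw [integral_add i2 (i1.const_mul _), integral_const_mul, h0, mul_zero, add_zero]
  rw [e1]
  unfold tau shiftc
  field_simp
  ring

include hαβ hθ0 hθ1 hF hFb hh hhb hδ in
lemma abs_shiftc_le : |shiftc α β θ F h| ≤ θ * T + δ' := by
  have h1 := abs_avQ_le hαβ hF hFb
  have h2 := abs_avQ_sub_le hαβ hF hFb hh hhb hδ
  have hδ0 : 0 ≤ δ' := (abs_nonneg _).trans h2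
  unfold shiftc
  calc _ ≤ |θ * avQ α β F| + |(1 - θ) * (avQ α β F - avQ α β h)| := abs_add_le _ _
    _ = θ * |avQ α β F| + (1 - θ) * |avQ α β F - avQ α β h| := by
        rw [abs_mul, abs_mul, abs_of_pos hθ0, abs_of_nonneg (by linarith : 0 ≤ 1 - θ)]
    _ ≤ θ * T + 1 * δ' := by gcongr; linarith
    _ = θ * T + δ' := by ring

include hαβ hJ hT hθ0 hθ1 hF hFb hh hhb hδ hv hvar in
/-- the variance of `F` under the density, on good cells -/
lemma var_gd (i : Fin J) {c : ℝ} (hc : |c| ≤ T)
    (hgood : ∀ y ∈ Ico (ca α β J i) (ca α β J i + cl α β J), h y = c) :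
    ∫ y in Ico α β, (F y - c) ^ 2 * gd α β J T θ F h i y ≤ δ' ^ 2 + 4 * T ^ 2 * θ := by
  have hL : 0 < β - α := by linarith
  have hcl := cl_pos hαβ hJ
  have hδ0 : 0 ≤ δ' := (abs_nonneg _).trans (abs_avQ_sub_le hαβ hF hFb hh hhb hδ)
  set f : ℝ → ℝ := fun y => (F y - c) ^ 2 with hf
  have mf : Measurable f := (hF.sub_const _).pow_const 2
  have hfb : ∀ y, |f y| ≤ 4 * T ^ 2 := by
    intro y
    simp only [hf]
    rw [abs_pow]
    have : |F y - c| ≤ 2 * T := (abs_sub _ _).trans (by linarith [hFb y])
    calc |F y - c| ^ 2 ≤ (2 * T) ^ 2 := by gcongr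
      _ = 4 * T ^ 2 := by ring
  rw [show (fun y => (F y - c) ^ 2 * gd α β J T θ F h i y) = fun y => f y * gd α β J T θ F h i y from rfl,
    integral_mul_gd hαβ hJ hF hFb i mf hfb]
  have t1 : avC α β J f i ≤ δ' ^ 2 := by
    unfold avC
    rw [div_le_iff₀ hcl]
    calc ∫ y in Ico (ca α β J i) (ca α β J i + cl α β J), f y
        ≤ ∫ _y in Ico (ca α β J i) (ca α β J i + cl α β J), δ' ^ 2 := by
          have := isFiniteMeasure_Ico (ca α β J i) (ca α β J i + cl α β J)
          apply setIntegral_mono_on_ae (integrableOn_bdd mf hfb _ _) (integrable_const _) measurableSet_Ico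
          filter_upwards [hδ] with y hy hy2
          have h3 := hy (cell_subset hαβ hJ i hy2)
          rw [hgood y hy2] at h3
          simp only [hf]
          rw [← sq_abs]
          gcongr
      _ = δ' ^ 2 * cl α β J := by
          rw [setIntegral_const, smul_eq_mul, Measure.real, Real.volume_Ico, ENNReal.toReal_ofReal (by linarith)]
          ring
  have t0 : 0 ≤ avC α β J f i := by
    unfold avC
    apply div_nonneg (integral_nonneg fun y => by simp only [hf, Pi.zero_apply]; positivity) hcl.le
  have t2 : avQ α β f + tau α β J T θ F h i / (2 * T) * avQ α β (fun y => f y * (F y - avQ α β F))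
      ≤ 4 * T ^ 2 := by
    unfold avQ
    rw [mul_div_assoc', ← add_div, div_le_iff₀ hL, ← integral_const_mul]
    have i2 := integrableOn_bdd mf hfb α β
    have i3 : IntegrableOn (fun y => f y * (F y - avQ α β F)) (Ico α β) volume := by
      apply integrableOn_bdd (f := fun y => f y * (F y - avQ α β F)) (mf.mul (hF.sub_const _)) (C := 4 * T ^ 2 * (T + T))
      intro y
      show |f y * (F y - avQ α β F)| ≤ 4 * T ^ 2 * (T + T)
      rw [abs_mul]
      apply mul_le_mul (hfb y) _ (abs_nonneg _) (by positivity)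
      exact (abs_sub _ _).trans (add_le_add (hFb y) (abs_avQ_le hαβ hF hFb))
    have i4 := i3.const_mul (tau α β J T θ F h i / (2 * T))
    have e3 : avQ α β F = (∫ y in Ico α β, F y) / (β - α) := rfl
    rw [← e3, ← integral_add i2 i4]
    calc ∫ y in Ico α β, (f y + tau α β J T θ F h i / (2 * T) * (f y * (F y - avQ α β F)))
        = ∫ y in Ico α β, f y * (1 + tau α β J T θ F h i * (F y - avQ α β F) / (2 * T)) := by
          congr 1; funext y; field_simp
      _ ≤ ∫ y in Ico α β, 4 * T ^ 2 * (1 + tau α β J T θ F h i * (F y - avQ α β F) / (2 * T)) := by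
          apply setIntegral_mono_on
          · refine (i2.add i4).congr_fun (fun y _ => ?_) measurableSet_Ico
            simp only [Pi.add_apply]
            field_simp
          · apply Integrable.const_mul
            apply integrableOn_bdd (C := 2)
            · fun_prop
            · intro y
              have h1 := tilt_bounds hαβ hJ hT hθ0 hθ1 hF hFb hh hhb hδ hv hvar i y
              rw [abs_of_nonneg h1.1]; exact h1.2
          · exact measurableSet_Ico
          · intro y _
            have h1 := (tilt_bounds hαβ hJ hT hθ0 hθ1 hF hFb hh hhb hδ hv hvar i y).1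
            have h2 := (abs_le.1 (hfb y)).2
            gcongr
      _ = 4 * T ^ 2 * (β - α) := by
          rw [integral_const_mul]
          congr 1
          have h0 := integral_centered hαβ hF hFb
          have := isFiniteMeasure_Ico α β
          have i5 : IntegrableOn (fun y => F y - avQ α β F) (Ico α β) volume :=
            (integrableOn_bdd hF hFb α β).sub (integrable_const _)
          have e4 : ∀ y, 1 + tau α β J T θ F h i * (F y - avQ α β F) / (2 * T)
              = 1 + (tau α β J T θ F h i / (2 * T)) * (F y - avQ α β F) := by intro y; ring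
          simp_rw [e4]
          rw [integral_add (integrable_const _) (i5.const_mul _), integral_const_mul, h0, mul_zero,
            add_zero, setIntegral_const, smul_eq_mul, mul_one, Measure.real, Real.volume_Ico,
            ENNReal.toReal_ofReal hL.le]
  nlinarith

end

end Dens

end Pool.Agent.MP_f3eb7e
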