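import Pool.Agent.Lib.MP_f3eb7e_an.OneStep

set_option autoImplicit false

open MeasureTheory Set Filter Topology
open scoped ENNReal

namespace Pool.Agent.MP_f3eb7e

/-- discretisation label -/
noncomputable def lab (T δ : ℝ) (g : ℝ → ℝ) (y : ℝ) : ℕ := ⌊(g y + T) / δ⌋₊

section Lab

variable {T δ : ℝ} {g : ℝ → ℝ}

lemma measurable_lab (hg : Measurable g) : Measurable (lab T δ g) := by
  unfold lab
  apply Nat.measurable_floor.comp
  fun_prop

lemma lab_le (hδ : 0 < δ) (hgb : ∀ y, |g y| ≤ T) (y : ℝ) : lab T δ g y ≤ ⌊2 * T / δ⌋₊ := by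
  unfold lab
  apply Nat.floor_le_floor
  gcongr
  linarith [(abs_le.1 (hgb y)).2]

lemma mul_floor_le (hδ : 0 < δ) (hT : 0 < T) : δ * (⌊2 * T / δ⌋₊ : ℝ) ≤ 2 * T := by
  have := Nat.floor_le (show 0 ≤ 2 * T / δ by positivity)
  calc δ * (⌊2 * T / δ⌋₊ : ℝ) ≤ δ * (2 * T / δ) := by gcongr
    _ = 2 * T := by field_simp

lemma abs_lab_sub_le (hδ : 0 < δ) (hgb : ∀ y, |g y| ≤ T) (y : ℝ) :
    |(-T + δ * (lab T δ g y : ℝ)) - g y| ≤ δ := by
  have h0 : 0 ≤ (g y + T) / δ := div_nonneg (by linarith [(abs_le.1 (hgb y)).1]) hδ.le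
  have h1 := Nat.floor_le h0
  have h2 := Nat.lt_floor_add_one ((g y + T) / δ)
  have h3 : δ * (lab T δ g y : ℝ) ≤ g y + T := by
    calc δ * (lab T δ g y : ℝ) ≤ δ * ((g y + T) / δ) := by unfold lab; gcongr
      _ = g y + T := by field_simp
  have h4 : g y + T ≤ δ * (lab T δ g y : ℝ) + δ := by
    have : (g y + T) / δ ≤ (lab T δ g y : ℝ) + 1 := h2.le
    rw [div_le_iff₀ hδ] at this
    linarith
  rw [abs_le]; constructor <;> linarith

end Lab

/-! ### comparison of variances -/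

lemma varQ_eq {α β T : ℝ} (hαβ : α < β) {f : ℝ → ℝ} (hf : Measurable f) (hfb : ∀ y, |f y| ≤ T) :
    varQ α β f = avQ α β (fun y => f y ^ 2) - (avQ α β f) ^ 2 := by
  have hL : 0 < β - α := by linarith
  have hfi := isFiniteMeasure_Ico α β
  have i1 := integrableOn_bdd hf hfb α β
  have i2 : IntegrableOn (fun y => f y ^ 2) (Ico α β) volume := by
    apply integrableOn_bdd (f := fun y => f y ^ 2) (hf.pow_const 2) (C := T ^ 2)
    intro y
    show |f y ^ 2| ≤ T ^ 2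
    rw [abs_pow]
    gcongr
    exact hfb y
  unfold varQ
  set m := avQ α β f with hm
  have e : ∀ y, (f y - m) ^ 2 = f y ^ 2 + ((-2 * m) * f y + m ^ 2) := by intro y; ring
  have e1 : avQ α β (fun y => (f y - m) ^ 2)
      = (∫ y in Ico α β, (f y - m) ^ 2) / (β - α) := rfl
  have e2 : avQ α β (fun y => f y ^ 2) = (∫ y in Ico α β, f y ^ 2) / (β - α) := rfl
  have e3 : m = (∫ y in Ico α β, f y) / (β - α) := rfl
  have i3 : IntegrableOn (fun y => (-2 * m) * f y) (Ico α β) volume := i1.const_mul _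
  have i4 : IntegrableOn (fun _ : ℝ => m ^ 2) (Ico α β) volume := integrable_const _
  have i5 : IntegrableOn (fun y => (-2 * m) * f y + m ^ 2) (Ico α β) volume := i3.add i4
  rw [e1, e2]
  simp_rw [e]
  rw [integral_add i2 i5, integral_add i3 i4, integral_const_mul, setIntegral_const, smul_eq_mul,
    Measure.real, Real.volume_Ico, ENNReal.toReal_ofReal hL.le]
  have e4 : ∫ y in Ico α β, f y = m * (β - α) := by rw [e3]; field_simp
  rw [e4]
  field_simp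
  ring

lemma avQ_sub_le {α β : ℝ} (hαβ : α < β) {f g : ℝ → ℝ} (hf : Measurable f) (hg : Measurable g)
    {C D d : ℝ} (hfb : ∀ y, |f y| ≤ C) (hgb : ∀ y, |g y| ≤ D) (hd : ∀ y, |f y - g y| ≤ d) :
    |avQ α β f - avQ α β g| ≤ d := by
  have i1 := integrableOn_bdd hf hfb α β
  have i2 := integrableOn_bdd hg hgb α β
  have e : avQ α β f - avQ α β g = avQ α β (fun y => f y - g y) := by
    unfold avQ
    rw [integral_sub i1 i2, sub_div]
  rw [e]
  exact abs_avQ_le hαβ (hf.sub hg) hd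

lemma varQ_sub_le {α β T d : ℝ} (hαβ : α < β) {f g : ℝ → ℝ} (hf : Measurable f) (hg : Measurable g)
    (hfb : ∀ y, |f y| ≤ T) (hgb : ∀ y, |g y| ≤ T) (hd : ∀ y, |f y - g y| ≤ d) :
    |varQ α β f - varQ α β g| ≤ 4 * T * d := by
  have hT : 0 ≤ T := (abs_nonneg _).trans (hfb 0)
  have hd0 : 0 ≤ d := (abs_nonneg _).trans (hd 0)
  rw [varQ_eq hαβ hf hfb, varQ_eq hαβ hg hgb]
  have h1 : |avQ α β (fun y => f y ^ 2) - avQ α β (fun y => g y ^ 2)| ≤ 2 * T * d := by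
    apply avQ_sub_le hαβ (f := fun y => f y ^ 2) (g := fun y => g y ^ 2) (hf.pow_const 2) (hg.pow_const 2)
      (C := T ^ 2) (D := T ^ 2)
    · intro y
      show |f y ^ 2| ≤ T ^ 2
      rw [abs_pow]; gcongr; exact hfb y
    · intro y
      show |g y ^ 2| ≤ T ^ 2
      rw [abs_pow]; gcongr; exact hgb y
    · intro y
      show |f y ^ 2 - g y ^ 2| ≤ 2 * T * d
      have e : f y ^ 2 - g y ^ 2 = (f y + g y) * (f y - g y) := by ring
      rw [e, abs_mul]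
      have h2 : |f y + g y| ≤ 2 * T := (abs_add_le _ _).trans (by linarith [hfb y, hgb y])
      exact mul_le_mul h2 (hd y) (abs_nonneg _) (by positivity)
  have h2 : |(avQ α β f) ^ 2 - (avQ α β g) ^ 2| ≤ 2 * T * d := by
    have e : (avQ α β f) ^ 2 - (avQ α β g) ^ 2 = (avQ α β f + avQ α β g) * (avQ α β f - avQ α β g) := by ring
    rw [e, abs_mul]
    have h3 : |avQ α β f + avQ α β g| ≤ 2 * T :=
      (abs_add_le _ _).trans (by linarith [abs_avQ_le hαβ hf hfb, abs_avQ_le hαβ hg hgb])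
    exact mul_le_mul h3 (avQ_sub_le hαβ hf hg hfb hgb hd) (abs_nonneg _) (by positivity)
  calc _ = |(avQ α β (fun y => f y ^ 2) - avQ α β (fun y => g y ^ 2))
        - ((avQ α β f) ^ 2 - (avQ α β g) ^ 2)| := by congr 1; ring
    _ ≤ _ := abs_sub _ _
    _ ≤ 2 * T * d + 2 * T * d := add_le_add h1 h2
    _ = 4 * T * d := by ring

lemma ae_volume_of_ae_mu {α β : ℝ} (hα : -1 ≤ α) (hβ : β ≤ 1) {P : ℝ → Prop}
    (h : ∀ᵐ x ∂mu, x ∈ Ico α β → P x) : ∀ᵐ x, x ∈ Ico α β → P x := by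
  unfold mu at h
  rw [ae_restrict_iff' measurableSet_Icc] at h
  filter_upwards [h] with x hx hxQ
  exact hx ⟨hα.trans hxQ.1, hxQ.2.le.trans hβ⟩ hxQ

/-- one step, for real valued functions -/
theorem one_step' {α β T : ℝ} (hα : -1 ≤ α) (hαβ : α < β) (hβ : β ≤ 1) (hT : 0 < T) {ε₁ : ℝ≥0∞} {ρ₀ : ℝ}
    (hRS : ∀ (ι : Type) [Fintype ι] (S : CellSys ι), S.ρ ≤ ρ₀ → ∃ u, NN (S.psi u) ≤ ε₁)
    {δ' θ : ℝ} (hθ0 : 0 < θ) (hθ1 : θ < 1) (hρ : ((2 * δ') ^ 2 + 4 * T ^ 2 * θ) / (4 * T ^ 2) ≤ ρ₀)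
    {γ : ℝ} (hγ : 0 < γ) (hδγ : 4 * T * (2 * δ') ≤ θ * (γ / 2))
    {g : ℝ → ℝ} (hg : Measurable g) (hgb : ∀ y, |g y| ≤ T) (hγg : γ ≤ varQ α β g)
    {h : ℝ → ℝ} (hh : IsStep h) (hhb : ∀ y, |h y| ≤ T)
    (hh0 : ∀ y, y ∉ Ico α β → h y = 0)
    (hgh : ∀ᵐ y ∂mu, y ∈ Ico α β → |g y - h y| ≤ δ')
    {δ : ℝ} (hδ0 : 0 < δ) (hδδ : δ ≤ δ') {e : ℝ} (he : 0 < e) :
    ∃ σ : MIso mu mu, ∃ h' : ℝ → ℝ, IsStep h' ∧ (∀ y, |h' y| ≤ T) ∧ (∀ y, y ∉ Ico α β → h' y = 0) ∧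
      (∀ x, x ∉ Ico α β → σ.f x = x) ∧
      (∀ᵐ x ∂mu, x ∈ Ico α β → |g (σ.f x) - h' x| ≤ δ) ∧
      mu {x | σ.f x ≠ x} ≤ ENNReal.ofReal (θ * (β - α) + e) ∧
      NN (fun y => h' y - h y) ≤ ENNReal.ofReal (2 * T) * ε₁ + ENNReal.ofReal θ * NN h
        + ENNReal.ofReal (θ * T + 2 * δ') * NN (ind α β) + ENNReal.ofReal e := by
  set N := lab T δ g with hN
  have mN : Measurable N := measurable_lab hg
  have mF : Measurable fun y => -T + δ * (N y : ℝ) :=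
    measurable_const.add (((measurable_of_countable _).comp mN).const_mul δ)
  have hr : ∀ y, N y ≤ ⌊2 * T / δ⌋₊ := lab_le hδ0 hgb
  have hδr := mul_floor_le hδ0 hT
  have hd := abs_lab_sub_le hδ0 hgb
  have hFb : ∀ y, |-T + δ * (N y : ℝ)| ≤ T := FN_bdd hT hδ0.le hδr hr
  have hv1 := varQ_sub_le hαβ mF hg hFb hgb hd
  have hδ'0 : 0 < δ' := hδ0.trans_le hδδ
  have hvl : γ / 2 ≤ varQ α β (fun y => -T + δ * (N y : ℝ)) := by
    have h1 : 4 * T * δ ≤ 4 * T * δ' := by gcongr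
    have h2 : θ * (γ / 2) ≤ 1 * (γ / 2) := by gcongr
    have h3 : 4 * T * (2 * δ') = 2 * (4 * T * δ') := by ring
    have h5 : 0 < 4 * T * δ' := by positivity
    have h4 := (abs_le.1 hv1).1
    linarith
  have hF1 : ∀ᵐ y, y ∈ Ico α β → |(-T + δ * (N y : ℝ)) - h y| ≤ 2 * δ' := by
    filter_upwards [ae_volume_of_ae_mu hα hβ hgh] with y hy hyQ
    calc _ ≤ |(-T + δ * (N y : ℝ)) - g y| + |g y - h y| := abs_sub_le _ _ _
      _ ≤ δ + δ' := add_le_add (hd y) (hy hyQ)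
      _ ≤ 2 * δ' := by linarith
  obtain ⟨σ, h', a1, a2, a3, a4, a5, a6, a7⟩ := one_step hα hαβ hβ hT hRS hθ0 hθ1 hρ mN hr hδ0.le hδr hh hhb hh0
    hF1 (by linarith) (hδγ.trans (by gcongr)) he
  refine ⟨σ, h', a1, a2, a3, a4, ?_, a6, a7⟩
  filter_upwards [a5] with x hx hxQ
  rw [← hx hxQ, abs_sub_comm]
  exact hd (σ.f x)

/-! ### base steps -/

lemma exists_J {α β : ℝ} {ℓ₀ : ℝ} (hℓ₀ : 0 < ℓ₀) : ∃ J₃ : ℕ, ∀ J : ℕ, J₃ ≤ J → 0 < J → cl α β J ≤ ℓ₀ := by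
  obtain ⟨J₃, hJ₃⟩ := exists_nat_gt ((β - α) / ℓ₀)
  refine ⟨J₃, fun J hJ3 hJ => ?_⟩
  have hJpos : (0 : ℝ) < J := by exact_mod_cast hJ
  unfold cl
  rw [div_le_iff₀ hJpos]
  rw [div_lt_iff₀ hℓ₀] at hJ₃
  have : (J₃ : ℝ) ≤ J := by exact_mod_cast hJ3
  nlinarith

/-- base step with small moves -/
theorem base_small {α β T : ℝ} (hα : -1 ≤ α) (hαβ : α < β) (hβ : β ≤ 1) (hT : 0 < T)
    {g : ℝ → ℝ} (hg : Measurable g) (hgb : ∀ y, |g y| ≤ T) {δ : ℝ} (hδ0 : 0 < δ) {e : ℝ} (he : 0 < e) :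
    ∃ σ : MIso mu mu, ∃ h' : ℝ → ℝ, IsStep h' ∧ (∀ y, |h' y| ≤ T) ∧ (∀ y, y ∉ Ico α β → h' y = 0) ∧
      (∀ x, x ∉ Ico α β → σ.f x = x) ∧
      (∀ᵐ x ∂mu, x ∈ Ico α β → |g (σ.f x) - h' x| ≤ δ) ∧
      mu {x | σ.f x ≠ x} ≤ ENNReal.ofReal e := by
  set N := lab T δ g with hN
  have mN : Measurable N := measurable_lab hg
  have hr : ∀ y, N y ≤ ⌊2 * T / δ⌋₊ := lab_le hδ0 hgb
  have hδr := mul_floor_le hδ0 hT
  have hd := abs_lab_sub_le hδ0 hgb
  obtain ⟨J₁, hJ₁⟩ := density hαβ mN hr (ε := e / 2) (by linarith)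
  set J := max J₁ 1 with hJdef
  have hJ : 0 < J := lt_of_lt_of_le one_pos (le_max_right _ _)
  obtain ⟨v, hvv⟩ := hJ₁ J (le_max_left _ _) hJ
  have hc := cl_pos hαβ hJ
  have Dg : ∀ i : Fin J, Dens α β (fun y => (1 / cl α β J) * ind (ca α β J i) (ca α β J i + cl α β J) y) := by
    intro i
    refine ⟨(measurable_ind _ _).const_mul _, fun y _ => ?_, ⟨1 / cl α β J * 1, fun y => ?_⟩, ?_⟩
    · have := ind_nonneg (ca α β J i) (ca α β J i + cl α β J) y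
      positivity
    · rw [abs_mul, abs_of_pos (by positivity : 0 < 1 / cl α β J)]
      have := abs_ind_le (ca α β J i) (ca α β J i + cl α β J) y
      gcongr
    · rw [integral_const_mul]
      have e1 : ∫ y in Ico α β, ind (ca α β J i) (ca α β J i + cl α β J) y = cl α β J := by
        unfold ind
        rw [setIntegral_indicator measurableSet_Ico, inter_eq_right.2 (cell_subset hαβ hJ i),
          setIntegral_const, smul_eq_mul, Measure.real, Real.volume_Ico,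
          ENNReal.toReal_ofReal (by linarith)]
        ring
      rw [e1]
      field_simp
  have hsum : ∀ y ∈ Ico α β, ∑ i : Fin J, cl α β J * ((1 / cl α β J) * ind (ca α β J i) (ca α β J i + cl α β J) y) = 1 := by
    intro y hy
    obtain ⟨i₀, hi₀⟩ := exists_cell hαβ hJ hy
    have h1 := sum_ind_mul hαβ hJ (fun _ => (1 : ℝ)) hi₀
    calc _ = ∑ i : Fin J, ind (ca α β J i) (ca α β J i + cl α β J) y * 1 := by
          refine Finset.sum_congr rfl fun i _ => ?_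
          field_simp
      _ = 1 := h1
  obtain ⟨σ, s1, s2, s3⟩ := realise hα hαβ hβ hJ mN hr Dg hsum (le_refl 0) zero_le_one
    (fun i y hy => by
      simp only [sub_zero]
      unfold ind
      rw [indicator_of_mem hy, mul_one]) T δ (fun _ => 0) v hvv
  refine ⟨σ, Gr α β J N ⌊2 * T / δ⌋₊ (fun i y => (1 / cl α β J) * ind (ca α β J i) (ca α β J i + cl α β J) y)
    T δ (fun _ => 0), IsStep_Gr hαβ hJ T δ _, Gr_bdd hαβ hJ hT hδ0.le hδr hr _,
    fun y hy => Gr_off hαβ hJ T δ _ hy, s1, ?_, ?_⟩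
  · filter_upwards [s2] with x hx hxQ
    rw [← hx hxQ, abs_sub_comm]
    exact hd (σ.f x)
  · refine s3.trans (ENNReal.ofReal_le_ofReal ?_)
    linarith

/-- base step with free moves -/
theorem base_free {α β T : ℝ} (hα : -(1 / 8) ≤ α) (hαβ : α < β) (hβ : β ≤ 1 / 8) (hT : 0 < T)
    {g : ℝ → ℝ} (hg : Measurable g) (hgb : ∀ y, |g y| ≤ T) {δ : ℝ} (hδ0 : 0 < δ) {e : ℝ} (he : 0 < e) :
    ∃ σ : MIso mu mu, ∃ h' : ℝ → ℝ, IsStep h' ∧ (∀ y, |h' y| ≤ T) ∧ (∀ y, y ∉ Ico α β → h' y = 0) ∧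
      (∀ x, x ∉ Ico α β → σ.f x = x) ∧
      (∀ᵐ x ∂mu, x ∈ Ico α β → |g (σ.f x) - h' x| ≤ δ) ∧
      NN h' ≤ ENNReal.ofReal (2 * T) * (CR * ENNReal.ofReal (β - α))
        + ENNReal.ofReal (|avQ α β g| + δ) * NN (ind α β) + ENNReal.ofReal e := by
  have hα1 : -1 ≤ α := by linarith
  have hβ1 : β ≤ 1 := by linarith
  have hL : 0 < β - α := by linarith
  set N := lab T δ g with hN
  have mN : Measurable N := measurable_lab hg
  have mF : Measurable fun y => -T + δ * (N y : ℝ) :=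
    measurable_const.add (((measurable_of_countable _).comp mN).const_mul δ)
  have hr : ∀ y, N y ≤ ⌊2 * T / δ⌋₊ := lab_le hδ0 hgb
  have hδr := mul_floor_le hδ0 hT
  have hd := abs_lab_sub_le hδ0 hgb
  have hFb : ∀ y, |-T + δ * (N y : ℝ)| ≤ T := FN_bdd hT hδ0.le hδr hr
  have he' : ENNReal.ofReal (e / (2 * T)) ≠ 0 := by
    rw [ne_eq, ENNReal.ofReal_eq_zero, not_le]; positivity
  obtain ⟨ℓ₀, hℓ₀, H⟩ := CellSys.RS2 hαβ hα hβ he'
  obtain ⟨J₃, hJ₃⟩ := exists_J (α := α) (β := β) hℓ₀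
  set J := max J₃ 1 with hJdef
  have hJ : 0 < J := lt_of_lt_of_le one_pos (le_max_right _ _)
  have hcl := hJ₃ J (le_max_left _ _) hJ
  have hc := cl_pos hαβ hJ
  have Dg : ∀ i : Fin J, Dens α β (fun _ => 1 / (β - α)) := by
    intro i
    refine ⟨measurable_const, fun y _ => by positivity, ⟨|1 / (β - α)|, fun y => le_refl _⟩, ?_⟩
    rw [setIntegral_const, smul_eq_mul, Measure.real, Real.volume_Ico, ENNReal.toReal_ofReal hL.le]
    field_simp
  have hsum : ∀ y ∈ Ico α β, ∑ _i : Fin J, cl α β J * (1 / (β - α)) = 1 := by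
    intro y hy
    rw [sum_cl hJ]
    field_simp
  obtain ⟨S, hS1, hS2, hS3, hS4⟩ := exists_sys hα1 hαβ hβ1 hJ mN hr Dg hT hδ0.le hδr ∅
    (ρ := 1) zero_le_one (fun i _ => xi_var_one mN (Dg i) hr hT hδ0.le hδr)
  obtain ⟨u, hu⟩ := H (Fin J) S (by rw [hS1]) (by rw [hS2]; exact hcl)
    (fun i => by rw [hS3]; exact le_ca hαβ hJ i) (fun i => by rw [hS3, hS2]; exact ca_add_le hαβ hJ i)
  obtain ⟨σ, s1, s2, s3⟩ := realise hα1 hαβ hβ1 hJ mN hr Dg hsum zero_le_one (le_refl 1)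
    (fun i y hy => by simp only [sub_self, zero_div]; positivity) T δ u (fun i => 0) (le_refl _)
  refine ⟨σ, Gr α β J N ⌊2 * T / δ⌋₊ (fun _ _ => 1 / (β - α)) T δ u, IsStep_Gr hαβ hJ T δ _,
    Gr_bdd hαβ hJ hT hδ0.le hδr hr _,
    fun y hy => Gr_off hαβ hJ T δ _ hy, s1, ?_, ?_⟩
  · filter_upwards [s2] with x hx hxQ
    rw [← hx hxQ, abs_sub_comm]
    exact hd (σ.f x)
  · have hm : ∀ i : Fin J, mm α β N T δ (fun _ => 1 / (β - α)) = avQ α β (fun y => -T + δ * (N y : ℝ)) := by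
      intro i
      unfold mm avQ
      rw [integral_mul_const]
      ring
    have hid : (fun y => Gr α β J N ⌊2 * T / δ⌋₊ (fun _ _ => 1 / (β - α)) T δ u y) = fun y =>
        2 * T * S.psi u y + avQ α β (fun y => -T + δ * (N y : ℝ)) * ind α β y := by
      funext y
      rw [hS4 u y]
      simp only [Finset.sum_empty, add_zero]
      congr 1
      by_cases hy : y ∈ Ico α β
      · obtain ⟨i₀, hi₀⟩ := exists_cell hαβ hJ hy
        rw [sum_ind_mul hαβ hJ (fun i => mm α β N T δ (fun _ => 1 / (β - α))) hi₀, hm i₀]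
        have : ind α β y = 1 := by unfold ind; exact indicator_of_mem hy _
        rw [this, mul_one]
      · rw [sum_ind_mul_off hαβ hJ (fun i => mm α β N T δ (fun _ => 1 / (β - α))) hy]
        have : ind α β y = 0 := by unfold ind; exact indicator_of_notMem hy _
        rw [this, mul_zero]
    have hid' : Gr α β J N ⌊2 * T / δ⌋₊ (fun _ _ => 1 / (β - α)) T δ u = fun y =>
        2 * T * S.psi u y + avQ α β (fun y => -T + δ * (N y : ℝ)) * ind α β y := hid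
    rw [hid']
    have mpsi : Integrable (S.psi u) mu := by
      unfold CellSys.psi
      exact integrable_finsetSum _ fun i _ => S.integrable_cf i (u i)
    refine (NN_add_le (mpsi.const_mul _) ((integrable_ind _ _).const_mul _)).trans ?_
    rw [NN_const_mul, NN_const_mul]
    have e1 : ‖2 * T‖ₑ = ENNReal.ofReal (2 * T) := by
      rw [← ofReal_norm, Real.norm_eq_abs, abs_of_pos (by linarith)]
    have e2 : ‖avQ α β (fun y => -T + δ * (N y : ℝ))‖ₑ ≤ ENNReal.ofReal (|avQ α β g| + δ) := by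
      rw [← ofReal_norm, Real.norm_eq_abs]
      apply ENNReal.ofReal_le_ofReal
      have h1 := avQ_sub_le hαβ mF hg hFb hgb hd
      have h2 := abs_sub_abs_le_abs_sub (avQ α β (fun y => -T + δ * (N y : ℝ))) (avQ α β g)
      linarith
    rw [e1]
    calc _ ≤ ENNReal.ofReal (2 * T) * (CR * ENNReal.ofReal (β - α) + ENNReal.ofReal (e / (2 * T)))
          + ENNReal.ofReal (|avQ α β g| + δ) * NN (ind α β) := by gcongr
      _ = ENNReal.ofReal (2 * T) * (CR * ENNReal.ofReal (β - α)) + ENNReal.ofReal e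
          + ENNReal.ofReal (|avQ α β g| + δ) * NN (ind α β) := by
          rw [mul_add, ← ENNReal.ofReal_mul (by positivity)]
          congr 3
          field_simp
      _ = _ := by ring

end Pool.Agent.MP_f3eb7e
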