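import Pool.Agent.Lib.MP_f3eb7e_an.Leg2

set_option autoImplicit false

open MeasureTheory Set

namespace Pool.Agent.MP_f3eb7e

/-- the weight `(1-x^2)^{-1/4}` -/
noncomputable def gw (x : ℝ) : ℝ := 1 / √(√(1 - x ^ 2))

lemma wpos {x : ℝ} (hx : x ∈ Ioo (-1 : ℝ) 1) : 0 < √(1 - x ^ 2) :=
  Real.sqrt_pos.2 (by nlinarith [hx.1, hx.2])

lemma gw_nonneg (x : ℝ) : 0 ≤ gw x := by unfold gw; positivity

lemma gw_pos {x : ℝ} (hx : x ∈ Ioo (-1 : ℝ) 1) : 0 < gw x := by
  have := wpos hx
  unfold gw; positivity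

lemma gw_sq {x : ℝ} (hx : x ∈ Ioo (-1 : ℝ) 1) : gw x ^ 2 = 1 / √(1 - x ^ 2) := by
  have := wpos hx
  unfold gw
  rw [div_pow, Real.sq_sqrt this.le]; norm_num

lemma one_le_gw {x : ℝ} (hx : x ∈ Ioo (-1 : ℝ) 1) : 1 ≤ gw x := by
  have h := wpos hx
  unfold gw
  rw [le_div_iff₀ (by positivity), one_mul]
  have h1 : √(1 - x ^ 2) ≤ 1 := Real.sqrt_le_one.2 (by nlinarith [sq_nonneg x])
  exact Real.sqrt_le_one.2 h1

lemma phi_sq_le {k : ℕ} {x : ℝ} (hx : x ∈ Ioo (-1 : ℝ) 1) : phi k x ^ 2 ≤ 2 * gw x ^ 2 := by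
  have h := phi_sq_bound k hx
  have hw := wpos hx
  rw [gw_sq hx, mul_one_div, le_div_iff₀ hw]
  linarith

lemma abs_phi_le {k : ℕ} {x : ℝ} (hx : x ∈ Ioo (-1 : ℝ) 1) : |phi k x| ≤ √2 * gw x := by
  apply abs_le_of_sq_le_sq _ (mul_nonneg (Real.sqrt_nonneg _) (gw_nonneg x))
  rw [mul_pow, Real.sq_sqrt (by norm_num)]
  exact phi_sq_le hx

/-- kernel over a finite set of degrees -/
noncomputable def ker (s : Finset ℕ) (x y : ℝ) : ℝ := ∑ k ∈ s, phi k x * phi k y

/-- antiderivative in `y` of the kernel -/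
noncomputable def Ker (s : Finset ℕ) (x y : ℝ) : ℝ := ∑ k ∈ s, phi k x * Phi k y

lemma continuous_ker (s : Finset ℕ) (x : ℝ) : Continuous (ker s x) := by
  unfold ker
  apply continuous_finsetSum
  intro k _
  have := continuous_phi k
  fun_prop

lemma hasDerivAt_Ker (s : Finset ℕ) (x y : ℝ) : HasDerivAt (Ker s x) (ker s x y) y := by
  unfold Ker ker
  apply HasDerivAt.fun_sum
  intro k _
  exact (hasDerivAt_Phi k y).const_mul _

lemma continuous_Ker (s : Finset ℕ) (x : ℝ) : Continuous (Ker s x) :=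
  continuous_iff_continuousAt.2 fun y => (hasDerivAt_Ker s x y).continuousAt

lemma integral_ker (s : Finset ℕ) (x a b : ℝ) :
    ∫ y in a..b, ker s x y = Ker s x b - Ker s x a :=
  intervalIntegral.integral_eq_sub_of_hasDerivAt (fun y _ => hasDerivAt_Ker s x y)
    ((continuous_ker s x).intervalIntegrable _ _)

lemma Ker_neg_one (s : Finset ℕ) (x : ℝ) : Ker s x (-1) = 0 := by
  simp [Ker, Phi_neg_one]

lemma integral_ker_sq (s : Finset ℕ) (x : ℝ) :
    ∫ y in (-1 : ℝ)..1, ker s x y ^ 2 = ∑ k ∈ s, phi k x ^ 2 := by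
  unfold ker
  exact integral_sum_phi_sq s (fun k => phi k x)

lemma integral_Ker_sq_le (s : Finset ℕ) (hs : ∀ k ∈ s, 1 ≤ k) (x : ℝ) :
    ∫ y in (-1 : ℝ)..1, Ker s x y ^ 2 ≤ 4 * ∑ k ∈ s, phi k x ^ 2 / (k : ℝ) ^ 2 := by
  unfold Ker
  exact integral_sum_Phi_sq s hs (fun k => phi k x)

/-- coefficient in the normalized Christoffel-Darboux formula -/
noncomputable def cdc (m : ℕ) : ℝ := ((m : ℝ) + 1) / (2 * (√((m : ℝ) + 3 / 2) * √((m : ℝ) + 1 / 2)))

lemma cdc_nonneg (m : ℕ) : 0 ≤ cdc m := by unfold cdc; positivity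

lemma cdc_le (m : ℕ) : cdc m ≤ 3 / 5 := by
  unfold cdc
  rw [← Real.sqrt_mul (by positivity)]
  have h : (5 / 6 : ℝ) * ((m : ℝ) + 1) ≤ √(((m : ℝ) + 3 / 2) * ((m : ℝ) + 1 / 2)) := by
    apply Real.le_sqrt_of_sq_le
    have : (0 : ℝ) ≤ m := by positivity
    nlinarith
  rw [div_le_iff₀ (by positivity)]
  linarith

lemma cd_normalized (m : ℕ) (x y : ℝ) :
    (x - y) * ker (Finset.range (m + 1)) x y
      = cdc m * (phi (m + 1) x * phi m y - phi m x * phi (m + 1) y) := by
  have h := christoffel_darboux m x y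
  have e : ker (Finset.range (m + 1)) x y
      = ∑ k ∈ Finset.range (m + 1), ((k : ℝ) + 1 / 2) * (legP k x * legP k y) := by
    unfold ker
    exact Finset.sum_congr rfl fun k _ => phi_mul_phi k x y
  rw [e, h]
  unfold cdc phi
  push_cast
  have e1 : ((m : ℝ) + 1 + 1 / 2) = (m : ℝ) + 3 / 2 := by ring
  rw [e1]
  have h1 : √((m : ℝ) + 3 / 2) ≠ 0 := by positivity
  have h2 : √((m : ℝ) + 1 / 2) ≠ 0 := by positivity
  field_simp

/-- off-diagonal bound for the kernel -/
lemma abs_ker_le (n : ℕ) {x y : ℝ} (hx : x ∈ Ioo (-1 : ℝ) 1) (hy : y ∈ Ioo (-1 : ℝ) 1) (hxy : x ≠ y) :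
    |ker (Finset.range n) x y| ≤ 3 * gw x * gw y / |x - y| := by
  have hpos : 0 < |x - y| := abs_pos.2 (sub_ne_zero.2 hxy)
  rw [le_div_iff₀ hpos]
  rcases n with _ | m
  · simp only [ker, Finset.range_zero, Finset.sum_empty, abs_zero, zero_mul]
    have := gw_nonneg x
    have := gw_nonneg y
    positivity
  · rw [mul_comm, ← abs_mul, cd_normalized, abs_mul, abs_of_nonneg (cdc_nonneg m)]
    have h1 := cdc_le m
    have hb : |phi (m + 1) x * phi m y - phi m x * phi (m + 1) y| ≤ 4 * (gw x * gw y) := by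
      calc |phi (m + 1) x * phi m y - phi m x * phi (m + 1) y|
          ≤ |phi (m + 1) x * phi m y| + |phi m x * phi (m + 1) y| := abs_sub _ _
        _ = |phi (m + 1) x| * |phi m y| + |phi m x| * |phi (m + 1) y| := by rw [abs_mul, abs_mul]
        _ ≤ (√2 * gw x) * (√2 * gw y) + (√2 * gw x) * (√2 * gw y) := by
            have a1 := abs_phi_le (k := m + 1) hx
            have a2 := abs_phi_le (k := m) hy
            have a3 := abs_phi_le (k := m) hx
            have a4 := abs_phi_le (k := m + 1) hy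
            have g1 := gw_nonneg x
            have g2 := gw_nonneg y
            gcongr
        _ = 2 * (√2 * √2) * (gw x * gw y) := by ring
        _ = 4 * (gw x * gw y) := by rw [Real.mul_self_sqrt (by norm_num)]; ring
    have h0 : 0 ≤ gw x * gw y := mul_nonneg (gw_nonneg x) (gw_nonneg y)
    calc cdc m * |phi (m + 1) x * phi m y - phi m x * phi (m + 1) y|
        ≤ (3 / 5) * (4 * (gw x * gw y)) := by
          apply mul_le_mul h1 hb (abs_nonneg _) (by norm_num)
      _ ≤ 3 * gw x * gw y := by nlinarith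

/-- integration by parts estimate -/
lemma ibp_bound {φ Ψ : ℝ → ℝ} (hφ : Continuous φ) (hΨ : ∀ y, HasDerivAt Ψ (φ y) y) {a b x M d : ℝ}
    (hab : a ≤ b) (hM : ∀ y ∈ Icc a b, |Ψ y| ≤ M) (hd : 0 < d) (hx : x ≤ a - d ∨ b + d ≤ x) :
    |∫ y in a..b, φ y / (x - y)| ≤ 2 * M / d := by
  have hΨc : Continuous Ψ := continuous_iff_continuousAt.2 fun y => (hΨ y).continuousAt
  have hne : ∀ y ∈ uIcc a b, x - y ≠ 0 := by
    intro y hy
    rw [uIcc_of_le hab] at hy
    rcases hx with h | h
    · have : x - y < 0 := by linarith [hy.1]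
      exact this.ne
    · have : 0 < x - y := by linarith [hy.2]
      exact this.ne'
  have hM0 : 0 ≤ M := (abs_nonneg _).trans (hM a ⟨le_refl _, hab⟩)
  have hder : ∀ y ∈ uIcc a b, HasDerivAt (fun y => Ψ y / (x - y))
      (φ y / (x - y) + Ψ y / (x - y) ^ 2) y := by
    intro y hy
    have h0 : HasDerivAt (fun y : ℝ => x - y) (-1) y := by
      simpa using (hasDerivAt_id' y).const_sub x
    have h := (hΨ y).div h0 (hne y hy)
    refine HasDerivAt.congr_deriv h ?_
    have := hne y hy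
    field_simp
    ring
  have hc1 : ContinuousOn (fun y => φ y / (x - y)) (uIcc a b) :=
    hφ.continuousOn.div (by fun_prop) hne
  have hc2 : ContinuousOn (fun y => Ψ y / (x - y) ^ 2) (uIcc a b) :=
    hΨc.continuousOn.div (by fun_prop) (fun y hy => pow_ne_zero 2 (hne y hy))
  have hi1 : IntervalIntegrable (fun y => φ y / (x - y)) volume a b := hc1.intervalIntegrable
  have hi2 : IntervalIntegrable (fun y => Ψ y / (x - y) ^ 2) volume a b := hc2.intervalIntegrable
  have hsum := intervalIntegral.integral_eq_sub_of_hasDerivAt hder (hi1.add hi2)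
  rw [intervalIntegral.integral_add hi1 hi2] at hsum
  -- the integral of 1/(x-y)^2
  have hder2 : ∀ y ∈ uIcc a b, HasDerivAt (fun y => M / (x - y)) (M / (x - y) ^ 2) y := by
    intro y hy
    have h0 : HasDerivAt (fun y : ℝ => x - y) (-1) y := by
      simpa using (hasDerivAt_id' y).const_sub x
    have h := (hasDerivAt_const y M).div h0 (hne y hy)
    refine HasDerivAt.congr_deriv h ?_
    simp
  have hc3 : ContinuousOn (fun y => M / (x - y) ^ 2) (uIcc a b) :=
    continuousOn_const.div (by fun_prop) (fun y hy => pow_ne_zero 2 (hne y hy))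
  have hi3 : IntervalIntegrable (fun y => M / (x - y) ^ 2) volume a b := hc3.intervalIntegrable
  have hsum2 := intervalIntegral.integral_eq_sub_of_hasDerivAt hder2 hi3
  have hest : |∫ y in a..b, Ψ y / (x - y) ^ 2| ≤ M / (x - b) - M / (x - a) := by
    rw [← hsum2]
    apply (intervalIntegral.abs_integral_le_integral_abs hab).trans
    apply intervalIntegral.integral_mono_on hab hi2.abs hi3
    intro y hy
    rw [abs_div, abs_of_nonneg (sq_nonneg (x - y))]
    gcongr
    exact hM y hy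
  have hval : ∫ y in a..b, φ y / (x - y) = Ψ b / (x - b) - Ψ a / (x - a) - ∫ y in a..b, Ψ y / (x - y) ^ 2 := by
    linarith
  rw [hval]
  have hb := hM b ⟨hab, le_refl _⟩
  have ha := hM a ⟨le_refl _, hab⟩
  have t : |Ψ b / (x - b) - Ψ a / (x - a) - ∫ y in a..b, Ψ y / (x - y) ^ 2|
      ≤ |Ψ b| / |x - b| + |Ψ a| / |x - a| + |∫ y in a..b, Ψ y / (x - y) ^ 2| := by
    calc _ ≤ |Ψ b / (x - b) - Ψ a / (x - a)| + |∫ y in a..b, Ψ y / (x - y) ^ 2| := abs_sub _ _
      _ ≤ _ := by
        gcongr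
        rw [← abs_div, ← abs_div]
        exact abs_sub _ _
  refine t.trans ?_
  have t2 : |Ψ b| / |x - b| + |Ψ a| / |x - a| + |∫ y in a..b, Ψ y / (x - y) ^ 2|
      ≤ M / |x - b| + M / |x - a| + (M / (x - b) - M / (x - a)) := by gcongr
  refine t2.trans ?_
  rcases hx with h | h
  · have e1 : |x - b| = b - x := by rw [abs_of_neg (by linarith)]; ring
    have e2 : |x - a| = a - x := by rw [abs_of_neg (by linarith)]; ring
    rw [e1, e2]
    have e3 : M / (x - b) = -(M / (b - x)) := by rw [← div_neg]; congr 1; ring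
    have e4 : M / (x - a) = -(M / (a - x)) := by rw [← div_neg]; congr 1; ring
    rw [e3, e4]
    have : M / (a - x) ≤ M / d := by
      apply div_le_div_of_nonneg_left hM0 hd (by linarith)
    have e5 : 2 * M / d = M / d + M / d := by ring
    rw [e5]; linarith
  · have e1 : |x - b| = x - b := abs_of_pos (by linarith)
    have e2 : |x - a| = x - a := abs_of_pos (by linarith)
    rw [e1, e2]
    have : M / (x - b) ≤ M / d := by
      apply div_le_div_of_nonneg_left hM0 hd (by linarith)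
    have e5 : 2 * M / d = M / d + M / d := by ring
    rw [e5]; linarith

lemma Phi_one {k : ℕ} (hk : 1 ≤ k) : Phi k 1 = 0 := by
  rw [Phi_eq_legD hk]; norm_num

lemma Phi_zero_eq (y : ℝ) : Phi 0 y = √(1 / 2) * (y + 1) := by
  unfold Phi phi
  simp [legP_zero]
  ring

lemma abs_Phi_sub_one_le (k : ℕ) {y : ℝ} (hy : y ∈ Icc (-1 : ℝ) 1) :
    |Phi k y - Phi k 1| ≤ 2 / ((k : ℝ) + 1) := by
  rcases Nat.eq_zero_or_pos k with h0 | h0
  · subst h0
    rw [Phi_zero_eq, Phi_zero_eq]
    have e : √(1 / 2) * (y + 1) - √(1 / 2) * (1 + 1) = -(√(1 / 2) * (1 - y)) := by ring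
    have h1 : √(1 / 2 : ℝ) ≤ 1 := Real.sqrt_le_one.2 (by norm_num)
    have h2 : 1 - y ≤ 2 := by linarith [hy.1]
    have h3 : 0 ≤ 1 - y := by linarith [hy.2]
    rw [e, abs_neg, abs_of_nonneg (mul_nonneg (Real.sqrt_nonneg _) h3)]
    have h4 : √(1 / 2 : ℝ) * (1 - y) ≤ 1 * 2 := mul_le_mul h1 h2 h3 (by norm_num)
    have h5 : (2 : ℝ) / (((0 : ℕ) : ℝ) + 1) = 2 := by norm_num
    rw [h5]; linarith
  · rw [Phi_one h0, sub_zero]
    exact abs_Phi_le k hy

/-- the common part of both one-sided estimates -/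
lemma abs_Ker_sub_le (m : ℕ) {x a b d : ℝ} (hx : x ∈ Ioo (-1 : ℝ) 1) (hab : a ≤ b) (hd : 0 < d)
    (hxd : x ≤ a - d ∨ b + d ≤ x) (Ψ : ℕ → ℝ → ℝ) (hΨ : ∀ k y, HasDerivAt (Ψ k) (phi k y) y)
    (hM : ∀ k : ℕ, ∀ y ∈ Icc a b, |Ψ k y| ≤ 2 / ((k : ℝ) + 1)) :
    |∫ y in a..b, ker (Finset.range (m + 1)) x y| ≤ 7 * gw x / (((m : ℝ) + 1) * d) := by
  have hne : ∀ y ∈ uIcc a b, x - y ≠ 0 := by
    intro y hy
    rw [uIcc_of_le hab] at hy
    rcases hxd with h | h
    · have : x - y < 0 := by linarith [hy.1]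
      exact this.ne
    · have : 0 < x - y := by linarith [hy.2]
      exact this.ne'
  have e : ∫ y in a..b, ker (Finset.range (m + 1)) x y
      = ∫ y in a..b, ((cdc m * phi (m + 1) x) * (phi m y / (x - y))
        - (cdc m * phi m x) * (phi (m + 1) y / (x - y))) := by
    apply intervalIntegral.integral_congr
    intro y hy
    have h1 := cd_normalized m x y
    have h2 := hne y hy
    simp only
    field_simp
    linear_combination h1
  have hi : ∀ k : ℕ, IntervalIntegrable (fun y => phi k y / (x - y)) volume a b := by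
    intro k
    apply ContinuousOn.intervalIntegrable
    exact (continuous_phi k).continuousOn.div (by fun_prop) hne
  rw [e, intervalIntegral.integral_sub ((hi m).const_mul _) ((hi (m + 1)).const_mul _),
    intervalIntegral.integral_const_mul, intervalIntegral.integral_const_mul]
  have b1 := ibp_bound (continuous_phi m) (hΨ m) hab (hM m) hd hxd
  have b2 := ibp_bound (continuous_phi (m + 1)) (hΨ (m + 1)) hab (hM (m + 1)) hd hxd
  have b2' : |∫ y in a..b, phi (m + 1) y / (x - y)| ≤ 2 * (2 / ((m : ℝ) + 1)) / d := by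
    refine b2.trans ?_
    gcongr
    push_cast; linarith
  have p1 := abs_phi_le (k := m + 1) hx
  have p2 := abs_phi_le (k := m) hx
  have c0 := cdc_nonneg m
  have c1 := cdc_le m
  have g0 := gw_nonneg x
  have s2 : √(2 : ℝ) ≤ 71 / 50 := by
    rw [Real.sqrt_le_left (by norm_num)]; norm_num
  calc |cdc m * phi (m + 1) x * (∫ y in a..b, phi m y / (x - y))
        - cdc m * phi m x * ∫ y in a..b, phi (m + 1) y / (x - y)|
      ≤ |cdc m * phi (m + 1) x * (∫ y in a..b, phi m y / (x - y))|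
        + |cdc m * phi m x * ∫ y in a..b, phi (m + 1) y / (x - y)| := abs_sub _ _
    _ = cdc m * |phi (m + 1) x| * |∫ y in a..b, phi m y / (x - y)|
        + cdc m * |phi m x| * |∫ y in a..b, phi (m + 1) y / (x - y)| := by
        rw [abs_mul, abs_mul, abs_mul, abs_mul, abs_of_nonneg c0]
    _ ≤ (3 / 5) * (√2 * gw x) * (2 * (2 / ((m : ℝ) + 1)) / d)
        + (3 / 5) * (√2 * gw x) * (2 * (2 / ((m : ℝ) + 1)) / d) := by gcongr
    _ = (24 / 5) * √2 * (gw x / (((m : ℝ) + 1) * d)) := by
        have : ((m : ℝ) + 1) ≠ 0 := by positivity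
        field_simp; ring
    _ ≤ 7 * (gw x / (((m : ℝ) + 1) * d)) := by
        apply mul_le_mul_of_nonneg_right _ (by positivity)
        nlinarith
    _ = 7 * gw x / (((m : ℝ) + 1) * d) := by ring

lemma sum_phi_sq_le (s : Finset ℕ) {x : ℝ} (hx : x ∈ Ioo (-1 : ℝ) 1) :
    ∑ k ∈ s, phi k x ^ 2 ≤ 2 * s.card * gw x ^ 2 := by
  calc ∑ k ∈ s, phi k x ^ 2 ≤ ∑ _k ∈ s, 2 * gw x ^ 2 := Finset.sum_le_sum fun k _ => phi_sq_le hx
    _ = 2 * s.card * gw x ^ 2 := by rw [Finset.sum_const, nsmul_eq_mul]; ring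

/-- Cauchy-Schwarz on a short interval -/
lemma abs_integral_ker_short (s : Finset ℕ) {x a b : ℝ} (hx : x ∈ Ioo (-1 : ℝ) 1) (ha : -1 ≤ a)
    (hab : a ≤ b) (hb : b ≤ 1) :
    |∫ y in a..b, ker s x y| ≤ √((b - a) * (2 * s.card * gw x ^ 2)) := by
  apply Real.abs_le_sqrt
  have hc := continuous_ker s x
  have h1 : (∫ y in a..b, ker s x y) ^ 2 ≤ (b - a) * ∫ y in a..b, ker s x y ^ 2 := by
    rcases eq_or_lt_of_le hab with h | h
    · subst h; simp
    · -- ∫ (b-a) k^2 - 2 I k + I^2/(b-a) ≥ 0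
      set I := ∫ y in a..b, ker s x y with hI
      have h0 : 0 ≤ ∫ y in a..b, (ker s x y - I / (b - a)) ^ 2 :=
        intervalIntegral.integral_nonneg hab (fun y _ => sq_nonneg _)
      have e : ∫ y in a..b, (ker s x y - I / (b - a)) ^ 2
          = (∫ y in a..b, ker s x y ^ 2) - I ^ 2 / (b - a) := by
        have e1 : ∀ y, (ker s x y - I / (b - a)) ^ 2
            = ker s x y ^ 2 - (2 * (I / (b - a))) * ker s x y + (I / (b - a)) ^ 2 := by
          intro y; ring
        simp_rw [e1]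
        rw [intervalIntegral.integral_add, intervalIntegral.integral_sub,
          intervalIntegral.integral_const_mul, intervalIntegral.integral_const, ← hI]
        · have : b - a ≠ 0 := by linarith
          simp only [smul_eq_mul]
          field_simp
          ring
        all_goals exact (by fun_prop : Continuous _).intervalIntegrable _ _
      rw [e] at h0
      have hba : 0 < b - a := by linarith
      have := mul_nonneg hba.le h0
      rw [mul_sub, mul_div_cancel₀ _ hba.ne'] at this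
      linarith
  have h2 : ∫ y in a..b, ker s x y ^ 2 ≤ ∫ y in (-1 : ℝ)..1, ker s x y ^ 2 := by
    apply intervalIntegral.integral_mono_interval ha hab hb
    · exact Filter.Eventually.of_forall fun y => sq_nonneg _
    · exact (by fun_prop : Continuous _).intervalIntegrable _ _
  rw [integral_ker_sq] at h2
  have h3 := sum_phi_sq_le s hx
  calc _ ≤ (b - a) * ∫ y in a..b, ker s x y ^ 2 := h1
    _ ≤ (b - a) * (2 * s.card * gw x ^ 2) :=
      mul_le_mul_of_nonneg_left (h2.trans h3) (by linarith)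

/-- uniform bound for the integrated kernel -/
lemma abs_Ker_le (n : ℕ) {x a : ℝ} (hx : x ∈ Ioo (-1 : ℝ) 1) (ha : a ∈ Icc (-1 : ℝ) 1) :
    |Ker (Finset.range n) x a| ≤ 10 * gw x := by
  have g0 := gw_nonneg x
  have g1 := one_le_gw hx
  rcases n with _ | m
  · simp [Ker]; positivity
  have hm : (0 : ℝ) < (m : ℝ) + 1 := by positivity
  set δ : ℝ := 1 / ((m : ℝ) + 1) with hδ
  have hδ0 : 0 < δ := by positivity
  have hδ1 : ((m : ℝ) + 1) * δ = 1 := by rw [hδ]; field_simp
  have short : ∀ c e : ℝ, -1 ≤ c → c ≤ e → e ≤ 1 → e - c ≤ δ →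
      |∫ y in c..e, ker (Finset.range (m + 1)) x y| ≤ 2 * gw x := by
    intro c e hc hce he hlen
    refine (abs_integral_ker_short _ hx hc hce he).trans ?_
    rw [Finset.card_range]
    push_cast
    apply Real.sqrt_le_iff.2
    constructor
    · positivity
    · have : (e - c) * (2 * ((m : ℝ) + 1) * gw x ^ 2) ≤ δ * (2 * ((m : ℝ) + 1) * gw x ^ 2) := by
        apply mul_le_mul_of_nonneg_right hlen (by positivity)
      have e1 : δ * (2 * ((m : ℝ) + 1) * gw x ^ 2) = 2 * gw x ^ 2 := by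
        linear_combination (2 * gw x ^ 2) * hδ1
      nlinarith [sq_nonneg (gw x)]
  rcases le_total a x with hax | hax
  · -- left side
    have hK : Ker (Finset.range (m + 1)) x a = ∫ y in (-1 : ℝ)..a, ker (Finset.range (m + 1)) x y := by
      rw [integral_ker, Ker_neg_one, sub_zero]
    have hL : ∀ c : ℝ, -1 ≤ c → c ≤ x - δ →
        |∫ y in (-1 : ℝ)..c, ker (Finset.range (m + 1)) x y| ≤ 7 * gw x := by
      intro c hc1 hc2
      have := abs_Ker_sub_le m hx hc1 hδ0 (Or.inr (by linarith)) Phi hasDerivAt_Phi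
        (fun k y hy => abs_Phi_le k ⟨hy.1, by linarith [hy.2, hx.2]⟩)
      rwa [hδ1, div_one] at this
    rcases le_total a (x - δ) with h | h
    · rw [hK]; exact (hL a ha.1 h).trans (by linarith)
    · rcases le_total (-1) (x - δ) with h' | h'
      · rw [hK, ← intervalIntegral.integral_add_adjacent_intervals (b := x - δ)
          ((continuous_ker _ x).intervalIntegrable _ _) ((continuous_ker _ x).intervalIntegrable _ _)]
        refine (abs_add_le _ _).trans ?_
        have a1 := hL (x - δ) h' (le_refl _)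
        have a2 := short (x - δ) a h' h ha.2 (by linarith)
        linarith
      · rw [hK]
        exact (short (-1) a (le_refl _) ha.1 ha.2 (by linarith)).trans (by linarith)
  · have hK : Ker (Finset.range (m + 1)) x a = Ker (Finset.range (m + 1)) x 1
        - ∫ y in a..1, ker (Finset.range (m + 1)) x y := by
      rw [integral_ker]; ring
    have hK1 : Ker (Finset.range (m + 1)) x 1 = 1 := by
      unfold Ker
      rw [Finset.sum_eq_single 0]
      · rw [Phi_zero_eq]
        unfold phi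
        rw [legP_zero]
        have : √(1 / 2 : ℝ) * √(1 / 2 : ℝ) = 1 / 2 := Real.mul_self_sqrt (by norm_num)
        push_cast
        rw [zero_add]
        linear_combination 2 * this
      · intro k _ hk
        rw [Phi_one (Nat.one_le_iff_ne_zero.2 hk), mul_zero]
      · intro h; exact absurd (Finset.mem_range.2 (Nat.succ_pos m)) h
    have hR : ∀ c : ℝ, x + δ ≤ c → c ≤ 1 →
        |∫ y in c..1, ker (Finset.range (m + 1)) x y| ≤ 7 * gw x := by
      intro c hc1 hc2
      have := abs_Ker_sub_le m hx hc2 hδ0 (Or.inl (by linarith)) (fun k y => Phi k y - Phi k 1)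
        (fun k y => (hasDerivAt_Phi k y).sub_const _)
        (fun k y hy => abs_Phi_sub_one_le k ⟨by linarith [hy.1, hx.1], hy.2⟩)
      rwa [hδ1, div_one] at this
    have main : |∫ y in a..1, ker (Finset.range (m + 1)) x y| ≤ 9 * gw x := by
      rcases le_total (x + δ) a with h | h
      · exact (hR a h ha.2).trans (by linarith)
      · rcases le_total (x + δ) 1 with h' | h'
        · rw [← intervalIntegral.integral_add_adjacent_intervals (b := x + δ)
            ((continuous_ker _ x).intervalIntegrable _ _) ((continuous_ker _ x).intervalIntegrable _ _)]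
          refine (abs_add_le _ _).trans ?_
          have a1 := hR (x + δ) (le_refl _) h'
          have a2 := short a (x + δ) ha.1 h h' (by linarith)
          linarith
        · exact (short a 1 ha.1 ha.2 (le_refl _) (by linarith)).trans (by linarith)
    rw [hK, hK1]
    refine (abs_sub _ _).trans ?_
    rw [abs_one]
    linarith

end Pool.Agent.MP_f3eb7e
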