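import Pool.Agent.Lib.MP_f3eb7e_an.MIso

set_option autoImplicit false

open MeasureTheory Set Filter Topology
open scoped ENNReal

namespace Pool.Agent.MP_f3eb7e

/-- cast an isomorphism along equalities of measures -/
lemma MIso.exists_cast {μ μ' ν ν' : Measure ℝ} (e : MIso μ ν) (h1 : μ = μ') (h2 : ν = ν') :
    ∃ e' : MIso μ' ν', e'.f = e.f := by
  subst h1; subst h2; exact ⟨e, rfl⟩

/-- **Rearrangement lemma** for integer valued functions -/
theorem rearrange (N N' : ℝ → ℕ) (hN : Measurable N) (hN' : Measurable N')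
    (h : ∀ k, volume.restrict (Icc (-1 : ℝ) 1) {x | N x = k}
      = volume.restrict (Icc (-1 : ℝ) 1) {x | N' x = k}) :
    ∃ σ : MIso (volume.restrict (Icc (-1 : ℝ) 1)) (volume.restrict (Icc (-1 : ℝ) 1)),
      (∀ᵐ x ∂(volume.restrict (Icc (-1 : ℝ) 1)), N (σ.f x) = N' x) ∧
      (∀ x, N x = N' x → σ.f x = x) := by
  classical
  set ν : Measure ℝ := volume.restrict (Icc (-1 : ℝ) 1) with hν
  have hmeq : MeasurableSet {x | N x = N' x} := measurableSet_eq_fun hN hN'
  set κα : ℝ → ℕ := fun x => if N x = N' x then 0 else N' x + 1 with hκα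
  set κβ : ℝ → ℕ := fun x => if N x = N' x then 0 else N x + 1 with hκβ
  have mα : Measurable κα := Measurable.ite hmeq measurable_const (hN'.add_const 1)
  have mβ : Measurable κβ := Measurable.ite hmeq measurable_const (hN.add_const 1)
  have hα0 : {x | κα x = 0} = {x | N x = N' x} := by
    ext x; simp only [hκα, mem_ofPred_eq]; split_ifs with h <;> simp [h]
  have hβ0 : {x | κβ x = 0} = {x | N x = N' x} := by
    ext x; simp only [hκβ, mem_ofPred_eq]; split_ifs with h <;> simp [h]
  have hαk : ∀ k, {x | κα x = k + 1} = {x | N' x = k} \ {x | N x = N' x} := by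
    intro k; ext x
    simp only [hκα, mem_ofPred_eq, Set.mem_sdiff]
    by_cases h : N x = N' x
    · rw [if_pos h]
      constructor
      · intro h'; exact absurd h'.symm (Nat.succ_ne_zero k)
      · intro h'; exact absurd h h'.2
    · rw [if_neg h]
      constructor
      · intro h'; exact ⟨Nat.succ.inj h', h⟩
      · intro h'; rw [h'.1]
  have hβk : ∀ k, {x | κβ x = k + 1} = {x | N x = k} \ {x | N x = N' x} := by
    intro k; ext x
    simp only [hκβ, mem_ofPred_eq, Set.mem_sdiff]
    by_cases h : N x = N' x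
    · rw [if_pos h]
      constructor
      · intro h'; exact absurd h'.symm (Nat.succ_ne_zero k)
      · intro h'; exact absurd h h'.2
    · rw [if_neg h]
      constructor
      · intro h'; exact ⟨Nat.succ.inj h', h⟩
      · intro h'; rw [h'.1]
  have hmeas_eq : ∀ k, ν {x | κα x = k + 1} = ν {x | κβ x = k + 1} := by
    intro k
    rw [hαk, hβk]
    have m1 : MeasurableSet {x | N x = k} := hN (measurableSet_singleton k)
    have m2 : MeasurableSet {x | N' x = k} := hN' (measurableSet_singleton k)
    have e1 : {x | N' x = k} \ {x | N x = N' x} = {x | N' x = k} \ ({x | N x = k} ∩ {x | N' x = k}) := by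
      ext x; simp only [Set.mem_sdiff, mem_ofPred_eq, mem_inter_iff]
      constructor
      · rintro ⟨a, b⟩; exact ⟨a, fun c => b (c.1.trans c.2.symm)⟩
      · rintro ⟨a, b⟩; exact ⟨a, fun c => b ⟨c.trans a, a⟩⟩
    have e2 : {x | N x = k} \ {x | N x = N' x} = {x | N x = k} \ ({x | N x = k} ∩ {x | N' x = k}) := by
      ext x; simp only [Set.mem_sdiff, mem_ofPred_eq, mem_inter_iff]
      constructor
      · rintro ⟨a, b⟩; exact ⟨a, fun c => b (c.1.trans c.2.symm)⟩
      · rintro ⟨a, b⟩; exact ⟨a, fun c => b ⟨a, c.symm.trans a⟩⟩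
    rw [e1, e2, measure_sdiff inter_subset_right (m1.inter m2).nullMeasurableSet (measure_ne_top _ _),
      measure_sdiff inter_subset_left (m1.inter m2).nullMeasurableSet (measure_ne_top _ _), h k]
  have hiso : ∀ k : ℕ, ∃ e : MIso (ν.restrict {x | κα x = k}) (ν.restrict {y | κβ y = k}),
      (k = 0 → ∀ x, e.f x = x) := by
    intro k
    rcases k with _ | k
    · obtain ⟨e', he'⟩ := (MIso.refl (ν.restrict {x | κα x = 0})).exists_cast rfl
        (show ν.restrict {x | κα x = 0} = ν.restrict {y | κβ y = 0} by rw [hα0, hβ0])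
      exact ⟨e', fun _ x => by rw [he']; rfl⟩
    · have r1 : ν.restrict {x | κα x = k + 1} = volume.restrict ({x | κα x = k + 1} ∩ Icc (-1) 1) := by
        rw [hν]
        exact Measure.restrict_restrict (mα (measurableSet_singleton (k + 1)))
      have r2 : ν.restrict {x | κβ x = k + 1} = volume.restrict ({x | κβ x = k + 1} ∩ Icc (-1) 1) := by
        rw [hν]
        exact Measure.restrict_restrict (mβ (measurableSet_singleton (k + 1)))
      have hv : volume ({x | κα x = k + 1} ∩ Icc (-1 : ℝ) 1) = volume ({x | κβ x = k + 1} ∩ Icc (-1 : ℝ) 1) := by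
        have h1 := hmeas_eq k
        have m1 : MeasurableSet {x | κα x = k + 1} := mα (measurableSet_singleton (k + 1))
        have m2 : MeasurableSet {x | κβ x = k + 1} := mβ (measurableSet_singleton (k + 1))
        rw [hν, Measure.restrict_apply m1, Measure.restrict_apply m2] at h1
        exact h1
      obtain ⟨e', _⟩ := (isoSets (A := {x | κα x = k + 1} ∩ Icc (-1) 1)
        (B := {x | κβ x = k + 1} ∩ Icc (-1) 1) inter_subset_right inter_subset_right hv).exists_cast
        r1.symm r2.symm
      exact ⟨e', fun h => absurd h (by omega)⟩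
  choose e he using hiso
  obtain ⟨σ, hσ1, hσ2⟩ := MIso.glue κα κβ mα mβ e
  refine ⟨σ, ?_, ?_⟩
  · filter_upwards [hσ2] with x hx
    by_cases hxe : N x = N' x
    · have h0 : κα x = 0 := by simp only [hκα]; rw [if_pos hxe]
      have : σ.f x = x := by
        rw [hσ1 x]
        exact he (κα x) h0 x
      rw [this]; exact hxe
    · have h1 : κα x = N' x + 1 := by simp only [hκα]; rw [if_neg hxe]
      rw [h1] at hx
      simp only [hκβ] at hx
      split_ifs at hx with h2
      omega
  · intro x hxe
    have h0 : κα x = 0 := by simp only [hκα]; rw [if_pos hxe]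
    rw [hσ1 x]
    exact he (κα x) h0 x

/-! ### infinite compositions -/

section Limit

variable {ν : Measure ℝ} [IsFiniteMeasure ν]

/-- partial compositions `σ_0 ∘ ... ∘ σ_{j-1}` -/
noncomputable def comps (σ : ℕ → MIso ν ν) : ℕ → MIso ν ν
  | 0 => MIso.refl ν
  | (j + 1) => (σ j).trans (comps σ j)

omit [IsFiniteMeasure ν] in
lemma comps_succ_f (σ : ℕ → MIso ν ν) (j : ℕ) (x : ℝ) :
    (comps σ (j + 1)).f x = (comps σ j).f ((σ j).f x) := rfl

omit [IsFiniteMeasure ν] in
lemma comps_succ_g (σ : ℕ → MIso ν ν) (j : ℕ) (x : ℝ) :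
    (comps σ (j + 1)).g x = (σ j).g ((comps σ j).g x) := rfl

omit [IsFiniteMeasure ν] in
lemma measure_g_ne (σ : MIso ν ν) : ν {y | σ.g y ≠ y} = ν {x | σ.f x ≠ x} := by
  have hm : MeasurableSet {y | σ.g y ≠ y} :=
    (measurableSet_eq_fun σ.mg.measurable measurable_id).compl
  rw [← σ.mf.measure_preimage hm.nullMeasurableSet]
  apply measure_congr
  filter_upwards [σ.gf] with x hx
  apply propext
  show σ.g (σ.f x) ≠ σ.f x ↔ σ.f x ≠ x
  rw [hx]
  exact ⟨Ne.symm, Ne.symm⟩

/-- a map which eventually agrees with measure preserving maps is measure preserving -/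
lemma measurePreserving_of_eventually {F : ℕ → ℝ → ℝ} {f : ℝ → ℝ} (hf : Measurable f)
    (hF : ∀ j, MeasurePreserving (F j) ν ν) {t : ℕ → ℝ≥0∞} (ht : Tendsto t atTop (𝓝 0))
    (h : ∀ j, ν {x | F j x ≠ f x} ≤ t j) : MeasurePreserving f ν ν := by
  refine ⟨hf, ?_⟩
  have hle : ν.map f ≤ ν := by
    apply Measure.le_iff.2
    intro E hE
    rw [Measure.map_apply hf hE]
    have h1 : ∀ j, ν (f ⁻¹' E) ≤ ν E + t j := by
      intro j
      calc ν (f ⁻¹' E) ≤ ν ((F j) ⁻¹' E ∪ {x | F j x ≠ f x}) := by
            apply measure_mono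
            intro x hx
            by_cases hx' : F j x = f x
            · left; show F j x ∈ E; rw [hx']; exact hx
            · right; exact hx'
        _ ≤ ν ((F j) ⁻¹' E) + ν {x | F j x ≠ f x} := measure_union_le _ _
        _ ≤ ν E + t j := by
            rw [(hF j).measure_preimage hE.nullMeasurableSet]
            gcongr
            exact h j
    have h2 : Tendsto (fun j => ν E + t j) atTop (𝓝 (ν E + 0)) := tendsto_const_nhds.add ht
    rw [add_zero] at h2
    exact ge_of_tendsto' h2 h1
  apply Measure.eq_of_le_of_measure_univ_eq hle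
  rw [Measure.map_apply hf MeasurableSet.univ, preimage_univ]

theorem MIso.limit (σ : ℕ → MIso ν ν) (hsum : ∑' j, ν {x | (σ j).f x ≠ x} ≠ ∞) :
    ∃ ω : MIso ν ν, (∀ᵐ x ∂ν, ∀ᶠ j in atTop, (comps σ j).f x = ω.f x) ∧
      ν {x | ω.f x ≠ x} ≤ ∑' j, ν {x | (σ j).f x ≠ x} := by
  set F : ℕ → ℝ → ℝ := fun j => (comps σ j).f with hFdef
  set G : ℕ → ℝ → ℝ := fun j => (comps σ j).g with hGdef
  have mF : ∀ j, MeasurePreserving (F j) ν ν := fun j => (comps σ j).mf
  have mG : ∀ j, MeasurePreserving (G j) ν ν := fun j => (comps σ j).mg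
  set s : ℕ → Set ℝ := fun j => {x | (σ j).f x ≠ x} with hs
  set s' : ℕ → Set ℝ := fun j => (G j) ⁻¹' {y | (σ j).g y ≠ y} with hs'
  have hms' : ∀ j, MeasurableSet {y | (σ j).g y ≠ y} := fun j =>
    (measurableSet_eq_fun (σ j).mg.measurable measurable_id).compl
  have hs'm : ∀ j, ν (s' j) = ν (s j) := by
    intro j
    simp only [hs', hs]
    rw [(mG j).measure_preimage (hms' j).nullMeasurableSet, measure_g_ne]
  have hsum' : ∑' j, ν (s' j) ≠ ∞ := by simp_rw [hs'm]; exact hsum
  -- stabilization
  have stabF : ∀ x J, (∀ j, J ≤ j → x ∉ s j) → ∀ j, J ≤ j → F j x = F J x := by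
    intro x J hx j hj
    induction j, hj using Nat.le_induction with
    | base => rfl
    | succ j hj ih =>
      have h1 : (σ j).f x = x := by
        have := hx j hj
        simpa [hs] using this
      rw [← ih]
      simp only [hFdef, comps_succ_f, h1]
  have stabG : ∀ x J, (∀ j, J ≤ j → x ∉ s' j) → ∀ j, J ≤ j → G j x = G J x := by
    intro x J hx j hj
    induction j, hj using Nat.le_induction with
    | base => rfl
    | succ j hj ih =>
      have h1 : (σ j).g (G j x) = G j x := by
        have := hx j hj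
        simpa [hs'] using this
      rw [← ih]
      show (σ j).g ((comps σ j).g x) = G j x
      exact h1
  have evF : ∀ᵐ x ∂ν, ∃ J, ∀ j, J ≤ j → F j x = F J x := by
    filter_upwards [ae_eventually_notMem hsum] with x hx
    obtain ⟨J, hJ⟩ := eventually_atTop.1 hx
    exact ⟨J, stabF x J hJ⟩
  have evG : ∀ᵐ x ∂ν, ∃ J, ∀ j, J ≤ j → G j x = G J x := by
    filter_upwards [ae_eventually_notMem hsum'] with x hx
    obtain ⟨J, hJ⟩ := eventually_atTop.1 hx
    exact ⟨J, stabG x J hJ⟩
  obtain ⟨f, hfm, hf⟩ := measurable_limit_of_tendsto_metrizable_ae (μ := ν) (f := F) (L := atTop)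
    (fun j => (mF j).measurable.aemeasurable) (by
      filter_upwards [evF] with x hx
      obtain ⟨J, hJ⟩ := hx
      exact ⟨F J x, tendsto_atTop_of_eventually_const hJ⟩)
  obtain ⟨g, hgm, hg⟩ := measurable_limit_of_tendsto_metrizable_ae (μ := ν) (f := G) (L := atTop)
    (fun j => (mG j).measurable.aemeasurable) (by
      filter_upwards [evG] with x hx
      obtain ⟨J, hJ⟩ := hx
      exact ⟨G J x, tendsto_atTop_of_eventually_const hJ⟩)
  have limF : ∀ᵐ x ∂ν, ∀ J, (∀ j, J ≤ j → F j x = F J x) → f x = F J x := by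
    filter_upwards [hf] with x hx J hJ
    exact tendsto_nhds_unique hx (tendsto_atTop_of_eventually_const hJ)
  have limG : ∀ᵐ x ∂ν, ∀ J, (∀ j, J ≤ j → G j x = G J x) → g x = G J x := by
    filter_upwards [hg] with x hx J hJ
    exact tendsto_nhds_unique hx (tendsto_atTop_of_eventually_const hJ)
  have htail : Tendsto (fun i => ∑' k, ν (s (k + i))) atTop (𝓝 0) :=
    ENNReal.tendsto_sum_nat_add _ hsum
  have bF : ∀ J, ν {x | F J x ≠ f x} ≤ ∑' k, ν (s (k + J)) := by
    intro J
    have h1 : ν {x | F J x ≠ f x} ≤ ν (⋃ k, s (k + J)) := by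
      apply measure_mono_ae
      filter_upwards [limF] with x hx
      intro hne
      by_contra hnot
      apply hne
      symm
      apply hx J
      apply stabF x J
      intro j hj hmem
      apply hnot
      refine mem_iUnion.2 ⟨j - J, ?_⟩
      rw [Nat.sub_add_cancel hj]
      exact hmem
    exact h1.trans (measure_iUnion_le _)
  have bG : ∀ J, ν {x | G J x ≠ g x} ≤ ∑' k, ν (s (k + J)) := by
    intro J
    have h1 : ν {x | G J x ≠ g x} ≤ ν (⋃ k, s' (k + J)) := by
      apply measure_mono_ae
      filter_upwards [limG] with x hx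
      intro hne
      by_contra hnot
      apply hne
      symm
      apply hx J
      apply stabG x J
      intro j hj hmem
      apply hnot
      refine mem_iUnion.2 ⟨j - J, ?_⟩
      rw [Nat.sub_add_cancel hj]
      exact hmem
    refine h1.trans ((measure_iUnion_le _).trans (le_of_eq ?_))
    simp_rw [hs'm]
  have pf : MeasurePreserving f ν ν := measurePreserving_of_eventually hfm mF htail bF
  have pg : MeasurePreserving g ν ν := measurePreserving_of_eventually hgm mG htail bG
  have gfj : ∀ᵐ x ∂ν, ∀ j, G j (F j x) = x := by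
    rw [ae_all_iff]; intro j; exact (comps σ j).gf
  have fgj : ∀ᵐ x ∂ν, ∀ j, F j (G j x) = x := by
    rw [ae_all_iff]; intro j; exact (comps σ j).fg
  refine ⟨⟨f, g, pf, pg, ?_, ?_⟩, ?_, ?_⟩
  · have h2 := pf.quasiMeasurePreserving.ae hg
    filter_upwards [evF, limF, h2, gfj] with x h1 h3 h4 h5
    obtain ⟨J, hJ⟩ := h1
    have hfx := h3 J hJ
    have : ∀ j, J ≤ j → G j (f x) = x := by
      intro j hj
      rw [hfx, ← hJ j hj]; exact h5 j
    exact tendsto_nhds_unique h4 (tendsto_atTop_of_eventually_const this)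
  · have h2 := pg.quasiMeasurePreserving.ae hf
    filter_upwards [evG, limG, h2, fgj] with x h1 h3 h4 h5
    obtain ⟨J, hJ⟩ := h1
    have hfx := h3 J hJ
    have : ∀ j, J ≤ j → F j (g x) = x := by
      intro j hj
      rw [hfx, ← hJ j hj]; exact h5 j
    exact tendsto_nhds_unique h4 (tendsto_atTop_of_eventually_const this)
  · filter_upwards [evF, limF] with x h1 h3
    obtain ⟨J, hJ⟩ := h1
    have hfx := h3 J hJ
    filter_upwards [eventually_ge_atTop J] with j hj
    show F j x = f x
    rw [hfx, hJ j hj]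
  · have h0 := bF 0
    simp only [add_zero] at h0
    have e : {x | f x ≠ x} = {x | F 0 x ≠ f x} := by
      ext x
      have : F 0 x = x := rfl
      simp only [mem_ofPred_eq, this]
      exact ⟨Ne.symm, Ne.symm⟩
    show ν {x | f x ≠ x} ≤ _
    rw [e]; exact h0

end Limit

end Pool.Agent.MP_f3eb7e
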