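import Pool.Agent.Lib.MP_f3eb7e_an.Avg
import Pool.Agent.Lib.MP_f3eb7e_an.MIso2

set_option autoImplicit false

open MeasureTheory Set Filter Topology
open scoped ENNReal

namespace Pool.Agent.MP_f3eb7e

/-- integer valued quantile function with thresholds `P 0 ≤ P 1 ≤ ...` -/
noncomputable def ngp (P : ℕ → ℝ) (r : ℕ) (t : ℝ) : ℕ := ∑ j ∈ Finset.range r, if P j ≤ t then 1 else 0

lemma ngp_le (P : ℕ → ℝ) (r : ℕ) (t : ℝ) : ngp P r t ≤ r := by
  unfold ngp
  calc ∑ j ∈ Finset.range r, (if P j ≤ t then 1 else 0) ≤ ∑ _j ∈ Finset.range r, 1 := by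
        apply Finset.sum_le_sum; intro j _; split_ifs <;> simp
    _ = r := by simp

lemma measurable_ngp (P : ℕ → ℝ) (r : ℕ) : Measurable (ngp P r) := by
  unfold ngp
  apply Finset.measurable_sum
  intro j _
  exact Measurable.ite measurableSet_Ici measurable_const measurable_const

lemma succ_le_ngp_iff {P : ℕ → ℝ} (hP : Monotone P) {r j : ℕ} (hj : j < r) (t : ℝ) :
    j + 1 ≤ ngp P r t ↔ P j ≤ t := by
  have hcard : ngp P r t = ((Finset.range r).filter fun i => P i ≤ t).card := by
    unfold ngp; rw [Finset.card_filter]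
  rw [hcard]
  constructor
  · intro h
    by_contra hn
    have hsub : ((Finset.range r).filter fun i => P i ≤ t) ⊆ Finset.range j := by
      intro i hi
      rw [Finset.mem_filter] at hi
      rw [Finset.mem_range]
      by_contra hij
      exact hn ((hP (not_lt.1 hij)).trans hi.2)
    have := Finset.card_le_card hsub
    rw [Finset.card_range] at this
    omega
  · intro h
    have hsub : Finset.range (j + 1) ⊆ ((Finset.range r).filter fun i => P i ≤ t) := by
      intro i hi
      rw [Finset.mem_range] at hi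
      rw [Finset.mem_filter, Finset.mem_range]
      exact ⟨by omega, (hP (by omega : i ≤ j)).trans h⟩
    have := Finset.card_le_card hsub
    rwa [Finset.card_range] at this

/-- telescoping -/
lemma telescope (φ : ℕ → ℝ) {n r : ℕ} (hn : n ≤ r) :
    φ n = φ 0 + ∑ j ∈ Finset.range r, (φ (j + 1) - φ j) * (if j + 1 ≤ n then 1 else 0) := by
  have h1 : ∑ j ∈ Finset.range r, (φ (j + 1) - φ j) * (if j + 1 ≤ n then (1 : ℝ) else 0)
      = ∑ j ∈ Finset.range n, (φ (j + 1) - φ j) := by
    symm
    rw [← Finset.sum_subset (Finset.range_subset_range.2 hn)]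
    · refine Finset.sum_congr rfl fun j hj => ?_
      rw [if_pos (by rw [Finset.mem_range] at hj; omega), mul_one]
    · intro j _ hj
      rw [if_neg (by rw [Finset.mem_range] at hj; omega), mul_zero]
  rw [h1, Finset.sum_range_sub]; ring

lemma integral_ite_le {p : ℝ} (hp0 : 0 ≤ p) (hp1 : p ≤ 1) :
    ∫ s in (0 : ℝ)..1, (if p ≤ s then (1 : ℝ) else 0) = 1 - p := by
  have h1 : ∀ c d : ℝ, IntervalIntegrable (fun s : ℝ => if p ≤ s then (1 : ℝ) else 0) volume c d := by
    intro c d
    have := ii_bdd_mul (measurable_hv p) (C := 1) (fun t => by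
      rw [abs_of_nonneg (hv_nonneg _ _)]; exact hv_le_one _ _) (continuous_const (y := (1 : ℝ))) c d
    refine this.congr ?_
    intro s _; simp [hv]
  rw [← intervalIntegral.integral_add_adjacent_intervals (h1 0 p) (h1 p 1)]
  have e1 : ∫ s in (0 : ℝ)..p, (if p ≤ s then (1 : ℝ) else 0) = 0 := by
    have : ∫ s in (0 : ℝ)..p, (if p ≤ s then (1 : ℝ) else 0) = ∫ s in (0 : ℝ)..p, (0 : ℝ) := by
      apply intervalIntegral.integral_congr_ae
      have h1' : ∀ᵐ x : ℝ, x ≠ p := by
        have : volume ({p} : Set ℝ) = 0 := by simp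
        exact compl_mem_ae_iff.2 this
      filter_upwards [h1'] with x hx hx2
      rw [uIoc_of_le hp0] at hx2
      have := lt_of_le_of_ne hx2.2 hx
      rw [if_neg (by linarith)]
    rw [this]; simp
  have e2 : ∫ s in p..1, (if p ≤ s then (1 : ℝ) else 0) = 1 - p := by
    have : ∫ s in p..1, (if p ≤ s then (1 : ℝ) else 0) = ∫ s in p..1, (1 : ℝ) := by
      apply intervalIntegral.integral_congr
      intro x hx
      rw [uIcc_of_le hp1] at hx
      simp only
      rw [if_pos hx.1]
    rw [this]; simp
  rw [e1, e2, zero_add]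

/-- tail masses of `N` with respect to the density `g` on `Q = [α,β)` -/
noncomputable def sv (α β : ℝ) (N : ℝ → ℕ) (g : ℝ → ℝ) (j : ℕ) : ℝ :=
  ∫ y in Ico α β, (if j + 1 ≤ N y then (1 : ℝ) else 0) * g y

/-- thresholds -/
noncomputable def Pv (α β : ℝ) (N : ℝ → ℕ) (g : ℝ → ℝ) (j : ℕ) : ℝ := 1 - sv α β N g j

/-- admissible densities -/
structure Dens (α β : ℝ) (g : ℝ → ℝ) : Prop where
  meas : Measurable g
  nonneg : ∀ y ∈ Ico α β, 0 ≤ g y
  bdd : ∃ C, ∀ y, |g y| ≤ C
  one : ∫ y in Ico α β, g y = 1

section Law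

variable {α β : ℝ} {N : ℝ → ℕ} {g : ℝ → ℝ} (hN : Measurable N) (hg : Dens α β g)

include hN hg

lemma integrable_phi_g (φ : ℕ → ℝ) {B : ℝ} (hB : ∀ y, |φ (N y)| ≤ B) :
    IntegrableOn (fun y => φ (N y) * g y) (Ico α β) volume := by
  obtain ⟨C, hC⟩ := hg.bdd
  have : IsFiniteMeasure (volume.restrict (Ico α β)) := by
    constructor; rw [Measure.restrict_apply_univ]; simp
  refine Integrable.of_bound (C := B * C) ?_ ?_
  · exact (((measurable_of_countable φ).comp hN).mul hg.meas).aestronglyMeasurable
  · refine Eventually.of_forall fun y => ?_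
    rw [Real.norm_eq_abs, abs_mul]
    exact mul_le_mul (hB y) (hC y) (abs_nonneg _) ((abs_nonneg _).trans (hB y))

lemma integrable_ite_g (j : ℕ) :
    IntegrableOn (fun y => (if j + 1 ≤ N y then (1 : ℝ) else 0) * g y) (Ico α β) volume :=
  integrable_phi_g hN hg (fun n => if j + 1 ≤ n then 1 else 0) (B := 1) (fun y => by split_ifs <;> simp)

omit hN in
lemma integrable_g : IntegrableOn g (Ico α β) volume := by
  obtain ⟨C, hC⟩ := hg.bdd
  have : IsFiniteMeasure (volume.restrict (Ico α β)) := by
    constructor; rw [Measure.restrict_apply_univ]; simp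
  refine Integrable.of_bound (C := C) hg.meas.aestronglyMeasurable ?_
  exact Eventually.of_forall fun y => by rw [Real.norm_eq_abs]; exact hC y

lemma sv_nonneg (j : ℕ) : 0 ≤ sv α β N g j := by
  unfold sv
  apply setIntegral_nonneg measurableSet_Ico
  intro y hy
  have := hg.nonneg y hy
  split_ifs <;> simp [this]

lemma sv_le_one (j : ℕ) : sv α β N g j ≤ 1 := by
  rw [← hg.one]
  unfold sv
  apply setIntegral_mono_on (integrable_ite_g hN hg j) (integrable_g hg) measurableSet_Ico
  intro y hy
  have := hg.nonneg y hy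
  split_ifs <;> simp [this]

lemma sv_antitone : Antitone (sv α β N g) := by
  intro i j hij
  unfold sv
  apply setIntegral_mono_on (integrable_ite_g hN hg j) (integrable_ite_g hN hg i) measurableSet_Ico
  intro y hy
  have := hg.nonneg y hy
  by_cases h1 : j + 1 ≤ N y
  · rw [if_pos h1, if_pos (by omega)]
  · rw [if_neg h1, zero_mul]
    split_ifs <;> simp [this]

lemma Pv_mono : Monotone (Pv α β N g) := fun i j hij => by
  have := sv_antitone hN hg hij
  unfold Pv; linarith

lemma Pv_nonneg (j : ℕ) : 0 ≤ Pv α β N g j := by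
  have := sv_le_one hN hg j; unfold Pv; linarith

lemma Pv_le_one (j : ℕ) : Pv α β N g j ≤ 1 := by
  have := sv_nonneg hN hg j; unfold Pv; linarith

/-- the quantile function has the law of `N` under the density `g` -/
theorem law_eq {r : ℕ} (hr : ∀ y, N y ≤ r) (φ : ℕ → ℝ) :
    ∫ s in (0 : ℝ)..1, φ (ngp (Pv α β N g) r s) = ∫ y in Ico α β, φ (N y) * g y := by
  have e1 : ∀ s, φ (ngp (Pv α β N g) r s) = φ 0
      + ∑ j ∈ Finset.range r, (φ (j + 1) - φ j) * (if Pv α β N g j ≤ s then 1 else 0) := by
    intro s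
    rw [telescope φ (ngp_le (Pv α β N g) r s)]
    congr 1
    refine Finset.sum_congr rfl fun j hj => ?_
    rw [Finset.mem_range] at hj
    have := succ_le_ngp_iff (Pv_mono hN hg) hj s
    simp only [this]
  have e2 : ∀ y, φ (N y) * g y = φ 0 * g y
      + ∑ j ∈ Finset.range r, (φ (j + 1) - φ j) * ((if j + 1 ≤ N y then (1 : ℝ) else 0) * g y) := by
    intro y
    rw [telescope φ (hr y), add_mul, Finset.sum_mul]
    congr 1
    refine Finset.sum_congr rfl fun j _ => by ring
  simp_rw [e1, e2]
  have h1 : ∀ p c d : ℝ, IntervalIntegrable (fun s : ℝ => if p ≤ s then (1 : ℝ) else 0) volume c d := by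
    intro p c d
    have := ii_bdd_mul (measurable_hv p) (C := 1) (fun t => by
      rw [abs_of_nonneg (hv_nonneg _ _)]; exact hv_le_one _ _) (continuous_const (y := (1 : ℝ))) c d
    refine this.congr ?_
    intro s _; simp [hv]
  rw [intervalIntegral.integral_add (by simp) ?_, intervalIntegral.integral_finsetSum,
    integral_add ((integrable_g hg).const_mul _) ?_, integral_finsetSum,
    integral_const_mul, hg.one]
  · simp_rw [intervalIntegral.integral_const_mul, integral_const_mul]
    rw [intervalIntegral.integral_const]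
    simp only [sub_zero, smul_eq_mul, one_mul, mul_one]
    congr 1
    refine Finset.sum_congr rfl fun j _ => ?_
    rw [integral_ite_le (Pv_nonneg hN hg j) (Pv_le_one hN hg j)]
    unfold Pv sv; ring
  · intro j _
    exact (integrable_ite_g hN hg j).const_mul _
  · apply integrable_finsetSum
    intro j _
    exact (integrable_ite_g hN hg j).const_mul _
  · intro j _
    exact (h1 _ _ _).const_mul _
  · have := IntervalIntegrable.sum (μ := volume) (a := 0) (b := 1) (Finset.range r)
      (f := fun j s => (φ (j + 1) - φ j) * (if Pv α β N g j ≤ s then (1 : ℝ) else 0))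
      (fun j _ => (h1 _ _ _).const_mul _)
    refine this.congr ?_
    intro s _; simp [Finset.sum_apply]

end Law

end Pool.Agent.MP_f3eb7e
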