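import Mathlib

set_option autoImplicit false

open MeasureTheory Set

namespace Pool.Agent.MP_f3eb7e

/-- Legendre polynomials as real functions, by the Bonnet recursion. -/
noncomputable def legP : ℕ → ℝ → ℝ
  | 0, _ => 1
  | 1, x => x
  | (n + 2), x => ((2 * (n : ℝ) + 3) * x * legP (n + 1) x - ((n : ℝ) + 1) * legP n x) / ((n : ℝ) + 2)

/-- derivative of `legP` -/
noncomputable def legD : ℕ → ℝ → ℝ
  | 0, _ => 0
  | 1, _ => 1
  | (n + 2), x => ((2 * (n : ℝ) + 3) * (legP (n + 1) x + x * legD (n + 1) x)
      - ((n : ℝ) + 1) * legD n x) / ((n : ℝ) + 2)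

lemma legP_zero (x : ℝ) : legP 0 x = 1 := rfl
lemma legP_one (x : ℝ) : legP 1 x = x := rfl
lemma legP_succ_succ (n : ℕ) (x : ℝ) :
    legP (n + 2) x = ((2 * (n : ℝ) + 3) * x * legP (n + 1) x - ((n : ℝ) + 1) * legP n x) / ((n : ℝ) + 2) := rfl
lemma legD_zero (x : ℝ) : legD 0 x = 0 := rfl
lemma legD_one (x : ℝ) : legD 1 x = 1 := rfl
lemma legD_succ_succ (n : ℕ) (x : ℝ) :
    legD (n + 2) x = ((2 * (n : ℝ) + 3) * (legP (n + 1) x + x * legD (n + 1) x)
      - ((n : ℝ) + 1) * legD n x) / ((n : ℝ) + 2) := rfl

/-- Bonnet recursion in polynomial form. -/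
lemma bonnet (n : ℕ) (x : ℝ) :
    ((n : ℝ) + 2) * legP (n + 2) x = (2 * (n : ℝ) + 3) * x * legP (n + 1) x - ((n : ℝ) + 1) * legP n x := by
  rw [legP_succ_succ]; field_simp

lemma bonnetD (n : ℕ) (x : ℝ) :
    ((n : ℝ) + 2) * legD (n + 2) x = (2 * (n : ℝ) + 3) * (legP (n + 1) x + x * legD (n + 1) x)
      - ((n : ℝ) + 1) * legD n x := by
  rw [legD_succ_succ]; field_simp

lemma hasDerivAt_legP_aux (n : ℕ) (x : ℝ) :
    HasDerivAt (legP n) (legD n x) x ∧ HasDerivAt (legP (n + 1)) (legD (n + 1) x) x := by
  induction n with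
  | zero =>
    constructor
    · have : legP 0 = fun _ => (1 : ℝ) := by funext y; rfl
      rw [this]; simpa [legD_zero] using hasDerivAt_const x (1 : ℝ)
    · have : legP (0 + 1) = fun y => y := by funext y; rfl
      rw [this]; exact hasDerivAt_id' x
  | succ n ih =>
    refine ⟨ih.2, ?_⟩
    have : legP (n + 1 + 1) = fun y => ((2 * (n : ℝ) + 3) * y * legP (n + 1) y
        - ((n : ℝ) + 1) * legP n y) / ((n : ℝ) + 2) := by funext y; rfl
    rw [this]
    have h1 : HasDerivAt (fun y => (2 * (n : ℝ) + 3) * y * legP (n + 1) y)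
        ((2 * (n : ℝ) + 3) * legP (n + 1) x + (2 * (n : ℝ) + 3) * x * legD (n + 1) x) x := by
      have := ((hasDerivAt_id' x).const_mul (2 * (n : ℝ) + 3)).mul ih.2
      exact this.congr_deriv (by ring)
    have h2 := ih.1.const_mul ((n : ℝ) + 1)
    have h3 := (h1.sub h2).div_const ((n : ℝ) + 2)
    refine HasDerivAt.congr_deriv h3 ?_
    show _ = legD (n + 2) x
    rw [legD_succ_succ]; ring

lemma hasDerivAt_legP (n : ℕ) (x : ℝ) : HasDerivAt (legP n) (legD n x) x :=
  (hasDerivAt_legP_aux n x).1

lemma continuous_legP (n : ℕ) : Continuous (legP n) :=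
  continuous_iff_continuousAt.2 fun x => (hasDerivAt_legP n x).continuousAt

lemma legAB (n : ℕ) (x : ℝ) :
    x * legD (n + 1) x - legD n x = ((n : ℝ) + 1) * legP (n + 1) x ∧
    legD (n + 1) x - x * legD n x = ((n : ℝ) + 1) * legP n x := by
  induction n with
  | zero => simp [legD_zero, legD_one, legP_one, legP_zero]
  | succ n ih =>
    obtain ⟨hA, hB⟩ := ih
    have hD := bonnetD n x
    have hP := bonnet n x
    have hn : ((n : ℝ) + 2) ≠ 0 := by positivity
    have hB' : legD (n + 2) x - x * legD (n + 1) x = ((n : ℝ) + 2) * legP (n + 1) x := by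
      apply mul_left_cancel₀ hn
      linear_combination hD + ((n : ℝ) + 1) * hA
    push_cast
    constructor
    · have : ((n : ℝ) + 1 + 1) = (n : ℝ) + 2 := by ring
      rw [this]
      show x * legD (n + 2) x - legD (n + 1) x = _
      linear_combination x * hB' - hB + x * hA - hP
    · have : ((n : ℝ) + 1 + 1) = (n : ℝ) + 2 := by ring
      rw [this]
      exact hB'

lemma legA (n : ℕ) (x : ℝ) : x * legD (n + 1) x - legD n x = ((n : ℝ) + 1) * legP (n + 1) x :=
  (legAB n x).1
lemma legB (n : ℕ) (x : ℝ) : legD (n + 1) x - x * legD n x = ((n : ℝ) + 1) * legP n x :=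
  (legAB n x).2

/-- `(1-x^2) P_{n+1}' = (n+1)(P_n - x P_{n+1})` -/
lemma legC (n : ℕ) (x : ℝ) :
    (1 - x ^ 2) * legD (n + 1) x = ((n : ℝ) + 1) * (legP n x - x * legP (n + 1) x) := by
  linear_combination legB n x - x * legA n x

/-- Differentiability of `(1-x^2) P_n'` (the Legendre equation). -/
lemma hasDerivAt_legODE (n : ℕ) (x : ℝ) :
    HasDerivAt (fun y => (1 - y ^ 2) * legD n y) (-((n : ℝ) * ((n : ℝ) + 1)) * legP n x) x := by
  rcases n with _ | n
  · simp only [legD_zero, mul_zero, Nat.cast_zero, zero_mul, neg_zero]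
    exact hasDerivAt_const x 0
  · have : (fun y => (1 - y ^ 2) * legD (n + 1) y)
        = fun y => ((n : ℝ) + 1) * (legP n y - y * legP (n + 1) y) := by
      funext y; exact legC n y
    rw [this]
    have h1 := (hasDerivAt_id' x).mul (hasDerivAt_legP (n + 1) x)
    have h2 := ((hasDerivAt_legP n x).sub h1).const_mul ((n : ℝ) + 1)
    refine HasDerivAt.congr_deriv h2 ?_
    have := legA n x
    push_cast
    linear_combination (-((n : ℝ) + 1)) * this

lemma continuous_legD (n : ℕ) : Continuous (legD n) := by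
  suffices h : ∀ n, Continuous (legD n) ∧ Continuous (legD (n + 1)) from (h n).1
  intro n
  induction n with
  | zero =>
    constructor
    · exact continuous_const
    · exact continuous_const
  | succ n ih =>
    refine ⟨ih.2, ?_⟩
    have : legD (n + 1 + 1) = fun y => ((2 * (n : ℝ) + 3) * (legP (n + 1) y + y * legD (n + 1) y)
        - ((n : ℝ) + 1) * legD n y) / ((n : ℝ) + 2) := by funext y; rfl
    rw [this]
    have h1 := ih.1
    have h2 := ih.2
    have h3 := continuous_legP (n + 1)
    fun_prop

/-- orthogonality -/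
lemma integral_legP_mul_legP_of_ne {m n : ℕ} (h : m ≠ n) :
    ∫ x in (-1 : ℝ)..1, legP m x * legP n x = 0 := by
  have key : ∀ x ∈ uIcc (-1 : ℝ) 1, HasDerivAt
      (fun y => ((1 - y ^ 2) * legD n y) * legP m y - ((1 - y ^ 2) * legD m y) * legP n y)
      (((m : ℝ) * ((m : ℝ) + 1) - (n : ℝ) * ((n : ℝ) + 1)) * (legP m x * legP n x)) x := by
    intro x _
    have h1 := (hasDerivAt_legODE n x).mul (hasDerivAt_legP m x)
    have h2 := (hasDerivAt_legODE m x).mul (hasDerivAt_legP n x)
    refine HasDerivAt.congr_deriv (h1.sub h2) ?_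
    ring
  have hint : IntervalIntegrable (fun x => ((m : ℝ) * ((m : ℝ) + 1) - (n : ℝ) * ((n : ℝ) + 1))
      * (legP m x * legP n x)) volume (-1) 1 := by
    have h1 := continuous_legP m
    have h2 := continuous_legP n
    exact (by fun_prop : Continuous _).intervalIntegrable _ _
  have := intervalIntegral.integral_eq_sub_of_hasDerivAt key hint
  rw [intervalIntegral.integral_const_mul] at this
  norm_num at this
  rcases this with h0 | h0
  · exfalso
    have h2 : ((m : ℝ) - n) * ((m : ℝ) + n + 1) = 0 := by linear_combination h0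
    rcases mul_eq_zero.1 h2 with h3 | h3
    · exact h (by exact_mod_cast sub_eq_zero.1 h3)
    · have : (0 : ℝ) < (m : ℝ) + n + 1 := by positivity
      linarith
  · exact h0

lemma integral_legP_sq (n : ℕ) :
    ∫ x in (-1 : ℝ)..1, legP n x * legP n x = 2 / (2 * (n : ℝ) + 1) := by
  have hc := continuous_legP
  induction n with
  | zero => simp [legP_zero]; norm_num
  | succ n ih =>
    rcases n with _ | n
    · simp only [zero_add, legP_one]
      have : (fun x : ℝ => x * x) = fun x => x ^ 2 := by funext x; ring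
      rw [this, integral_pow]; norm_num
    · -- (n+2) ∫ P_{n+2}^2 = (2n+3) ∫ x P_{n+1} P_{n+2}
      have e1 : ((n : ℝ) + 2) * ∫ x in (-1 : ℝ)..1, legP (n + 2) x * legP (n + 2) x
          = (2 * (n : ℝ) + 3) * ∫ x in (-1 : ℝ)..1, x * legP (n + 1) x * legP (n + 2) x := by
        have h0 : ∫ x in (-1 : ℝ)..1, legP n x * legP (n + 2) x = 0 :=
          integral_legP_mul_legP_of_ne (by omega)
        have hh : ∀ x : ℝ, ((n : ℝ) + 2) * (legP (n + 2) x * legP (n + 2) x)
            = (2 * (n : ℝ) + 3) * (x * legP (n + 1) x * legP (n + 2) x)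
              - ((n : ℝ) + 1) * (legP n x * legP (n + 2) x) := by
          intro x; linear_combination (legP (n + 2) x) * bonnet n x
        rw [← intervalIntegral.integral_const_mul]
        simp_rw [hh]
        have c1 := hc n
        have c2 := hc (n + 1)
        have c3 := hc (n + 2)
        rw [intervalIntegral.integral_sub, intervalIntegral.integral_const_mul,
          intervalIntegral.integral_const_mul, h0]
        · ring
        · exact (by fun_prop : Continuous _).intervalIntegrable _ _
        · exact (by fun_prop : Continuous _).intervalIntegrable _ _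
      have e2 : (2 * (n : ℝ) + 5) * ∫ x in (-1 : ℝ)..1, x * legP (n + 1) x * legP (n + 2) x
          = ((n : ℝ) + 2) * ∫ x in (-1 : ℝ)..1, legP (n + 1) x * legP (n + 1) x := by
        have h0 : ∫ x in (-1 : ℝ)..1, legP (n + 3) x * legP (n + 1) x = 0 :=
          integral_legP_mul_legP_of_ne (by omega)
        have hh : ∀ x : ℝ, (2 * (n : ℝ) + 5) * (x * legP (n + 1) x * legP (n + 2) x)
            = ((n : ℝ) + 3) * (legP (n + 3) x * legP (n + 1) x)
              + ((n : ℝ) + 2) * (legP (n + 1) x * legP (n + 1) x) := by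
          intro x
          have := bonnet (n + 1) x
          push_cast at this
          linear_combination (-legP (n + 1) x) * this
        rw [← intervalIntegral.integral_const_mul]
        simp_rw [hh]
        have c1 := hc (n + 3)
        have c2 := hc (n + 1)
        rw [intervalIntegral.integral_add, intervalIntegral.integral_const_mul,
          intervalIntegral.integral_const_mul, h0]
        · ring
        · exact (by fun_prop : Continuous _).intervalIntegrable _ _
        · exact (by fun_prop : Continuous _).intervalIntegrable _ _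
      rw [ih] at e2
      show ∫ x in (-1 : ℝ)..1, legP (n + 2) x * legP (n + 2) x = _
      have hn : ((n : ℝ) + 2) ≠ 0 := by positivity
      have hn5 : (2 * (n : ℝ) + 5) ≠ 0 := by positivity
      apply mul_left_cancel₀ hn
      apply mul_left_cancel₀ hn5
      rw [e1]
      have : (2 * (n : ℝ) + 5) * ((2 * (n : ℝ) + 3) * ∫ x in (-1 : ℝ)..1, x * legP (n + 1) x * legP (n + 2) x)
          = (2 * (n : ℝ) + 3) * ((2 * (n : ℝ) + 5) * ∫ x in (-1 : ℝ)..1, x * legP (n + 1) x * legP (n + 2) x) := by ring
      rw [this, e2]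
      push_cast
      field_simp
      ring

/-- Christoffel–Darboux -/
lemma christoffel_darboux (n : ℕ) (x y : ℝ) :
    (x - y) * ∑ k ∈ Finset.range (n + 1), ((k : ℝ) + 1 / 2) * (legP k x * legP k y)
      = ((n : ℝ) + 1) / 2 * (legP (n + 1) x * legP n y - legP n x * legP (n + 1) y) := by
  induction n with
  | zero => simp [legP_zero, legP_one]; ring
  | succ n ih =>
    rw [Finset.sum_range_succ, mul_add, ih]
    have h1 := bonnet n x
    have h2 := bonnet n y
    push_cast
    have e1 : legP (n + 1 + 1) x = legP (n + 2) x := rfl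
    have e2 : legP (n + 1 + 1) y = legP (n + 2) y := rfl
    rw [e1, e2]
    linear_combination (-1 / 2 * legP (n + 1) y) * h1 + (1 / 2 * legP (n + 1) x) * h2

end Pool.Agent.MP_f3eb7e
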