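import Pool.Agent.Lib.MP_f3eb7e_an.Leg

set_option autoImplicit false

open MeasureTheory Set

namespace Pool.Agent.MP_f3eb7e

lemma legP_zero_sq_le (n : ℕ) : legP n 0 ^ 2 ≤ 1 / ((n : ℝ) + 1) := by
  suffices h : ∀ n : ℕ, legP n 0 ^ 2 ≤ 1 / ((n : ℝ) + 1) ∧ legP (n + 1) 0 ^ 2 ≤ 1 / ((n : ℝ) + 1 + 1) from (h n).1
  intro n
  induction n with
  | zero => constructor <;> simp [legP_zero, legP_one]
  | succ n ih =>
    push_cast
    refine ⟨ih.2, ?_⟩
    have h1 : legP (n + 1 + 1) 0 = -(((n : ℝ) + 1) / ((n : ℝ) + 2)) * legP n 0 := by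
      show legP (n + 2) 0 = _
      rw [legP_succ_succ]; field_simp; ring
    rw [h1, mul_pow]
    calc (-(((n : ℝ) + 1) / ((n : ℝ) + 2))) ^ 2 * legP n 0 ^ 2
        ≤ (-(((n : ℝ) + 1) / ((n : ℝ) + 2))) ^ 2 * (1 / ((n : ℝ) + 1)) := by
          exact mul_le_mul_of_nonneg_left ih.1 (by positivity)
      _ ≤ 1 / ((n : ℝ) + 1 + 1 + 1) := by
          have : (-(((n : ℝ) + 1) / ((n : ℝ) + 2))) ^ 2 * (1 / ((n : ℝ) + 1))
              = ((n : ℝ) + 1) / ((n : ℝ) + 2) ^ 2 := by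
            field_simp
          rw [this, div_le_div_iff₀ (by positivity) (by positivity)]
          nlinarith

lemma legD_zero_sq_le (n : ℕ) : legD n 0 ^ 2 ≤ n := by
  rcases n with _ | n
  · simp [legD_zero]
  · have h := legB n 0
    have h1 : legD (n + 1) 0 = ((n : ℝ) + 1) * legP n 0 := by linarith
    rw [h1, mul_pow]
    have := legP_zero_sq_le n
    calc ((n : ℝ) + 1) ^ 2 * legP n 0 ^ 2 ≤ ((n : ℝ) + 1) ^ 2 * (1 / ((n : ℝ) + 1)) :=
          mul_le_mul_of_nonneg_left this (by positivity)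
      _ = ((n + 1 : ℕ) : ℝ) := by push_cast; field_simp

/-- Sonin function -/
noncomputable def sonin (n : ℕ) (x : ℝ) : ℝ :=
  √(1 - x ^ 2) * (legP n x ^ 2 + ((1 - x ^ 2) * legD n x - x * legP n x / 2) ^ 2 /
    (((n : ℝ) + 1 / 2) ^ 2 * (1 - x ^ 2) + 1 / 4))

lemma hasDerivAt_sonin (n : ℕ) {x : ℝ} (hx : x ∈ Ioo (-1 : ℝ) 1) :
    HasDerivAt (sonin n) (-x * (((1 - x ^ 2) * legD n x - x * legP n x / 2) ^ 2 /
      (2 * (((n : ℝ) + 1 / 2) ^ 2 * (1 - x ^ 2) + 1 / 4) ^ 2 * √(1 - x ^ 2)))) x := by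
  have hx1 : 0 < 1 - x ^ 2 := by nlinarith [hx.1, hx.2]
  have hs : 0 < √(1 - x ^ 2) := Real.sqrt_pos.2 hx1
  have hD : 0 < ((n : ℝ) + 1 / 2) ^ 2 * (1 - x ^ 2) + 1 / 4 := by positivity
  have h0 : HasDerivAt (fun y : ℝ => 1 - y ^ 2) (-(2 * x)) x := by
    have := (hasDerivAt_pow 2 x).const_sub 1
    exact this.congr_deriv (by simp)
  have h1 : HasDerivAt (fun y : ℝ => √(1 - y ^ 2)) (-(2 * x) / (2 * √(1 - x ^ 2))) x :=
    h0.sqrt hx1.ne'
  have hP := hasDerivAt_legP n x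
  have hP2 : HasDerivAt (fun y => legP n y ^ 2) (2 * legP n x * legD n x) x := by
    have := hP.pow 2
    exact this.congr_deriv (by simp)
  have hB : HasDerivAt (fun y => (1 - y ^ 2) * legD n y - y * legP n y / 2)
      (-((n : ℝ) * ((n : ℝ) + 1)) * legP n x - (legP n x + x * legD n x) / 2) x := by
    have := (hasDerivAt_legODE n x).sub (((hasDerivAt_id' x).mul hP).div_const 2)
    exact this.congr_deriv (by ring)
  have hB2 : HasDerivAt (fun y => ((1 - y ^ 2) * legD n y - y * legP n y / 2) ^ 2)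
      (2 * ((1 - x ^ 2) * legD n x - x * legP n x / 2) *
        (-((n : ℝ) * ((n : ℝ) + 1)) * legP n x - (legP n x + x * legD n x) / 2)) x := by
    have := hB.pow 2
    exact this.congr_deriv (by simp)
  have hDD : HasDerivAt (fun y : ℝ => ((n : ℝ) + 1 / 2) ^ 2 * (1 - y ^ 2) + 1 / 4)
      (((n : ℝ) + 1 / 2) ^ 2 * (-(2 * x))) x := (h0.const_mul _).add_const _
  have h := h1.mul (hP2.add (hB2.div hDD hD.ne'))
  refine HasDerivAt.congr_deriv h ?_
  have hsq : √(1 - x ^ 2) ^ 2 = 1 - x ^ 2 := Real.sq_sqrt hx1.le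
  set s := √(1 - x ^ 2) with hsdef
  have hD' : ((n : ℝ) + 1 / 2) ^ 2 * s ^ 2 + 1 / 4 ≠ 0 := by positivity
  simp only [Pi.add_apply, Pi.div_apply]
  rw [← hsq]
  have hx2 : x ^ 2 = 1 - s ^ 2 := by rw [hsq]; ring
  have hx3 : ∀ a : ℝ, x ^ 2 * a = (1 - s ^ 2) * a := fun a => by rw [hx2]
  field_simp
  ring_nf
  have hx3 : x ^ 3 = x * (1 - s ^ 2) := by rw [← hx2]; ring
  simp only [hx2, hx3]
  ring


lemma sonin_le (n : ℕ) {x : ℝ} (hx : x ∈ Ioo (-1 : ℝ) 1) : sonin n x ≤ sonin n 0 := by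
  rcases le_total 0 x with h | h
  · have hanti : AntitoneOn (sonin n) (Ico (0 : ℝ) 1) := by
      apply antitoneOn_of_deriv_nonpos (convex_Ico _ _)
      · intro y hy
        exact (hasDerivAt_sonin n ⟨by linarith [hy.1], hy.2⟩).continuousAt.continuousWithinAt
      · intro y hy
        rw [interior_Ico] at hy
        exact (hasDerivAt_sonin n ⟨by linarith [hy.1], hy.2⟩).differentiableAt.differentiableWithinAt
      · intro y hy
        rw [interior_Ico] at hy
        rw [(hasDerivAt_sonin n ⟨by linarith [hy.1], hy.2⟩).deriv]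
        have : 0 ≤ y := hy.1.le
        rw [neg_mul]
        apply neg_nonpos_of_nonneg
        positivity
    exact hanti ⟨le_refl _, by norm_num⟩ ⟨h, hx.2⟩ h
  · have hmono : MonotoneOn (sonin n) (Ioc (-1 : ℝ) 0) := by
      apply monotoneOn_of_deriv_nonneg (convex_Ioc _ _)
      · intro y hy
        exact (hasDerivAt_sonin n ⟨hy.1, by linarith [hy.2]⟩).continuousAt.continuousWithinAt
      · intro y hy
        rw [interior_Ioc] at hy
        exact (hasDerivAt_sonin n ⟨hy.1, by linarith [hy.2]⟩).differentiableAt.differentiableWithinAt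
      · intro y hy
        rw [interior_Ioc] at hy
        rw [(hasDerivAt_sonin n ⟨hy.1, by linarith [hy.2]⟩).deriv]
        have : 0 ≤ -y := by linarith [hy.2]
        positivity
    exact hmono ⟨hx.1, h⟩ ⟨by norm_num, le_refl _⟩ h

/-- the main amplitude bound -/
lemma legP_sq_bound (n : ℕ) {x : ℝ} (hx : x ∈ Ioo (-1 : ℝ) 1) :
    √(1 - x ^ 2) * (((n : ℝ) + 1 / 2) * legP n x ^ 2) ≤ 2 := by
  have hx1 : 0 < 1 - x ^ 2 := by nlinarith [hx.1, hx.2]
  have h1 : √(1 - x ^ 2) * legP n x ^ 2 ≤ sonin n x := by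
    unfold sonin
    apply mul_le_mul_of_nonneg_left _ (Real.sqrt_nonneg _)
    have : 0 ≤ ((1 - x ^ 2) * legD n x - x * legP n x / 2) ^ 2 /
      (((n : ℝ) + 1 / 2) ^ 2 * (1 - x ^ 2) + 1 / 4) := by positivity
    linarith
  have h2 := sonin_le n hx
  have h3 : ((n : ℝ) + 1 / 2) * sonin n 0 ≤ 2 := by
    unfold sonin
    have hp := legP_zero_sq_le n
    have hd := legD_zero_sq_le n
    have e1 : √(1 - (0 : ℝ) ^ 2) = 1 := by norm_num
    rw [e1]
    have e2 : ((1 - (0 : ℝ) ^ 2) * legD n 0 - 0 * legP n 0 / 2) ^ 2 = legD n 0 ^ 2 := by ring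
    have e3 : (((n : ℝ) + 1 / 2) ^ 2 * (1 - (0 : ℝ) ^ 2) + 1 / 4) = ((n : ℝ) + 1 / 2) ^ 2 + 1 / 4 := by ring
    rw [e2, e3]
    have hpos : (0 : ℝ) < ((n : ℝ) + 1 / 2) ^ 2 + 1 / 4 := by positivity
    calc ((n : ℝ) + 1 / 2) * (1 * (legP n 0 ^ 2 + legD n 0 ^ 2 / (((n : ℝ) + 1 / 2) ^ 2 + 1 / 4)))
        ≤ ((n : ℝ) + 1 / 2) * (1 * (1 / ((n : ℝ) + 1) + n / (((n : ℝ) + 1 / 2) ^ 2 + 1 / 4))) := by
          gcongr
      _ = ((n : ℝ) + 1 / 2) / ((n : ℝ) + 1) + ((n : ℝ) + 1 / 2) * n / (((n : ℝ) + 1 / 2) ^ 2 + 1 / 4) := by ring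
      _ ≤ 1 + 1 := by
          apply add_le_add
          · rw [div_le_one (by positivity)]; linarith
          · rw [div_le_one hpos]; nlinarith
      _ = 2 := by norm_num
  calc √(1 - x ^ 2) * (((n : ℝ) + 1 / 2) * legP n x ^ 2)
      = ((n : ℝ) + 1 / 2) * (√(1 - x ^ 2) * legP n x ^ 2) := by ring
    _ ≤ ((n : ℝ) + 1 / 2) * sonin n 0 := by
        apply mul_le_mul_of_nonneg_left (h1.trans h2) (by positivity)
    _ ≤ 2 := h3

/-- bound for `(1-x^2) P_n'` -/
lemma legQ_sq_bound (n : ℕ) {x : ℝ} (hx : x ∈ Icc (-1 : ℝ) 1) :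
    ((1 - x ^ 2) * legD n x) ^ 2 ≤ 2 * n := by
  rcases Nat.eq_zero_or_pos n with h0 | h0
  · subst h0; simp [legD_zero]
  have hn : (0 : ℝ) < n := by exact_mod_cast h0
  set R : ℝ → ℝ := fun x => ((1 - x ^ 2) * legD n x) ^ 2 + ((n : ℝ) * (n + 1)) * ((1 - x ^ 2) * legP n x ^ 2) with hR
  have hder : ∀ y : ℝ, HasDerivAt R (-(2 * ((n : ℝ) * (n + 1)) * legP n y ^ 2) * y) y := by
    intro y
    have h1 : HasDerivAt (fun y : ℝ => 1 - y ^ 2) (-(2 * y)) y := by
      have := (hasDerivAt_pow 2 y).const_sub 1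
      exact this.congr_deriv (by simp)
    have h2 := (hasDerivAt_legODE n y).pow 2
    have h3 := (h1.mul ((hasDerivAt_legP n y).pow 2)).const_mul ((n : ℝ) * (n + 1))
    refine HasDerivAt.congr_deriv (h2.add h3) ?_
    simp only [Pi.pow_apply]
    push_cast
    ring
  have hR0 : R 0 ≤ 2 * n := by
    have hp := legP_zero_sq_le n
    have hd := legD_zero_sq_le n
    have : R 0 = legD n 0 ^ 2 + ((n : ℝ) * (n + 1)) * legP n 0 ^ 2 := by simp [hR]
    rw [this]
    have : ((n : ℝ) * (n + 1)) * legP n 0 ^ 2 ≤ ((n : ℝ) * (n + 1)) * (1 / ((n : ℝ) + 1)) :=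
      mul_le_mul_of_nonneg_left hp (by positivity)
    have e : ((n : ℝ) * (n + 1)) * (1 / ((n : ℝ) + 1)) = n := by field_simp
    linarith
  have hle : R x ≤ R 0 := by
    rcases le_total 0 x with h | h
    · have hanti : AntitoneOn R (Ici (0 : ℝ)) := by
        apply antitoneOn_of_deriv_nonpos (convex_Ici _)
        · intro y hy; exact (hder y).continuousAt.continuousWithinAt
        · intro y hy; exact (hder y).differentiableAt.differentiableWithinAt
        · intro y hy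
          rw [interior_Ici] at hy
          rw [(hder y).deriv, neg_mul]
          apply neg_nonpos_of_nonneg
          have : (0 : ℝ) ≤ y := le_of_lt hy
          positivity
      exact hanti (by simp) h h
    · have hmono : MonotoneOn R (Iic (0 : ℝ)) := by
        apply monotoneOn_of_deriv_nonneg (convex_Iic _)
        · intro y hy; exact (hder y).continuousAt.continuousWithinAt
        · intro y hy; exact (hder y).differentiableAt.differentiableWithinAt
        · intro y hy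
          rw [interior_Iic] at hy
          rw [(hder y).deriv]
          have : (0 : ℝ) ≤ -y := by
            have : y < 0 := hy
            linarith
          have h2 : -(2 * ((n : ℝ) * (n + 1)) * legP n y ^ 2) * y = (2 * ((n : ℝ) * (n + 1)) * legP n y ^ 2) * (-y) := by ring
          rw [h2]
          positivity
      exact hmono h (by simp) h
  have h1 : ((1 - x ^ 2) * legD n x) ^ 2 ≤ R x := by
    have hx1 : 0 ≤ 1 - x ^ 2 := by nlinarith [hx.1, hx.2]
    have : 0 ≤ ((n : ℝ) * (n + 1)) * ((1 - x ^ 2) * legP n x ^ 2) := by positivity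
    simp only [hR]
    linarith
  linarith

/-! ### normalized functions -/

/-- the orthonormal Legendre functions -/
noncomputable def phi (k : ℕ) (x : ℝ) : ℝ := √((k : ℝ) + 1 / 2) * legP k x

lemma continuous_phi (k : ℕ) : Continuous (phi k) := by
  have := continuous_legP k
  unfold phi; fun_prop

lemma phi_mul_phi (k : ℕ) (x y : ℝ) : phi k x * phi k y = ((k : ℝ) + 1 / 2) * (legP k x * legP k y) := by
  unfold phi
  have : √((k : ℝ) + 1 / 2) * √((k : ℝ) + 1 / 2) = (k : ℝ) + 1 / 2 := Real.mul_self_sqrt (by positivity)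
  linear_combination (legP k x * legP k y) * this

lemma phi_sq_bound (k : ℕ) {x : ℝ} (hx : x ∈ Ioo (-1 : ℝ) 1) :
    √(1 - x ^ 2) * phi k x ^ 2 ≤ 2 := by
  have := legP_sq_bound k hx
  have e := phi_mul_phi k x x
  have : phi k x ^ 2 = ((k : ℝ) + 1 / 2) * legP k x ^ 2 := by rw [sq, e]; ring
  rw [this]; assumption

lemma integral_phi_mul_phi (j k : ℕ) :
    ∫ x in (-1 : ℝ)..1, phi j x * phi k x = if j = k then 1 else 0 := by
  have e : ∀ x, phi j x * phi k x = (√((j : ℝ) + 1 / 2) * √((k : ℝ) + 1 / 2)) * (legP j x * legP k x) := by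
    intro x; unfold phi; ring
  simp_rw [e]
  rw [intervalIntegral.integral_const_mul]
  split_ifs with h
  · subst h
    rw [integral_legP_sq, Real.mul_self_sqrt (by positivity)]
    have : (2 * (j : ℝ) + 1) ≠ 0 := by positivity
    field_simp
  · rw [integral_legP_mul_legP_of_ne h, mul_zero]

/-- antiderivative of `phi k` -/
noncomputable def Phi (k : ℕ) (y : ℝ) : ℝ := ∫ s in (-1 : ℝ)..y, phi k s

lemma hasDerivAt_Phi (k : ℕ) (y : ℝ) : HasDerivAt (Phi k) (phi k y) y := by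
  unfold Phi
  exact intervalIntegral.integral_hasDerivAt_right ((continuous_phi k).intervalIntegrable _ _)
    ((continuous_phi k).stronglyMeasurableAtFilter _ _) (continuous_phi k).continuousAt

lemma Phi_neg_one (k : ℕ) : Phi k (-1) = 0 := by simp [Phi]

lemma Phi_eq_legD {k : ℕ} (hk : 1 ≤ k) (y : ℝ) :
    Phi k y = √((k : ℝ) + 1 / 2) * (-((1 - y ^ 2) * legD k y) / ((k : ℝ) * (k + 1))) := by
  have hk0 : (0 : ℝ) < k := by exact_mod_cast hk
  have hder : ∀ x ∈ uIcc (-1 : ℝ) y, HasDerivAt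
      (fun y => √((k : ℝ) + 1 / 2) * (-((1 - y ^ 2) * legD k y) / ((k : ℝ) * (k + 1)))) (phi k x) x := by
    intro x _
    have h := (((hasDerivAt_legODE k x).neg).div_const ((k : ℝ) * (k + 1))).const_mul (√((k : ℝ) + 1 / 2))
    refine HasDerivAt.congr_deriv h ?_
    unfold phi
    field_simp
  have := intervalIntegral.integral_eq_sub_of_hasDerivAt hder ((continuous_phi k).intervalIntegrable _ _)
  unfold Phi
  rw [this]
  norm_num

lemma abs_Phi_le (k : ℕ) {y : ℝ} (hy : y ∈ Icc (-1 : ℝ) 1) : |Phi k y| ≤ 2 / ((k : ℝ) + 1) := by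
  rcases Nat.eq_zero_or_pos k with h0 | h0
  · subst h0
    have e : Phi 0 y = √(1 / 2) * (y + 1) := by
      unfold Phi phi
      simp [legP_zero]
      ring
    rw [e, abs_of_nonneg (mul_nonneg (Real.sqrt_nonneg _) (by linarith [hy.1]))]
    have h1 : √(1 / 2 : ℝ) ≤ 1 := Real.sqrt_le_one.2 (by norm_num)
    have h2 : y + 1 ≤ 2 := by linarith [hy.2]
    have h3 : 0 ≤ y + 1 := by linarith [hy.1]
    have h4 : √(1 / 2 : ℝ) * (y + 1) ≤ 1 * 2 := mul_le_mul h1 h2 h3 (by norm_num)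
    have h5 : (2 : ℝ) / (((0 : ℕ) : ℝ) + 1) = 2 := by norm_num
    rw [h5]; linarith
  · have hk0 : (1 : ℝ) ≤ k := by exact_mod_cast h0
    rw [Phi_eq_legD h0]
    have hb := legQ_sq_bound k hy
    apply abs_le_of_sq_le_sq _ (by positivity)
    rw [mul_pow, div_pow, neg_sq, Real.sq_sqrt (by positivity), div_pow]
    calc ((k : ℝ) + 1 / 2) * (((1 - y ^ 2) * legD k y) ^ 2 / ((k : ℝ) * (k + 1)) ^ 2)
        ≤ ((k : ℝ) + 1 / 2) * (2 * k / ((k : ℝ) * (k + 1)) ^ 2) := by gcongr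
      _ = (2 * (k : ℝ) + 1) / (k * (k + 1) ^ 2) := by field_simp
      _ ≤ 2 ^ 2 / ((k : ℝ) + 1) ^ 2 := by
          rw [div_le_div_iff₀ (by positivity) (by positivity)]
          nlinarith [sq_nonneg ((k : ℝ) + 1)]

lemma legQ_eq (n : ℕ) (y : ℝ) :
    -((1 - y ^ 2) * legD (n + 1) y) / (((n : ℝ) + 1) * ((n : ℝ) + 1 + 1))
      = (legP (n + 2) y - legP n y) / (2 * (n : ℝ) + 3) := by
  rw [legC]
  have h := bonnet n y
  have h1 : ((n : ℝ) + 1) ≠ 0 := by positivity
  have h2 : ((n : ℝ) + 2) ≠ 0 := by positivity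
  have h3 : (2 * (n : ℝ) + 3) ≠ 0 := by positivity
  have h4 : ((n : ℝ) + 1 + 1) ≠ 0 := by positivity
  field_simp
  linear_combination -h

/-- coefficients with `Phi k = a_k phi_{k+1} - b_k phi_{k-1}` -/
noncomputable def coefA (k : ℕ) : ℝ := √((k : ℝ) + 1 / 2) / ((2 * (k : ℝ) + 1) * √((k : ℝ) + 1 + 1 / 2))
noncomputable def coefB (k : ℕ) : ℝ := √((k : ℝ) + 1 / 2) / ((2 * (k : ℝ) + 1) * √((k : ℝ) - 1 + 1 / 2))

lemma Phi_eq (n : ℕ) (y : ℝ) :
    Phi (n + 1) y = coefA (n + 1) * phi (n + 2) y - coefB (n + 1) * phi n y := by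
  rw [Phi_eq_legD (by omega)]
  push_cast
  rw [legQ_eq]
  unfold coefA coefB phi
  push_cast
  have e1 : ((n : ℝ) + 1 + 1 + 1 / 2) = (n : ℝ) + 2 + 1 / 2 := by ring
  have e2 : ((n : ℝ) + 1 - 1 + 1 / 2) = (n : ℝ) + 1 / 2 := by ring
  rw [e1, e2]
  have h1 : √((n : ℝ) + 2 + 1 / 2) ≠ 0 := by positivity
  have h2 : √((n : ℝ) + 1 / 2) ≠ 0 := by positivity
  have h3 : (2 * (n : ℝ) + 3) ≠ 0 := by positivity
  have h4 : (2 * ((n : ℝ) + 1) + 1) ≠ 0 := by positivity
  field_simp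
  ring

lemma coefA_sq_le (k : ℕ) (hk : 1 ≤ k) : coefA k ^ 2 ≤ 1 / (k : ℝ) ^ 2 := by
  have hk0 : (1 : ℝ) ≤ k := by exact_mod_cast hk
  unfold coefA
  rw [div_pow, mul_pow, Real.sq_sqrt (by positivity), Real.sq_sqrt (by positivity),
    div_le_div_iff₀ (by positivity) (by positivity)]
  nlinarith [sq_nonneg (k : ℝ), mul_nonneg (sq_nonneg (k : ℝ)) (by linarith : (0 : ℝ) ≤ k)]

lemma coefB_sq_le (k : ℕ) (hk : 1 ≤ k) : coefB k ^ 2 ≤ 1 / (k : ℝ) ^ 2 := by
  have hk0 : (1 : ℝ) ≤ k := by exact_mod_cast hk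
  have h1 : (0 : ℝ) < (k : ℝ) - 1 + 1 / 2 := by linarith
  unfold coefB
  rw [div_pow, mul_pow, Real.sq_sqrt (by positivity), Real.sq_sqrt h1.le,
    div_le_div_iff₀ (by positivity) (by positivity)]
  nlinarith [sq_nonneg (k : ℝ), mul_nonneg (sq_nonneg (k : ℝ)) (by linarith : (0 : ℝ) ≤ (k : ℝ) - 1)]

/-- Parseval for finite sums -/
lemma integral_sum_phi_sq (s : Finset ℕ) (c : ℕ → ℝ) :
    ∫ x in (-1 : ℝ)..1, (∑ k ∈ s, c k * phi k x) ^ 2 = ∑ k ∈ s, c k ^ 2 := by
  have e : ∀ x, (∑ k ∈ s, c k * phi k x) ^ 2 = ∑ j ∈ s, ∑ k ∈ s, (c j * c k) * (phi j x * phi k x) := by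
    intro x
    rw [sq, Finset.sum_mul_sum]
    refine Finset.sum_congr rfl fun j _ => Finset.sum_congr rfl fun k _ => by ring
  simp_rw [e]
  have hc := continuous_phi
  rw [intervalIntegral.integral_finsetSum]
  · refine Finset.sum_congr rfl fun j hj => ?_
    rw [intervalIntegral.integral_finsetSum]
    · simp_rw [intervalIntegral.integral_const_mul, integral_phi_mul_phi]
      simp [Finset.sum_ite_eq, hj, sq]
    · intro k _
      have c1 := hc j
      have c2 := hc k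
      exact (by fun_prop : Continuous _).intervalIntegrable _ _
  · intro j _
    apply Continuous.intervalIntegrable
    apply continuous_finsetSum
    intro k _
    have c1 := hc j
    have c2 := hc k
    fun_prop

lemma integral_sum_Phi_sq (s : Finset ℕ) (hs : ∀ k ∈ s, 1 ≤ k) (c : ℕ → ℝ) :
    ∫ x in (-1 : ℝ)..1, (∑ k ∈ s, c k * Phi k x) ^ 2 ≤ 4 * ∑ k ∈ s, c k ^ 2 / (k : ℝ) ^ 2 := by
  have hPhi : ∀ k ∈ s, ∀ x, Phi k x = coefA k * phi (k + 1) x - coefB k * phi (k - 1) x := by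
    intro k hk x
    obtain ⟨n, rfl⟩ : ∃ n, k = n + 1 := ⟨k - 1, by have := hs k hk; omega⟩
    exact Phi_eq n x
  have e : ∀ x, (∑ k ∈ s, c k * Phi k x) = (∑ k ∈ s, (c k * coefA k) * phi (k + 1) x)
      - ∑ k ∈ s, (c k * coefB k) * phi (k - 1) x := by
    intro x
    rw [← Finset.sum_sub_distrib]
    refine Finset.sum_congr rfl fun k hk => ?_
    rw [hPhi k hk x]; ring
  have hc := continuous_phi
  have cA : Continuous fun x => ∑ k ∈ s, (c k * coefA k) * phi (k + 1) x := by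
    apply continuous_finsetSum; intro k _; have := hc (k + 1); fun_prop
  have cB : Continuous fun x => ∑ k ∈ s, (c k * coefB k) * phi (k - 1) x := by
    apply continuous_finsetSum; intro k _; have := hc (k - 1); fun_prop
  have IA : ∫ x in (-1 : ℝ)..1, (∑ k ∈ s, (c k * coefA k) * phi (k + 1) x) ^ 2
      = ∑ k ∈ s, (c k * coefA k) ^ 2 := by
    have hinj : Set.InjOn (fun k : ℕ => k + 1) (s : Set ℕ) := by
      intro a _ b _ hab
      simpa using hab
    have h := integral_sum_phi_sq (s.image (fun k => k + 1))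
      (fun k => c (k - 1) * coefA (k - 1))
    have e1 : ∀ x, ∑ k ∈ s.image (fun k => k + 1), c (k - 1) * coefA (k - 1) * phi k x
        = ∑ k ∈ s, (c k * coefA k) * phi (k + 1) x := by
      intro x
      rw [Finset.sum_image hinj]
      rfl
    have e2 : ∑ k ∈ s.image (fun k => k + 1), (c (k - 1) * coefA (k - 1)) ^ 2
        = ∑ k ∈ s, (c k * coefA k) ^ 2 := by
      rw [Finset.sum_image hinj]
      rfl
    simp_rw [e1] at h
    rw [h, e2]
  have IB : ∫ x in (-1 : ℝ)..1, (∑ k ∈ s, (c k * coefB k) * phi (k - 1) x) ^ 2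
      = ∑ k ∈ s, (c k * coefB k) ^ 2 := by
    have hinj : Set.InjOn (fun k : ℕ => k - 1) (s : Set ℕ) := by
      intro a ha b hb hab
      have h1 := hs a ha
      have h2 := hs b hb
      simp only at hab
      omega
    have h := integral_sum_phi_sq (s.image (fun k => k - 1)) (fun k => c (k + 1) * coefB (k + 1))
    have e1 : ∀ x, ∑ k ∈ s.image (fun k => k - 1), c (k + 1) * coefB (k + 1) * phi k x
        = ∑ k ∈ s, (c k * coefB k) * phi (k - 1) x := by
      intro x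
      rw [Finset.sum_image hinj]
      refine Finset.sum_congr rfl fun k hk => ?_
      rw [Nat.sub_add_cancel (hs k hk)]
    have e2 : ∑ k ∈ s.image (fun k => k - 1), (c (k + 1) * coefB (k + 1)) ^ 2
        = ∑ k ∈ s, (c k * coefB k) ^ 2 := by
      rw [Finset.sum_image hinj]
      refine Finset.sum_congr rfl fun k hk => ?_
      rw [Nat.sub_add_cancel (hs k hk)]
    simp_rw [e1] at h
    rw [h, e2]
  have h1 : ∫ x in (-1 : ℝ)..1, (∑ k ∈ s, c k * Phi k x) ^ 2
      ≤ ∫ x in (-1 : ℝ)..1, (2 * (∑ k ∈ s, (c k * coefA k) * phi (k + 1) x) ^ 2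
        + 2 * (∑ k ∈ s, (c k * coefB k) * phi (k - 1) x) ^ 2) := by
    apply intervalIntegral.integral_mono_on (by norm_num)
    · simp_rw [e]
      exact (by fun_prop : Continuous _).intervalIntegrable _ _
    · exact (by fun_prop : Continuous _).intervalIntegrable _ _
    · intro x _
      rw [e]
      nlinarith [sq_nonneg ((∑ k ∈ s, (c k * coefA k) * phi (k + 1) x)
        + ∑ k ∈ s, (c k * coefB k) * phi (k - 1) x)]
  refine h1.trans ?_
  rw [intervalIntegral.integral_add, intervalIntegral.integral_const_mul,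
    intervalIntegral.integral_const_mul, IA, IB, Finset.mul_sum, Finset.mul_sum, Finset.mul_sum,
    ← Finset.sum_add_distrib]
  · apply Finset.sum_le_sum
    intro k hk
    have h1 := coefA_sq_le k (hs k hk)
    have h2 := coefB_sq_le k (hs k hk)
    calc 2 * (c k * coefA k) ^ 2 + 2 * (c k * coefB k) ^ 2
        = 2 * (c k ^ 2 * coefA k ^ 2) + 2 * (c k ^ 2 * coefB k ^ 2) := by ring
      _ ≤ 2 * (c k ^ 2 * (1 / (k : ℝ) ^ 2)) + 2 * (c k ^ 2 * (1 / (k : ℝ) ^ 2)) := by gcongr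
      _ = 4 * (c k ^ 2 / (k : ℝ) ^ 2) := by ring
  · exact (by fun_prop : Continuous _).intervalIntegrable _ _
  · exact (by fun_prop : Continuous _).intervalIntegrable _ _

end Pool.Agent.MP_f3eb7e
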