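import Mathlib

set_option autoImplicit false

open MeasureTheory Set Filter Topology
open scoped ENNReal

namespace Pool.Agent.MP_f3eb7e

/-- almost everywhere isomorphisms of measure spaces -/
structure MIso {α β : Type*} [MeasurableSpace α] [MeasurableSpace β] (μ : Measure α) (ν : Measure β) where
  f : α → β
  g : β → α
  mf : MeasurePreserving f μ ν
  mg : MeasurePreserving g ν μ
  gf : ∀ᵐ x ∂μ, g (f x) = x
  fg : ∀ᵐ y ∂ν, f (g y) = y

namespace MIso

variable {α β γ : Type*} [MeasurableSpace α] [MeasurableSpace β] [MeasurableSpace γ]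
  {μ : Measure α} {ν : Measure β} {κ : Measure γ}

/-- identity -/
def refl (μ : Measure α) : MIso μ μ :=
  ⟨id, id, MeasurePreserving.id μ, MeasurePreserving.id μ, Eventually.of_forall fun _ => rfl,
    Eventually.of_forall fun _ => rfl⟩

/-- inverse -/
def symm (e : MIso μ ν) : MIso ν μ := ⟨e.g, e.f, e.mg, e.mf, e.fg, e.gf⟩

/-- composition -/
def trans (e : MIso μ ν) (e' : MIso ν κ) : MIso μ κ where
  f := fun x => e'.f (e.f x)
  g := fun z => e.g (e'.g z)
  mf := e'.mf.comp e.mf
  mg := e.mg.comp e'.mg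
  gf := by
    have h := e.mf.quasiMeasurePreserving.ae e'.gf
    filter_upwards [h, e.gf] with x h1 h2
    rw [h1, h2]
  fg := by
    have h := e'.mg.quasiMeasurePreserving.ae e.fg
    filter_upwards [h, e'.fg] with x h1 h2
    rw [h1, h2]

/-- an isomorphism from a measure preserving map with measurable left inverse -/
def ofSection {μ : Measure ℝ} {ν : Measure ℝ} (q φ : ℝ → ℝ) (hq : MeasurePreserving q μ ν)
    (hφ : Measurable φ) (h : ∀ᵐ t ∂μ, φ (q t) = t) : MIso μ ν where
  f := q
  g := φ
  mf := hq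
  mg := by
    refine ⟨hφ, ?_⟩
    rw [← hq.map_eq, Measure.map_map hφ hq.measurable]
    have : (φ ∘ q) =ᵐ[μ] id := h
    rw [Measure.map_congr this, Measure.map_id]
  gf := h
  fg := by
    rw [← hq.map_eq]
    have hm : MeasurableSet {y : ℝ | q (φ y) = y} :=
      measurableSet_eq_fun (hq.measurable.comp hφ) measurable_id
    rw [ae_map_iff hq.measurable.aemeasurable hm]
    filter_upwards [h] with t ht
    rw [ht]

end MIso

/-! ### distribution functions of bounded sets -/

section Dist

variable (A : Set ℝ)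

/-- distribution function of a set -/
noncomputable def dF (x : ℝ) : ℝ := (volume (A ∩ Iic x)).toReal

variable {A} (hA : A ⊆ Icc (-1 : ℝ) 1)

include hA

lemma vol_lt_top : volume A < ∞ :=
  lt_of_le_of_lt (measure_mono hA) (by simp)

lemma vol_inter_lt_top (x : ℝ) : volume (A ∩ Iic x) < ∞ :=
  lt_of_le_of_lt (measure_mono inter_subset_left) (vol_lt_top hA)

lemma dF_mono : Monotone (dF A) := by
  intro x y hxy
  unfold dF
  apply ENNReal.toReal_mono (vol_inter_lt_top hA y).ne
  exact measure_mono (inter_subset_inter_right _ (Iic_subset_Iic.2 hxy))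

lemma dF_lip {x y : ℝ} (hxy : x ≤ y) : dF A y ≤ dF A x + (y - x) := by
  unfold dF
  have h1 : volume (A ∩ Iic y) ≤ volume (A ∩ Iic x) + ENNReal.ofReal (y - x) := by
    calc volume (A ∩ Iic y) ≤ volume ((A ∩ Iic x) ∪ Ioc x y) := by
          apply measure_mono
          rintro z ⟨h1, h2⟩
          rcases le_or_gt z x with h | h
          · exact Or.inl ⟨h1, h⟩
          · exact Or.inr ⟨h, h2⟩
      _ ≤ volume (A ∩ Iic x) + volume (Ioc x y) := measure_union_le _ _
      _ = volume (A ∩ Iic x) + ENNReal.ofReal (y - x) := by rw [Real.volume_Ioc]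
  have h2 : volume (A ∩ Iic x) + ENNReal.ofReal (y - x) ≠ ∞ :=
    ENNReal.add_ne_top.2 ⟨(vol_inter_lt_top hA x).ne, ENNReal.ofReal_ne_top⟩
  calc (volume (A ∩ Iic y)).toReal ≤ (volume (A ∩ Iic x) + ENNReal.ofReal (y - x)).toReal :=
        ENNReal.toReal_mono h2 h1
    _ = (volume (A ∩ Iic x)).toReal + (y - x) := by
        rw [ENNReal.toReal_add (vol_inter_lt_top hA x).ne ENNReal.ofReal_ne_top,
          ENNReal.toReal_ofReal (by linarith)]

lemma dF_continuous : Continuous (dF A) := by
  have : LipschitzWith 1 (dF A) := by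
    apply LipschitzWith.of_dist_le_mul
    intro x y
    rw [Real.dist_eq, Real.dist_eq]
    simp only [NNReal.coe_one, one_mul]
    rcases le_total x y with h | h
    · have h1 := dF_mono hA h
      have h2 := dF_lip hA h
      rw [abs_sub_comm, abs_sub_comm x y, abs_of_nonneg (by linarith), abs_of_nonneg (by linarith)]
      linarith
    · have h1 := dF_mono hA h
      have h2 := dF_lip hA h
      rw [abs_of_nonneg (by linarith), abs_of_nonneg (by linarith)]
      linarith
  exact this.continuous

lemma dF_low {x : ℝ} (hx : x ≤ -1) : dF A x = 0 := by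
  unfold dF
  have : volume (A ∩ Iic x) = 0 := by
    apply measure_mono_null (t := {(-1 : ℝ)})
    · rintro z ⟨h1, h2⟩
      have := (hA h1).1
      have h3 : z ≤ x := h2
      simp only [mem_singleton_iff]; linarith
    · simp
  rw [this]; simp

lemma dF_high {x : ℝ} (hx : 1 ≤ x) : dF A x = (volume A).toReal := by
  unfold dF
  congr 2
  apply inter_eq_left.2
  intro z hz
  exact (hA hz).2.trans hx

lemma dF_le (x : ℝ) : dF A x ≤ (volume A).toReal := by
  unfold dF
  exact ENNReal.toReal_mono (vol_lt_top hA).ne (measure_mono inter_subset_left)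

omit hA in
lemma dF_nonneg (x : ℝ) : 0 ≤ dF A x := ENNReal.toReal_nonneg

omit hA in
/-- quantile function -/
noncomputable def qF (A : Set ℝ) (t : ℝ) : ℝ :=
  if t ≤ (volume A).toReal then sInf {x | x ∈ Icc (-1 : ℝ) 1 ∧ t ≤ dF A x} else 1

lemma qset_nonempty {t : ℝ} (ht : t ≤ (volume A).toReal) :
    {x | x ∈ Icc (-1 : ℝ) 1 ∧ t ≤ dF A x}.Nonempty :=
  ⟨1, ⟨by norm_num, le_refl _⟩, by rw [dF_high hA (le_refl _)]; exact ht⟩

omit hA in
lemma qset_bdd (t : ℝ) : BddBelow {x | x ∈ Icc (-1 : ℝ) 1 ∧ t ≤ dF A x} :=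
  ⟨-1, fun _ hx => hx.1.1⟩

lemma qset_closed (t : ℝ) : IsClosed {x | x ∈ Icc (-1 : ℝ) 1 ∧ t ≤ dF A x} :=
  isClosed_Icc.inter (isClosed_le continuous_const (dF_continuous hA))

lemma qF_mem {t : ℝ} (ht : t ≤ (volume A).toReal) :
    qF A t ∈ Icc (-1 : ℝ) 1 ∧ t ≤ dF A (qF A t) := by
  unfold qF
  rw [if_pos ht]
  exact (qset_closed hA t).csInf_mem (qset_nonempty hA ht) (qset_bdd t)

lemma qF_mono : Monotone (qF A) := by
  intro s t hst
  by_cases ht : t ≤ (volume A).toReal
  · have hs : s ≤ (volume A).toReal := hst.trans ht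
    unfold qF
    rw [if_pos ht, if_pos hs]
    apply csInf_le_csInf (qset_bdd s) (qset_nonempty hA ht)
    intro x hx
    exact ⟨hx.1, hst.trans hx.2⟩
  · by_cases hs : s ≤ (volume A).toReal
    · have := (qF_mem hA hs).1.2
      have e : qF A t = 1 := by unfold qF; rw [if_neg ht]
      rw [e]; exact this
    · unfold qF
      rw [if_neg ht, if_neg hs]

lemma dF_qF {t : ℝ} (ht0 : 0 < t) (ht : t ≤ (volume A).toReal) : dF A (qF A t) = t := by
  obtain ⟨h1, h2⟩ := qF_mem hA ht
  apply le_antisymm _ h2
  -- by continuity from the left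
  by_contra hlt
  push Not at hlt
  have hgt : -1 < qF A t := by
    rcases eq_or_lt_of_le h1.1 with h | h
    · exfalso
      rw [← h, dF_low hA (le_refl _)] at h2
      linarith
    · exact h
  -- choose x slightly smaller
  set δ := min (dF A (qF A t) - t) (qF A t + 1) with hδ
  have hδ0 : 0 < δ := lt_min (by linarith) (by linarith)
  have hδ1 : δ ≤ dF A (qF A t) - t := min_le_left _ _
  have hδ2 : δ ≤ qF A t + 1 := min_le_right _ _
  have hlip := dF_lip hA (x := qF A t - δ) (y := qF A t) (by linarith)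
  have hx : qF A t - δ ∈ {x | x ∈ Icc (-1 : ℝ) 1 ∧ t ≤ dF A x} := by
    refine ⟨⟨by linarith, by linarith [h1.2]⟩, ?_⟩
    have : qF A t - (qF A t - δ) = δ := by ring
    rw [this] at hlip
    linarith
  have hle : qF A t ≤ qF A t - δ := by
    have e : qF A t = sInf {x | x ∈ Icc (-1 : ℝ) 1 ∧ t ≤ dF A x} := by unfold qF; rw [if_pos ht]
    conv_lhs => rw [e]
    exact csInf_le (qset_bdd t) hx
  linarith

lemma qF_le_iff {t : ℝ} (ht0 : 0 < t) (ht : t ≤ (volume A).toReal) (x : ℝ) :
    qF A t ≤ x ↔ t ≤ dF A x := by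
  constructor
  · intro h
    rw [← dF_qF hA ht0 ht]
    exact dF_mono hA h
  · intro h
    rcases lt_or_ge x (-1) with h1 | h1
    · rw [dF_low hA h1.le] at h; linarith
    · rcases le_or_gt x 1 with h2 | h2
      · unfold qF
        rw [if_pos ht]
        exact csInf_le (qset_bdd t) ⟨⟨h1, h2⟩, h⟩
      · exact (qF_mem hA ht).1.2.trans h2.le

lemma qF_measurePreserving :
    MeasurePreserving (qF A) (volume.restrict (Ioo 0 (volume A).toReal)) (volume.restrict A) := by
  have hmeas : Measurable (qF A) := (qF_mono hA).measurable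
  refine ⟨hmeas, ?_⟩
  have : IsFiniteMeasure (volume.restrict (Ioo 0 (volume A).toReal)) := by
    constructor; rw [Measure.restrict_apply_univ]; simp
  have : IsFiniteMeasure ((volume.restrict (Ioo 0 (volume A).toReal)).map (qF A)) :=
    Measure.isFiniteMeasure_map _ _
  apply Measure.ext_of_Iic
  intro x
  rw [Measure.map_apply hmeas measurableSet_Iic, Measure.restrict_apply (hmeas measurableSet_Iic),
    Measure.restrict_apply measurableSet_Iic]
  have e : qF A ⁻¹' Iic x ∩ Ioo 0 (volume A).toReal = Ioc 0 (dF A x) ∩ Ioo 0 (volume A).toReal := by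
    ext t
    simp only [mem_inter_iff, mem_preimage, mem_Iic, mem_Ioo, mem_Ioc]
    constructor
    · rintro ⟨h1, h2, h3⟩
      exact ⟨⟨h2, (qF_le_iff hA h2 h3.le x).1 h1⟩, h2, h3⟩
    · rintro ⟨⟨h1, h1'⟩, h2, h3⟩
      exact ⟨(qF_le_iff hA h2 h3.le x).2 h1', h2, h3⟩
  rw [e]
  have e2 : volume (Ioc 0 (dF A x) ∩ Ioo 0 (volume A).toReal) = ENNReal.ofReal (dF A x) := by
    apply le_antisymm
    · calc volume (Ioc 0 (dF A x) ∩ Ioo 0 (volume A).toReal) ≤ volume (Ioc 0 (dF A x)) :=
            measure_mono inter_subset_left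
        _ = ENNReal.ofReal (dF A x) := by rw [Real.volume_Ioc, sub_zero]
    · calc ENNReal.ofReal (dF A x) = volume (Ioo 0 (dF A x)) := by rw [Real.volume_Ioo, sub_zero]
        _ ≤ _ := by
          apply measure_mono
          intro t ht
          exact ⟨⟨ht.1, ht.2.le⟩, ht.1, ht.2.trans_le (dF_le hA x)⟩
  rw [e2]
  unfold dF
  rw [ENNReal.ofReal_toReal (vol_inter_lt_top hA x).ne, inter_comm]

end Dist

/-- every bounded measurable set is isomorphic to an interval -/
noncomputable def isoInterval {A : Set ℝ} (hA : A ⊆ Icc (-1 : ℝ) 1) :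
    MIso (volume.restrict (Ioo 0 (volume A).toReal)) (volume.restrict A) :=
  MIso.ofSection (qF A) (dF A) (qF_measurePreserving hA) (dF_mono hA).measurable (by
    filter_upwards [ae_restrict_mem measurableSet_Ioo] with t ht
    exact dF_qF hA ht.1 ht.2.le)

/-- sets of equal measure are isomorphic -/
noncomputable def isoSets {A B : Set ℝ} (hA : A ⊆ Icc (-1 : ℝ) 1)
    (hB : B ⊆ Icc (-1 : ℝ) 1) (h : volume A = volume B) :
    MIso (volume.restrict A) (volume.restrict B) :=
  (isoInterval hA).symm.trans (by rw [h]; exact isoInterval hB)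

/-- gluing isomorphisms along labels -/
theorem MIso.glue {α β : Type*} [MeasurableSpace α] [MeasurableSpace β] {μ : Measure α} {ν : Measure β}
    (κα : α → ℕ) (κβ : β → ℕ) (hα : Measurable κα) (hβ : Measurable κβ)
    (e : ∀ k : ℕ, MIso (μ.restrict {x | κα x = k}) (ν.restrict {y | κβ y = k})) :
    ∃ E : MIso μ ν, (∀ x, E.f x = (e (κα x)).f x) ∧ (∀ᵐ x ∂μ, κβ (E.f x) = κα x) := by
  have hsumα : Measure.sum (fun k => μ.restrict {x | κα x = k}) = μ := by
    rw [← Measure.restrict_iUnion]
    · have : (⋃ k, {x | κα x = k}) = univ := by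
        ext x; simp
      rw [this, Measure.restrict_univ]
    · intro i j hij
      rw [Function.onFun, Set.disjoint_left]
      intro x hx hy
      exact hij (hx.symm.trans hy)
    · intro k; exact hα (measurableSet_singleton k)
  have hsumβ : Measure.sum (fun k => ν.restrict {y | κβ y = k}) = ν := by
    rw [← Measure.restrict_iUnion]
    · have : (⋃ k, {y | κβ y = k}) = univ := by
        ext x; simp
      rw [this, Measure.restrict_univ]
    · intro i j hij
      rw [Function.onFun, Set.disjoint_left]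
      intro x hx hy
      exact hij (hx.symm.trans hy)
    · intro k; exact hβ (measurableSet_singleton k)
  set F : α → β := fun x => (e (κα x)).f x with hF
  set G : β → α := fun y => (e (κβ y)).g y with hG
  have mF : Measurable F := by
    have : Measurable (fun p : α × ℕ => (e p.2).f p.1) :=
      measurable_from_prod_countable_left fun k => (e k).mf.measurable
    exact this.comp (measurable_id.prodMk hα)
  have mG : Measurable G := by
    have : Measurable (fun p : β × ℕ => (e p.2).g p.1) :=
      measurable_from_prod_countable_left fun k => (e k).mg.measurable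
    exact this.comp (measurable_id.prodMk hβ)
  have aeα : ∀ k, ∀ᵐ x ∂(μ.restrict {x | κα x = k}), κα x = k := fun k =>
    ae_restrict_mem (hα (measurableSet_singleton k))
  have aeβ : ∀ k, ∀ᵐ y ∂(ν.restrict {y | κβ y = k}), κβ y = k := fun k =>
    ae_restrict_mem (hβ (measurableSet_singleton k))
  have keyF : ∀ x k, κα x = k → F x = (e k).f x := by
    intro x k h; subst h; rfl
  have keyG : ∀ y k, κβ y = k → G y = (e k).g y := by
    intro x k h; subst h; rfl
  have pF : MeasurePreserving F μ ν := by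
    refine ⟨mF, ?_⟩
    conv_lhs => rw [← hsumα]
    rw [Measure.map_sum mF.aemeasurable]
    conv_rhs => rw [← hsumβ]
    congr 1; funext k
    rw [← (e k).mf.map_eq]
    apply Measure.map_congr
    filter_upwards [aeα k] with x hx
    exact keyF x k hx
  have pG : MeasurePreserving G ν μ := by
    refine ⟨mG, ?_⟩
    conv_lhs => rw [← hsumβ]
    rw [Measure.map_sum mG.aemeasurable]
    conv_rhs => rw [← hsumα]
    congr 1; funext k
    rw [← (e k).mg.map_eq]
    apply Measure.map_congr
    filter_upwards [aeβ k] with x hx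
    exact keyG x k hx
  have lab : ∀ᵐ x ∂μ, κβ (F x) = κα x := by
    rw [← hsumα, Measure.ae_sum_iff]
    intro k
    have h1 := (e k).mf.quasiMeasurePreserving.ae (aeβ k)
    filter_upwards [aeα k, h1] with x hx hx1
    rw [keyF x k hx, hx1, hx]
  have lab' : ∀ᵐ y ∂ν, κα (G y) = κβ y := by
    rw [← hsumβ, Measure.ae_sum_iff]
    intro k
    have h1 := (e k).mg.quasiMeasurePreserving.ae (aeα k)
    filter_upwards [aeβ k, h1] with x hx hx1
    rw [keyG x k hx, hx1, hx]
  refine ⟨⟨F, G, pF, pG, ?_, ?_⟩, fun x => rfl, lab⟩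
  · rw [← hsumα, Measure.ae_sum_iff]
    intro k
    have h1 := (e k).mf.quasiMeasurePreserving.ae (aeβ k)
    filter_upwards [aeα k, h1, (e k).gf] with x hx hx1 hx2
    rw [keyF x k hx, keyG _ k hx1, hx2]
  · rw [← hsumβ, Measure.ae_sum_iff]
    intro k
    have h1 := (e k).mg.quasiMeasurePreserving.ae (aeα k)
    filter_upwards [aeβ k, h1, (e k).fg] with x hx hx1 hx2
    rw [keyG x k hx, keyF _ k hx1, hx2]

end Pool.Agent.MP_f3eb7e
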