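import Pool.Agent.Lib.MP_f3eb7e_an.Prep

set_option autoImplicit false

open MeasureTheory Set Filter Topology
open scoped ENNReal

namespace Pool.Agent.MP_f3eb7e

/-- mean over the large values -/
noncomputable def Ft (f : ℝ → ℝ) (t : ℝ) : ℝ := ∫ x, (if t < |f x| then f x else 0) ∂mu

/-! ### choice of the thresholds -/

lemma choose_thresholds {p : ℝ} (hp : 1 < p) {f : ℝ → ℝ} (hfi : Integrable f mu)
    (hM : ∫⁻ t in Ioi (0 : ℝ), ENNReal.ofReal (t ^ (p - 2) * |Ft f t|) < ∞) {δ : ℝ} (hδ : 0 < δ) :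
    ∃ (k₀ : ℕ) (t : ℕ → ℝ) (C : ℝ), 0 < C ∧ (∀ k, (2 : ℝ) ^ (k₀ + k) ≤ t k) ∧ (∀ k, t k ≤ 2 ^ (k₀ + k + 1)) ∧
      (∀ k, |Ft f (t k)| ≤ C * ((2 : ℝ) ^ (k₀ + k)) ^ (-(p - 1))) ∧
      mu {x | t 0 < |f x|} ≤ ENNReal.ofReal δ := by
  obtain ⟨C, hC0, hthr⟩ := exists_threshold hp hM
  choose thr hthr1 hthr2 using hthr
  set I₁ := ∫⁻ x, ‖f x‖ₑ ∂mu with hI₁
  have hI₁top : I₁ < ∞ := hfi.2
  obtain ⟨k₀, hk₀⟩ := exists_nat_gt (I₁.toReal / δ)
  refine ⟨k₀, fun k => thr (k₀ + k), C, hC0, fun k => (hthr1 _).1, fun k => (hthr1 _).2, ?_, ?_⟩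
  · intro k
    have h1 := hthr2 (k₀ + k)
    have h2 : (0 : ℝ) < ((2 : ℝ) ^ (k₀ + k)) ^ (p - 1) := by positivity
    rw [Real.rpow_neg (by positivity), ← div_eq_mul_inv, le_div_iff₀ h2]
    exact h1
  · have h2k : (0 : ℝ) < 2 ^ k₀ := by positivity
    have hmark := meas_ge_le_lintegral_div (μ := mu) (f := fun x => ‖f x‖ₑ) hfi.1.enorm
      (ε := ENNReal.ofReal (2 ^ k₀)) (by rw [ne_eq, ENNReal.ofReal_eq_zero, not_le]; exact h2k) ENNReal.ofReal_ne_top
    calc mu {x | thr (k₀ + 0) < |f x|} ≤ mu {x | ENNReal.ofReal (2 ^ k₀) ≤ ‖f x‖ₑ} := by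
          apply measure_mono
          intro x hx
          have h3 : (2 : ℝ) ^ k₀ ≤ |f x| := ((hthr1 (k₀ + 0)).1).trans (le_of_lt hx)
          show ENNReal.ofReal (2 ^ k₀) ≤ ‖f x‖ₑ
          rw [← ofReal_norm, Real.norm_eq_abs]
          exact ENNReal.ofReal_le_ofReal h3
      _ ≤ I₁ / ENNReal.ofReal (2 ^ k₀) := hmark
      _ ≤ ENNReal.ofReal δ := by
          apply ENNReal.div_le_of_le_mul
          rw [← ENNReal.ofReal_mul hδ.le]
          apply le_ofReal_of_toReal_le hI₁top.ne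
          rw [div_lt_iff₀ hδ] at hk₀
          have h4 : (k₀ : ℝ) ≤ 2 ^ k₀ := by exact_mod_cast (Nat.lt_two_pow_self (n := k₀)).le
          nlinarith

section Main

variable {f : ℝ → ℝ} {t : ℕ → ℝ} {k₀ : ℕ}

lemma t_mono (h1 : ∀ k, (2 : ℝ) ^ (k₀ + k) ≤ t k) (h2 : ∀ k, t k ≤ 2 ^ (k₀ + k + 1)) : Monotone t :=
  monotone_nat_of_le_succ fun k => (h2 k).trans (h1 (k + 1))

lemma t_top (h1 : ∀ k, (2 : ℝ) ^ (k₀ + k) ≤ t k) : Tendsto t atTop atTop := by
  apply tendsto_atTop_mono (f := fun k : ℕ => (k : ℝ)) _ tendsto_natCast_atTop_atTop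
  intro k
  have h3 : (k : ℝ) ≤ 2 ^ k := by exact_mod_cast (Nat.lt_two_pow_self (n := k)).le
  have h4 : (2 : ℝ) ^ k ≤ 2 ^ (k₀ + k) := pow_le_pow_right₀ (by norm_num) (by omega)
  exact h3.trans (h4.trans (h1 k))

/-- measures of the level sets -/
noncomputable def wl (f : ℝ → ℝ) (t : ℕ → ℝ) (k : ℕ) : ℝ := (mu (lev f t k)).toReal

lemma wl_nonneg (k : ℕ) : 0 ≤ wl f t k := ENNReal.toReal_nonneg

lemma ofReal_wl (k : ℕ) : ENNReal.ofReal (wl f t k) = mu (lev f t k) :=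
  ENNReal.ofReal_toReal (measure_ne_top _ _)

lemma tsum_lev_le (hf : Measurable f) (ht : Monotone t) {δ : ℝ}
    (hδ : mu {x | t 0 < |f x|} ≤ ENNReal.ofReal δ) : ∑' k, mu (lev f t k) ≤ ENNReal.ofReal δ := by
  rw [← measure_iUnion (lev_disj ht) (fun k => measurableSet_lev hf t k)]
  refine (measure_mono ?_).trans hδ
  intro x hx
  obtain ⟨k, hk⟩ := mem_iUnion.1 hx
  exact (ht (Nat.zero_le k)).trans_lt hk.1

lemma summable_wl (hf : Measurable f) (ht : Monotone t) {δ : ℝ}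
    (hδ : mu {x | t 0 < |f x|} ≤ ENNReal.ofReal δ) : Summable (wl f t) := by
  apply ENNReal.summable_toReal
  exact (lt_of_le_of_lt (tsum_lev_le hf ht hδ) ENNReal.ofReal_lt_top).ne

lemma tsum_wl_le (hf : Measurable f) (ht : Monotone t) {δ : ℝ} (hδ0 : 0 ≤ δ)
    (hδ : mu {x | t 0 < |f x|} ≤ ENNReal.ofReal δ) : ∑' k, wl f t k ≤ δ := by
  have h1 := tsum_lev_le hf ht hδ
  unfold wl
  rw [← ENNReal.tsum_toReal_eq (fun k => measure_ne_top _ _)]
  rw [← ENNReal.toReal_ofReal hδ0]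
  exact ENNReal.toReal_mono ENNReal.ofReal_ne_top h1

lemma mu_Ico {α β : ℝ} (hα : -1 ≤ α) (hβ : β ≤ 1) : mu (Ico α β) = ENNReal.ofReal (β - α) := by
  unfold mu
  rw [Measure.restrict_apply measurableSet_Ico]
  have : Ico α β ∩ Icc (-1 : ℝ) 1 = Ico α β := by
    apply inter_eq_left.2
    intro y hy
    exact ⟨hα.trans hy.1, hy.2.le.trans hβ⟩
  rw [this, Real.volume_Ico]

lemma mu_qs (hf : Measurable f) (ht : Monotone t) {δ : ℝ} (hδ0 : 0 ≤ δ) (hδ1 : δ ≤ 1)
    (hδ : mu {x | t 0 < |f x|} ≤ ENNReal.ofReal δ) (k : ℕ) : mu (qs (wl f t) k) = mu (lev f t k) := by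
  have hs := summable_wl hf ht hδ
  unfold qs
  rw [mu_Ico, xs_succ, add_sub_cancel_left, ofReal_wl]
  · linarith [xs_nonneg (w := wl f t) wl_nonneg k]
  · exact (xs_le_tsum wl_nonneg hs _).trans ((tsum_wl_le hf ht hδ0 hδ).trans hδ1)

/-- **Pre-arrangement**: move the level sets to consecutive intervals -/
lemma prearrange (hf : Measurable f) (ht : Monotone t) (htop : Tendsto t atTop atTop)
    {δ : ℝ} (hδ0 : 0 ≤ δ) (hδ1 : δ ≤ 1)
    (hδ : mu {x | t 0 < |f x|} ≤ ENNReal.ofReal δ) :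
    ∃ σ : MIso mu mu, mu {x | σ.f x ≠ x} ≤ ENNReal.ofReal (2 * δ) ∧
      (∀ᵐ x ∂mu, ∀ k, (σ.f x ∈ lev f t k ↔ x ∈ qs (wl f t) k)) ∧
      (∀ᵐ x ∂mu, (∀ k, x ∉ qs (wl f t) k) → |f (σ.f x)| ≤ t 0) := by
  have dA := lev_disj (f := f) ht
  have mA := fun k => measurableSet_lev hf t k
  have dQ := qs_disj (w := wl f t) wl_nonneg
  have mQ : ∀ k, MeasurableSet (qs (wl f t) k) := fun k => measurableSet_Ico
  have heq := mu_qs hf ht hδ0 hδ1 hδ
  have hUA : mu (⋃ k, lev f t k) ≤ ENNReal.ofReal δ := by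
    rw [measure_iUnion dA mA]; exact tsum_lev_le hf ht hδ
  have hUQ : mu (⋃ k, qs (wl f t) k) = mu (⋃ k, lev f t k) := by
    rw [measure_iUnion dA mA, measure_iUnion dQ mQ]
    congr 1; funext k; exact heq k
  have hlaw : ∀ k, mu {x | lb (lev f t) x = k} = mu {x | lb (qs (wl f t)) x = k} := by
    intro k
    rcases k with _ | k
    · have e1 : {x | lb (lev f t) x = 0} = (⋃ k, lev f t k)ᶜ := by
        ext x
        simp only [mem_ofPred_eq, lb_eq_zero_iff, mem_compl_iff, mem_iUnion, not_exists]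
      have e2 : {x | lb (qs (wl f t)) x = 0} = (⋃ k, qs (wl f t) k)ᶜ := by
        ext x
        simp only [mem_ofPred_eq, lb_eq_zero_iff, mem_compl_iff, mem_iUnion, not_exists]
      rw [e1, e2, measure_compl (MeasurableSet.iUnion mA) (measure_ne_top _ _),
        measure_compl (MeasurableSet.iUnion mQ) (measure_ne_top _ _), hUQ]
    · have e1 : {x | lb (lev f t) x = k + 1} = lev f t k := by
        ext x; simp only [mem_ofPred_eq, lb_eq_succ_iff dA]
      have e2 : {x | lb (qs (wl f t)) x = k + 1} = qs (wl f t) k := by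
        ext x; simp only [mem_ofPred_eq, lb_eq_succ_iff dQ]
      rw [e1, e2, heq]
  obtain ⟨σ, h1, h2⟩ := rearrange (lb (lev f t)) (lb (qs (wl f t))) (measurable_lb dA mA)
    (measurable_lb dQ mQ) hlaw
  refine ⟨σ, ?_, ?_, ?_⟩
  · have hsub : {x | σ.f x ≠ x} ⊆ (⋃ k, lev f t k) ∪ (⋃ k, qs (wl f t) k) := by
      intro x hx
      by_contra hn
      apply hx
      apply h2
      have e1 : lb (lev f t) x = 0 := lb_eq_zero_iff.2 fun k hk => hn (Or.inl (mem_iUnion.2 ⟨k, hk⟩))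
      have e2 : lb (qs (wl f t)) x = 0 := lb_eq_zero_iff.2 fun k hk => hn (Or.inr (mem_iUnion.2 ⟨k, hk⟩))
      rw [e1, e2]
    refine (measure_mono hsub).trans ((measure_union_le _ _).trans ?_)
    rw [hUQ, two_mul, ENNReal.ofReal_add hδ0 hδ0]
    gcongr
  · filter_upwards [h1] with x hx k
    rw [← lb_eq_succ_iff dA, ← lb_eq_succ_iff dQ, hx]
  · filter_upwards [h1] with x hx hxQ
    rw [lb_eq_zero_iff.2 hxQ] at hx
    by_contra hn
    obtain ⟨k, hk⟩ := exists_lev htop (not_le.1 hn)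
    exact lb_eq_zero_iff.1 hx k hk

/-- the integral over a level set -/
lemma setIntegral_lev (hf : Measurable f) (hfi : Integrable f mu) (ht : Monotone t) (k : ℕ) :
    ∫ x in lev f t k, f x ∂mu = Ft f (t k) - Ft f (t (k + 1)) := by
  unfold Ft
  have hi : ∀ s : ℝ, Integrable (fun x => if s < |f x| then f x else 0) mu := by
    intro s
    have hm : MeasurableSet {x | s < |f x|} := measurableSet_lt measurable_const hf.abs
    have := hfi.indicator hm
    refine this.congr (Eventually.of_forall fun x => ?_)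
    simp only [indicator, mem_ofPred_eq]
  rw [← integral_indicator (measurableSet_lev hf t k), ← integral_sub (hi _) (hi _)]
  congr 1; funext x
  have hle := ht (Nat.le_succ k)
  unfold indicator lev
  simp only [mem_ofPred_eq]
  by_cases h1 : t (k + 1) < |f x|
  · have h2 : t k < |f x| := lt_of_le_of_lt hle h1
    rw [if_neg (fun h => not_le.2 h1 h.2), if_pos h2, if_pos h1, sub_self]
  · by_cases h2 : t k < |f x|
    · rw [if_pos ⟨h2, not_lt.1 h1⟩, if_pos h2, if_neg h1, sub_zero]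
    · rw [if_neg (fun h => h2 h.1), if_neg h2, if_neg h1, sub_zero]

lemma integral_qs (hf : Measurable f) (hfi : Integrable f mu) (ht : Monotone t) {σ : MIso mu mu}
    (h : ∀ᵐ x ∂mu, ∀ k, (σ.f x ∈ lev f t k ↔ x ∈ qs (wl f t) k)) (k : ℕ) :
    ∫ x in qs (wl f t) k, f (σ.f x) ∂mu = Ft f (t k) - Ft f (t (k + 1)) := by
  rw [← setIntegral_lev hf hfi ht k, ← integral_indicator (measurableSet_lev hf t k),
    ← integral_indicator (show MeasurableSet (qs (wl f t) k) from measurableSet_Ico)]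
  have e1 : ∫ x, (lev f t k).indicator f x ∂mu = ∫ x, (lev f t k).indicator f (σ.f x) ∂mu := by
    conv_lhs => rw [← σ.mf.map_eq]
    exact integral_map σ.mf.measurable.aemeasurable
      (hf.indicator (measurableSet_lev hf t k)).aestronglyMeasurable
  rw [e1]
  apply integral_congr_ae
  filter_upwards [h] with x hx
  by_cases hxQ : x ∈ qs (wl f t) k
  · rw [indicator_of_mem hxQ, indicator_of_mem ((hx k).2 hxQ)]
  · rw [indicator_of_notMem hxQ, indicator_of_notMem (fun h' => hxQ ((hx k).1 h'))]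

/-- sum of threshold times measure -/
lemma tsum_t_wl (hf : Measurable f) (hfi : Integrable f mu) (h1 : ∀ k, (2 : ℝ) ^ (k₀ + k) ≤ t k)
    (h2 : ∀ k, t k ≤ 2 ^ (k₀ + k + 1)) :
    ∑' k, ENNReal.ofReal (t (k + 1) * wl f t k) < ∞ := by
  have ht := t_mono h1 h2
  have hk : ∀ k, ENNReal.ofReal (t (k + 1) * wl f t k) ≤ 4 * ∫⁻ x in lev f t k, ‖f x‖ₑ ∂mu := by
    intro k
    have h3 : t (k + 1) ≤ 4 * t k := by
      have a1 := h2 (k + 1)
      have a2 := h1 k
      have a3 : (2 : ℝ) ^ (k₀ + (k + 1) + 1) = 4 * 2 ^ (k₀ + k) := by ring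
      linarith
    have htk : 0 ≤ t k := (by positivity : (0 : ℝ) ≤ 2 ^ (k₀ + k)).trans (h1 k)
    calc ENNReal.ofReal (t (k + 1) * wl f t k) ≤ ENNReal.ofReal (4 * t k * wl f t k) := by
          apply ENNReal.ofReal_le_ofReal
          gcongr
          exact wl_nonneg k
      _ = 4 * (ENNReal.ofReal (t k) * mu (lev f t k)) := by
          rw [mul_assoc, ENNReal.ofReal_mul (by norm_num), ENNReal.ofReal_mul htk, ofReal_wl]
          simp
      _ = 4 * ∫⁻ _x in lev f t k, ENNReal.ofReal (t k) ∂mu := by rw [setLIntegral_const]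
      _ ≤ 4 * ∫⁻ x in lev f t k, ‖f x‖ₑ ∂mu := by
          gcongr 4 * ?_
          apply setLIntegral_mono' (measurableSet_lev hf t k)
          intro x hx
          rw [← ofReal_norm, Real.norm_eq_abs]
          exact ENNReal.ofReal_le_ofReal hx.1.le
  refine lt_of_le_of_lt (ENNReal.tsum_le_tsum hk) ?_
  rw [ENNReal.tsum_mul_left, ← lintegral_iUnion (fun k => measurableSet_lev hf t k) (lev_disj ht)]
  apply ENNReal.mul_lt_top (by simp)
  exact lt_of_le_of_lt (setLIntegral_le_lintegral _ _) hfi.2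

end Main

end Pool.Agent.MP_f3eb7e
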