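import Pool.Agent.Lib.MP_f3eb7e_an.Main

set_option autoImplicit false

open MeasureTheory Set Filter Topology
open scoped ENNReal

namespace Pool.Agent.MP_f3eb7e

/-- clamped restriction -/
noncomputable def clampOn (A : Set ℝ) (T : ℝ) (g : ℝ → ℝ) : ℝ → ℝ :=
  A.indicator fun x => max (-T) (min (g x) T)

lemma measurable_clampOn {A : Set ℝ} (hA : MeasurableSet A) (T : ℝ) {g : ℝ → ℝ} (hg : Measurable g) :
    Measurable (clampOn A T g) :=
  (measurable_const.max (hg.min measurable_const)).indicator hA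

lemma abs_clampOn_le (A : Set ℝ) {T : ℝ} (hT : 0 ≤ T) (g : ℝ → ℝ) (y : ℝ) : |clampOn A T g y| ≤ T := by
  unfold clampOn indicator
  split_ifs
  · rw [abs_le]
    exact ⟨le_max_left _ _, max_le (by linarith) (min_le_right _ _)⟩
  · simpa using hT

lemma clampOn_off (A : Set ℝ) (T : ℝ) (g : ℝ → ℝ) (y : ℝ) (hy : y ∉ A) : clampOn A T g y = 0 :=
  indicator_of_notMem hy _

lemma clampOn_eq {A : Set ℝ} {T : ℝ} {g : ℝ → ℝ} {y : ℝ} (hy : y ∈ A) (h : |g y| ≤ T) :
    clampOn A T g y = g y := by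
  unfold clampOn
  rw [indicator_of_mem hy]
  have := abs_le.1 h
  rw [min_eq_left this.2, max_eq_right this.1]

/-- values after a region isomorphism -/
lemma region_congr {A : Set ℝ} {T : ℝ} {g : ℝ → ℝ} {τ : MIso mu mu}
    (hτ : ∀ᵐ x ∂mu, x ∉ A → τ.f x = x) (hg : ∀ᵐ x ∂mu, x ∈ A → |g x| ≤ T) {G : ℝ → ℝ}
    (hG : ∀ x, x ∈ A → G x = g (τ.f x)) :
    A.indicator G =ᵐ[mu] fun x => clampOn A T g (τ.f x) := by
  have h1 := τ.mf.quasiMeasurePreserving.ae hg
  filter_upwards [h1, τ.mem_iff_of_id_off hτ] with x a1 a2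
  by_cases hx : x ∈ A
  · rw [indicator_of_mem hx, hG x hx, clampOn_eq (a2.2 hx) (a1 (a2.2 hx))]
  · rw [indicator_of_notMem hx, clampOn_off _ _ _ _ (fun h => hx (a2.1 h))]

/-- **Main theorem** on the real line with the measure `mu`. -/
theorem main_mu {p : ℝ} (hp : 1 < p) {f : ℝ → ℝ} (hf : Measurable f) (hfi : Integrable f mu)
    (hM : ∫⁻ t in Ioi (0 : ℝ), ENNReal.ofReal (t ^ (p - 2) * |Ft f t|) < ∞) {ε : ℝ} (hε : 0 < ε) :
    ∃ ω : MIso mu mu, mu {x | ω.f x ≠ x} ≤ ENNReal.ofReal ε ∧ NN (fun x => f (ω.f x)) < ∞ := by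
  set δ := min (ε / 8) (1 / 8) with hδdef
  have hδ0 : 0 < δ := lt_min (by positivity) (by norm_num)
  have hδε : δ ≤ ε / 8 := min_le_left _ _
  have hδ8 : δ ≤ 1 / 8 := min_le_right _ _
  obtain ⟨k₀, t, C, hC0, ht1, ht2, ht3, hδ⟩ := choose_thresholds hp hfi hM hδ0
  have ht := t_mono ht1 ht2
  have htop := t_top ht1
  have tpos : ∀ k, 0 < t k := fun k => (by positivity : (0 : ℝ) < 2 ^ (k₀ + k)).trans_le (ht1 k)
  obtain ⟨σ, hσ1, hσ2, hσ3⟩ := prearrange hf ht htop hδ0.le (by linarith) hδ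
  set w := wl f t with hw
  have hw0 : ∀ k, 0 ≤ w k := wl_nonneg
  have hs : Summable w := summable_wl hf ht hδ
  have hsum : ∑' i, w i ≤ δ := tsum_wl_le hf ht hδ0.le hδ
  have hsum0 : 0 ≤ ∑' i, w i := tsum_nonneg hw0
  set g : ℝ → ℝ := fun x => f (σ.f x) with hg
  have mg : Measurable g := hf.comp σ.mf.measurable
  have gi : Integrable g mu := (σ.mf.integrable_comp hfi.1).2 hfi
  set a := p - 1 with ha
  have ha0 : 0 < a := by rw [ha]; linarith
  set η := a / (2 * (1 + a)) with hη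
  have hη0 : 0 < η := by positivity
  have hη1 : η < 1 := by rw [hη, div_lt_one (by positivity)]; linarith
  obtain ⟨CC, hCC, hreg⟩ := region_free hη0 hη1
  -- bounds of the values on the regions
  have hxs : ∀ k, xs w k ≤ 1 / 8 := fun k => ((xs_le_tsum hw0 hs k).trans hsum).trans hδ8
  have hxs0 : ∀ k, 0 ≤ xs w k := fun k => xs_nonneg hw0 k
  have bQ : ∀ k, ∀ᵐ x ∂mu, x ∈ qs w k → |g x| ≤ t (k + 1) := by
    intro k
    filter_upwards [hσ2] with x hx hxQ
    exact ((hx k).2 hxQ).2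
  have b0 : ∀ᵐ x ∂mu, x ∈ Ico (-1 : ℝ) 0 → |g x| ≤ t 0 := by
    filter_upwards [hσ3] with x hx hxQ
    apply hx
    intro k hk
    have h1 := hxs0 k
    have h2 : xs w k ≤ x := hk.1
    linarith [hxQ.2]
  have b1 : ∀ᵐ x ∂mu, x ∈ Ico (∑' i, w i) (1 : ℝ) → |g x| ≤ t 0 := by
    filter_upwards [hσ3] with x hx hxQ
    apply hx
    intro k hk
    have h1 := xs_le_tsum hw0 hs (k + 1)
    have h2 : x < xs w (k + 1) := hk.2
    linarith [hxQ.1]
  -- the region isomorphisms
  obtain ⟨τ0, p1, p2, p3⟩ := region_small (α := -1) (β := 0) (T := t 0) (le_refl _) (by norm_num)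
    (by norm_num) (tpos 0) (measurable_clampOn measurableSet_Ico (t 0) mg)
    (abs_clampOn_le _ (tpos 0).le g) (clampOn_off _ _ g) (show 0 < ε / 8 by positivity)
  obtain ⟨τ1, r1, r2, r3⟩ := region_small (α := ∑' i, w i) (β := 1) (T := t 0) (by linarith) (by linarith)
    (le_refl _) (tpos 0) (measurable_clampOn measurableSet_Ico (t 0) mg)
    (abs_clampOn_le _ (tpos 0).le g) (clampOn_off _ _ g) (show 0 < ε / 8 by positivity)
  set D : ℝ := ((2 * C) ^ (1 - η) * 4 ^ η) with hD
  have hD0 : 0 ≤ D := by positivity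
  have hQ : ∀ k, ∃ τ : MIso mu mu, (∀ᵐ x ∂mu, x ∉ qs w k → τ.f x = x) ∧
      NN (fun x => clampOn (qs w k) (t (k + 1)) g (τ.f x)) ≤ CC * ENNReal.ofReal (t (k + 1) * w k)
        + CC * ENNReal.ofReal (D * ((2 : ℝ) ^ (k₀ + k)) ^ (-(a / 2))) + ENNReal.ofReal ((1 / 2) ^ k) := by
    intro k
    rcases (hw0 k).eq_or_lt with hwk | hwk
    · refine ⟨MIso.refl mu, Eventually.of_forall fun x _ => rfl, ?_⟩
      have hemp : qs w k = ∅ := by
        unfold qs
        rw [xs_succ, ← hwk, add_zero, Ico_self]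
      have e : (fun x => clampOn (qs w k) (t (k + 1)) g ((MIso.refl mu).f x)) = fun _ => 0 := by
        funext x
        rw [hemp]
        exact clampOn_off _ _ _ _ (notMem_empty _)
      rw [e, NN_zero]
      exact bot_le
    · have hlt : xs w k < xs w (k + 1) := by rw [xs_succ]; linarith
      have hlen : xs w (k + 1) - xs w k = w k := by rw [xs_succ]; ring
      obtain ⟨τ, s1, s2⟩ := hreg (xs w k) (xs w (k + 1)) (t (k + 1)) (by linarith [hxs0 k]) hlt (hxs (k + 1))
        (tpos _) (clampOn (qs w k) (t (k + 1)) g) (measurable_clampOn measurableSet_Ico _ mg)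
        (abs_clampOn_le _ (tpos _).le g) (clampOn_off _ _ g) ((1 / 2) ^ k) (by positivity)
      refine ⟨τ, s1, s2.trans ?_⟩
      rw [hlen]
      refine add_le_add (add_le_add (le_refl _) (mul_le_mul' (le_refl _) (ENNReal.ofReal_le_ofReal ?_))) (le_refl _)
      -- the mean
      have hmean : ∫ y in Ico (xs w k) (xs w (k + 1)), clampOn (qs w k) (t (k + 1)) g y
          = Ft f (t k) - Ft f (t (k + 1)) := by
        rw [← restrict_mu (by linarith [hxs0 k]) (by linarith [hxs (k + 1)]),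
          ← integral_qs hf hfi ht hσ2 k]
        apply setIntegral_congr_ae measurableSet_Ico
        filter_upwards [bQ k] with x hx hxQ
        exact clampOn_eq hxQ (hx hxQ)
      have hm1 : |∫ y in Ico (xs w k) (xs w (k + 1)), clampOn (qs w k) (t (k + 1)) g y|
          ≤ 2 * C * ((2 : ℝ) ^ (k₀ + k)) ^ (-a) := by
        rw [hmean]
        refine (abs_sub _ _).trans ?_
        have e1 := ht3 k
        have e2 := ht3 (k + 1)
        have e3 : ((2 : ℝ) ^ (k₀ + (k + 1))) ^ (-a) ≤ ((2 : ℝ) ^ (k₀ + k)) ^ (-a) := by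
          apply Real.rpow_le_rpow_of_nonpos (by positivity) _ (by linarith)
          exact pow_le_pow_right₀ (by norm_num) (by omega)
        have e4 : C * ((2 : ℝ) ^ (k₀ + (k + 1))) ^ (-a) ≤ C * ((2 : ℝ) ^ (k₀ + k)) ^ (-a) := by gcongr
        linarith
      have hm2 : |∫ y in Ico (xs w k) (xs w (k + 1)), clampOn (qs w k) (t (k + 1)) g y|
          ≤ 4 * (2 : ℝ) ^ (k₀ + k) * w k := by
        have h1 := abs_setIntegral_le (f := clampOn (qs w k) (t (k + 1)) g)
          (measurable_clampOn measurableSet_Ico _ mg) (C := t (k + 1)) (tpos _).le hlt.le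
          (fun y _ => abs_clampOn_le _ (tpos _).le g y) ⟨_, abs_clampOn_le _ (tpos _).le g⟩
        rw [hlen] at h1
        refine h1.trans ?_
        gcongr
        have := ht2 (k + 1)
        have e5 : (2 : ℝ) ^ (k₀ + (k + 1) + 1) = 4 * 2 ^ (k₀ + k) := by ring
        linarith
      exact num_est ha0 (by positivity) (by positivity) hwk (abs_nonneg _) hm1 hm2
  choose τQ q1 q2 using hQ
  set τ : ℕ → MIso mu mu := fun j => match j with
    | 0 => τ0
    | 1 => τ1
    | (k + 2) => τQ k with hτ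
  have hτoff : ∀ j, ∀ᵐ x ∂mu, x ∉ rg w j → (τ j).f x = x := by
    intro j
    match j with
    | 0 => exact p1
    | 1 => exact r1
    | (k + 2) => exact q1 k
  obtain ⟨E, hE1, hE2⟩ := MIso.glueFamily (rg_disj hw0 hs) (fun j => measurableSet_Ico) τ hτoff
  refine ⟨E.trans σ, ?_, ?_⟩
  · refine (MIso.trans_ne_le _ _).trans ?_
    have hsub : {x | E.f x ≠ x} ⊆ ({x | τ0.f x ≠ x} ∪ {x | τ1.f x ≠ x}) ∪ ⋃ k, qs w k := by
      intro x hx
      by_contra hn
      simp only [mem_union, mem_ofPred_eq, mem_iUnion, not_or, not_not, not_exists] at hn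
      apply hx
      by_cases hex : ∃ j, x ∈ rg w j
      · obtain ⟨j, hj⟩ := hex
        match j, hj with
        | 0, hj => rw [hE1 0 x hj]; exact hn.1.1
        | 1, hj => rw [hE1 1 x hj]; exact hn.1.2
        | (k + 2), hj => exact absurd hj (hn.2 k)
      · exact hE2 x (fun k hk => hex ⟨k, hk⟩)
    have hUQ : mu (⋃ k, qs w k) ≤ ENNReal.ofReal δ := by
      refine (measure_iUnion_le _).trans ?_
      have e1 : ∀ k, mu (qs w k) = mu (lev f t k) := mu_qs hf ht hδ0.le (by linarith) hδ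
      simp_rw [e1]
      exact tsum_lev_le hf ht hδ
    calc _ ≤ ((ENNReal.ofReal (ε / 8) + ENNReal.ofReal (ε / 8)) + ENNReal.ofReal δ) + ENNReal.ofReal (2 * δ) := by
          refine add_le_add ((measure_mono hsub).trans ((measure_union_le _ _).trans ?_)) hσ1
          exact add_le_add ((measure_union_le _ _).trans (add_le_add p2 r2)) hUQ
      _ = ENNReal.ofReal (((ε / 8 + ε / 8) + δ) + 2 * δ) := by
          rw [← ENNReal.ofReal_add (by positivity) (by positivity),
            ← ENNReal.ofReal_add (by positivity) (by positivity),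
            ← ENNReal.ofReal_add (by positivity) (by positivity)]
      _ ≤ ENNReal.ofReal ε := by
          apply ENNReal.ofReal_le_ofReal; linarith
  · -- the norm
    have hGi : Integrable (fun x => f ((E.trans σ).f x)) mu :=
      ((E.trans σ).mf.integrable_comp hfi.1).2 hfi
    refine lt_of_le_of_lt (NN_le_tsum_of_partition (rg_disj hw0 hs) (fun j => measurableSet_Ico)
      (rg_cover_ae hs) hGi) ?_
    have c0 : NN ((rg w 0).indicator fun x => f ((E.trans σ).f x)) < ∞ := by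
      rw [NN_congr (region_congr (A := rg w 0) p1 b0 (G := fun x => f ((E.trans σ).f x)) (fun x hx => by
        show f (σ.f (E.f x)) = g (τ0.f x)
        rw [hE1 0 x hx]))]
      exact p3
    have c1 : NN ((rg w 1).indicator fun x => f ((E.trans σ).f x)) < ∞ := by
      rw [NN_congr (region_congr (A := rg w 1) r1 b1 (G := fun x => f ((E.trans σ).f x)) (fun x hx => by
        show f (σ.f (E.f x)) = g (τ1.f x)
        rw [hE1 1 x hx]))]
      exact r3
    have c2 : ∀ k, NN ((rg w (k + 2)).indicator fun x => f ((E.trans σ).f x))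
        ≤ CC * ENNReal.ofReal (t (k + 1) * w k)
        + CC * ENNReal.ofReal (D * ((2 : ℝ) ^ (k₀ + k)) ^ (-(a / 2))) + ENNReal.ofReal ((1 / 2) ^ k) := by
      intro k
      rw [NN_congr (region_congr (A := rg w (k + 2)) (q1 k) (bQ k) (G := fun x => f ((E.trans σ).f x)) (fun x hx => by
        show f (σ.f (E.f x)) = g ((τQ k).f x)
        rw [hE1 (k + 2) x hx]))]
      exact q2 k
    rw [tsum_eq_zero_add' ENNReal.summable, tsum_eq_zero_add' ENNReal.summable]
    · refine ENNReal.add_lt_top.2 ⟨c0, ENNReal.add_lt_top.2 ⟨c1, ?_⟩⟩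
      refine lt_of_le_of_lt (ENNReal.tsum_le_tsum c2) ?_
      rw [ENNReal.tsum_add, ENNReal.tsum_add, ENNReal.tsum_mul_left, ENNReal.tsum_mul_left]
      refine ENNReal.add_lt_top.2 ⟨ENNReal.add_lt_top.2 ⟨ENNReal.mul_lt_top hCC (tsum_t_wl hf hfi ht1 ht2),
        ENNReal.mul_lt_top hCC ?_⟩, ?_⟩
      · rw [← ENNReal.ofReal_tsum_of_nonneg (fun k => by positivity) ((pow_rpow_summable ha0 k₀).mul_left D)]
        exact ENNReal.ofReal_lt_top
      · rw [← ENNReal.ofReal_tsum_of_nonneg (fun k => by positivity)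
          (summable_geometric_of_lt_one (by norm_num) (by norm_num))]
        exact ENNReal.ofReal_lt_top

end Pool.Agent.MP_f3eb7e
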