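import Pool.Agent.Lib.MP_f3eb7e_an.Kernel

set_option autoImplicit false

open MeasureTheory Set Filter Topology
open scoped ENNReal

namespace Pool.Agent.MP_f3eb7e

/-- Lebesgue measure on `[-1,1]` -/
noncomputable def mu : Measure ℝ := volume.restrict (Icc (-1 : ℝ) 1)

instance : IsFiniteMeasure mu := by
  unfold mu; infer_instance

lemma mu_univ : mu univ = 2 := by
  unfold mu
  rw [Measure.restrict_apply_univ, Real.volume_Icc]
  norm_num

lemma ae_mem_Ioo : ∀ᵐ x ∂mu, x ∈ Ioo (-1 : ℝ) 1 := by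
  unfold mu
  rw [← restrict_Ioo_eq_restrict_Icc]
  exact ae_restrict_mem measurableSet_Ioo

lemma ae_mem_Icc : ∀ᵐ x ∂mu, x ∈ Icc (-1 : ℝ) 1 := by
  unfold mu
  exact ae_restrict_mem measurableSet_Icc

lemma integral_mu_eq (f : ℝ → ℝ) : ∫ x, f x ∂mu = ∫ x in (-1 : ℝ)..1, f x := by
  unfold mu
  rw [intervalIntegral.integral_of_le (by norm_num), integral_Icc_eq_integral_Ioc]

lemma integrable_mu_of_continuous {f : ℝ → ℝ} (hf : Continuous f) : Integrable f mu := by
  unfold mu
  exact hf.continuousOn.integrableOn_compact isCompact_Icc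

lemma exists_bound_of_continuous {f : ℝ → ℝ} (hf : Continuous f) :
    ∃ C, ∀ᵐ x ∂mu, ‖f x‖ ≤ C := by
  obtain ⟨C, hC⟩ := isCompact_Icc.exists_bound_of_continuousOn (s := Icc (-1 : ℝ) 1) hf.continuousOn
  exact ⟨C, ae_mem_Icc.mono fun x hx => hC x hx⟩

lemma integrable_mul_continuous {f g : ℝ → ℝ} (hf : Integrable f mu) (hg : Continuous g) :
    Integrable (fun x => f x * g x) mu := by
  obtain ⟨C, hC⟩ := exists_bound_of_continuous hg
  exact hf.mul_bdd hg.aestronglyMeasurable hC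

/-- Legendre coefficients -/
noncomputable def coef (f : ℝ → ℝ) (k : ℕ) : ℝ := ∫ y, f y * phi k y ∂mu

/-- partial sums (degrees `< n`) -/
noncomputable def Sn (n : ℕ) (f : ℝ → ℝ) (x : ℝ) : ℝ := ∑ k ∈ Finset.range n, coef f k * phi k x

/-- maximal function -/
noncomputable def Smax (f : ℝ → ℝ) (x : ℝ) : ℝ≥0∞ := ⨆ n, ‖Sn n f x‖ₑ

/-- the `L^1` norm of the maximal function -/
noncomputable def NN (f : ℝ → ℝ) : ℝ≥0∞ := ∫⁻ x, Smax f x ∂mu

lemma coef_congr {f g : ℝ → ℝ} (h : f =ᵐ[mu] g) (k : ℕ) : coef f k = coef g k := by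
  unfold coef
  apply integral_congr_ae
  filter_upwards [h] with x hx
  rw [hx]

lemma coef_add {f g : ℝ → ℝ} (hf : Integrable f mu) (hg : Integrable g mu) (k : ℕ) :
    coef (fun x => f x + g x) k = coef f k + coef g k := by
  unfold coef
  rw [← integral_add (integrable_mul_continuous hf (continuous_phi k))
    (integrable_mul_continuous hg (continuous_phi k))]
  congr 1; funext x; ring

lemma coef_sub {f g : ℝ → ℝ} (hf : Integrable f mu) (hg : Integrable g mu) (k : ℕ) :
    coef (fun x => f x - g x) k = coef f k - coef g k := by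
  unfold coef
  rw [← integral_sub (integrable_mul_continuous hf (continuous_phi k))
    (integrable_mul_continuous hg (continuous_phi k))]
  congr 1; funext x; ring

lemma coef_const_mul (c : ℝ) (f : ℝ → ℝ) (k : ℕ) :
    coef (fun x => c * f x) k = c * coef f k := by
  unfold coef
  rw [← integral_const_mul]
  congr 1; funext x; ring

lemma Sn_add {f g : ℝ → ℝ} (hf : Integrable f mu) (hg : Integrable g mu) (n : ℕ) (x : ℝ) :
    Sn n (fun x => f x + g x) x = Sn n f x + Sn n g x := by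
  unfold Sn
  rw [← Finset.sum_add_distrib]
  exact Finset.sum_congr rfl fun k _ => by rw [coef_add hf hg]; ring

lemma Sn_const_mul (c : ℝ) (f : ℝ → ℝ) (n : ℕ) (x : ℝ) :
    Sn n (fun x => c * f x) x = c * Sn n f x := by
  unfold Sn
  rw [Finset.mul_sum]
  exact Finset.sum_congr rfl fun k _ => by rw [coef_const_mul]; ring

lemma continuous_Sn (n : ℕ) (f : ℝ → ℝ) : Continuous (Sn n f) := by
  unfold Sn
  apply continuous_finsetSum
  intro k _
  have := continuous_phi k
  fun_prop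

lemma measurable_Smax (f : ℝ → ℝ) : Measurable (Smax f) := by
  unfold Smax
  exact Measurable.iSup fun n => (continuous_Sn n f).measurable.enorm

lemma Smax_add_le {f g : ℝ → ℝ} (hf : Integrable f mu) (hg : Integrable g mu) (x : ℝ) :
    Smax (fun x => f x + g x) x ≤ Smax f x + Smax g x := by
  unfold Smax
  apply iSup_le
  intro n
  rw [Sn_add hf hg]
  exact (enorm_add_le _ _).trans (add_le_add (le_iSup (fun n => ‖Sn n f x‖ₑ) n)
    (le_iSup (fun n => ‖Sn n g x‖ₑ) n))

lemma Smax_const_mul (c : ℝ) (f : ℝ → ℝ) (x : ℝ) :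
    Smax (fun x => c * f x) x = ‖c‖ₑ * Smax f x := by
  unfold Smax
  rw [ENNReal.mul_iSup]
  congr 1; funext n
  rw [Sn_const_mul, enorm_mul]

lemma NN_add_le {f g : ℝ → ℝ} (hf : Integrable f mu) (hg : Integrable g mu) :
    NN (fun x => f x + g x) ≤ NN f + NN g := by
  unfold NN
  rw [← lintegral_add_left (measurable_Smax f)]
  exact lintegral_mono fun x => Smax_add_le hf hg x

lemma NN_const_mul (c : ℝ) (f : ℝ → ℝ) : NN (fun x => c * f x) = ‖c‖ₑ * NN f := by
  unfold NN
  rw [← lintegral_const_mul _ (measurable_Smax f)]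
  simp_rw [Smax_const_mul]

lemma Smax_congr {f g : ℝ → ℝ} (h : f =ᵐ[mu] g) (x : ℝ) : Smax f x = Smax g x := by
  unfold Smax Sn
  simp_rw [coef_congr h]

lemma NN_congr {f g : ℝ → ℝ} (h : f =ᵐ[mu] g) : NN f = NN g := by
  unfold NN
  simp_rw [Smax_congr h]

lemma NN_zero : NN (fun _ => 0) = 0 := by
  have := NN_const_mul 0 (fun _ => 0)
  simpa using this

lemma NN_sub_le {f g : ℝ → ℝ} (hf : Integrable f mu) (hg : Integrable g mu) :
    NN (fun x => f x - g x) ≤ NN f + NN g := by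
  have h := NN_add_le hf (hg.const_mul (-1))
  have e : (fun x => f x + -1 * g x) = fun x => f x - g x := by funext x; ring
  rw [e, NN_const_mul] at h
  simpa using h

lemma NN_finset_sum_le {ι : Type*} (s : Finset ι) (f : ι → ℝ → ℝ) (hf : ∀ i ∈ s, Integrable (f i) mu) :
    NN (fun x => ∑ i ∈ s, f i x) ≤ ∑ i ∈ s, NN (f i) := by
  classical
  induction s using Finset.induction_on with
  | empty => simp [NN_zero]
  | insert a s ha ih =>
    simp_rw [Finset.sum_insert ha]
    have h1 : Integrable (fun x => ∑ i ∈ s, f i x) mu :=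
      integrable_finsetSum s fun i hi => hf i (Finset.mem_insert_of_mem hi)
    refine (NN_add_le (hf a (Finset.mem_insert_self a s)) h1).trans ?_
    gcongr
    exact ih fun i hi => hf i (Finset.mem_insert_of_mem hi)

/-- lower semicontinuity -/
lemma NN_le_liminf {f : ℝ → ℝ} {F : ℕ → ℝ → ℝ}
    (h : ∀ k, Tendsto (fun j => coef (F j) k) atTop (𝓝 (coef f k))) :
    NN f ≤ liminf (fun j => NN (F j)) atTop := by
  have hS : ∀ x, Smax f x ≤ liminf (fun j => Smax (F j) x) atTop := by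
    intro x
    unfold Smax
    apply iSup_le
    intro n
    have ht : Tendsto (fun j => ‖Sn n (F j) x‖ₑ) atTop (𝓝 ‖Sn n f x‖ₑ) := by
      have : Tendsto (fun j => Sn n (F j) x) atTop (𝓝 (Sn n f x)) := by
        unfold Sn
        exact tendsto_finsetSum _ fun k _ => (h k).mul_const _
      exact (continuous_enorm.tendsto _).comp this
    rw [← ht.liminf_eq]
    exact liminf_le_liminf (Eventually.of_forall fun j => le_iSup (fun n => ‖Sn n (F j) x‖ₑ) n)
  calc NN f ≤ ∫⁻ x, liminf (fun j => Smax (F j) x) atTop ∂mu := lintegral_mono hS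
    _ ≤ liminf (fun j => NN (F j)) atTop := lintegral_liminf_le fun j => measurable_Smax (F j)

lemma coef_tendsto_of_L1 {f : ℝ → ℝ} {F : ℕ → ℝ → ℝ} (hf : Integrable f mu)
    (hF : ∀ j, Integrable (F j) mu)
    (h : Tendsto (fun j => ∫ x, |F j x - f x| ∂mu) atTop (𝓝 0)) (k : ℕ) :
    Tendsto (fun j => coef (F j) k) atTop (𝓝 (coef f k)) := by
  obtain ⟨C, hC⟩ := exists_bound_of_continuous (continuous_phi k)
  rw [tendsto_iff_norm_sub_tendsto_zero]
  have hb : ∀ j, ‖coef (F j) k - coef f k‖ ≤ C * ∫ x, |F j x - f x| ∂mu := by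
    intro j
    rw [← coef_sub (hF j) hf]
    unfold coef
    rw [← integral_const_mul]
    refine (norm_integral_le_integral_norm _).trans ?_
    apply integral_mono_ae
    · exact (integrable_mul_continuous ((hF j).sub hf) (continuous_phi k)).norm
    · exact ((hF j).sub hf).abs.const_mul C
    · filter_upwards [hC] with x hx
      rw [norm_mul, mul_comm, Real.norm_eq_abs (F j x - f x)]
      gcongr
  have h2 := h.const_mul C
  rw [mul_zero] at h2
  exact squeeze_zero (fun j => norm_nonneg _) hb h2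

lemma Sn_eq_integral_ker (n : ℕ) {f : ℝ → ℝ} (hf : Integrable f mu) (x : ℝ) :
    Sn n f x = ∫ y, f y * ker (Finset.range n) x y ∂mu := by
  unfold Sn coef ker
  simp_rw [Finset.mul_sum]
  rw [integral_finsetSum]
  · refine Finset.sum_congr rfl fun k _ => ?_
    rw [← integral_mul_const]
    congr 1; funext y; ring
  · intro k _
    have h := (integrable_mul_continuous hf (continuous_phi k)).mul_const (phi k x)
    refine h.congr (Eventually.of_forall fun y => ?_)
    simp only; ring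

/-- functions that can be tested by antiderivatives, with variation constant `V` -/
def BVle (f : ℝ → ℝ) (V : ℝ) : Prop :=
  ∀ k K : ℝ → ℝ, Continuous k → (∀ y, HasDerivAt K (k y) y) →
    ∀ M : ℝ, (∀ y ∈ Icc (-1 : ℝ) 1, |K y| ≤ M) → |∫ y, f y * k y ∂mu| ≤ V * M

lemma abs_Sn_le_of_BVle {f : ℝ → ℝ} {V : ℝ} (hf : Integrable f mu) (hV : BVle f V) (n : ℕ) {x : ℝ}
    (hx : x ∈ Ioo (-1 : ℝ) 1) : |Sn n f x| ≤ V * (10 * gw x) := by
  rw [Sn_eq_integral_ker n hf]
  exact hV _ _ (continuous_ker _ x) (hasDerivAt_Ker _ x) _ (fun y hy => abs_Ker_le n hx hy)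

lemma NN_le_of_forall {f : ℝ → ℝ} {B : ℝ → ℝ≥0∞} (h : ∀ x ∈ Ioo (-1 : ℝ) 1, ∀ n, ‖Sn n f x‖ₑ ≤ B x) :
    NN f ≤ ∫⁻ x, B x ∂mu := by
  unfold NN
  apply lintegral_mono_ae
  filter_upwards [ae_mem_Ioo] with x hx
  exact iSup_le fun n => h x hx n

/-! ### weights -/

lemma measurable_gw : Measurable gw := by
  unfold gw
  fun_prop

lemma lintegral_gw_sq_lt_top : ∫⁻ x, ENNReal.ofReal (gw x ^ 2) ∂mu < ∞ := by
  have h := Polynomial.Chebyshev.intervalIntegrable_sqrt_one_sub_sq_inv
  rw [intervalIntegrable_iff, Set.uIoc_of_le (by norm_num)] at h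
  have h2 : Integrable (fun x => gw x ^ 2) mu := by
    unfold mu
    rw [← restrict_Ioc_eq_restrict_Icc]
    refine Integrable.congr h ?_
    have : ∀ᵐ x ∂(volume.restrict (Ioc (-1 : ℝ) 1)), x ∈ Ioo (-1 : ℝ) 1 := by
      rw [← restrict_Ioo_eq_restrict_Ioc]
      exact ae_restrict_mem measurableSet_Ioo
    filter_upwards [this] with x hx
    rw [gw_sq hx, Real.sqrt_inv, one_div]
  exact h2.lintegral_lt_top

/-- total mass of `gw^2` -/
noncomputable def G2 : ℝ≥0∞ := ∫⁻ x, ENNReal.ofReal (gw x ^ 2) ∂mu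

lemma G2_lt_top : G2 < ∞ := lintegral_gw_sq_lt_top

lemma lintegral_gw_le (E : Set ℝ) :
    ∫⁻ x in E, ENNReal.ofReal (gw x) ∂mu ≤ (mu E) ^ (1 / 2 : ℝ) * G2 ^ (1 / 2 : ℝ) := by
  have h := ENNReal.lintegral_mul_le_Lp_mul_Lq (mu.restrict E) (p := 2) (q := 2)
    (by constructor <;> norm_num) (f := fun _ => 1) (g := fun x => ENNReal.ofReal (gw x))
    (by fun_prop) (measurable_gw.ennreal_ofReal.aemeasurable)
  simp only [Pi.mul_apply, one_mul, ENNReal.one_rpow, lintegral_one, Measure.restrict_apply_univ] at h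
  refine h.trans ?_
  gcongr
  unfold G2
  calc ∫⁻ x in E, ENNReal.ofReal (gw x) ^ (2 : ℝ) ∂mu
      ≤ ∫⁻ x, ENNReal.ofReal (gw x) ^ (2 : ℝ) ∂mu := setLIntegral_le_lintegral _ _
    _ = ∫⁻ x, ENNReal.ofReal (gw x ^ 2) ∂mu := by
        congr 1; funext x
        rw [ENNReal.ofReal_pow (gw_nonneg x)]
        norm_cast

noncomputable def G1 : ℝ≥0∞ := ∫⁻ x, ENNReal.ofReal (gw x) ∂mu

lemma G1_lt_top : G1 < ∞ := by
  have h := lintegral_gw_le univ
  rw [Measure.restrict_univ] at h
  refine lt_of_le_of_lt h ?_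
  apply ENNReal.mul_lt_top
  · rw [mu_univ]; exact ENNReal.rpow_lt_top_of_nonneg (by norm_num) (by norm_num)
  · exact ENNReal.rpow_lt_top_of_nonneg (by norm_num) G2_lt_top.ne

lemma NN_le_of_BVle {f : ℝ → ℝ} {V : ℝ} (hf : Integrable f mu) (hV : BVle f V) (hV0 : 0 ≤ V) :
    NN f ≤ ENNReal.ofReal (10 * V) * G1 := by
  refine (NN_le_of_forall (B := fun x => ENNReal.ofReal (10 * V) * ENNReal.ofReal (gw x)) ?_).trans ?_
  · intro x hx n
    rw [← ENNReal.ofReal_mul (by positivity)]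
    rw [← ofReal_norm]
    apply ENNReal.ofReal_le_ofReal
    rw [Real.norm_eq_abs]
    refine (abs_Sn_le_of_BVle hf hV n hx).trans (le_of_eq (by ring))
  · rw [lintegral_const_mul _ measurable_gw.ennreal_ofReal]
    rfl

end Pool.Agent.MP_f3eb7e
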