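import Pool.Agent.Lib.MP_f3eb7e_an.Sys

set_option autoImplicit false

open MeasureTheory Set Filter Topology
open scoped ENNReal

namespace Pool.Agent.MP_f3eb7e

lemma Gr_bdd {α β T δ : ℝ} {J : ℕ} {N : ℝ → ℕ} {r : ℕ} {g : Fin J → ℝ → ℝ} (hαβ : α < β) (hJ : 0 < J)
    (hT : 0 < T) (hδ0 : 0 ≤ δ) (hδr : δ * r ≤ 2 * T) (hr : ∀ y, N y ≤ r) (u : Fin J → ℝ) (y : ℝ) :
    |Gr α β J N r g T δ u y| ≤ T := by
  by_cases hy : y ∈ Ico α β
  · rw [Gr_eq hαβ hJ T δ u hy]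
    exact FN_bdd hT hδ0 hδr (fun z => NG_le hαβ hJ hr u z) y
  · rw [Gr_off hαβ hJ T δ u hy, abs_zero]; exact hT.le

/-- **One step of the construction.** -/
theorem one_step {α β T : ℝ} (hα : -1 ≤ α) (hαβ : α < β) (hβ : β ≤ 1) (hT : 0 < T) {ε₁ : ℝ≥0∞} {ρ₀ : ℝ}
    (hRS : ∀ (ι : Type) [Fintype ι] (S : CellSys ι), S.ρ ≤ ρ₀ → ∃ u, NN (S.psi u) ≤ ε₁)
    {δ' θ : ℝ} (hθ0 : 0 < θ) (hθ1 : θ < 1) (hρ : (δ' ^ 2 + 4 * T ^ 2 * θ) / (4 * T ^ 2) ≤ ρ₀)
    {N : ℝ → ℕ} (hN : Measurable N) {r : ℕ} (hr : ∀ y, N y ≤ r) {δ : ℝ} (hδ0 : 0 ≤ δ)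
    (hδr : δ * r ≤ 2 * T) {h : ℝ → ℝ} (hh : IsStep h) (hhb : ∀ y, |h y| ≤ T)
    (hh0 : ∀ y, y ∉ Ico α β → h y = 0)
    (hδ : ∀ᵐ y, y ∈ Ico α β → |(-T + δ * (N y : ℝ)) - h y| ≤ δ')
    (hv : 0 < varQ α β (fun y => -T + δ * (N y : ℝ)))
    (hvar : 4 * T * δ' ≤ θ * varQ α β (fun y => -T + δ * (N y : ℝ))) {e : ℝ} (he : 0 < e) :
    ∃ σ : MIso mu mu, ∃ h' : ℝ → ℝ, IsStep h' ∧ (∀ y, |h' y| ≤ T) ∧ (∀ y, y ∉ Ico α β → h' y = 0) ∧
      (∀ x, x ∉ Ico α β → σ.f x = x) ∧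
      (∀ᵐ x ∂mu, x ∈ Ico α β → -T + δ * (N (σ.f x) : ℝ) = h' x) ∧
      mu {x | σ.f x ≠ x} ≤ ENNReal.ofReal (θ * (β - α) + e) ∧
      NN (fun y => h' y - h y) ≤ ENNReal.ofReal (2 * T) * ε₁ + ENNReal.ofReal θ * NN h
        + ENNReal.ofReal (θ * T + δ') * NN (ind α β) + ENNReal.ofReal e := by
  set F : ℝ → ℝ := fun y => -T + δ * (N y : ℝ) with hFdef
  have hF : Measurable F := measurable_const.add (((measurable_of_countable _).comp hN).const_mul δ)
  have hFb : ∀ y, |F y| ≤ T := FN_bdd hT hδ0 hδr hr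
  have hδ'0 : 0 ≤ δ' := (abs_nonneg _).trans (abs_avQ_sub_le hαβ hF hFb hh.prop.meas hhb hδ)
  have hee : ENNReal.ofReal (e / 2) ≠ 0 := by
    rw [ne_eq, ENNReal.ofReal_eq_zero, not_le]; linarith
  obtain ⟨E, hE⟩ := hh.prop.fin
  obtain ⟨J₁, hJ₁⟩ := density hαβ hN hr (ε := e / 2) (by linarith)
  obtain ⟨J₂, hJ₂⟩ := NN_cell_replace hαβ hh T hT.le hhb hee E
  obtain ⟨ℓ₀, hℓ₀, hbad⟩ := NN_bad_cells hT E.card hee
  obtain ⟨J₃, hJ₃⟩ := exists_nat_gt ((β - α) / ℓ₀)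
  set J := max (max J₁ J₂) (max J₃ 1) with hJdef
  have hJ1 : J₁ ≤ J := (le_max_left _ _).trans (le_max_left _ _)
  have hJ2 : J₂ ≤ J := (le_max_right _ _).trans (le_max_left _ _)
  have hJ3 : J₃ ≤ J := (le_max_left _ _).trans (le_max_right _ _)
  have hJ : 0 < J := lt_of_lt_of_le one_pos ((le_max_right _ _).trans (le_max_right _ _))
  have hJpos : (0 : ℝ) < J := by exact_mod_cast hJ
  have hcl : cl α β J ≤ ℓ₀ := by
    unfold cl
    rw [div_le_iff₀ hJpos]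
    rw [div_lt_iff₀ hℓ₀] at hJ₃
    have : (J₃ : ℝ) ≤ J := by exact_mod_cast hJ3
    nlinarith
  have hc := cl_pos hαβ hJ
  obtain ⟨v, hvv⟩ := hJ₁ J hJ1 hJ
  have mh := hh.prop.meas
  set g : Fin J → ℝ → ℝ := fun i => gd α β J T θ F h i with hg
  have Dg : ∀ i, Dens α β (g i) := fun i => Dens_gd hαβ hJ hT hθ0 hθ1 hF hFb mh hhb hδ hv hvar i
  have hsum : ∀ y ∈ Ico α β, ∑ i, cl α β J * g i y = 1 := fun y hy =>
    sum_gd hαβ hJ hF hFb mh hhb hy
  have hlow : ∀ i, ∀ y ∈ Ico (ca α β J i) (ca α β J i + cl α β J), (1 - θ) / cl α β J ≤ g i y :=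
    fun i y hy => low_gd hαβ hJ hT hθ0 hθ1 hF hFb mh hhb hδ hv hvar i hy
  have hmean : ∀ i, mm α β N T δ (g i) = (1 - θ) * avC α β J h i + shiftc α β θ F h := fun i =>
    mean_gd hαβ hJ hT hθ0 hF hFb hv i
  set B := bad α β J E with hB
  have hconst : ∀ i, i ∉ B → ∀ y ∈ Ico (ca α β J i) (ca α β J i + cl α β J), h y = h (ca α β J i) :=
    fun i hi y hy => const_on_good hE hi hy
  have hvar' : ∀ i, i ∉ B → ∫ s in (0 : ℝ)..1, xi α β N r T δ (g i) s ^ 2
      ≤ (δ' ^ 2 + 4 * T ^ 2 * θ) / (4 * T ^ 2) := by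
    intro i hi
    apply xi_var hN (Dg i) hr hT hδ0 hδr (c := h (ca α β J i))
    exact var_gd hαβ hJ hT hθ0 hθ1 hF hFb mh hhb hδ hv hvar i (hhb _) (hconst i hi)
  obtain ⟨S, hS1, hS2, hS3, hS4⟩ := exists_sys hα hαβ hβ hJ hN hr Dg hT hδ0 hδr B
    (ρ := (δ' ^ 2 + 4 * T ^ 2 * θ) / (4 * T ^ 2)) (by positivity) hvar'
  obtain ⟨u, hu⟩ := hRS (Fin J) S (by rw [hS1]; exact hρ)
  obtain ⟨σ, hσ1, hσ2, hσ3⟩ := realise hα hαβ hβ hJ hN hr Dg hsum hθ0.le hθ1.le hlow T δ u v hvv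
  refine ⟨σ, Gr α β J N r g T δ u, IsStep_Gr hαβ hJ T δ u, Gr_bdd hαβ hJ hT hδ0 hδr hr u,
    fun y hy => Gr_off hαβ hJ T δ u hy, hσ1, hσ2, ?_, ?_⟩
  · refine hσ3.trans (ENNReal.ofReal_le_ofReal ?_)
    linarith
  -- the norm estimate
  have hcd : ∀ i, |avC α β J h i| ≤ T := by
    intro i
    unfold avC
    rw [abs_div, abs_of_pos hc, div_le_iff₀ hc]
    have := abs_setIntegral_le mh hT.le (a := ca α β J i) (b := ca α β J i + cl α β J) (by linarith)
      (fun y _ => hhb y) ⟨T, hhb⟩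
    rw [add_sub_cancel_left] at this
    exact this
  have hR := hJ₂ J hJ2 hJ (avC α β J h) hcd (by
    intro i hi y hy
    rw [hconst i hi y hy]
    unfold avC
    rw [setIntegral_congr_fun measurableSet_Ico (fun z hz => hconst i hi z hz), setIntegral_const,
      smul_eq_mul, Measure.real, Real.volume_Ico, ENNReal.toReal_ofReal (by linarith)]
    field_simp
    ring)
  have hBd := hbad α β T δ J N r g B u rfl hα hαβ hβ hJ hN hr Dg hδ0 hδr (card_bad_le hαβ hJ E) hcl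
  set c := shiftc α β θ F h with hcdef
  have hid : (fun y => Gr α β J N r g T δ u y - h y) = fun y =>
      ((2 * T * S.psi u y
        + ∑ i ∈ B, cf (ca α β J i) (cl α β J)
            (fun t => qq α β N r T δ (g i) t - mm α β N T δ (g i)) (u i) y)
        + (1 - θ) * ∑ i, ind (ca α β J i) (ca α β J i + cl α β J) y * (avC α β J h i - h y))
        + (c * ind α β y + (-θ) * h y) := by
    funext y
    rw [hS4 u y]
    by_cases hy : y ∈ Ico α β
    · obtain ⟨i₀, hi₀⟩ := exists_cell hαβ hJ hy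
      rw [sum_ind_mul hαβ hJ (fun i => mm α β N T δ (g i)) hi₀,
        sum_ind_mul hαβ hJ (fun i => avC α β J h i - h y) hi₀, hmean i₀]
      have : ind α β y = 1 := by unfold ind; exact indicator_of_mem hy _
      rw [this]
      ring
    · rw [sum_ind_mul_off hαβ hJ (fun i => mm α β N T δ (g i)) hy,
        sum_ind_mul_off hαβ hJ (fun i => avC α β J h i - h y) hy, hh0 y hy]
      have : ind α β y = 0 := by unfold ind; exact indicator_of_notMem hy _
      rw [this]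
      ring
  rw [hid]
  have mpsi : Integrable (S.psi u) mu := by
    unfold CellSys.psi
    exact integrable_finsetSum _ fun i _ => S.integrable_cf i (u i)
  have i1 : Integrable (fun y => 2 * T * S.psi u y) mu := mpsi.const_mul _
  have i2 : Integrable (fun y => ∑ i ∈ B, cf (ca α β J i) (cl α β J)
            (fun t => qq α β N r T δ (g i) t - mm α β N T δ (g i)) (u i) y) mu := by
    apply integrable_finsetSum
    intro i _
    exact integrable_mu_of_bdd (measurable_cf (measurable_qq.sub_const _) (u i))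
      (abs_cf_le (qm_bdd hN (Dg i) hr hT hδ0 hδr) (u i))
  have i3' : Integrable (fun y => ∑ i, ind (ca α β J i) (ca α β J i + cl α β J) y * (avC α β J h i - h y)) mu := by
    apply integrable_finsetSum
    intro i _
    refine integrable_mu_of_bdd ((measurable_ind _ _).mul (measurable_const.sub mh)) (C := 2 * T) fun y => ?_
    rw [abs_mul]
    calc _ ≤ 1 * (2 * T) := mul_le_mul (abs_ind_le _ _ y)
            ((abs_sub _ _).trans (by linarith [hcd i, hhb y])) (abs_nonneg _) (by norm_num)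
      _ = 2 * T := one_mul _
  have i3 : Integrable (fun y => (1 - θ) * ∑ i, ind (ca α β J i) (ca α β J i + cl α β J) y * (avC α β J h i - h y)) mu :=
    i3'.const_mul _
  have i4 : Integrable (fun y => c * ind α β y) mu := (integrable_ind _ _).const_mul _
  have i5 : Integrable (fun y => (-θ) * h y) mu := hh.integrable.const_mul _
  refine (NN_add_le ((i1.add i2).add i3) (i4.add i5)).trans ?_
  have s1 : NN (fun y => (2 * T * S.psi u y
        + ∑ i ∈ B, cf (ca α β J i) (cl α β J)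
            (fun t => qq α β N r T δ (g i) t - mm α β N T δ (g i)) (u i) y)
        + (1 - θ) * ∑ i, ind (ca α β J i) (ca α β J i + cl α β J) y * (avC α β J h i - h y))
      ≤ ENNReal.ofReal (2 * T) * ε₁ + ENNReal.ofReal (e / 2) + ENNReal.ofReal (e / 2) := by
    refine (NN_add_le (i1.add i2) i3).trans ?_
    refine add_le_add ((NN_add_le i1 i2).trans (add_le_add ?_ hBd)) ?_
    · rw [NN_const_mul]
      have : ‖2 * T‖ₑ = ENNReal.ofReal (2 * T) := by
        rw [← ofReal_norm, Real.norm_eq_abs, abs_of_pos (by linarith)]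
      rw [this]
      gcongr
    · rw [NN_const_mul]
      calc ‖1 - θ‖ₑ * NN _ ≤ 1 * ENNReal.ofReal (e / 2) := by
            refine mul_le_mul' ?_ hR
            rw [← ofReal_norm, Real.norm_eq_abs, abs_of_nonneg (by linarith), ← ENNReal.ofReal_one]
            exact ENNReal.ofReal_le_ofReal (by linarith)
        _ = ENNReal.ofReal (e / 2) := one_mul _
  have s2 : NN (fun y => c * ind α β y + (-θ) * h y)
      ≤ ENNReal.ofReal (θ * T + δ') * NN (ind α β) + ENNReal.ofReal θ * NN h := by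
    refine (NN_add_le i4 i5).trans (add_le_add ?_ ?_)
    · rw [NN_const_mul]
      refine mul_le_mul' ?_ (le_refl _)
      rw [← ofReal_norm, Real.norm_eq_abs]
      exact ENNReal.ofReal_le_ofReal (abs_shiftc_le hαβ hθ0 hθ1 hF hFb mh hhb hδ)
    · rw [NN_const_mul]
      refine mul_le_mul' ?_ (le_refl _)
      rw [← ofReal_norm, Real.norm_eq_abs, abs_neg, abs_of_pos hθ0]
  refine (add_le_add s1 s2).trans (le_of_eq ?_)
  have he2 : ENNReal.ofReal e = ENNReal.ofReal (e / 2) + ENNReal.ofReal (e / 2) := by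
    rw [← ENNReal.ofReal_add (by linarith) (by linarith)]; congr 1; ring
  rw [he2]
  ring

end Pool.Agent.MP_f3eb7e
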