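import Pool.Agent.Lib.MP_f3eb7e_an.Law

set_option autoImplicit false

open MeasureTheory Set Filter Topology
open scoped ENNReal

namespace Pool.Agent.MP_f3eb7e

lemma RegP.mono {ξ : ℝ → ℝ} {V W : ℝ} (h : RegP ξ V) (hVW : V ≤ W) : RegP ξ W := by
  intro k K hk hK M c d hc hcd hd hM
  refine (h k K hk hK M c d hc hcd hd hM).trans ?_
  have hM0 : 0 ≤ M := (abs_nonneg _).trans (hM c ⟨le_refl _, hcd⟩)
  gcongr

lemma ngp_succ (P : ℕ → ℝ) (r : ℕ) (t : ℝ) : (ngp P (r + 1) t : ℝ) = (ngp P r t : ℝ) + hv (P r) t := by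
  unfold ngp hv
  rw [Finset.sum_range_succ]
  push_cast
  rfl

lemma RegP_ngp (P : ℕ → ℝ) (r : ℕ) : RegP (fun t => (ngp P r t : ℝ)) (2 * r) := by
  induction r with
  | zero =>
    have : (fun t => (ngp P 0 t : ℝ)) = fun _ => 0 := by funext t; simp [ngp]
    rw [this]
    simpa using RegP_const 0
  | succ r ih =>
    have e : (fun t => (ngp P (r + 1) t : ℝ)) = fun t => (ngp P r t : ℝ) + hv (P r) t := by
      funext t; exact ngp_succ P r t
    rw [e]
    have h := ih.add (RegP_hv (P r)) ((measurable_of_countable _).comp (measurable_ngp P r))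
      (measurable_hv _) (C := r + 1) (fun t => by
        have := ngp_le P r t
        have h1 : (ngp P r t : ℝ) ≤ r := by exact_mod_cast this
        rw [abs_of_nonneg (by positivity)]; linarith)
      (fun t => by
        rw [abs_of_nonneg (hv_nonneg _ _)]
        have := hv_le_one (P r) t
        have : (0 : ℝ) ≤ r := by positivity
        linarith)
    refine h.mono (le_of_eq ?_)
    push_cast; ring

/-- affine patterns -/
lemma RegP_affine (c δ : ℝ) (hδ : 0 ≤ δ) (P : ℕ → ℝ) (r : ℕ) :
    RegP (fun t => c + δ * (ngp P r t : ℝ)) (2 * |c| + 2 * (δ * r)) := by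
  have h := (RegP_const c).add ((RegP_ngp P r).const_mul δ) measurable_const
    (((measurable_of_countable _).comp (measurable_ngp P r)).const_mul δ)
    (C := |c| + δ * r) (fun t => by
      have : 0 ≤ δ * r := by positivity
      linarith)
    (fun t => by
      have := ngp_le P r t
      have h1 : (ngp P r t : ℝ) ≤ r := by exact_mod_cast this
      rw [abs_mul, abs_of_nonneg hδ, abs_of_nonneg (by positivity : (0 : ℝ) ≤ (ngp P r t : ℝ))]
      have h2 : δ * (ngp P r t : ℝ) ≤ δ * r := by gcongr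
      have := abs_nonneg c
      linarith)
  refine h.mono (le_of_eq ?_)
  rw [abs_of_nonneg hδ]; ring

lemma IsStep_cf_affine {a ℓ : ℝ} (hℓ : 0 < ℓ) (c δ u : ℝ) (P : ℕ → ℝ) (r : ℕ) :
    IsStep (cf a ℓ (fun t => c + δ * (ngp P r t : ℝ)) u) := by
  have e : cf a ℓ (fun t => c + δ * (ngp P r t : ℝ)) u
      = fun y => cf a ℓ (fun _ => c) u y + δ * ∑ j ∈ Finset.range r, cf a ℓ (hv (P j)) u y := by
    funext y
    unfold cf
    by_cases hy : y ∈ Ico a (a + ℓ)
    · simp only [indicator_of_mem hy]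
      congr 2
      unfold ngp hv
      push_cast
      rfl
    · simp only [indicator_of_notMem hy]
      simp
  rw [e]
  exact (IsStep_cf_const c u).add ((IsStep.sum _ fun j _ => IsStep_cf_hv hℓ (P j) u).const_mul δ)

/-- a pattern on a cell has the `BVle` property -/
lemma BVle_cf {a ℓ : ℝ} (hℓ : 0 < ℓ) (ha : -1 ≤ a) (hb : a + ℓ ≤ 1) {ξ : ℝ → ℝ} {V C : ℝ}
    (hV : RegP ξ V) (m : Measurable ξ) (hC : ∀ t, |ξ t| ≤ C) (u : ℝ) :
    BVle (cf a ℓ ξ u) (2 * V) := by
  intro k K hk hK M hM
  rw [integral_cf_mul hℓ ha hb]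
  exact hV.cell m hC hℓ u hk hK fun y hy => hM y ⟨ha.trans hy.1, hy.2.trans hb⟩

section Pattern

variable (α β : ℝ) (J : ℕ) (N : ℝ → ℕ) (r : ℕ) (g : Fin J → ℝ → ℝ)

/-- the rearranged label function -/
noncomputable def NG (u : Fin J → ℝ) (y : ℝ) : ℕ :=
  open Classical in
  if y ∈ Ico α β then
    ∑ i, (if y ∈ Ico (ca α β J i) (ca α β J i + cl α β J) then
      ngp (Pv α β N (g i)) r (Int.fract ((y - ca α β J i) / cl α β J + u i)) else 0)
  else N y

/-- the rearranged function -/
noncomputable def Gr (T δ : ℝ) (u : Fin J → ℝ) (y : ℝ) : ℝ :=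
  ∑ i, cf (ca α β J i) (cl α β J) (fun t => -T + δ * (ngp (Pv α β N (g i)) r t : ℝ)) (u i) y

variable {α β J N r g}

lemma NG_cell (hαβ : α < β) (hJ : 0 < J) (u : Fin J → ℝ) {i : Fin J} {y : ℝ}
    (hy : y ∈ Ico (ca α β J i) (ca α β J i + cl α β J)) :
    NG α β J N r g u y
      = ngp (Pv α β N (g i)) r (Int.fract ((y - ca α β J i) / cl α β J + u i)) := by
  unfold NG
  rw [if_pos (cell_subset hαβ hJ i hy), Finset.sum_eq_single i]
  · rw [if_pos hy]
  · intro j _ hj
    have hjn : y ∉ Ico (ca α β J j) (ca α β J j + cl α β J) :=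
      fun h' => hj (cell_unique hαβ hJ h' hy)
    rw [if_neg hjn]
  · intro h; exact absurd (Finset.mem_univ i) h

lemma NG_off (u : Fin J → ℝ) {y : ℝ} (hy : y ∉ Ico α β) : NG α β J N r g u y = N y := by
  unfold NG; rw [if_neg hy]

lemma measurable_NG (hN : Measurable N) (u : Fin J → ℝ) : Measurable (NG α β J N r g u) := by
  classical
  unfold NG
  apply Measurable.ite measurableSet_Ico _ hN
  apply Finset.measurable_sum
  intro i _
  apply Measurable.ite measurableSet_Ico _ measurable_const
  apply (measurable_ngp _ _).comp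
  apply measurable_fract.comp
  fun_prop

lemma Gr_cell (hαβ : α < β) (hJ : 0 < J) (T δ : ℝ) (u : Fin J → ℝ) {i : Fin J} {y : ℝ}
    (hy : y ∈ Ico (ca α β J i) (ca α β J i + cl α β J)) :
    Gr α β J N r g T δ u y = -T + δ * (NG α β J N r g u y : ℝ) := by
  rw [NG_cell hαβ hJ u hy]
  unfold Gr cf
  rw [Finset.sum_eq_single i]
  · rw [indicator_of_mem hy]
  · intro j _ hj
    have hjn : y ∉ Ico (ca α β J j) (ca α β J j + cl α β J) :=
      fun h' => hj (cell_unique hαβ hJ h' hy)
    exact indicator_of_notMem hjn _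
  · intro h; exact absurd (Finset.mem_univ i) h

lemma Gr_eq (hαβ : α < β) (hJ : 0 < J) (T δ : ℝ) (u : Fin J → ℝ) {y : ℝ} (hy : y ∈ Ico α β) :
    Gr α β J N r g T δ u y = -T + δ * (NG α β J N r g u y : ℝ) := by
  obtain ⟨i, hi⟩ := exists_cell hαβ hJ hy
  exact Gr_cell hαβ hJ T δ u hi

lemma Gr_off (hαβ : α < β) (hJ : 0 < J) (T δ : ℝ) (u : Fin J → ℝ) {y : ℝ} (hy : y ∉ Ico α β) :
    Gr α β J N r g T δ u y = 0 := by
  unfold Gr cf
  apply Finset.sum_eq_zero
  intro j _
  have hjn : y ∉ Ico (ca α β J j) (ca α β J j + cl α β J) := fun h' => hy (cell_subset hαβ hJ j h')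
  exact indicator_of_notMem hjn _

lemma IsStep_Gr (hαβ : α < β) (hJ : 0 < J) (T δ : ℝ) (u : Fin J → ℝ) :
    IsStep (Gr α β J N r g T δ u) := by
  unfold Gr
  exact IsStep.sum _ fun i _ => IsStep_cf_affine (cl_pos hαβ hJ) _ _ _ _ _

lemma NG_le (hαβ : α < β) (hJ : 0 < J) (hr : ∀ y, N y ≤ r) (u : Fin J → ℝ) (y : ℝ) :
    NG α β J N r g u y ≤ r := by
  by_cases hy : y ∈ Ico α β
  · obtain ⟨i, hi⟩ := exists_cell hαβ hJ hy
    rw [NG_cell hαβ hJ u hi]
    exact ngp_le _ _ _
  · rw [NG_off u hy]; exact hr y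

/-- integrals of functions of `NG` over one cell -/
lemma integral_cell_NG (hαβ : α < β) (hJ : 0 < J) (hN : Measurable N) (hr : ∀ y, N y ≤ r)
    (hg : ∀ i, Dens α β (g i)) (u : Fin J → ℝ) (φ : ℕ → ℝ) (i : Fin J) :
    ∫ y in Ico (ca α β J i) (ca α β J i + cl α β J), φ (NG α β J N r g u y)
      = cl α β J * ∫ y in Ico α β, φ (N y) * g i y := by
  have hc := cl_pos hαβ hJ
  rw [← law_eq hN (hg i) hr φ]
  rw [← integral_cell_fract (fun s => φ (ngp (Pv α β N (g i)) r s)) (a := ca α β J i) hc (u i),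
    intervalIntegral.integral_of_le (by linarith), ← integral_Ico_eq_integral_Ioc]
  apply setIntegral_congr_fun measurableSet_Ico
  intro y hy
  simp only
  rw [NG_cell hαβ hJ u hy]

lemma integrableOn_phi_N (hN : Measurable N) (φ : ℕ → ℝ) {B : ℝ} (hB : ∀ y, |φ (N y)| ≤ B) (a b : ℝ) :
    IntegrableOn (fun y => φ (N y)) (Ico a b) volume := by
  have : IsFiniteMeasure (volume.restrict (Ico a b)) := by
    constructor; rw [Measure.restrict_apply_univ]; simp
  refine Integrable.of_bound (C := B) ((measurable_of_countable φ).comp hN).aestronglyMeasurable ?_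
  exact Eventually.of_forall fun y => by rw [Real.norm_eq_abs]; exact hB y

lemma integral_NG (hαβ : α < β) (hJ : 0 < J) (hN : Measurable N) (hr : ∀ y, N y ≤ r)
    (hg : ∀ i, Dens α β (g i)) (hsum : ∀ y ∈ Ico α β, ∑ i, cl α β J * g i y = 1)
    (u : Fin J → ℝ) (φ : ℕ → ℝ) {B : ℝ} (hB : ∀ n, |φ n| ≤ B) :
    ∫ y in Ico α β, φ (NG α β J N r g u y) = ∫ y in Ico α β, φ (N y) := by
  rw [← sum_setIntegral_cells hαβ hJ (integrableOn_phi_N (measurable_NG hN u) φ (fun y => hB _) α β)]
  simp_rw [integral_cell_NG hαβ hJ hN hr hg u φ, ← integral_const_mul]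
  rw [← integral_finsetSum]
  · apply setIntegral_congr_fun measurableSet_Ico
    intro y hy
    simp only
    have : ∑ i, cl α β J * (φ (N y) * g i y) = φ (N y) * ∑ i, cl α β J * g i y := by
      rw [Finset.mul_sum]
      exact Finset.sum_congr rfl fun i _ => by ring
    rw [this, hsum y hy, mul_one]
  · intro i _
    exact (integrable_phi_g hN (hg i) φ (fun y => hB _)).const_mul _

/-- `NG` and `N` are equidistributed -/
theorem NG_law (hα : -1 ≤ α) (hαβ : α < β) (hβ : β ≤ 1) (hJ : 0 < J) (hN : Measurable N)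
    (hr : ∀ y, N y ≤ r) (hg : ∀ i, Dens α β (g i)) (hsum : ∀ y ∈ Ico α β, ∑ i, cl α β J * g i y = 1)
    (u : Fin J → ℝ) (k : ℕ) :
    volume.restrict (Icc (-1 : ℝ) 1) {x | N x = k}
      = volume.restrict (Icc (-1 : ℝ) 1) {x | NG α β J N r g u x = k} := by
  have mN : MeasurableSet {x | N x = k} := hN (measurableSet_singleton k)
  have mNG : MeasurableSet {x | NG α β J N r g u x = k} :=
    measurable_NG hN u (measurableSet_singleton k)
  have hsub : Ico α β ⊆ Icc (-1 : ℝ) 1 := fun y hy => ⟨hα.trans hy.1, hy.2.le.trans hβ⟩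
  rw [Measure.restrict_apply mN, Measure.restrict_apply mNG,
    ← measure_inter_add_sdiff ({x | N x = k} ∩ Icc (-1 : ℝ) 1) (measurableSet_Ico (a := α) (b := β)),
    ← measure_inter_add_sdiff ({x | NG α β J N r g u x = k} ∩ Icc (-1 : ℝ) 1)
      (measurableSet_Ico (a := α) (b := β))]
  congr 1
  · have e1 : {x | N x = k} ∩ Icc (-1 : ℝ) 1 ∩ Ico α β = {x | N x = k} ∩ Ico α β := by
      rw [inter_assoc, inter_eq_right.2 hsub]
    have e2 : {x | NG α β J N r g u x = k} ∩ Icc (-1 : ℝ) 1 ∩ Ico α β
        = {x | NG α β J N r g u x = k} ∩ Ico α β := by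
      rw [inter_assoc, inter_eq_right.2 hsub]
    rw [e1, e2]
    have hint := integral_NG hαβ hJ hN hr hg hsum u (fun n => if n = k then 1 else 0) (B := 1)
      (fun n => by split_ifs <;> simp)
    have f1 : ∀ (M : ℝ → ℕ), Measurable M → ∫ y in Ico α β, (if M y = k then (1 : ℝ) else 0)
        = (volume ({x | M x = k} ∩ Ico α β)).toReal := by
      intro M hM
      have mM : MeasurableSet {x | M x = k} := hM (measurableSet_singleton k)
      have : ∀ y, (if M y = k then (1 : ℝ) else 0) = {x | M x = k}.indicator (fun _ => 1) y := by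
        intro y; simp [indicator]
      simp_rw [this]
      rw [integral_indicator_const _ mM]
      rw [smul_eq_mul, mul_one, Measure.real, Measure.restrict_apply mM]
    rw [f1 _ (measurable_NG hN u), f1 _ hN] at hint
    have hfin : ∀ s : Set ℝ, volume (s ∩ Ico α β) ≠ ∞ := fun s =>
      (lt_of_le_of_lt (measure_mono inter_subset_right) (by simp)).ne
    exact ((ENNReal.toReal_eq_toReal_iff' (hfin _) (hfin _)).1 hint).symm
  · congr 1
    ext x
    simp only [Set.mem_sdiff, mem_inter_iff, mem_ofPred_eq]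
    constructor
    · rintro ⟨⟨h1, h2⟩, h3⟩
      exact ⟨⟨by rw [NG_off u h3]; exact h1, h2⟩, h3⟩
    · rintro ⟨⟨h1, h2⟩, h3⟩
      exact ⟨⟨by rw [NG_off u h3] at h1; exact h1, h2⟩, h3⟩

/-- the set where `NG` differs from `N` is small -/
theorem NG_ne_measure (hα : -1 ≤ α) (hαβ : α < β) (hβ : β ≤ 1) (hJ : 0 < J) (hN : Measurable N)
    (hr : ∀ y, N y ≤ r) (hg : ∀ i, Dens α β (g i)) {θ : ℝ} (hθ0 : 0 ≤ θ) (hθ : θ ≤ 1)
    (hlow : ∀ i, ∀ y ∈ Ico (ca α β J i) (ca α β J i + cl α β J), (1 - θ) / cl α β J ≤ g i y)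
    (u : Fin J → ℝ) (v : Fin J → ℕ) {b : ℝ}
    (hb : ∑ i, ∫ y in Ico (ca α β J i) (ca α β J i + cl α β J), (if N y ≠ v i then (1 : ℝ) else 0) ≤ b) :
    volume.restrict (Icc (-1 : ℝ) 1) {x | N x ≠ NG α β J N r g u x}
      ≤ ENNReal.ofReal (θ * (β - α) + 2 * b) := by
  have hc := cl_pos hαβ hJ
  have mne : MeasurableSet {x | N x ≠ NG α β J N r g u x} :=
    (measurableSet_eq_fun hN (measurable_NG hN u)).compl
  have hsub : {x | N x ≠ NG α β J N r g u x} ∩ Icc (-1 : ℝ) 1
      ⊆ {x | N x ≠ NG α β J N r g u x} ∩ Ico α β := by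
    rintro x ⟨h1, h2⟩
    refine ⟨h1, ?_⟩
    by_contra h3
    exact h1 (NG_off u h3).symm
  rw [Measure.restrict_apply mne]
  refine (measure_mono hsub).trans ?_
  have hfin : volume ({x | N x ≠ NG α β J N r g u x} ∩ Ico α β) ≠ ∞ :=
      (lt_of_le_of_lt (measure_mono inter_subset_right) (by simp)).ne
  rw [← ENNReal.ofReal_toReal hfin]
  apply ENNReal.ofReal_le_ofReal
  have e1 : (volume ({x | N x ≠ NG α β J N r g u x} ∩ Ico α β)).toReal
      = ∫ y in Ico α β, (if N y ≠ NG α β J N r g u y then (1 : ℝ) else 0) := by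
    have : ∀ y, (if N y ≠ NG α β J N r g u y then (1 : ℝ) else 0)
        = {x | N x ≠ NG α β J N r g u x}.indicator (fun _ => 1) y := by
      intro y; simp only [indicator, mem_ofPred_eq]
    simp_rw [this]
    rw [integral_indicator_const _ mne]
    rw [smul_eq_mul, mul_one, Measure.real, Measure.restrict_apply mne]
  have hi1 : ∀ a b, IntegrableOn (fun y => if N y ≠ NG α β J N r g u y then (1 : ℝ) else 0) (Ico a b) volume := by
    intro a b
    have : IsFiniteMeasure (volume.restrict (Ico a b)) := by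
      constructor; rw [Measure.restrict_apply_univ]; simp
    refine Integrable.of_bound (C := 1) ?_ (Eventually.of_forall fun y => by split_ifs <;> simp)
    exact (Measurable.ite mne measurable_const measurable_const).aestronglyMeasurable
  have hi2 : ∀ (M : ℝ → ℕ) (k : ℕ) (a b : ℝ), Measurable M →
      IntegrableOn (fun y => if M y ≠ k then (1 : ℝ) else 0) (Ico a b) volume := by
    intro M k a b hM
    exact integrableOn_phi_N hM (fun n => if n ≠ k then 1 else 0) (B := 1) (fun y => by split_ifs <;> simp) a b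
  rw [e1, ← sum_setIntegral_cells hαβ hJ (hi1 α β)]
  have hcell : ∀ i, ∫ y in Ico (ca α β J i) (ca α β J i + cl α β J),
      (if N y ≠ NG α β J N r g u y then (1 : ℝ) else 0)
      ≤ θ * cl α β J + 2 * ∫ y in Ico (ca α β J i) (ca α β J i + cl α β J), (if N y ≠ v i then (1 : ℝ) else 0) := by
    intro i
    set bi := ∫ y in Ico (ca α β J i) (ca α β J i + cl α β J), (if N y ≠ v i then (1 : ℝ) else 0) with hbi
    have s1 : ∫ y in Ico (ca α β J i) (ca α β J i + cl α β J),
        (if N y ≠ NG α β J N r g u y then (1 : ℝ) else 0)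
        ≤ ∫ y in Ico (ca α β J i) (ca α β J i + cl α β J),
          ((if N y ≠ v i then (1 : ℝ) else 0) + (if NG α β J N r g u y ≠ v i then (1 : ℝ) else 0)) := by
      apply setIntegral_mono (hi1 _ _) ((hi2 _ _ _ _ hN).add (hi2 _ _ _ _ (measurable_NG hN u)))
      intro y
      show (if N y ≠ NG α β J N r g u y then (1 : ℝ) else 0)
        ≤ (if N y ≠ v i then (1 : ℝ) else 0) + (if NG α β J N r g u y ≠ v i then (1 : ℝ) else 0)
      by_cases h0 : N y ≠ NG α β J N r g u y
      · rw [if_pos h0]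
        by_cases h1 : N y ≠ v i
        · rw [if_pos h1]; split_ifs <;> norm_num
        · have h2 : NG α β J N r g u y ≠ v i := fun h => h0 ((not_not.1 h1).trans h.symm)
          rw [if_pos h2]; split_ifs <;> norm_num
      · rw [if_neg h0]; split_ifs <;> norm_num
    rw [integral_add (hi2 _ _ _ _ hN) (hi2 _ _ _ _ (measurable_NG hN u)), ← hbi,
      integral_cell_NG hαβ hJ hN hr hg u (fun n => if n ≠ v i then 1 else 0) i] at s1
    have s2 : ∫ y in Ico α β, (if N y ≠ v i then (1 : ℝ) else 0) * g i y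
        = 1 - ∫ y in Ico α β, (if N y = v i then (1 : ℝ) else 0) * g i y := by
      have hk : ∫ y in Ico α β, (if N y ≠ v i then (1 : ℝ) else 0) * g i y
          = (∫ y in Ico α β, g i y) - ∫ y in Ico α β, (if N y = v i then (1 : ℝ) else 0) * g i y := by
        rw [← integral_sub (integrable_g (hg i))
          (integrable_phi_g hN (hg i) (fun n => if n = v i then 1 else 0) (B := 1)
            (fun y => by split_ifs <;> simp))]
        congr 1; funext y
        by_cases h : N y = v i <;> simp [h]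
      rw [hk, (hg i).one]
    have s3 : (1 - θ) / cl α β J * (cl α β J - bi) ≤ ∫ y in Ico α β, (if N y = v i then (1 : ℝ) else 0) * g i y := by
      have t1 : ∫ y in Ico (ca α β J i) (ca α β J i + cl α β J), (if N y = v i then (1 : ℝ) else 0) * g i y
          ≤ ∫ y in Ico α β, (if N y = v i then (1 : ℝ) else 0) * g i y := by
        apply setIntegral_mono_set
        · exact integrable_phi_g hN (hg i) (fun n => if n = v i then 1 else 0) (B := 1)
            (fun y => by split_ifs <;> simp)
        · filter_upwards [ae_restrict_mem measurableSet_Ico] with y hy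
          have := (hg i).nonneg y hy
          simp only [Pi.zero_apply]
          split_ifs <;> simp [this]
        · exact LE.le.eventuallyLE (cell_subset hαβ hJ i)
      have t2 : ∫ y in Ico (ca α β J i) (ca α β J i + cl α β J),
          (if N y = v i then (1 : ℝ) else 0) * ((1 - θ) / cl α β J)
          ≤ ∫ y in Ico (ca α β J i) (ca α β J i + cl α β J), (if N y = v i then (1 : ℝ) else 0) * g i y := by
        apply setIntegral_mono_on
        · exact (integrableOn_phi_N hN (fun n => if n = v i then 1 else 0) (B := 1)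
            (fun y => by split_ifs <;> simp) _ _).mul_const _
        · exact (integrable_phi_g hN (hg i) (fun n => if n = v i then 1 else 0) (B := 1)
            (fun y => by split_ifs <;> simp)).mono_set (cell_subset hαβ hJ i)
        · exact measurableSet_Ico
        · intro y hy
          have := hlow i y hy
          split_ifs
          · simpa using this
          · simp
      have t3 : ∫ y in Ico (ca α β J i) (ca α β J i + cl α β J), (if N y = v i then (1 : ℝ) else 0)
          = cl α β J - bi := by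
        have h1 : ∫ y in Ico (ca α β J i) (ca α β J i + cl α β J), (1 : ℝ) = cl α β J := by
          simp [hc.le]
        have hfm : IsFiniteMeasure (volume.restrict (Ico (ca α β J i) (ca α β J i + cl α β J))) := by
          constructor; rw [Measure.restrict_apply_univ]; simp
        have h2 : ∫ y in Ico (ca α β J i) (ca α β J i + cl α β J), (if N y = v i then (1 : ℝ) else 0)
            = (∫ y in Ico (ca α β J i) (ca α β J i + cl α β J), (1 : ℝ)) - bi := by
          rw [hbi, ← integral_sub (integrable_const _) (hi2 _ _ _ _ hN)]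
          congr 1; funext y
          by_cases h : N y = v i <;> simp [h]
        rw [h2, h1]
      rw [integral_mul_const, t3] at t2
      linarith
    rw [s2] at s1
    have hbi0 : 0 ≤ bi := by
      rw [hbi]; exact integral_nonneg fun y => by simp only [Pi.zero_apply]; split_ifs <;> norm_num
    have s4 : cl α β J * ((1 - θ) / cl α β J * (cl α β J - bi)) = (1 - θ) * (cl α β J - bi) := by
      field_simp
    have s5 : cl α β J * ((1 - θ) / cl α β J * (cl α β J - bi))
        ≤ cl α β J * ∫ y in Ico α β, (if N y = v i then (1 : ℝ) else 0) * g i y :=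
      mul_le_mul_of_nonneg_left s3 hc.le
    rw [s4] at s5
    nlinarith
  refine (Finset.sum_le_sum fun i _ => hcell i).trans ?_
  rw [Finset.sum_add_distrib, Finset.sum_const, Finset.card_univ, Fintype.card_fin, nsmul_eq_mul,
    ← Finset.mul_sum]
  have h1 := cl_mul (α := α) (β := β) hJ
  have h2 : (J : ℝ) * (θ * cl α β J) = θ * (β - α) := by rw [← h1]; ring
  linarith

end Pattern

end Pool.Agent.MP_f3eb7e
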