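import Pool.Agent.Lib.MP_f3eb7e_an.Thr

set_option autoImplicit false

open MeasureTheory Set Filter Topology
open scoped ENNReal

namespace Pool.Agent.MP_f3eb7e

/-! ### level sets -/

/-- level sets between consecutive thresholds -/
def lev (f : ℝ → ℝ) (t : ℕ → ℝ) (k : ℕ) : Set ℝ := {x | t k < |f x| ∧ |f x| ≤ t (k + 1)}

lemma lev_disj {f : ℝ → ℝ} {t : ℕ → ℝ} (ht : Monotone t) :
    Pairwise (Function.onFun Disjoint (lev f t)) := by
  have key : ∀ i j, i < j → Disjoint (lev f t i) (lev f t j) := by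
    intro i j hij
    rw [Set.disjoint_left]
    intro x hi hj
    have h1 : t (i + 1) ≤ t j := ht hij
    have h2 := hi.2
    have h3 := hj.1
    linarith
  intro i j hij
  rcases lt_or_gt_of_ne hij with h | h
  · exact key i j h
  · exact (key j i h).symm

lemma measurableSet_lev {f : ℝ → ℝ} (hf : Measurable f) (t : ℕ → ℝ) (k : ℕ) :
    MeasurableSet (lev f t k) := by
  have h1 : Measurable fun x => |f x| := hf.abs
  exact (measurableSet_lt measurable_const h1).inter (measurableSet_le h1 measurable_const)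

lemma exists_lev {f : ℝ → ℝ} {t : ℕ → ℝ} (htop : Tendsto t atTop atTop) {x : ℝ}
    (hx : t 0 < |f x|) : ∃ k, x ∈ lev f t k := by
  classical
  have hex : ∃ k, |f x| ≤ t (k + 1) := by
    obtain ⟨k, hk⟩ := (htop.eventually_ge_atTop |f x|).exists
    obtain ⟨k', hk'⟩ := ((tendsto_add_atTop_iff_nat 1).2 htop).eventually_ge_atTop |f x| |>.exists
    exact ⟨k', hk'⟩
  refine ⟨Nat.find hex, ?_, Nat.find_spec hex⟩
  rcases Nat.eq_zero_or_pos (Nat.find hex) with h | h
  · rw [h]; exact hx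
  · have := Nat.find_min hex (m := Nat.find hex - 1) (by omega)
    rw [Nat.sub_add_cancel h] at this
    exact not_le.1 this

/-! ### consecutive intervals -/

/-- partial sums -/
noncomputable def xs (w : ℕ → ℝ) (k : ℕ) : ℝ := ∑ i ∈ Finset.range k, w i

/-- consecutive intervals of lengths `w k` -/
def qs (w : ℕ → ℝ) (k : ℕ) : Set ℝ := Ico (xs w k) (xs w (k + 1))

lemma xs_succ (w : ℕ → ℝ) (k : ℕ) : xs w (k + 1) = xs w k + w k := Finset.sum_range_succ _ _

lemma xs_zero (w : ℕ → ℝ) : xs w 0 = 0 := Finset.sum_range_zero _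

lemma xs_mono {w : ℕ → ℝ} (hw : ∀ k, 0 ≤ w k) : Monotone (xs w) :=
  monotone_nat_of_le_succ fun k => by rw [xs_succ]; linarith [hw k]

lemma xs_nonneg {w : ℕ → ℝ} (hw : ∀ k, 0 ≤ w k) (k : ℕ) : 0 ≤ xs w k := by
  rw [← xs_zero w]; exact xs_mono hw (Nat.zero_le k)

lemma xs_le_tsum {w : ℕ → ℝ} (hw : ∀ k, 0 ≤ w k) (hs : Summable w) (k : ℕ) : xs w k ≤ ∑' i, w i :=
  hs.sum_le_tsum _ (fun i _ => hw i)

lemma qs_disj {w : ℕ → ℝ} (hw : ∀ k, 0 ≤ w k) : Pairwise (Function.onFun Disjoint (qs w)) := by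
  have key : ∀ i j, i < j → Disjoint (qs w i) (qs w j) := by
    intro i j hij
    rw [Set.disjoint_left]
    intro x hi hj
    have h1 : xs w (i + 1) ≤ xs w j := xs_mono hw hij
    have h2 := hi.2
    have h3 := hj.1
    linarith
  intro i j hij
  rcases lt_or_gt_of_ne hij with h | h
  · exact key i j h
  · exact (key j i h).symm

lemma exists_qs {w : ℕ → ℝ} (hs : Summable w) {y : ℝ} (hy0 : 0 ≤ y)
    (hy : y < ∑' i, w i) : ∃ k, y ∈ qs w k := by
  classical
  have hex : ∃ k, y < xs w (k + 1) := by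
    have h1 : Tendsto (fun k => xs w (k + 1)) atTop (𝓝 (∑' i, w i)) :=
      (tendsto_add_atTop_iff_nat (f := xs w) 1).2 hs.hasSum.tendsto_sum_nat
    exact (h1.eventually (lt_mem_nhds hy)).exists
  refine ⟨Nat.find hex, ?_, Nat.find_spec hex⟩
  rcases Nat.eq_zero_or_pos (Nat.find hex) with h | h
  · rw [h, xs_zero]; exact hy0
  · have := Nat.find_min hex (m := Nat.find hex - 1) (by omega)
    rw [Nat.sub_add_cancel h] at this
    exact not_lt.1 this

/-! ### the regions -/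

/-- left endpoints of the regions -/
noncomputable def rL (w : ℕ → ℝ) : ℕ → ℝ
  | 0 => -1
  | 1 => ∑' i, w i
  | (k + 2) => xs w k

/-- right endpoints of the regions -/
noncomputable def rR (w : ℕ → ℝ) : ℕ → ℝ
  | 0 => 0
  | 1 => 1
  | (k + 2) => xs w (k + 1)

/-- regions -/
def rg (w : ℕ → ℝ) (j : ℕ) : Set ℝ := Ico (rL w j) (rR w j)

lemma rg_disj {w : ℕ → ℝ} (hw : ∀ k, 0 ≤ w k) (hs : Summable w) :
    Pairwise (Function.onFun Disjoint (rg w)) := by
  have h0 : 0 ≤ ∑' i, w i := tsum_nonneg hw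
  have key : ∀ i j, i < j → Disjoint (rg w i) (rg w j) := by
    intro i j hij
    match i, j, hij with
    | 0, 1, _ =>
      rw [Set.disjoint_left]
      intro x hi hj
      have h1 : x < 0 := hi.2
      have h2 : ∑' i, w i ≤ x := hj.1
      linarith
    | 0, (k + 2), _ =>
      rw [Set.disjoint_left]
      intro x hi hj
      have h1 : x < 0 := hi.2
      have h2 : xs w k ≤ x := hj.1
      have := xs_nonneg hw k
      linarith
    | 1, (k + 2), _ =>
      rw [Set.disjoint_left]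
      intro x hi hj
      have h1 : ∑' i, w i ≤ x := hi.1
      have h2 : x < xs w (k + 1) := hj.2
      have := xs_le_tsum hw hs (k + 1)
      linarith
    | (l + 2), (k + 2), h =>
      have : l ≠ k := by omega
      exact qs_disj hw this
  intro i j hij
  rcases lt_or_gt_of_ne hij with h | h
  · exact key i j h
  · exact (key j i h).symm

lemma rg_cover {w : ℕ → ℝ} (hs : Summable w) {x : ℝ} (hx : x ∈ Ico (-1 : ℝ) 1) :
    ∃ j, x ∈ rg w j := by
  rcases lt_or_ge x 0 with h | h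
  · exact ⟨0, hx.1, h⟩
  · rcases lt_or_ge x (∑' i, w i) with h' | h'
    · obtain ⟨k, hk⟩ := exists_qs hs h h'
      exact ⟨k + 2, hk⟩
    · exact ⟨1, h', hx.2⟩

lemma rg_cover_ae {w : ℕ → ℝ} (hs : Summable w) : ∀ᵐ x ∂mu, ∃ j, x ∈ rg w j := by
  filter_upwards [ae_mem_Ioo] with x hx
  exact rg_cover hs ⟨hx.1.le, hx.2⟩

/-! ### numerical estimate -/

lemma num_est {a c w y x : ℝ} (ha : 0 < a) (hc : 0 < c) (hy : 0 < y) (hw : 0 < w) (hx : 0 ≤ x)
    (h1 : x ≤ c * y ^ (-a)) (h2 : x ≤ 4 * y * w) :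
    x * w ^ (-(a / (2 * (1 + a)))) ≤ (c ^ (1 - a / (2 * (1 + a))) * 4 ^ (a / (2 * (1 + a)))) * y ^ (-(a / 2)) := by
  set η := a / (2 * (1 + a)) with hη
  have hη0 : 0 < η := by positivity
  have hη1 : η < 1 := by
    rw [hη, div_lt_one (by positivity)]; linarith
  have hηa : η * (1 + a) = a / 2 := by rw [hη]; field_simp
  rcases hx.eq_or_lt with h0 | h0
  · rw [← h0, zero_mul]; positivity
  · have e1 : x * w ^ (-η) = x ^ (1 - η) * (x / w) ^ η := by
      rw [Real.div_rpow hx hw.le, Real.rpow_neg hw.le, ← mul_div_assoc, ← Real.rpow_add h0]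
      simp [div_eq_mul_inv]
    have h3 : x / w ≤ 4 * y := by rw [div_le_iff₀ hw]; exact h2
    rw [e1]
    calc x ^ (1 - η) * (x / w) ^ η ≤ (c * y ^ (-a)) ^ (1 - η) * (4 * y) ^ η := by
          apply mul_le_mul
          · exact Real.rpow_le_rpow hx h1 (by linarith)
          · exact Real.rpow_le_rpow (by positivity) h3 hη0.le
          · positivity
          · positivity
      _ = (c ^ (1 - η) * 4 ^ η) * (y ^ (-a * (1 - η)) * y ^ η) := by
          rw [Real.mul_rpow hc.le (by positivity), Real.mul_rpow (by norm_num) hy.le,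
            ← Real.rpow_mul hy.le]
          ring
      _ = (c ^ (1 - η) * 4 ^ η) * y ^ (-(a / 2)) := by
          rw [← Real.rpow_add hy]
          congr 2
          nlinarith [hηa]

lemma pow_rpow_summable {a : ℝ} (ha : 0 < a) (k₀ : ℕ) :
    Summable fun k : ℕ => ((2 : ℝ) ^ (k₀ + k)) ^ (-(a / 2)) := by
  have h1 : (2 : ℝ) ^ (-(a / 2)) < 1 := Real.rpow_lt_one_of_one_lt_of_neg (by norm_num) (by linarith)
  have h0 : (0 : ℝ) ≤ (2 : ℝ) ^ (-(a / 2)) := by positivity
  have e : ∀ k : ℕ, ((2 : ℝ) ^ (k₀ + k)) ^ (-(a / 2)) = ((2 : ℝ) ^ (-(a / 2))) ^ k₀ * ((2 : ℝ) ^ (-(a / 2))) ^ k := by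
    intro k
    rw [← Real.rpow_pow_comm (by norm_num : (0 : ℝ) ≤ 2), pow_add]
  simp_rw [e]
  exact (summable_geometric_of_lt_one h0 h1).mul_left _

end Pool.Agent.MP_f3eb7e
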