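import Pool.Agent.Lib.MP_f3eb7e_an.Cell
import Pool.Agent.Lib.MP_f3eb7e_an.Chain

set_option autoImplicit false

open MeasureTheory Set Filter Topology ProbabilityTheory
open scoped ENNReal

namespace Pool.Agent.MP_f3eb7e

/-- uniform measure on `(0,1]` -/
noncomputable def lam : Measure ℝ := volume.restrict (Ioc (0 : ℝ) 1)

instance : IsProbabilityMeasure lam := ⟨by simp [lam]⟩

/-- product of uniform measures -/
noncomputable def PI (ι : Type*) [Fintype ι] : Measure (ι → ℝ) := Measure.pi (fun _ => lam)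

instance (ι : Type*) [Fintype ι] : IsProbabilityMeasure (PI ι) := by
  unfold PI; infer_instance

lemma integral_PI_eval {ι : Type*} [Fintype ι] (i : ι) {f : ℝ → ℝ} (hf : Measurable f) :
    ∫ u, f (u i) ∂(PI ι) = ∫ v, f v ∂lam := by
  have h := (measurePreserving_eval (fun _ : ι => lam) i)
  unfold PI
  conv_rhs => rw [← h.map_eq]
  rw [integral_map h.measurable.aemeasurable hf.aestronglyMeasurable]

lemma random_moment {ι : Type*} [Fintype ι] (c : ι → ℕ → ℝ → ℝ) (hc : ∀ i k, Measurable (c i k))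
    (hc0 : ∀ i k, ∫ v, c i k v ∂lam = 0) {Cb : ℕ → ℝ} (hcb : ∀ i k v, |c i k v| ≤ Cb k)
    (s : Finset ℕ) (d : ι → ℝ → ℝ) {B G : ℝ} (hB : 0 ≤ B)
    (h1 : ∀ x ∈ Ioo (-1 : ℝ) 1, ∀ i v, |∑ k ∈ s, c i k v * phi k x| ≤ d i x)
    (h2 : ∀ x ∈ Ioo (-1 : ℝ) 1, ∑ i, d i x ^ 2 ≤ B * gw x ^ 2)
    (h3 : ∀ u : ι → ℝ, ∑ i, ∑ k ∈ s, c i k (u i) ^ 2 ≤ G) :
    ∫⁻ p, ‖(∑ k ∈ s, (∑ i, c i k (p.1 i)) * phi k p.2) / gw p.2‖ₑ ^ 4 ∂((PI ι).prod mu)
      ≤ ENNReal.ofReal (4 * B * G) := by
  -- measurability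
  have mD : ∀ i, Measurable (fun p : (ι → ℝ) × ℝ => ∑ k ∈ s, c i k (p.1 i) * phi k p.2) := by
    intro i
    apply Finset.measurable_sum
    intro k _
    exact ((hc i k).comp ((measurable_pi_apply i).comp measurable_fst)).mul
      ((continuous_phi k).measurable.comp measurable_snd)
  have mF : Measurable (fun p : (ι → ℝ) × ℝ =>
      ‖(∑ k ∈ s, (∑ i, c i k (p.1 i)) * phi k p.2) / gw p.2‖ₑ ^ 4) := by
    have : Measurable (fun p : (ι → ℝ) × ℝ => (∑ k ∈ s, (∑ i, c i k (p.1 i)) * phi k p.2)) := by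
      apply Finset.measurable_sum
      intro k _
      apply Measurable.mul
      · apply Finset.measurable_sum
        intro i _
        exact (hc i k).comp ((measurable_pi_apply i).comp measurable_fst)
      · exact (continuous_phi k).measurable.comp measurable_snd
    exact ((this.div (measurable_gw.comp measurable_snd)).enorm).pow_const 4
  have mS : Measurable (fun p : (ι → ℝ) × ℝ =>
      ENNReal.ofReal (∑ i, (∑ k ∈ s, c i k (p.1 i) * phi k p.2) ^ 2)) := by
    apply Measurable.ennreal_ofReal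
    apply Finset.measurable_sum
    intro i _
    exact (mD i).pow_const 2
  rw [lintegral_prod_symm _ mF.aemeasurable]
  -- inner estimate
  have inner : ∀ᵐ x ∂mu, ∫⁻ u, ‖(∑ k ∈ s, (∑ i, c i k (u i)) * phi k x) / gw x‖ₑ ^ 4 ∂(PI ι)
      ≤ ENNReal.ofReal (4 * B) *
        ∫⁻ u, ENNReal.ofReal (∑ i, (∑ k ∈ s, c i k (u i) * phi k x) ^ 2) ∂(PI ι) := by
    filter_upwards [ae_mem_Ioo] with x hx
    have hg : 0 < gw x := gw_pos hx
    have hg1 : 1 ≤ gw x := one_le_gw hx
    set D : ι → ℝ → ℝ := fun i v => ∑ k ∈ s, c i k v * phi k x with hD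
    have mDv : ∀ i, Measurable (D i) := by
      intro i
      apply Finset.measurable_sum
      intro k _
      exact (hc i k).mul_const _
    have hX : ∀ i, Measurable (fun u : ι → ℝ => D i (u i)) := fun i =>
      (mDv i).comp (measurable_pi_apply i)
    have hd : ∀ i (u : ι → ℝ), |D i (u i)| ≤ d i x := fun i u => h1 x hx i (u i)
    have hind : iIndepFun (fun i (u : ι → ℝ) => D i (u i)) (PI ι) :=
      iIndepFun_pi (μ := fun _ : ι => lam) (X := D) (fun i => (mDv i).aemeasurable)
    have h0 : ∀ i, ∫ u, D i (u i) ∂(PI ι) = 0 := by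
      intro i
      rw [integral_PI_eval i (mDv i)]
      simp only [hD]
      rw [integral_finsetSum]
      · apply Finset.sum_eq_zero
        intro k _
        rw [integral_mul_const, hc0, zero_mul]
      · intro k _
        exact (integrable_of_bdd' (P := lam) (hc i k) (hcb i k)).mul_const _
    have hfm := four_moment (P := PI ι) (fun i u => D i (u i)) hX (fun i => d i x) hd hind h0 (h2 x hx)
    have hsum : ∀ u : ι → ℝ, ∑ k ∈ s, (∑ i, c i k (u i)) * phi k x = ∑ i, D i (u i) := by
      intro u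
      simp only [hD]
      rw [Finset.sum_comm]
      exact Finset.sum_congr rfl fun k _ => by rw [Finset.sum_mul]
    have hmS : Measurable (fun u : ι → ℝ => ∑ i, D i (u i)) := by
      apply Finset.measurable_sum
      intro i _; exact hX i
    have hbS : ∀ u : ι → ℝ, |∑ i, D i (u i)| ≤ ∑ i, d i x := by
      intro u
      exact (Finset.abs_sum_le_sum_abs _ _).trans (Finset.sum_le_sum fun i _ => hd i u)
    have hint4 : Integrable (fun u : ι → ℝ => (∑ i, D i (u i)) ^ 4) (PI ι) := by
      refine integrable_of_bdd' (hmS.pow_const 4) (C := (∑ i, d i x) ^ 4) ?_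
      intro u
      rw [abs_pow]
      have := hbS u
      gcongr
    have hint2 : ∀ i, Integrable (fun u : ι → ℝ => D i (u i) ^ 2) (PI ι) := by
      intro i
      refine integrable_of_bdd' ((hX i).pow_const 2) (C := (d i x) ^ 2) ?_
      intro u
      rw [abs_pow]
      have := hd i u
      gcongr
    have e1 : ∀ u : ι → ℝ, ‖(∑ k ∈ s, (∑ i, c i k (u i)) * phi k x) / gw x‖ₑ ^ 4
        = ENNReal.ofReal ((1 / gw x ^ 4) * (∑ i, D i (u i)) ^ 4) := by
      intro u
      rw [hsum u, ← ofReal_norm, ← ENNReal.ofReal_pow (norm_nonneg _), Real.norm_eq_abs]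
      congr 1
      have : |(∑ i, D i (u i)) / gw x| ^ 4 = ((∑ i, D i (u i)) / gw x) ^ 4 := by
        rw [← abs_pow]; exact abs_of_nonneg (by positivity)
      rw [this, div_pow]; ring
    simp_rw [e1]
    rw [← ofReal_integral_eq_lintegral_ofReal (hint4.const_mul _)
      (Eventually.of_forall fun u => by positivity), integral_const_mul,
      ← ofReal_integral_eq_lintegral_ofReal (integrable_finsetSum _ fun i _ => hint2 i)
      (Eventually.of_forall fun u => Finset.sum_nonneg fun i _ => sq_nonneg _),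
      ← ENNReal.ofReal_mul (by positivity), integral_finsetSum _ (fun i _ => hint2 i)]
    apply ENNReal.ofReal_le_ofReal
    have hS0 : 0 ≤ ∑ i, ∫ u, D i (u i) ^ 2 ∂(PI ι) :=
      Finset.sum_nonneg fun i _ => integral_nonneg fun u => sq_nonneg _
    calc 1 / gw x ^ 4 * ∫ u, (∑ i, D i (u i)) ^ 4 ∂(PI ι)
        ≤ 1 / gw x ^ 4 * (4 * (B * gw x ^ 2) * ∑ i, ∫ u, D i (u i) ^ 2 ∂(PI ι)) := by gcongr
      _ = (1 / gw x ^ 2) * (4 * B * ∑ i, ∫ u, D i (u i) ^ 2 ∂(PI ι)) := by field_simp
      _ ≤ 1 * (4 * B * ∑ i, ∫ u, D i (u i) ^ 2 ∂(PI ι)) := by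
          apply mul_le_mul_of_nonneg_right _ (by positivity)
          rw [div_le_one (by positivity)]
          nlinarith
      _ = 4 * B * ∑ i, ∫ u, D i (u i) ^ 2 ∂(PI ι) := one_mul _
  refine (lintegral_mono_ae inner).trans ?_
  rw [lintegral_const_mul]
  swap
  · exact Measurable.lintegral_prod_left' mS
  rw [lintegral_lintegral_swap]
  swap
  · exact (mS.comp measurable_swap).aemeasurable
  have inner2 : ∀ u : ι → ℝ, ∫⁻ x, ENNReal.ofReal (∑ i, (∑ k ∈ s, c i k (u i) * phi k x) ^ 2) ∂mu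
      ≤ ENNReal.ofReal G := by
    intro u
    have hc1 : ∀ i, Continuous fun x => (∑ k ∈ s, c i k (u i) * phi k x) ^ 2 := by
      intro i
      apply Continuous.pow
      apply continuous_finsetSum
      intro k _
      have := continuous_phi k
      fun_prop
    rw [← ofReal_integral_eq_lintegral_ofReal]
    · apply ENNReal.ofReal_le_ofReal
      rw [integral_finsetSum _ (fun i _ => integrable_mu_of_continuous (hc1 i))]
      refine le_trans (le_of_eq ?_) (h3 u)
      refine Finset.sum_congr rfl fun i _ => ?_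
      rw [integral_mu_eq, integral_sum_phi_sq]
    · exact integrable_finsetSum _ (fun i _ => integrable_mu_of_continuous (hc1 i))
    · exact Eventually.of_forall fun x => Finset.sum_nonneg fun i _ => sq_nonneg _
  calc ENNReal.ofReal (4 * B) * ∫⁻ u, ∫⁻ x, ENNReal.ofReal (∑ i, (∑ k ∈ s, c i k (u i) * phi k x) ^ 2) ∂mu ∂(PI ι)
      ≤ ENNReal.ofReal (4 * B) * ∫⁻ _u, ENNReal.ofReal G ∂(PI ι) := by
        gcongr with u
        exact inner2 u
    _ = ENNReal.ofReal (4 * B * G) := by
        rw [lintegral_const, measure_univ, mul_one, ← ENNReal.ofReal_mul (by positivity)]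

end Pool.Agent.MP_f3eb7e
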