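import Pool.Agent.Lib.MP_f3eb7e_an.Rand

set_option autoImplicit false

open MeasureTheory Set Filter Topology ProbabilityTheory
open scoped ENNReal

namespace Pool.Agent.MP_f3eb7e

lemma cauchy_schwarz_integral {α : Type*} [MeasurableSpace α] {μ : Measure α} {f k : α → ℝ}
    (h1 : Integrable (fun x => f x ^ 2) μ) (h2 : Integrable (fun x => f x * k x) μ)
    (h3 : Integrable (fun x => k x ^ 2) μ) :
    (∫ x, f x * k x ∂μ) ^ 2 ≤ (∫ x, f x ^ 2 ∂μ) * ∫ x, k x ^ 2 ∂μ := by
  have h : ∀ t : ℝ, 0 ≤ (∫ x, f x ^ 2 ∂μ) * (t * t) + (2 * ∫ x, f x * k x ∂μ) * t + ∫ x, k x ^ 2 ∂μ := by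
    intro t
    have e : ∫ x, (t * f x + k x) ^ 2 ∂μ
        = (∫ x, f x ^ 2 ∂μ) * (t * t) + (2 * ∫ x, f x * k x ∂μ) * t + ∫ x, k x ^ 2 ∂μ := by
      have e1 : ∀ x, (t * f x + k x) ^ 2 = (t * t) * f x ^ 2 + (2 * t) * (f x * k x) + k x ^ 2 := by
        intro x; ring
      simp_rw [e1]
      rw [integral_add, integral_add, integral_const_mul, integral_const_mul]
      · ring
      · exact h1.const_mul _
      · exact h2.const_mul _
      · exact (h1.const_mul _).add (h2.const_mul _)
      · exact h3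
    rw [← e]
    exact integral_nonneg fun x => sq_nonneg _
  have hd := discrim_le_zero h
  unfold discrim at hd
  nlinarith

/-- a system of cells of equal length carrying patterns -/
structure CellSys (ι : Type*) [Fintype ι] where
  ℓ : ℝ
  a : ι → ℝ
  ξ : ι → ℝ → ℝ
  ρ : ℝ
  hℓ : 0 < ℓ
  ha : ∀ i, -1 ≤ a i
  hb : ∀ i, a i + ℓ ≤ 1
  disj : Pairwise (Function.onFun Disjoint fun i => Ico (a i) (a i + ℓ))
  mξ : ∀ i, Measurable (ξ i)
  bξ : ∀ i t, |ξ i t| ≤ 1
  mean : ∀ i, ∫ s in (0 : ℝ)..1, ξ i s = 0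
  hρ : 0 ≤ ρ
  var : ∀ i, ∫ s in (0 : ℝ)..1, ξ i s ^ 2 ≤ ρ
  reg : ∀ i, RegP (ξ i) 6

namespace CellSys

variable {ι : Type*} [Fintype ι] (S : CellSys ι)

/-- coefficients of a single cell -/
noncomputable def cc (i : ι) (k : ℕ) (v : ℝ) : ℝ := coef (cf (S.a i) S.ℓ (S.ξ i) v) k

/-- the random function -/
noncomputable def psi (u : ι → ℝ) (y : ℝ) : ℝ := ∑ i, cf (S.a i) S.ℓ (S.ξ i) (u i) y

lemma measurable_cc (i : ι) (k : ℕ) : Measurable (S.cc i k) := by
  unfold cc coef
  have h : StronglyMeasurable (fun p : ℝ × ℝ => cf (S.a i) S.ℓ (S.ξ i) p.1 p.2 * phi k p.2) :=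
    ((measurable_cf2 (S.mξ i)).mul ((continuous_phi k).measurable.comp measurable_snd)).stronglyMeasurable
  exact (h.integral_prod_right' (ν := mu)).measurable

lemma integrable_cf (i : ι) (v : ℝ) : Integrable (cf (S.a i) S.ℓ (S.ξ i) v) mu :=
  integrable_mu_of_bdd (measurable_cf (S.mξ i) v) (abs_cf_le (S.bξ i) v)

lemma abs_cc_le (i : ι) (k : ℕ) (v : ℝ) : |S.cc i k v| ≤ ∫ y, |phi k y| ∂mu := by
  unfold cc coef
  refine (abs_integral_le_integral_abs).trans ?_
  apply integral_mono_of_nonneg (Eventually.of_forall fun y => abs_nonneg _)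
    (integrable_mu_of_continuous (continuous_phi k)).abs
  refine Eventually.of_forall fun y => ?_
  simp only [abs_mul]
  calc |cf (S.a i) S.ℓ (S.ξ i) v y| * |phi k y| ≤ 1 * |phi k y| := by
        gcongr; exact abs_cf_le (S.bξ i) v y
    _ = |phi k y| := one_mul _

lemma integral_cf_shift (i : ι) (y : ℝ) : ∫ v, cf (S.a i) S.ℓ (S.ξ i) v y ∂lam = 0 := by
  unfold cf
  by_cases hy : y ∈ Ico (S.a i) (S.a i + S.ℓ)
  · simp_rw [indicator_of_mem hy]
    unfold lam
    rw [← intervalIntegral.integral_of_le (by norm_num), integral_fract_add]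
    exact S.mean i
  · simp_rw [indicator_of_notMem hy]
    simp

lemma integral_cc (i : ι) (k : ℕ) : ∫ v, S.cc i k v ∂lam = 0 := by
  unfold cc coef
  rw [integral_integral_swap]
  · have : ∀ y, ∫ v, cf (S.a i) S.ℓ (S.ξ i) v y * phi k y ∂lam = 0 := by
      intro y
      rw [integral_mul_const, S.integral_cf_shift, zero_mul]
    simp_rw [this]
    simp
  · obtain ⟨C, hC⟩ := exists_bound_of_continuous (continuous_phi k)
    refine Integrable.of_bound (C := C) ?_ ?_
    · exact ((measurable_cf2 (S.mξ i)).mul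
        ((continuous_phi k).measurable.comp measurable_snd)).aestronglyMeasurable
    · have h2 : ∀ᵐ p ∂(lam.prod mu), ‖phi k p.2‖ ≤ C :=
        (Measure.quasiMeasurePreserving_snd (μ := lam) (ν := mu)).ae hC
      filter_upwards [h2] with p hp
      simp only [Function.uncurry]
      rw [norm_mul]
      have h1 := abs_cf_le (a := S.a i) (ℓ := S.ℓ) (S.bξ i) p.1 p.2
      rw [← Real.norm_eq_abs] at h1
      calc ‖cf (S.a i) S.ℓ (S.ξ i) p.1 p.2‖ * ‖phi k p.2‖ ≤ 1 * C := by gcongr
        _ = C := one_mul _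

lemma sum_cc_phi (i : ι) (s : Finset ℕ) (v x : ℝ) :
    ∑ k ∈ s, S.cc i k v * phi k x
      = ∫ y in (S.a i)..(S.a i + S.ℓ), S.ξ i (Int.fract ((y - S.a i) / S.ℓ + v)) * ker s x y := by
  rw [← integral_cf_mul S.hℓ (S.ha i) (S.hb i)]
  unfold cc coef ker
  simp_rw [Finset.mul_sum]
  rw [integral_finsetSum]
  · refine Finset.sum_congr rfl fun k _ => ?_
    rw [← integral_mul_const]
    congr 1; funext y; ring
  · intro k _
    have h := (integrable_mul_continuous (S.integrable_cf i v) (continuous_phi k)).mul_const (phi k x)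
    refine h.congr (Eventually.of_forall fun y => ?_)
    simp only; ring

lemma cc_eq (i : ι) (k : ℕ) (v : ℝ) :
    S.cc i k v
      = ∫ y in (S.a i)..(S.a i + S.ℓ), S.ξ i (Int.fract ((y - S.a i) / S.ℓ + v)) * phi k y := by
  rw [← integral_cf_mul S.hℓ (S.ha i) (S.hb i)]
  rfl

lemma measurable_pat (i : ι) (v : ℝ) :
    Measurable fun y => S.ξ i (Int.fract ((y - S.a i) / S.ℓ + v)) := by
  apply (S.mξ i).comp
  apply measurable_fract.comp
  fun_prop

/-- Cauchy-Schwarz on a cell -/
lemma cell_cs (i : ι) (v : ℝ) {k : ℝ → ℝ} (hk : Continuous k) :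
    (∫ y in (S.a i)..(S.a i + S.ℓ), S.ξ i (Int.fract ((y - S.a i) / S.ℓ + v)) * k y) ^ 2
      ≤ S.ρ * S.ℓ * ∫ y in (S.a i)..(S.a i + S.ℓ), k y ^ 2 := by
  have hℓ := S.hℓ
  have hle : S.a i ≤ S.a i + S.ℓ := by linarith
  have m := S.measurable_pat i v
  have hsq := integral_cell_fract (fun s => S.ξ i s ^ 2) (a := S.a i) hℓ v
  rw [intervalIntegral.integral_of_le hle] at *
  rw [intervalIntegral.integral_of_le hle]
  have i1 : IntegrableOn (fun y => S.ξ i (Int.fract ((y - S.a i) / S.ℓ + v)) ^ 2)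
      (Ioc (S.a i) (S.a i + S.ℓ)) volume := by
    refine Integrable.of_bound (C := 1) (m.pow_const 2).aestronglyMeasurable ?_
    refine Eventually.of_forall fun y => ?_
    rw [Real.norm_eq_abs, abs_pow]
    exact pow_le_one₀ (abs_nonneg _) (S.bξ i _)
  have i2 : IntegrableOn (fun y => S.ξ i (Int.fract ((y - S.a i) / S.ℓ + v)) * k y)
      (Ioc (S.a i) (S.a i + S.ℓ)) volume := by
    have := ii_bdd_mul m (fun t => S.bξ i _) hk (S.a i) (S.a i + S.ℓ)
    rw [intervalIntegrable_iff, uIoc_of_le hle] at this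
    exact this
  have i3 : IntegrableOn (fun y => k y ^ 2) (Ioc (S.a i) (S.a i + S.ℓ)) volume := by
    have : Continuous fun y => k y ^ 2 := by fun_prop
    have := this.intervalIntegrable (μ := volume) (S.a i) (S.a i + S.ℓ)
    rw [intervalIntegrable_iff, uIoc_of_le hle] at this
    exact this
  refine (cauchy_schwarz_integral i1 i2 i3).trans ?_
  rw [hsq]
  have h0 : 0 ≤ ∫ y in Ioc (S.a i) (S.a i + S.ℓ), k y ^ 2 := integral_nonneg fun y => sq_nonneg _
  have hv := S.var i
  calc S.ℓ * (∫ s in (0 : ℝ)..1, S.ξ i s ^ 2) * ∫ y in Ioc (S.a i) (S.a i + S.ℓ), k y ^ 2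
      ≤ S.ℓ * S.ρ * ∫ y in Ioc (S.a i) (S.a i + S.ℓ), k y ^ 2 := by gcongr
    _ = S.ρ * S.ℓ * ∫ y in Ioc (S.a i) (S.a i + S.ℓ), k y ^ 2 := by ring

lemma cell_reg (i : ι) (v : ℝ) {k K : ℝ → ℝ} (hk : Continuous k) (hK : ∀ y, HasDerivAt K (k y) y)
    {M : ℝ} (hM : ∀ y ∈ Icc (S.a i) (S.a i + S.ℓ), |K y| ≤ M) :
    |∫ y in (S.a i)..(S.a i + S.ℓ), S.ξ i (Int.fract ((y - S.a i) / S.ℓ + v)) * k y| ≤ 12 * M := by
  have h := (S.reg i).cell (S.mξ i) (S.bξ i) S.hℓ v hk hK hM
  linarith

/-- sum over the cells of integrals of nonnegative functions -/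
lemma sum_cells_le {h : ℝ → ℝ} (hh : Continuous h) (h0 : ∀ y, 0 ≤ h y) :
    ∑ i, ∫ y in (S.a i)..(S.a i + S.ℓ), h y ≤ ∫ y in (-1 : ℝ)..1, h y := by
  have hℓ := S.hℓ
  have e : ∀ i, ∫ y in (S.a i)..(S.a i + S.ℓ), h y = ∫ y in Ico (S.a i) (S.a i + S.ℓ), h y := by
    intro i
    rw [intervalIntegral.integral_of_le (by linarith), integral_Ico_eq_integral_Ioc]
  simp_rw [e]
  have hint : IntegrableOn h (Icc (-1 : ℝ) 1) volume := hh.continuousOn.integrableOn_compact isCompact_Icc
  have hsub : ∀ i, Ico (S.a i) (S.a i + S.ℓ) ⊆ Icc (-1 : ℝ) 1 := by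
    intro i y hy
    exact ⟨by linarith [hy.1, S.ha i], by linarith [hy.2, S.hb i]⟩
  rw [← integral_biUnion_finset Finset.univ (fun i _ => measurableSet_Ico)
    (fun i _ j _ hij => S.disj hij) (fun i _ => hint.mono_set (hsub i))]
  rw [intervalIntegral.integral_of_le (by norm_num), ← integral_Icc_eq_integral_Ioc]
  apply setIntegral_mono_set hint (Eventually.of_forall fun y => h0 y)
  apply LE.le.eventuallyLE
  exact iUnion₂_subset fun i _ => hsub i

/-- total length of the cells -/
lemma card_mul_le : (Fintype.card ι : ℝ) * S.ℓ ≤ 2 := by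
  have h := S.sum_cells_le (h := fun _ => 1) continuous_const (fun _ => by norm_num)
  simp only [intervalIntegral.integral_const, smul_eq_mul, mul_one, add_sub_cancel_left,
    Finset.sum_const, nsmul_eq_mul, Finset.card_univ] at h
  linarith

/-- pointwise Sobolev bound on a cell -/
lemma sobolev {k K : ℝ → ℝ} (hk : Continuous k) (hK : ∀ y, HasDerivAt K (k y) y) {a ℓ m : ℝ}
    (hℓ : 0 < ℓ) (hm : 0 < m) {y : ℝ} (hy : y ∈ Icc a (a + ℓ)) :
    K y ^ 2 ≤ (1 / ℓ + m) * (∫ z in a..a + ℓ, K z ^ 2) + (1 / m) * ∫ z in a..a + ℓ, k z ^ 2 := by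
  have hKc : Continuous K := continuous_iff_continuousAt.2 fun y => (hK y).continuousAt
  have hab : a ≤ a + ℓ := by linarith
  set J := ∫ z in a..a + ℓ, (m * K z ^ 2 + (1 / m) * k z ^ 2) with hJ
  have hJe : J = m * (∫ z in a..a + ℓ, K z ^ 2) + (1 / m) * ∫ z in a..a + ℓ, k z ^ 2 := by
    rw [hJ, intervalIntegral.integral_add, intervalIntegral.integral_const_mul,
      intervalIntegral.integral_const_mul]
    · exact (by fun_prop : Continuous _).intervalIntegrable _ _
    · exact (by fun_prop : Continuous _).intervalIntegrable _ _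
  have hdiff : ∀ z ∈ Icc a (a + ℓ), K y ^ 2 ≤ K z ^ 2 + J := by
    intro z hz
    have hder : ∀ w ∈ uIcc z y, HasDerivAt (fun w => K w ^ 2) (2 * K w * k w) w := by
      intro w _
      have := (hK w).pow 2
      exact this.congr_deriv (by simp)
    have hi : IntervalIntegrable (fun w => 2 * K w * k w) volume z y :=
      (by fun_prop : Continuous _).intervalIntegrable _ _
    have e := intervalIntegral.integral_eq_sub_of_hasDerivAt hder hi
    have hle : |∫ w in z..y, 2 * K w * k w| ≤ J := by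
      have h1 := intervalIntegral.norm_integral_le_integral_norm_uIoc
        (f := fun w => 2 * K w * k w) (a := z) (b := y) (μ := volume)
      simp only [Real.norm_eq_abs] at h1
      refine h1.trans ?_
      have hsub : uIoc z y ⊆ Ioc a (a + ℓ) := by
        intro w hw
        rw [mem_uIoc] at hw
        rcases hw with hw | hw
        · exact ⟨by linarith [hz.1, hw.1], by linarith [hy.2, hw.2]⟩
        · exact ⟨by linarith [hy.1, hw.1], by linarith [hz.2, hw.2]⟩
      have hcont : Continuous fun z => m * K z ^ 2 + (1 / m) * k z ^ 2 := by fun_prop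
      have hI : IntegrableOn (fun z => m * K z ^ 2 + (1 / m) * k z ^ 2) (Ioc a (a + ℓ)) volume := by
        have := hcont.intervalIntegrable (μ := volume) a (a + ℓ)
        rw [intervalIntegrable_iff, uIoc_of_le hab] at this
        exact this
      rw [hJ, intervalIntegral.integral_of_le hab]
      calc ∫ w in uIoc z y, |2 * K w * k w|
          ≤ ∫ w in uIoc z y, (m * K w ^ 2 + (1 / m) * k w ^ 2) := by
            apply integral_mono_of_nonneg (Eventually.of_forall fun w => abs_nonneg _)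
              (hI.mono_set hsub)
            refine Eventually.of_forall fun w => ?_
            simp only
            have e2 : |2 * K w * k w| = 2 * |K w| * |k w| := by
              rw [abs_mul, abs_mul]; norm_num
            rw [e2]
            have : 0 ≤ (m * |K w| - |k w|) ^ 2 / m := by positivity
            have e3 : (m * |K w| - |k w|) ^ 2 / m = m * K w ^ 2 - 2 * |K w| * |k w| + (1 / m) * k w ^ 2 := by
              rw [← sq_abs (K w), ← sq_abs (k w)]
              field_simp
              ring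
            linarith
        _ ≤ ∫ w in Ioc a (a + ℓ), (m * K w ^ 2 + (1 / m) * k w ^ 2) := by
            apply setIntegral_mono_set hI
            · exact Eventually.of_forall fun w => by simp only [Pi.zero_apply]; positivity
            · exact LE.le.eventuallyLE hsub
    have := le_abs_self (∫ w in z..y, 2 * K w * k w)
    linarith
  have havg : ℓ * K y ^ 2 ≤ (∫ z in a..a + ℓ, K z ^ 2) + ℓ * J := by
    have h := intervalIntegral.integral_mono_on hab
      (continuous_const.intervalIntegrable (μ := volume) a (a + ℓ))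
      ((by fun_prop : Continuous fun z => K z ^ 2 + J).intervalIntegrable (μ := volume) a (a + ℓ)) hdiff
    rw [intervalIntegral.integral_const, intervalIntegral.integral_add
      ((by fun_prop : Continuous fun z => K z ^ 2).intervalIntegrable _ _)
      (continuous_const.intervalIntegrable _ _), intervalIntegral.integral_const] at h
    simpa using h
  have h2 : K y ^ 2 ≤ (1 / ℓ) * (∫ z in a..a + ℓ, K z ^ 2) + J := by
    have := (mul_le_mul_of_nonneg_left havg (by positivity : 0 ≤ 1 / ℓ))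
    have e : 1 / ℓ * (ℓ * K y ^ 2) = K y ^ 2 := by field_simp
    have e' : 1 / ℓ * ((∫ z in a..a + ℓ, K z ^ 2) + ℓ * J) = (1 / ℓ) * (∫ z in a..a + ℓ, K z ^ 2) + J := by
      field_simp
    linarith
  rw [hJe] at h2
  linarith

end CellSys

end Pool.Agent.MP_f3eb7e
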