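import Pool.Agent.Lib.MP_f3eb7e_an.Rand2

set_option autoImplicit false

open MeasureTheory Set Filter Topology ProbabilityTheory
open scoped ENNReal

namespace Pool.Agent.MP_f3eb7e

namespace CellSys

variable {ι : Type*} [Fintype ι] (S : CellSys ι)

lemma integrable_psi (u : ι → ℝ) : Integrable (S.psi u) mu := by
  unfold psi
  exact integrable_finsetSum _ fun i _ => S.integrable_cf i (u i)

lemma coef_psi (u : ι → ℝ) (k : ℕ) : coef (S.psi u) k = ∑ i, S.cc i k (u i) := by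
  unfold coef psi cc
  simp_rw [Finset.sum_mul]
  rw [integral_finsetSum _ (fun i _ => integrable_mul_continuous (S.integrable_cf i (u i)) (continuous_phi k))]
  rfl

/-- normalized partial sums on the product space -/
noncomputable def YY (n : ℕ) (p : (ι → ℝ) × ℝ) : ℝ := Sn n (S.psi p.1) p.2 / gw p.2

lemma YY_eq (n : ℕ) (p : (ι → ℝ) × ℝ) :
    S.YY n p = (∑ k ∈ Finset.range n, (∑ i, S.cc i k (p.1 i)) * phi k p.2) / gw p.2 := by
  unfold YY Sn
  simp_rw [coef_psi]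

lemma YY_zero (p : (ι → ℝ) × ℝ) : S.YY 0 p = 0 := by
  rw [YY_eq]; simp

lemma measurable_YY (n : ℕ) : Measurable (S.YY n) := by
  have : S.YY n = fun p => (∑ k ∈ Finset.range n, (∑ i, S.cc i k (p.1 i)) * phi k p.2) / gw p.2 := by
    funext p; exact S.YY_eq n p
  rw [this]
  apply Measurable.div
  · apply Finset.measurable_sum
    intro k _
    apply Measurable.mul
    · apply Finset.measurable_sum
      intro i _
      exact (S.measurable_cc i k).comp ((measurable_pi_apply i).comp measurable_fst)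
    · exact (continuous_phi k).measurable.comp measurable_snd
  · exact measurable_gw.comp measurable_snd

lemma YY_sub {m n : ℕ} (h : m ≤ n) (p : (ι → ℝ) × ℝ) :
    S.YY n p - S.YY m p
      = (∑ k ∈ Finset.Ico m n, (∑ i, S.cc i k (p.1 i)) * phi k p.2) / gw p.2 := by
  rw [YY_eq, YY_eq, ← sub_div, Finset.sum_Ico_eq_sub _ h]

/-- fourth moment bound, low frequencies -/
lemma low_moment {κ : ℝ} (hκ : ∀ k, ∑ i, ∫ y in (S.a i)..(S.a i + S.ℓ), phi k y ^ 2 ≤ κ)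
    {m n : ℕ} (hmn : m ≤ n) :
    ∫⁻ p, ‖S.YY n p - S.YY m p‖ₑ ^ 4 ∂((PI ι).prod mu)
      ≤ ENNReal.ofReal (8 * S.ρ ^ 2 * S.ℓ ^ 2 * κ) * ((n - m : ℕ) : ℝ≥0∞) ^ 2 := by
  simp_rw [S.YY_sub hmn]
  have hℓ := S.hℓ
  have hρ := S.hρ
  set h : ℝ := ((n - m : ℕ) : ℝ) with hh
  have hh0 : 0 ≤ h := by rw [hh]; positivity
  have hcard : ((Finset.Ico m n).card : ℝ) = h := by rw [Nat.card_Ico]
  have hκ0 : 0 ≤ κ := by
    refine le_trans (Finset.sum_nonneg fun i _ => ?_) (hκ 0)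
    exact intervalIntegral.integral_nonneg (by linarith) fun y _ => sq_nonneg _
  have key := random_moment (ι := ι) S.cc S.measurable_cc S.integral_cc
    (Cb := fun k => ∫ y, |phi k y| ∂mu) S.abs_cc_le (Finset.Ico m n)
    (fun i x => √(S.ρ * S.ℓ * ∫ y in (S.a i)..(S.a i + S.ℓ), ker (Finset.Ico m n) x y ^ 2))
    (B := 2 * S.ρ * S.ℓ * h) (G := S.ρ * S.ℓ * κ * h) (by positivity) ?_ ?_ ?_
  · refine key.trans (le_of_eq ?_)
    have e : 4 * (2 * S.ρ * S.ℓ * h) * (S.ρ * S.ℓ * κ * h) = (8 * S.ρ ^ 2 * S.ℓ ^ 2 * κ) * h ^ 2 := by ring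
    rw [e, ENNReal.ofReal_mul (by positivity), ENNReal.ofReal_pow hh0, hh, ENNReal.ofReal_natCast]
  · intro x _ i v
    apply Real.abs_le_sqrt
    rw [S.sum_cc_phi]
    exact S.cell_cs i v (continuous_ker _ x)
  · intro x hx
    have hi : ∀ i, 0 ≤ ∫ y in (S.a i)..(S.a i + S.ℓ), ker (Finset.Ico m n) x y ^ 2 := fun i =>
      intervalIntegral.integral_nonneg (by linarith) fun y _ => sq_nonneg _
    calc ∑ i, √(S.ρ * S.ℓ * ∫ y in (S.a i)..(S.a i + S.ℓ), ker (Finset.Ico m n) x y ^ 2) ^ 2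
        = ∑ i, S.ρ * S.ℓ * ∫ y in (S.a i)..(S.a i + S.ℓ), ker (Finset.Ico m n) x y ^ 2 := by
          refine Finset.sum_congr rfl fun i _ => Real.sq_sqrt ?_
          have := hi i
          positivity
      _ = S.ρ * S.ℓ * ∑ i, ∫ y in (S.a i)..(S.a i + S.ℓ), ker (Finset.Ico m n) x y ^ 2 := by
          rw [Finset.mul_sum]
      _ ≤ S.ρ * S.ℓ * ∫ y in (-1 : ℝ)..1, ker (Finset.Ico m n) x y ^ 2 := by
          gcongr
          exact S.sum_cells_le ((continuous_ker _ x).pow 2) (fun y => sq_nonneg _)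
      _ = S.ρ * S.ℓ * ∑ k ∈ Finset.Ico m n, phi k x ^ 2 := by rw [integral_ker_sq]
      _ ≤ S.ρ * S.ℓ * (2 * (Finset.Ico m n).card * gw x ^ 2) := by
          gcongr
          exact sum_phi_sq_le _ hx
      _ = 2 * S.ρ * S.ℓ * h * gw x ^ 2 := by rw [hcard]; ring
  · intro u
    rw [Finset.sum_comm]
    calc ∑ k ∈ Finset.Ico m n, ∑ i, S.cc i k (u i) ^ 2
        ≤ ∑ k ∈ Finset.Ico m n, S.ρ * S.ℓ * κ := by
          apply Finset.sum_le_sum
          intro k _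
          calc ∑ i, S.cc i k (u i) ^ 2
              ≤ ∑ i, S.ρ * S.ℓ * ∫ y in (S.a i)..(S.a i + S.ℓ), phi k y ^ 2 := by
                apply Finset.sum_le_sum
                intro i _
                rw [S.cc_eq]
                exact S.cell_cs i (u i) (continuous_phi k)
            _ = S.ρ * S.ℓ * ∑ i, ∫ y in (S.a i)..(S.a i + S.ℓ), phi k y ^ 2 := by rw [Finset.mul_sum]
            _ ≤ S.ρ * S.ℓ * κ := by
                gcongr
                exact hκ k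
      _ = S.ρ * S.ℓ * κ * h := by
          rw [Finset.sum_const, nsmul_eq_mul, hcard]; ring

/-- fourth moment bound, high frequencies -/
lemma high_moment {m n : ℕ} (hm : 1 ≤ m) (hmℓ : 1 ≤ m * S.ℓ) (hmn : m ≤ n) :
    ∫⁻ p, ‖S.YY n p - S.YY m p‖ₑ ^ 4 ∂((PI ι).prod mu)
      ≤ ENNReal.ofReal (5971968 * (Fintype.card ι : ℝ) / (m : ℝ) ^ 3) * ((n - m : ℕ) : ℝ≥0∞) ^ 2 := by
  simp_rw [S.YY_sub hmn]
  have hℓ := S.hℓ
  have hm0 : (0 : ℝ) < m := by exact_mod_cast hm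
  set h : ℝ := ((n - m : ℕ) : ℝ) with hh
  have hh0 : 0 ≤ h := by rw [hh]; positivity
  have hcard : ((Finset.Ico m n).card : ℝ) = h := by rw [Nat.card_Ico]
  have hks : ∀ k ∈ Finset.Ico m n, 1 ≤ k := fun k hk => hm.trans (Finset.mem_Ico.1 hk).1
  set J : ℝ := (Fintype.card ι : ℝ) with hJ
  have hJ0 : 0 ≤ J := by positivity
  set Q : ι → ℝ → ℝ := fun i x => (1 / S.ℓ + m) * (∫ y in (S.a i)..(S.a i + S.ℓ), Ker (Finset.Ico m n) x y ^ 2)
      + (1 / m) * ∫ y in (S.a i)..(S.a i + S.ℓ), ker (Finset.Ico m n) x y ^ 2 with hQ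
  have hi1 : ∀ i x, 0 ≤ ∫ y in (S.a i)..(S.a i + S.ℓ), Ker (Finset.Ico m n) x y ^ 2 := fun i x =>
      intervalIntegral.integral_nonneg (by linarith) fun y _ => sq_nonneg _
  have hi2 : ∀ i x, 0 ≤ ∫ y in (S.a i)..(S.a i + S.ℓ), ker (Finset.Ico m n) x y ^ 2 := fun i x =>
      intervalIntegral.integral_nonneg (by linarith) fun y _ => sq_nonneg _
  have hQ0 : ∀ i x, 0 ≤ Q i x := by
    intro i x
    have := hi1 i x
    have := hi2 i x
    simp only [hQ]; positivity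
  have key := random_moment (ι := ι) S.cc S.measurable_cc S.integral_cc
    (Cb := fun k => ∫ y, |phi k y| ∂mu) S.abs_cc_le (Finset.Ico m n)
    (fun i x => 12 * √(Q i x))
    (B := 2592 * h / m) (G := J * (576 * h / m ^ 2)) (by positivity) ?_ ?_ ?_
  · refine key.trans (le_of_eq ?_)
    have e : 4 * (2592 * h / m) * (J * (576 * h / m ^ 2)) = (5971968 * J / (m : ℝ) ^ 3) * h ^ 2 := by
      field_simp; ring
    rw [e, ENNReal.ofReal_mul (by positivity), ENNReal.ofReal_pow hh0, hh, ENNReal.ofReal_natCast]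
  · intro x _ i v
    rw [S.sum_cc_phi]
    apply S.cell_reg i v (continuous_ker _ x) (hasDerivAt_Ker _ x)
    intro y hy
    apply Real.abs_le_sqrt
    exact sobolev (continuous_ker _ x) (hasDerivAt_Ker _ x) hℓ hm0 hy
  · intro x hx
    have hsum := sum_phi_sq_le (Finset.Ico m n) hx
    rw [hcard] at hsum
    have hK : ∫ y in (-1 : ℝ)..1, Ker (Finset.Ico m n) x y ^ 2 ≤ 8 * h * gw x ^ 2 / m ^ 2 := by
      refine (integral_Ker_sq_le _ hks x).trans ?_
      have h1 : ∑ k ∈ Finset.Ico m n, phi k x ^ 2 / (k : ℝ) ^ 2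
          ≤ ∑ k ∈ Finset.Ico m n, phi k x ^ 2 / (m : ℝ) ^ 2 := by
        apply Finset.sum_le_sum
        intro k hk
        have : (m : ℝ) ≤ k := by exact_mod_cast (Finset.mem_Ico.1 hk).1
        gcongr
      rw [← Finset.sum_div] at h1
      calc 4 * ∑ k ∈ Finset.Ico m n, phi k x ^ 2 / (k : ℝ) ^ 2
          ≤ 4 * ((∑ k ∈ Finset.Ico m n, phi k x ^ 2) / (m : ℝ) ^ 2) := by gcongr
        _ ≤ 4 * ((2 * h * gw x ^ 2) / (m : ℝ) ^ 2) := by gcongr
        _ = 8 * h * gw x ^ 2 / m ^ 2 := by ring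
    have hk : ∫ y in (-1 : ℝ)..1, ker (Finset.Ico m n) x y ^ 2 ≤ 2 * h * gw x ^ 2 := by
      rw [integral_ker_sq]; exact hsum
    have c1 := S.sum_cells_le ((continuous_Ker (Finset.Ico m n) x).pow 2) (fun y => sq_nonneg _)
    have c2 := S.sum_cells_le ((continuous_ker (Finset.Ico m n) x).pow 2) (fun y => sq_nonneg _)
    have hℓm : 1 / S.ℓ ≤ m := by rw [div_le_iff₀ hℓ]; exact hmℓ
    calc ∑ i, (12 * √(Q i x)) ^ 2 = 144 * ∑ i, Q i x := by
          rw [Finset.mul_sum]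
          refine Finset.sum_congr rfl fun i _ => ?_
          rw [mul_pow, Real.sq_sqrt (hQ0 i x)]; norm_num
      _ = 144 * ((1 / S.ℓ + m) * (∑ i, ∫ y in (S.a i)..(S.a i + S.ℓ), Ker (Finset.Ico m n) x y ^ 2)
          + (1 / m) * ∑ i, ∫ y in (S.a i)..(S.a i + S.ℓ), ker (Finset.Ico m n) x y ^ 2) := by
          simp only [hQ]
          rw [Finset.sum_add_distrib, Finset.mul_sum, Finset.mul_sum]
      _ ≤ 144 * (((m : ℝ) + m) * (8 * h * gw x ^ 2 / m ^ 2) + (1 / m) * (2 * h * gw x ^ 2)) := by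
          have n1 : 0 ≤ ∑ i, ∫ y in (S.a i)..(S.a i + S.ℓ), Ker (Finset.Ico m n) x y ^ 2 :=
            Finset.sum_nonneg fun i _ => hi1 i x
          have n2 := c1.trans hK
          have n3 := c2.trans hk
          simp only [Pi.pow_apply] at n1 n2 n3
          gcongr
      _ = 2592 * h / m * gw x ^ 2 := by field_simp; ring
  · intro u
    have hcc : ∀ i, ∀ k ∈ Finset.Ico m n, S.cc i k (u i) ^ 2 ≤ 576 / m ^ 2 := by
      intro i k hk
      have hkm : (m : ℝ) ≤ k := by exact_mod_cast (Finset.mem_Ico.1 hk).1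
      rw [S.cc_eq]
      have h1 := S.cell_reg i (u i) (continuous_phi k) (hasDerivAt_Phi k) (M := 2 / ((k : ℝ) + 1))
        (fun y hy => abs_Phi_le k ⟨by linarith [hy.1, S.ha i], by linarith [hy.2, S.hb i]⟩)
      have h2 : 12 * (2 / ((k : ℝ) + 1)) ≤ 24 / m := by
        rw [mul_div_assoc', div_le_div_iff₀ (by positivity) hm0]; nlinarith
      have h3 := h1.trans h2
      calc _ ≤ (24 / (m : ℝ)) ^ 2 := by
            rw [← sq_abs]; gcongr
        _ = 576 / m ^ 2 := by rw [div_pow]; norm_num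
    calc ∑ i, ∑ k ∈ Finset.Ico m n, S.cc i k (u i) ^ 2
        ≤ ∑ _i : ι, ∑ _k ∈ Finset.Ico m n, (576 / (m : ℝ) ^ 2) :=
          Finset.sum_le_sum fun i _ => Finset.sum_le_sum fun k hk => hcc i k hk
      _ = J * (576 * h / m ^ 2) := by
          rw [Finset.sum_const, Finset.sum_const, nsmul_eq_mul, nsmul_eq_mul, hcard, Finset.card_univ]
          ring

lemma low_block {κ : ℝ} (hκ : ∀ k, ∑ i, ∫ y in (S.a i)..(S.a i + S.ℓ), phi k y ^ 2 ≤ κ) (r : ℕ) :
    ∫⁻ p, blockMax S.YY r 0 p ^ 4 ∂((PI ι).prod mu)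
      ≤ 400 * 4 ^ r * ENNReal.ofReal (8 * S.ρ ^ 2 * S.ℓ ^ 2 * κ) :=
  lintegral_blockMax_le S.measurable_YY (a := 0) (b := 2 ^ r)
    (fun _ _ _ hmn _ => S.low_moment hκ hmn) r 0 (le_refl _) (by simp)

lemma high_block (r : ℕ) (hr : 1 ≤ 2 ^ r * S.ℓ) :
    ∫⁻ p, blockMax S.YY r (2 ^ r) p ^ 4 ∂((PI ι).prod mu)
      ≤ ENNReal.ofReal (2388787200 * (Fintype.card ι : ℝ) / 2 ^ r) := by
  have hℓ := S.hℓ
  have h := lintegral_blockMax_le (P := (PI ι).prod mu) S.measurable_YY (a := 2 ^ r) (b := 2 ^ r + 2 ^ r)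
    (A := ENNReal.ofReal (5971968 * (Fintype.card ι : ℝ) / (8 : ℝ) ^ r)) ?_ r (2 ^ r) (le_refl _)
    (le_refl _)
  · refine h.trans (le_of_eq ?_)
    have e1 : (400 : ℝ≥0∞) * 4 ^ r = ENNReal.ofReal (400 * 4 ^ r) := by
      rw [ENNReal.ofReal_mul (by norm_num), ENNReal.ofReal_pow (by norm_num)]
      norm_num
    rw [e1, ← ENNReal.ofReal_mul (by positivity)]
    congr 1
    have e2 : (8 : ℝ) ^ r = 4 ^ r * 2 ^ r := by rw [← mul_pow]; norm_num
    rw [e2]; field_simp; norm_num; ring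
  · intro m n hm hmn _
    have hm' : ((2 ^ r : ℕ) : ℝ) ≤ m := by exact_mod_cast hm
    push_cast at hm'
    have hm1 : 1 ≤ m := (Nat.one_le_two_pow).trans hm
    refine (S.high_moment hm1 (hr.trans (by gcongr)) hmn).trans ?_
    gcongr
    calc (8 : ℝ) ^ r = (2 ^ r) ^ 3 := by rw [← pow_mul, mul_comm r 3, pow_mul]; norm_num
      _ ≤ (m : ℝ) ^ 3 := by gcongr

end CellSys

end Pool.Agent.MP_f3eb7e
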