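import Pool.Agent.Lib.MP_f3eb7e_an.Rand3

set_option autoImplicit false

open MeasureTheory Set Filter Topology ProbabilityTheory
open scoped ENNReal

namespace Pool.Agent.MP_f3eb7e

/-- `∫_E gw^{4/3}` -/
noncomputable def Gam (E : Set ℝ) : ℝ≥0∞ := ∫⁻ x in E, ENNReal.ofReal (gw x) ^ (4 / 3 : ℝ) ∂mu

lemma Gam_le_G2 (E : Set ℝ) : Gam E ≤ G2 := by
  unfold Gam G2
  refine (setLIntegral_le_lintegral _ _).trans ?_
  apply lintegral_mono_ae
  filter_upwards [ae_mem_Ioo] with x hx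
  rw [ENNReal.ofReal_pow (gw_nonneg x)]
  have h1 : (1 : ℝ≥0∞) ≤ ENNReal.ofReal (gw x) := by
    rw [← ENNReal.ofReal_one]; exact ENNReal.ofReal_le_ofReal (one_le_gw hx)
  rw [← ENNReal.rpow_natCast]
  exact ENNReal.rpow_le_rpow_of_exponent_le h1 (by norm_num)

lemma Gam_lt_top (E : Set ℝ) : Gam E < ∞ := (Gam_le_G2 E).trans_lt G2_lt_top

/-- the geometric constant -/
noncomputable def K0 : ℝ≥0∞ := (1 - (1 / 2 : ℝ≥0∞) ^ (1 / 4 : ℝ))⁻¹

lemma half_rpow_lt_one : ((1 / 2 : ℝ≥0∞) ^ (1 / 4 : ℝ)) < 1 := by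
  apply ENNReal.rpow_lt_one _ (by norm_num)
  rw [ENNReal.div_lt_iff (by simp) (by simp)]
  norm_num

lemma K0_lt_top : K0 < ∞ := by
  unfold K0
  rw [ENNReal.inv_lt_top]
  exact tsub_pos_of_lt half_rpow_lt_one

lemma tsum_geom_blocks (x : ℝ) (hx : 0 ≤ x) (r₀ : ℕ) :
    ∑' r : ℕ, (ENNReal.ofReal (x / 2 ^ (r₀ + r))) ^ (1 / 4 : ℝ)
      = K0 * (ENNReal.ofReal (x / 2 ^ r₀)) ^ (1 / 4 : ℝ) := by
  have e : ∀ r : ℕ, (ENNReal.ofReal (x / 2 ^ (r₀ + r))) ^ (1 / 4 : ℝ)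
      = (ENNReal.ofReal (x / 2 ^ r₀)) ^ (1 / 4 : ℝ) * (((1 / 2 : ℝ≥0∞) ^ (1 / 4 : ℝ))) ^ r := by
    intro r
    have h1 : x / 2 ^ (r₀ + r) = (x / 2 ^ r₀) * (1 / 2) ^ r := by
      rw [pow_add, div_pow, one_pow]; field_simp
    rw [h1, ENNReal.ofReal_mul (by positivity), ENNReal.mul_rpow_of_nonneg _ _ (by norm_num),
      ENNReal.ofReal_pow (by norm_num)]
    congr 1
    rw [← ENNReal.rpow_natCast, ← ENNReal.rpow_natCast, ← ENNReal.rpow_mul, ← ENNReal.rpow_mul,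
      mul_comm]
    congr 1
    rw [ENNReal.ofReal_div_of_pos (by norm_num)]
    norm_num
  simp_rw [e]
  rw [ENNReal.tsum_mul_left, ENNReal.tsum_geometric, mul_comm]
  rfl

namespace CellSys

variable {ι : Type*} [Fintype ι] (S : CellSys ι)

lemma Smax_psi_eq (u : ι → ℝ) {x : ℝ} (hx : x ∈ Ioo (-1 : ℝ) 1) :
    Smax (S.psi u) x = ENNReal.ofReal (gw x) * ⨆ n, ‖S.YY n (u, x)‖ₑ := by
  unfold Smax
  rw [ENNReal.mul_iSup]
  congr 1; funext n
  have hg := gw_pos hx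
  have : Sn n (S.psi u) x = gw x * S.YY n (u, x) := by
    unfold YY; field_simp
  rw [this, enorm_mul, ← ofReal_norm (gw x), Real.norm_eq_abs, abs_of_pos hg]

lemma measurable_Smax_psi : Measurable (fun p : (ι → ℝ) × ℝ => Smax (S.psi p.1) p.2) := by
  unfold Smax
  apply Measurable.iSup
  intro n
  have : (fun p : (ι → ℝ) × ℝ => Sn n (S.psi p.1) p.2)
      = fun p => (∑ k ∈ Finset.range n, (∑ i, S.cc i k (p.1 i)) * phi k p.2) := by
    funext p; unfold Sn; simp_rw [coef_psi]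
  apply Measurable.enorm
  rw [this]
  apply Finset.measurable_sum
  intro k _
  apply Measurable.mul
  · apply Finset.measurable_sum
    intro i _
    exact (S.measurable_cc i k).comp ((measurable_pi_apply i).comp measurable_fst)
  · exact (continuous_phi k).measurable.comp measurable_snd

lemma hoelder_block (E : Set ℝ) {M : (ι → ℝ) × ℝ → ℝ≥0∞} (hM : Measurable M) :
    ∫⁻ p, ENNReal.ofReal (gw p.2) * M p ∂((PI ι).prod (mu.restrict E))
      ≤ Gam E ^ (3 / 4 : ℝ) * (∫⁻ p, M p ^ 4 ∂((PI ι).prod (mu.restrict E))) ^ (1 / 4 : ℝ) := by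
  have hg : Measurable (fun p : (ι → ℝ) × ℝ => ENNReal.ofReal (gw p.2)) :=
    (measurable_gw.comp measurable_snd).ennreal_ofReal
  have h := ENNReal.lintegral_mul_le_Lp_mul_Lq ((PI ι).prod (mu.restrict E)) (p := 4 / 3) (q := 4)
    (by constructor <;> norm_num) hg.aemeasurable hM.aemeasurable
  simp only [Pi.mul_apply] at h
  refine h.trans (le_of_eq ?_)
  have e1 : (1 : ℝ) / (4 / 3) = 3 / 4 := by norm_num
  rw [e1]
  congr 1
  · congr 1
    unfold Gam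
    rw [lintegral_prod _ (hg.pow_const _).aemeasurable]
    simp
  · congr 1
    congr 1; funext p
    exact ENNReal.rpow_ofNat _ 4

/-- the main L^1 estimate -/
lemma lintegral_Smax_le (E : Set ℝ) (r₀ : ℕ) (hr : 1 ≤ 2 ^ r₀ * S.ℓ) :
    ∫⁻ p, Smax (S.psi p.1) p.2 ∂((PI ι).prod (mu.restrict E))
      ≤ Gam E ^ (3 / 4 : ℝ) *
        ((∫⁻ p, blockMax S.YY r₀ 0 p ^ 4 ∂((PI ι).prod (mu.restrict E))) ^ (1 / 4 : ℝ)
          + K0 * (ENNReal.ofReal (2388787200 * (Fintype.card ι : ℝ) / 2 ^ r₀)) ^ (1 / 4 : ℝ)) := by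
  have hℓ := S.hℓ
  set Q := (PI ι).prod (mu.restrict E) with hQ
  have hQle : Q ≤ (PI ι).prod mu := Measure.prod_mono le_rfl Measure.restrict_le_self
  have hae : ∀ᵐ p ∂Q, p.2 ∈ Ioo (-1 : ℝ) 1 := by
    have h1 : ∀ᵐ x ∂(mu.restrict E), x ∈ Ioo (-1 : ℝ) 1 := ae_restrict_of_ae ae_mem_Ioo
    exact (Measure.quasiMeasurePreserving_snd (μ := PI ι) (ν := mu.restrict E)).ae h1
  have hmB : ∀ r m, Measurable (blockMax S.YY r m) := fun r m => measurable_blockMax S.measurable_YY r m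
  have hg : Measurable (fun p : (ι → ℝ) × ℝ => ENNReal.ofReal (gw p.2)) :=
    (measurable_gw.comp measurable_snd).ennreal_ofReal
  have step1 : ∫⁻ p, Smax (S.psi p.1) p.2 ∂Q
      ≤ ∫⁻ p, (ENNReal.ofReal (gw p.2) * blockMax S.YY r₀ 0 p
        + ∑' r, ENNReal.ofReal (gw p.2) * blockMax S.YY (r₀ + r) (2 ^ (r₀ + r)) p) ∂Q := by
    apply lintegral_mono_ae
    filter_upwards [hae] with p hp
    rw [S.Smax_psi_eq p.1 hp, ENNReal.tsum_mul_left, ← mul_add]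
    gcongr
    exact iSup_enorm_le_blocks S.YY S.YY_zero r₀ p
  refine step1.trans ?_
  have hm0 : Measurable fun p : (ι → ℝ) × ℝ => ENNReal.ofReal (gw p.2) * blockMax S.YY r₀ 0 p :=
    hg.mul (hmB _ _)
  have hm1 : ∀ r : ℕ, AEMeasurable (fun p : (ι → ℝ) × ℝ =>
      ENNReal.ofReal (gw p.2) * blockMax S.YY (r₀ + r) (2 ^ (r₀ + r)) p) Q := fun r =>
    (hg.mul (hmB _ _)).aemeasurable
  rw [lintegral_add_left hm0, lintegral_tsum hm1, mul_add]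
  apply add_le_add
  · exact hoelder_block E (hmB _ _)
  · have hterm : ∀ r : ℕ, ∫⁻ p, ENNReal.ofReal (gw p.2) * blockMax S.YY (r₀ + r) (2 ^ (r₀ + r)) p ∂Q
        ≤ Gam E ^ (3 / 4 : ℝ) *
          (ENNReal.ofReal (2388787200 * (Fintype.card ι : ℝ) / 2 ^ (r₀ + r))) ^ (1 / 4 : ℝ) := by
      intro r
      refine (hoelder_block E (hmB _ _)).trans ?_
      gcongr
      refine (lintegral_mono' hQle (le_refl _)).trans ?_
      apply S.high_block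
      refine hr.trans ?_
      gcongr
      · norm_num
      · omega
    refine (ENNReal.tsum_le_tsum hterm).trans ?_
    rw [ENNReal.tsum_mul_left, tsum_geom_blocks _ (by positivity)]

lemma exists_u {b : ℝ≥0∞} (hb : ∫⁻ p, Smax (S.psi p.1) p.2 ∂((PI ι).prod mu) ≤ b) :
    ∃ u : ι → ℝ, NN (S.psi u) ≤ b := by
  rw [lintegral_prod _ S.measurable_Smax_psi.aemeasurable] at hb
  obtain ⟨u, hu⟩ := exists_le_lintegral (μ := PI ι) (f := fun u => ∫⁻ x, Smax (S.psi u) x ∂mu)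
    (Measurable.lintegral_prod_right' S.measurable_Smax_psi).aemeasurable
  exact ⟨u, hu.trans hb⟩

end CellSys

/-- choosing small parameters -/
lemma small_rpow {C : ℝ≥0∞} (hC : C ≠ ∞) {δ : ℝ≥0∞} (hδ : δ ≠ 0) :
    ∃ η : ℝ, 0 < η ∧ ∀ t : ℝ, t ≤ η → C * (ENNReal.ofReal t) ^ (1 / 4 : ℝ) ≤ δ := by
  have h : Tendsto (fun t : ℝ => C * (ENNReal.ofReal t) ^ (1 / 4 : ℝ)) (𝓝 0) (𝓝 0) := by
    have h1 : Tendsto (fun t : ℝ => (ENNReal.ofReal t) ^ (1 / 4 : ℝ)) (𝓝 0) (𝓝 0) := by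
      have : Continuous fun t : ℝ => (ENNReal.ofReal t) ^ (1 / 4 : ℝ) :=
        ENNReal.continuous_rpow_const.comp ENNReal.continuous_ofReal
      have h2 := this.tendsto 0
      simpa using h2
    have h2 := ENNReal.Tendsto.const_mul h1 (Or.inr hC)
    simpa using h2
  have h3 : ∀ᶠ t : ℝ in 𝓝 0, C * (ENNReal.ofReal t) ^ (1 / 4 : ℝ) ≤ δ :=
    h (Iic_mem_nhds (pos_iff_ne_zero.2 hδ))
  rw [Metric.eventually_nhds_iff] at h3
  obtain ⟨η, hη, hball⟩ := h3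
  refine ⟨η / 2, by positivity, fun t ht => ?_⟩
  rcases le_total t 0 with h0 | h0
  · rw [ENNReal.ofReal_of_nonpos h0, ENNReal.zero_rpow_of_pos (by norm_num), mul_zero]; exact zero_le
  · apply hball
    rw [Real.dist_eq, sub_zero, abs_of_nonneg h0]
    linarith

lemma exists_pow_near {ℓ K : ℝ} (hℓ : 0 < ℓ) (hK : ℓ ≤ K) :
    ∃ r : ℕ, K ≤ 2 ^ r * ℓ ∧ 2 ^ r * ℓ ≤ 2 * K := by
  have h1 : 1 ≤ K / ℓ := by rw [le_div_iff₀ hℓ]; linarith
  obtain ⟨n, hn1, hn2⟩ := exists_nat_pow_near h1 (by norm_num : (1 : ℝ) < 2)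
  refine ⟨n + 1, ?_, ?_⟩
  · rw [div_lt_iff₀ hℓ] at hn2; exact hn2.le
  · rw [le_div_iff₀ hℓ] at hn1
    rw [pow_succ]; linarith

namespace CellSys

lemma sum_phi_cells_le {ι : Type*} [Fintype ι] (S : CellSys ι) (k : ℕ) :
    ∑ i, ∫ y in (S.a i)..(S.a i + S.ℓ), phi k y ^ 2 ≤ 1 := by
  refine (S.sum_cells_le ((continuous_phi k).pow 2) (fun y => sq_nonneg _)).trans (le_of_eq ?_)
  have := integral_phi_mul_phi k k
  simp only [if_true] at this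
  refine Eq.trans ?_ this
  congr 1; funext y
  simp only [Pi.pow_apply]; ring

lemma ℓ_le_two {ι : Type*} [Fintype ι] [Nonempty ι] (S : CellSys ι) : S.ℓ ≤ 2 := by
  have i : ι := Classical.arbitrary ι
  linarith [S.ha i, S.hb i]

/-- **First random lemma**: small variance gives small maximal function. -/
theorem RS1 {ε : ℝ≥0∞} (hε : ε ≠ 0) :
    ∃ ρ₀ : ℝ, 0 < ρ₀ ∧ ∀ (ι : Type) [Fintype ι] (S : CellSys ι), S.ρ ≤ ρ₀ →
      ∃ u : ι → ℝ, NN (S.psi u) ≤ ε := by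
  set C := Gam univ ^ (3 / 4 : ℝ) with hC
  have hCtop : C ≠ ∞ := (ENNReal.rpow_lt_top_of_nonneg (by norm_num) (Gam_lt_top _).ne).ne
  have hε2 : ε / 2 ≠ 0 := by simpa using hε
  obtain ⟨η₁, hη₁, H₁⟩ := small_rpow (C := C * K0) (ENNReal.mul_ne_top hCtop K0_lt_top.ne) hε2
  obtain ⟨η₂, hη₂, H₂⟩ := small_rpow (C := C) hCtop hε2
  set K : ℝ := max 2 (2 * 2388787200 / η₁) with hK
  have hK2 : 2 ≤ K := le_max_left _ _
  have hK3 : 2 * 2388787200 / η₁ ≤ K := le_max_right _ _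
  have hK0 : 0 < K := by linarith
  set ρ₀ : ℝ := √(η₂ / (3200 * (2 * K) ^ 2)) with hρ₀
  refine ⟨ρ₀, Real.sqrt_pos.2 (by positivity), ?_⟩
  intro ι _ S hS
  rcases isEmpty_or_nonempty ι with hι | hι
  · refine ⟨fun _ => 0, ?_⟩
    have : S.psi (fun _ => 0) = fun _ => 0 := by
      funext y; simp [psi]
    rw [this, NN_zero]; exact zero_le
  have hℓ := S.hℓ
  have hℓ2 := S.ℓ_le_two
  obtain ⟨r, hr1, hr2⟩ := exists_pow_near hℓ (hℓ2.trans hK2)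
  apply S.exists_u
  have hmain := S.lintegral_Smax_le univ r (by linarith)
  rw [Measure.restrict_univ] at hmain
  refine hmain.trans ?_
  rw [mul_add]
  have hlow := S.low_block (κ := 1) S.sum_phi_cells_le r
  have e1 : (400 : ℝ≥0∞) * 4 ^ r * ENNReal.ofReal (8 * S.ρ ^ 2 * S.ℓ ^ 2 * 1)
      = ENNReal.ofReal (3200 * (2 ^ r * S.ℓ * S.ρ) ^ 2) := by
    have e1 : (400 : ℝ≥0∞) * 4 ^ r = ENNReal.ofReal (400 * 4 ^ r) := by
      rw [ENNReal.ofReal_mul (by norm_num), ENNReal.ofReal_pow (by norm_num)]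
      norm_num
    rw [e1, ← ENNReal.ofReal_mul (by positivity)]
    congr 1
    have : (4 : ℝ) ^ r = (2 ^ r) ^ 2 := by rw [← pow_mul, mul_comm r 2, pow_mul]; norm_num
    rw [this]; ring
  rw [e1] at hlow
  have p1 : C * (∫⁻ p, blockMax S.YY r 0 p ^ 4 ∂((PI ι).prod mu)) ^ (1 / 4 : ℝ) ≤ ε / 2 := by
    refine le_trans ?_ (H₂ η₂ (le_refl _))
    gcongr
    refine hlow.trans ?_
    apply ENNReal.ofReal_le_ofReal
    have hρ := S.hρ
    calc 3200 * (2 ^ r * S.ℓ * S.ρ) ^ 2 ≤ 3200 * ((2 * K) * ρ₀) ^ 2 := by gcongr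
      _ = 3200 * (2 * K) ^ 2 * ρ₀ ^ 2 := by ring
      _ = η₂ := by
          rw [hρ₀, Real.sq_sqrt (by positivity)]; field_simp
  have p2 : C * (K0 * (ENNReal.ofReal (2388787200 * (Fintype.card ι : ℝ) / 2 ^ r)) ^ (1 / 4 : ℝ))
      ≤ ε / 2 := by
    rw [← mul_assoc]
    apply H₁
    have hcard := S.card_mul_le
    have h2r : (0 : ℝ) < 2 ^ r := by positivity
    rw [div_le_iff₀ h2r]
    -- card ≤ 2/ℓ, 2^r ≥ K/ℓ
    have h3 : 2 * 2388787200 ≤ K * η₁ := by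
      rwa [div_le_iff₀ hη₁] at hK3
    have h4 : (2388787200 * (Fintype.card ι : ℝ)) * S.ℓ ≤ (η₁ * 2 ^ r) * S.ℓ := by
      calc (2388787200 * (Fintype.card ι : ℝ)) * S.ℓ = 2388787200 * ((Fintype.card ι : ℝ) * S.ℓ) := by ring
        _ ≤ 2388787200 * 2 := by gcongr
        _ ≤ K * η₁ := by linarith
        _ ≤ (2 ^ r * S.ℓ) * η₁ := by gcongr
        _ = (η₁ * 2 ^ r) * S.ℓ := by ring
    exact le_of_mul_le_mul_right h4 hℓ
  calc _ ≤ ε / 2 + ε / 2 := add_le_add p1 p2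
    _ = ε := ENNReal.add_halves ε

end CellSys

end Pool.Agent.MP_f3eb7e
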