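import Pool.Agent.Lib.MP_f3eb7e_an.Rand4

set_option autoImplicit false

open MeasureTheory Set Filter Topology ProbabilityTheory
open scoped ENNReal

namespace Pool.Agent.MP_f3eb7e

lemma gw_le_two {y : ℝ} (hy : |y| ≤ 1 / 2) : gw y ≤ 2 := by
  have h1 : y ^ 2 ≤ 1 / 4 := by
    have := sq_abs y
    have h0 := abs_nonneg y
    nlinarith
  unfold gw
  have h2 : (1 / 2 : ℝ) ≤ √(√(1 - y ^ 2)) := by
    apply Real.le_sqrt_of_sq_le
    apply Real.le_sqrt_of_sq_le
    norm_num; linarith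
  rw [div_le_iff₀ (by linarith)]
  linarith

namespace CellSys

variable {ι : Type*} [Fintype ι] (S : CellSys ι)

lemma sum_cells_le' {α β : ℝ} (hαβ : α ≤ β) (hα : ∀ i, α ≤ S.a i) (hβ : ∀ i, S.a i + S.ℓ ≤ β)
    {h : ℝ → ℝ} (hh : Continuous h) (h0 : ∀ y, 0 ≤ h y) :
    ∑ i, ∫ y in (S.a i)..(S.a i + S.ℓ), h y ≤ ∫ y in α..β, h y := by
  have hℓ := S.hℓ
  have e : ∀ i, ∫ y in (S.a i)..(S.a i + S.ℓ), h y = ∫ y in Ico (S.a i) (S.a i + S.ℓ), h y := by
    intro i
    rw [intervalIntegral.integral_of_le (by linarith), integral_Ico_eq_integral_Ioc]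
  simp_rw [e]
  have hint : IntegrableOn h (Icc α β) volume := hh.continuousOn.integrableOn_compact isCompact_Icc
  have hsub : ∀ i, Ico (S.a i) (S.a i + S.ℓ) ⊆ Icc α β := by
    intro i y hy
    exact ⟨by linarith [hy.1, hα i], by linarith [hy.2, hβ i]⟩
  rw [← integral_biUnion_finset Finset.univ (fun i _ => measurableSet_Ico)
    (fun i _ j _ hij => S.disj hij) (fun i _ => hint.mono_set (hsub i))]
  rw [intervalIntegral.integral_of_le hαβ, ← integral_Icc_eq_integral_Ioc]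
  apply setIntegral_mono_set hint (Eventually.of_forall fun y => h0 y)
  apply LE.le.eventuallyLE
  exact iUnion₂_subset fun i _ => hsub i

lemma card_mul_le' {α β : ℝ} (hαβ : α ≤ β) (hα : ∀ i, α ≤ S.a i) (hβ : ∀ i, S.a i + S.ℓ ≤ β) :
    (Fintype.card ι : ℝ) * S.ℓ ≤ β - α := by
  have h := S.sum_cells_le' hαβ hα hβ (h := fun _ => 1) continuous_const (fun _ => by norm_num)
  simp only [intervalIntegral.integral_const, smul_eq_mul, mul_one, add_sub_cancel_left,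
    Finset.sum_const, nsmul_eq_mul, Finset.card_univ] at h
  linarith

lemma far_moment {α β : ℝ} (hαβ : α < β) (hα : ∀ i, α ≤ S.a i) (hβ : ∀ i, S.a i + S.ℓ ≤ β)
    (hα8 : -(1 / 8) ≤ α) (hβ8 : β ≤ 1 / 8) {x : ℝ} (hx : x ∈ Ioo (-1 : ℝ) 1)
    (hxf : x ∉ Icc (α - (β - α)) (β + (β - α))) (n : ℕ) :
    ∫⁻ u, ‖S.YY n (u, x)‖ₑ ^ 4 ∂(PI ι) ≤ ENNReal.ofReal (5184 * S.ℓ ^ 2 / (β - α) ^ 2) := by
  have hℓ := S.hℓ
  set L := β - α with hL
  have hL0 : 0 < L := by rw [hL]; linarith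
  have hg : 0 < gw x := gw_pos hx
  set D : ι → ℝ → ℝ := fun i v => ∑ k ∈ Finset.range n, S.cc i k v * phi k x with hD
  have mDv : ∀ i, Measurable (D i) := by
    intro i
    apply Finset.measurable_sum
    intro k _
    exact (S.measurable_cc i k).mul_const _
  have hX : ∀ i, Measurable (fun u : ι → ℝ => D i (u i)) := fun i =>
    (mDv i).comp (measurable_pi_apply i)
  set dd : ℝ := 6 * S.ℓ * gw x / L with hdd
  have hdd0 : 0 ≤ dd := by rw [hdd]; positivity
  have hDb : ∀ i v, |D i v| ≤ dd := by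
    intro i v
    simp only [hD]
    rw [S.sum_cc_phi]
    have h1 := intervalIntegral.norm_integral_le_of_norm_le_const (a := S.a i) (b := S.a i + S.ℓ)
      (f := fun y => S.ξ i (Int.fract ((y - S.a i) / S.ℓ + v)) * ker (Finset.range n) x y)
      (C := 6 * gw x / L) ?_
    · rw [Real.norm_eq_abs] at h1
      refine h1.trans (le_of_eq ?_)
      rw [add_sub_cancel_left, abs_of_pos hℓ, hdd]; ring
    · intro y hy
      rw [uIoc_of_le (by linarith)] at hy
      have hyα : α ≤ y := by linarith [hα i, hy.1]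
      have hyβ : y ≤ β := by linarith [hβ i, hy.2]
      have hy1 : y ∈ Ioo (-1 : ℝ) 1 := ⟨by linarith, by linarith⟩
      have hxy : L ≤ |x - y| := by
        rw [mem_Icc, not_and_or, not_le, not_le] at hxf
        rcases hxf with h | h
        · rw [abs_sub_comm]
          exact (by linarith : L ≤ y - x).trans (le_abs_self _)
        · exact (by linarith : L ≤ x - y).trans (le_abs_self _)
      have hne : x ≠ y := by
        intro h; rw [h, sub_self, abs_zero] at hxy; linarith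
      rw [norm_mul, Real.norm_eq_abs, Real.norm_eq_abs]
      have hk := abs_ker_le n hx hy1 hne
      have hgy : gw y ≤ 2 := gw_le_two (by rw [abs_le]; constructor <;> linarith)
      calc |S.ξ i (Int.fract ((y - S.a i) / S.ℓ + v))| * |ker (Finset.range n) x y|
          ≤ 1 * (3 * gw x * gw y / |x - y|) := by
            gcongr
            exact S.bξ i _
        _ ≤ 1 * (3 * gw x * 2 / L) := by gcongr
        _ = 6 * gw x / L := by ring
  have hind : iIndepFun (fun i (u : ι → ℝ) => D i (u i)) (PI ι) :=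
    iIndepFun_pi (μ := fun _ : ι => lam) (X := D) (fun i => (mDv i).aemeasurable)
  have h0 : ∀ i, ∫ u, D i (u i) ∂(PI ι) = 0 := by
    intro i
    rw [integral_PI_eval i (mDv i)]
    simp only [hD]
    rw [integral_finsetSum]
    · apply Finset.sum_eq_zero
      intro k _
      rw [integral_mul_const, S.integral_cc, zero_mul]
    · intro k _
      exact (integrable_of_bdd' (P := lam) (S.measurable_cc i k) (S.abs_cc_le i k)).mul_const _
  have hcard := S.card_mul_le' hαβ.le hα hβ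
  set B : ℝ := 36 * S.ℓ * gw x ^ 2 / L with hB
  have hsumB : ∑ _i : ι, dd ^ 2 ≤ B := by
    rw [Finset.sum_const, nsmul_eq_mul, Finset.card_univ, hdd, hB]
    have : (Fintype.card ι : ℝ) * (6 * S.ℓ * gw x / L) ^ 2
        = ((Fintype.card ι : ℝ) * S.ℓ) * (36 * S.ℓ * gw x ^ 2 / L ^ 2) := by field_simp; ring
    rw [this]
    calc ((Fintype.card ι : ℝ) * S.ℓ) * (36 * S.ℓ * gw x ^ 2 / L ^ 2)
        ≤ L * (36 * S.ℓ * gw x ^ 2 / L ^ 2) := by gcongr
      _ = 36 * S.ℓ * gw x ^ 2 / L := by field_simp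
  have hB0 : 0 ≤ B := by rw [hB]; positivity
  have hfm := four_moment (P := PI ι) (fun i u => D i (u i)) hX (fun _ => dd) (fun i u => hDb i (u i))
    hind h0 hsumB
  have hS2 : ∑ i, ∫ u, D i (u i) ^ 2 ∂(PI ι) ≤ B := by
    refine le_trans (Finset.sum_le_sum fun i _ => ?_) hsumB
    have hint : Integrable (fun u : ι → ℝ => D i (u i) ^ 2) (PI ι) := by
      refine integrable_of_bdd' ((hX i).pow_const 2) (C := dd ^ 2) ?_
      intro u
      rw [abs_pow]
      have := hDb i (u i)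
      gcongr
    calc ∫ u, D i (u i) ^ 2 ∂(PI ι) ≤ ∫ _u, dd ^ 2 ∂(PI ι) := by
          apply integral_mono hint (integrable_const _)
          intro u
          have := hDb i (u i)
          simp only
          rw [← sq_abs]
          gcongr
      _ = dd ^ 2 := by simp
  have hmS : Measurable (fun u : ι → ℝ => ∑ i, D i (u i)) := by
    apply Finset.measurable_sum
    intro i _; exact hX i
  have hint4 : Integrable (fun u : ι → ℝ => (∑ i, D i (u i)) ^ 4) (PI ι) := by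
    refine integrable_of_bdd' (hmS.pow_const 4) (C := (∑ _i : ι, dd) ^ 4) ?_
    intro u
    rw [abs_pow]
    have : |∑ i, D i (u i)| ≤ ∑ _i : ι, dd :=
      (Finset.abs_sum_le_sum_abs _ _).trans (Finset.sum_le_sum fun i _ => hDb i (u i))
    gcongr
  have e1 : ∀ u : ι → ℝ, ‖S.YY n (u, x)‖ₑ ^ 4
      = ENNReal.ofReal ((1 / gw x ^ 4) * (∑ i, D i (u i)) ^ 4) := by
    intro u
    have hsum : ∑ k ∈ Finset.range n, (∑ i, S.cc i k (u i)) * phi k x = ∑ i, D i (u i) := by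
      simp only [hD]
      rw [Finset.sum_comm]
      exact Finset.sum_congr rfl fun k _ => by rw [Finset.sum_mul]
    rw [S.YY_eq, hsum, ← ofReal_norm, ← ENNReal.ofReal_pow (norm_nonneg _), Real.norm_eq_abs]
    congr 1
    have : |(∑ i, D i (u i)) / gw x| ^ 4 = ((∑ i, D i (u i)) / gw x) ^ 4 := by
      rw [← abs_pow]; exact abs_of_nonneg (by positivity)
    rw [this, div_pow]; ring
  simp_rw [e1]
  rw [← ofReal_integral_eq_lintegral_ofReal (hint4.const_mul _)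
    (Eventually.of_forall fun u => by positivity), integral_const_mul]
  apply ENNReal.ofReal_le_ofReal
  calc 1 / gw x ^ 4 * ∫ u, (∑ i, D i (u i)) ^ 4 ∂(PI ι)
      ≤ 1 / gw x ^ 4 * (4 * B * B) := by
        have : 4 * B * ∑ i, ∫ u, D i (u i) ^ 2 ∂(PI ι) ≤ 4 * B * B := by gcongr
        have := hfm.trans this
        gcongr
    _ = 5184 * S.ℓ ^ 2 / L ^ 2 := by rw [hB]; field_simp; norm_num

lemma blockMax_zero_le (r : ℕ) (p : (ι → ℝ) × ℝ) :
    blockMax S.YY r 0 p ^ 4 ≤ ∑ j ∈ Finset.range (2 ^ r + 1), ‖S.YY j p‖ₑ ^ 4 := by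
  set T := ∑ j ∈ Finset.range (2 ^ r + 1), ‖S.YY j p‖ₑ ^ 4 with hT
  have h : blockMax S.YY r 0 p ≤ T ^ ((4 : ℝ)⁻¹) := by
    unfold blockMax
    apply iSup₂_le
    intro j hj
    rw [zero_add, S.YY_zero, sub_zero, ENNReal.le_rpow_inv_iff (by norm_num)]
    have e : ‖S.YY j p‖ₑ ^ (4 : ℝ) = ‖S.YY j p‖ₑ ^ 4 := ENNReal.rpow_ofNat _ 4
    rw [e]
    exact Finset.single_le_sum (f := fun j => ‖S.YY j p‖ₑ ^ 4) (fun _ _ => zero_le)
      (Finset.mem_range.2 (by omega))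
  rw [ENNReal.le_rpow_inv_iff (by norm_num)] at h
  have e : blockMax S.YY r 0 p ^ (4 : ℝ) = blockMax S.YY r 0 p ^ 4 := ENNReal.rpow_ofNat _ 4
  rwa [e] at h

lemma far_block {α β : ℝ} (hαβ : α < β) (hα : ∀ i, α ≤ S.a i) (hβ : ∀ i, S.a i + S.ℓ ≤ β)
    (hα8 : -(1 / 8) ≤ α) (hβ8 : β ≤ 1 / 8) (r : ℕ) :
    ∫⁻ p, blockMax S.YY r 0 p ^ 4
      ∂((PI ι).prod (mu.restrict (Icc (α - (β - α)) (β + (β - α)))ᶜ))
      ≤ ENNReal.ofReal (20736 * 2 ^ r * S.ℓ ^ 2 / (β - α) ^ 2) := by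
  set E : Set ℝ := (Icc (α - (β - α)) (β + (β - α)))ᶜ with hE
  have hL0 : 0 < β - α := by linarith
  have hmE : MeasurableSet E := measurableSet_Icc.compl
  have hone : ∀ j, ∫⁻ p, ‖S.YY j p‖ₑ ^ 4 ∂((PI ι).prod (mu.restrict E))
      ≤ ENNReal.ofReal (10368 * S.ℓ ^ 2 / (β - α) ^ 2) := by
    intro j
    rw [lintegral_prod_symm _ ((S.measurable_YY j).enorm.pow_const 4).aemeasurable]
    have h1 : ∀ᵐ x ∂(mu.restrict E), ∫⁻ u, ‖S.YY j (u, x)‖ₑ ^ 4 ∂(PI ι)
        ≤ ENNReal.ofReal (5184 * S.ℓ ^ 2 / (β - α) ^ 2) := by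
      filter_upwards [ae_restrict_of_ae ae_mem_Ioo, ae_restrict_mem hmE] with x hx hx2
      exact S.far_moment hαβ hα hβ hα8 hβ8 hx hx2 j
    refine (lintegral_mono_ae h1).trans ?_
    rw [lintegral_const]
    calc ENNReal.ofReal (5184 * S.ℓ ^ 2 / (β - α) ^ 2) * (mu.restrict E) univ
        ≤ ENNReal.ofReal (5184 * S.ℓ ^ 2 / (β - α) ^ 2) * 2 := by
          gcongr
          rw [Measure.restrict_apply_univ, ← mu_univ]
          exact measure_mono (subset_univ _)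
      _ = ENNReal.ofReal (5184 * S.ℓ ^ 2 / (β - α) ^ 2) * ENNReal.ofReal 2 := by norm_num
      _ = ENNReal.ofReal (10368 * S.ℓ ^ 2 / (β - α) ^ 2) := by
          rw [← ENNReal.ofReal_mul (by positivity)]
          congr 1; ring
  calc ∫⁻ p, blockMax S.YY r 0 p ^ 4 ∂((PI ι).prod (mu.restrict E))
      ≤ ∫⁻ p, ∑ j ∈ Finset.range (2 ^ r + 1), ‖S.YY j p‖ₑ ^ 4 ∂((PI ι).prod (mu.restrict E)) :=
        lintegral_mono fun p => S.blockMax_zero_le r p
    _ = ∑ j ∈ Finset.range (2 ^ r + 1), ∫⁻ p, ‖S.YY j p‖ₑ ^ 4 ∂((PI ι).prod (mu.restrict E)) :=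
        lintegral_finsetSum _ fun j _ => (S.measurable_YY j).enorm.pow_const 4
    _ ≤ ∑ _j ∈ Finset.range (2 ^ r + 1), ENNReal.ofReal (10368 * S.ℓ ^ 2 / (β - α) ^ 2) :=
        Finset.sum_le_sum fun j _ => hone j
    _ = ENNReal.ofReal (((2 ^ r + 1 : ℕ) : ℝ) * (10368 * S.ℓ ^ 2 / (β - α) ^ 2)) := by
        rw [Finset.sum_const, Finset.card_range, nsmul_eq_mul, ENNReal.ofReal_mul (by positivity),
          ENNReal.ofReal_natCast]
    _ ≤ ENNReal.ofReal (20736 * 2 ^ r * S.ℓ ^ 2 / (β - α) ^ 2) := by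
        apply ENNReal.ofReal_le_ofReal
        have h1 : ((2 ^ r + 1 : ℕ) : ℝ) ≤ 2 * 2 ^ r := by
          push_cast
          have : (1 : ℝ) ≤ 2 ^ r := one_le_pow₀ (by norm_num)
          linarith
        calc ((2 ^ r + 1 : ℕ) : ℝ) * (10368 * S.ℓ ^ 2 / (β - α) ^ 2)
            ≤ (2 * 2 ^ r) * (10368 * S.ℓ ^ 2 / (β - α) ^ 2) := by gcongr
          _ = 20736 * 2 ^ r * S.ℓ ^ 2 / (β - α) ^ 2 := by ring

end CellSys

end Pool.Agent.MP_f3eb7e
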