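import Pool.Agent.Lib.MP_f3eb7e_an.Rand5

set_option autoImplicit false

open MeasureTheory Set Filter Topology ProbabilityTheory
open scoped ENNReal

namespace Pool.Agent.MP_f3eb7e

lemma Gam_near_le {a b : ℝ} (ha : -(1 / 2) ≤ a) (hb : b ≤ 1 / 2) :
    Gam (Icc a b) ≤ ENNReal.ofReal (4 * (b - a)) := by
  unfold Gam
  have h1 : ∀ᵐ x ∂(mu.restrict (Icc a b)), ENNReal.ofReal (gw x) ^ (4 / 3 : ℝ) ≤ 4 := by
    filter_upwards [ae_restrict_mem measurableSet_Icc] with x hx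
    have hg : gw x ≤ 2 := gw_le_two (by rw [abs_le]; exact ⟨by linarith [hx.1], by linarith [hx.2]⟩)
    calc ENNReal.ofReal (gw x) ^ (4 / 3 : ℝ) ≤ (2 : ℝ≥0∞) ^ (4 / 3 : ℝ) := by
          gcongr
          rw [← ENNReal.ofReal_ofNat]
          exact ENNReal.ofReal_le_ofReal hg
      _ ≤ (2 : ℝ≥0∞) ^ (2 : ℝ) := by
          apply ENNReal.rpow_le_rpow_of_exponent_le <;> norm_num
      _ = 4 := by norm_num
  refine (lintegral_mono_ae h1).trans ?_
  rw [lintegral_const, Measure.restrict_apply_univ, ENNReal.ofReal_mul (by norm_num)]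
  have h4 : ENNReal.ofReal 4 = 4 := by norm_num
  rw [h4]
  gcongr
  rw [← Real.volume_Icc]
  exact Measure.restrict_apply_le _ _

/-- the constant in the second random lemma -/
noncomputable def CR : ℝ≥0∞ := (ENNReal.ofReal 12) ^ (3 / 4 : ℝ) *
  ((ENNReal.ofReal 102400) ^ (1 / 4 : ℝ) + K0 * (ENNReal.ofReal 2388787200) ^ (1 / 4 : ℝ))

lemma CR_lt_top : CR < ∞ := by
  unfold CR
  apply ENNReal.mul_lt_top
  · exact ENNReal.rpow_lt_top_of_nonneg (by norm_num) ENNReal.ofReal_ne_top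
  · apply ENNReal.add_lt_top.2
    constructor
    · exact ENNReal.rpow_lt_top_of_nonneg (by norm_num) ENNReal.ofReal_ne_top
    · exact ENNReal.mul_lt_top K0_lt_top
        (ENNReal.rpow_lt_top_of_nonneg (by norm_num) ENNReal.ofReal_ne_top)

namespace CellSys

/-- **Second random lemma**: on an interior interval the maximal function of the random pattern
has `L^1` norm at most a constant times the length of the interval. -/
theorem RS2 {α β : ℝ} (hαβ : α < β) (hα8 : -(1 / 8) ≤ α) (hβ8 : β ≤ 1 / 8) {ε : ℝ≥0∞} (hε : ε ≠ 0) :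
    ∃ ℓ₀ : ℝ, 0 < ℓ₀ ∧ ∀ (ι : Type) [Fintype ι] (S : CellSys ι), S.ρ ≤ 1 → S.ℓ ≤ ℓ₀ →
      (∀ i, α ≤ S.a i) → (∀ i, S.a i + S.ℓ ≤ β) →
      ∃ u : ι → ℝ, NN (S.psi u) ≤ CR * ENNReal.ofReal (β - α) + ε := by
  set L := β - α with hL
  have hL0 : 0 < L := by rw [hL]; linarith
  have hL1 : L ≤ 1 / 4 := by rw [hL]; linarith
  set C := G2 ^ (3 / 4 : ℝ) with hC
  have hCtop : C ≠ ∞ := (ENNReal.rpow_lt_top_of_nonneg (by norm_num) G2_lt_top.ne).ne
  have hε2 : ε / 2 ≠ 0 := by simpa using hε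
  obtain ⟨η₁, hη₁, H₁⟩ := small_rpow (C := C * K0) (ENNReal.mul_ne_top hCtop K0_lt_top.ne) hε2
  obtain ⟨η₂, hη₂, H₂⟩ := small_rpow (C := C) hCtop hε2
  set K : ℝ := max 1 (2388787200 / η₁) with hK
  have hK1 : 1 ≤ K := le_max_left _ _
  have hK3 : 2388787200 / η₁ ≤ K := le_max_right _ _
  have hKpos : 0 < K := by linarith
  set ℓ₀ : ℝ := min 1 (η₂ * L ^ 2 / (20736 * (2 * K))) with hℓ₀
  have hℓ₀1 : ℓ₀ ≤ 1 := min_le_left _ _
  have hℓ₀2 : ℓ₀ ≤ η₂ * L ^ 2 / (20736 * (2 * K)) := min_le_right _ _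
  refine ⟨ℓ₀, lt_min (by norm_num) (by positivity), ?_⟩
  intro ι _ S hρ hℓle hα hβ
  have hℓ := S.hℓ
  have hρ0 := S.hρ
  have hℓ1 : S.ℓ ≤ 1 := hℓle.trans hℓ₀1
  apply S.exists_u
  set E : Set ℝ := Icc (α - L) (β + L) with hE
  have hmE : MeasurableSet E := measurableSet_Icc
  -- split
  have hsplit : ∫⁻ p, Smax (S.psi p.1) p.2 ∂((PI ι).prod mu)
      = ∫⁻ p, Smax (S.psi p.1) p.2 ∂((PI ι).prod (mu.restrict E))
        + ∫⁻ p, Smax (S.psi p.1) p.2 ∂((PI ι).prod (mu.restrict Eᶜ)) := by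
    have m := S.measurable_Smax_psi
    rw [lintegral_prod _ m.aemeasurable, lintegral_prod _ m.aemeasurable,
      lintegral_prod _ m.aemeasurable, ← lintegral_add_left]
    · congr 1; funext u
      simp only
      rw [lintegral_add_compl _ hmE]
    · exact Measurable.lintegral_prod_right' m
  rw [hsplit]
  apply add_le_add
  · -- near part
    obtain ⟨r, hr1, hr2⟩ := exists_pow_near hℓ hℓ1
    have hmain := S.lintegral_Smax_le E r hr1
    refine hmain.trans ?_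
    have hGam : Gam E ≤ ENNReal.ofReal (12 * L) := by
      refine (Gam_near_le (by linarith) (by linarith)).trans (le_of_eq ?_)
      congr 1; rw [hL]; ring
    have hκ : ∀ k, ∑ i, ∫ y in (S.a i)..(S.a i + S.ℓ), phi k y ^ 2 ≤ 8 * L := by
      intro k
      refine (S.sum_cells_le' hαβ.le hα hβ ((continuous_phi k).pow 2) (fun y => sq_nonneg _)).trans ?_
      have h1 : ∫ y in α..β, (phi k ^ 2) y ≤ ∫ _y in α..β, (8 : ℝ) := by
        apply intervalIntegral.integral_mono_on hαβ.le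
        · exact ((continuous_phi k).pow 2).intervalIntegrable _ _
        · exact continuous_const.intervalIntegrable _ _
        · intro y hy
          have hy1 : y ∈ Ioo (-1 : ℝ) 1 := ⟨by linarith [hy.1], by linarith [hy.2]⟩
          have h2 := phi_sq_le (k := k) hy1
          have hg : gw y ≤ 2 := gw_le_two (by rw [abs_le]; exact ⟨by linarith [hy.1], by linarith [hy.2]⟩)
          have hg0 := gw_nonneg y
          simp only [Pi.pow_apply]
          nlinarith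
      rw [intervalIntegral.integral_const, smul_eq_mul] at h1
      linarith
    have hlow := S.low_block (κ := 8 * L) hκ r
    have e1 : (400 : ℝ≥0∞) * 4 ^ r * ENNReal.ofReal (8 * S.ρ ^ 2 * S.ℓ ^ 2 * (8 * L))
        = ENNReal.ofReal (3200 * (2 ^ r * S.ℓ * S.ρ) ^ 2 * (8 * L)) := by
      have e1 : (400 : ℝ≥0∞) * 4 ^ r = ENNReal.ofReal (400 * 4 ^ r) := by
        rw [ENNReal.ofReal_mul (by norm_num), ENNReal.ofReal_pow (by norm_num)]
        norm_num
      rw [e1, ← ENNReal.ofReal_mul (by positivity)]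
      congr 1
      have : (4 : ℝ) ^ r = (2 ^ r) ^ 2 := by rw [← pow_mul, mul_comm r 2, pow_mul]; norm_num
      rw [this]; ring
    rw [e1] at hlow
    have hlow2 : ∫⁻ p, blockMax S.YY r 0 p ^ 4 ∂((PI ι).prod (mu.restrict E))
        ≤ ENNReal.ofReal (102400 * L) := by
      have hQle : (PI ι).prod (mu.restrict E) ≤ (PI ι).prod mu :=
        Measure.prod_mono le_rfl Measure.restrict_le_self
      refine (lintegral_mono' hQle (le_refl _)).trans (hlow.trans ?_)
      apply ENNReal.ofReal_le_ofReal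
      have hb : 2 ^ r * S.ℓ * S.ρ ≤ 2 := by
        calc 2 ^ r * S.ℓ * S.ρ ≤ 2 ^ r * S.ℓ * 1 := by gcongr
          _ ≤ 2 := by linarith
      calc 3200 * (2 ^ r * S.ℓ * S.ρ) ^ 2 * (8 * L) ≤ 3200 * 2 ^ 2 * (8 * L) := by gcongr
        _ = 102400 * L := by ring
    have hcard := S.card_mul_le' hαβ.le hα hβ
    have hhigh : 2388787200 * (Fintype.card ι : ℝ) / 2 ^ r ≤ 2388787200 * L := by
      rw [div_le_iff₀ (by positivity)]
      have h4 : (2388787200 * (Fintype.card ι : ℝ)) * S.ℓ ≤ (2388787200 * L * 2 ^ r) * S.ℓ := by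
        calc (2388787200 * (Fintype.card ι : ℝ)) * S.ℓ = 2388787200 * ((Fintype.card ι : ℝ) * S.ℓ) := by ring
          _ ≤ 2388787200 * L := by gcongr
          _ = 2388787200 * L * 1 := by ring
          _ ≤ 2388787200 * L * (2 ^ r * S.ℓ) := by gcongr
          _ = (2388787200 * L * 2 ^ r) * S.ℓ := by ring
      exact le_of_mul_le_mul_right h4 hℓ
    calc Gam E ^ (3 / 4 : ℝ) *
        ((∫⁻ p, blockMax S.YY r 0 p ^ 4 ∂((PI ι).prod (mu.restrict E))) ^ (1 / 4 : ℝ)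
          + K0 * (ENNReal.ofReal (2388787200 * (Fintype.card ι : ℝ) / 2 ^ r)) ^ (1 / 4 : ℝ))
        ≤ (ENNReal.ofReal (12 * L)) ^ (3 / 4 : ℝ) *
          ((ENNReal.ofReal (102400 * L)) ^ (1 / 4 : ℝ)
          + K0 * (ENNReal.ofReal (2388787200 * L)) ^ (1 / 4 : ℝ)) := by
          gcongr
      _ = CR * ((ENNReal.ofReal L) ^ (3 / 4 : ℝ) * (ENNReal.ofReal L) ^ (1 / 4 : ℝ)) := by
          rw [ENNReal.ofReal_mul (by norm_num), ENNReal.ofReal_mul (by norm_num),
            ENNReal.ofReal_mul (by norm_num), ENNReal.mul_rpow_of_nonneg _ _ (by norm_num),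
            ENNReal.mul_rpow_of_nonneg _ _ (by norm_num), ENNReal.mul_rpow_of_nonneg _ _ (by norm_num)]
          unfold CR
          ring
      _ = CR * ENNReal.ofReal L := by
          rw [← ENNReal.rpow_add_of_nonneg _ _ (by norm_num) (by norm_num)]
          norm_num
  · -- far part
    obtain ⟨r, hr1, hr2⟩ := exists_pow_near hℓ (hℓ1.trans hK1)
    have hmain := S.lintegral_Smax_le Eᶜ r (hK1.trans hr1)
    refine hmain.trans ?_
    have hGam : Gam Eᶜ ^ (3 / 4 : ℝ) ≤ C := by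
      rw [hC]
      exact ENNReal.rpow_le_rpow (Gam_le_G2 _) (by norm_num)
    have hfar := S.far_block hαβ hα hβ hα8 hβ8 r
    have hcard := S.card_mul_le' hαβ.le hα hβ
    rw [mul_add]
    have p1 : Gam Eᶜ ^ (3 / 4 : ℝ) *
        (∫⁻ p, blockMax S.YY r 0 p ^ 4 ∂((PI ι).prod (mu.restrict Eᶜ))) ^ (1 / 4 : ℝ) ≤ ε / 2 := by
      refine le_trans ?_ (H₂ η₂ (le_refl _))
      refine mul_le_mul' hGam ?_
      refine ENNReal.rpow_le_rpow ?_ (by norm_num)
      refine hfar.trans ?_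
      apply ENNReal.ofReal_le_ofReal
      rw [div_le_iff₀ (by positivity)]
      have h5 : 2 ^ r * S.ℓ ^ 2 ≤ 2 * K * ℓ₀ := by
        calc 2 ^ r * S.ℓ ^ 2 = (2 ^ r * S.ℓ) * S.ℓ := by ring
          _ ≤ (2 * K) * ℓ₀ := by gcongr
      have h6 : 20736 * (2 * K * ℓ₀) ≤ η₂ * L ^ 2 := by
        rw [le_div_iff₀ (by positivity)] at hℓ₀2
        linarith
      calc 20736 * 2 ^ r * S.ℓ ^ 2 = 20736 * (2 ^ r * S.ℓ ^ 2) := by ring
        _ ≤ 20736 * (2 * K * ℓ₀) := by gcongr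
        _ ≤ η₂ * L ^ 2 := h6
    have p2 : Gam Eᶜ ^ (3 / 4 : ℝ) *
        (K0 * (ENNReal.ofReal (2388787200 * (Fintype.card ι : ℝ) / 2 ^ r)) ^ (1 / 4 : ℝ)) ≤ ε / 2 := by
      rw [← mul_assoc]
      refine le_trans ?_ (H₁ (2388787200 * (Fintype.card ι : ℝ) / 2 ^ r) ?_)
      · gcongr
      · rw [div_le_iff₀ (by positivity)]
        have h3 : 2388787200 ≤ K * η₁ := by
          rwa [div_le_iff₀ hη₁] at hK3
        have h4 : (2388787200 * (Fintype.card ι : ℝ)) * S.ℓ ≤ (η₁ * 2 ^ r) * S.ℓ := by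
          calc (2388787200 * (Fintype.card ι : ℝ)) * S.ℓ = 2388787200 * ((Fintype.card ι : ℝ) * S.ℓ) := by ring
            _ ≤ 2388787200 * 1 := by gcongr; linarith
            _ ≤ K * η₁ := by linarith
            _ ≤ (2 ^ r * S.ℓ) * η₁ := by gcongr
            _ = (η₁ * 2 ^ r) * S.ℓ := by ring
        exact le_of_mul_le_mul_right h4 hℓ
    calc _ ≤ ε / 2 + ε / 2 := add_le_add p1 p2
      _ = ε := ENNReal.add_halves ε

end CellSys

end Pool.Agent.MP_f3eb7e
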