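import Pool.Agent.Lib.MP_f3eb7e_an.Cont2

set_option autoImplicit false

open MeasureTheory Set Filter Topology
open scoped ENNReal

namespace Pool.Agent.MP_f3eb7e

lemma varQ_nonneg {α β : ℝ} (hαβ : α < β) (g : ℝ → ℝ) : 0 ≤ varQ α β g := by
  unfold varQ avQ
  apply div_nonneg (integral_nonneg fun y => sq_nonneg _)
  linarith

lemma eq_of_varQ_zero {α β T : ℝ} (hα : -1 ≤ α) (hαβ : α < β) (hβ : β ≤ 1) {g : ℝ → ℝ} (hg : Measurable g)
    (hgb : ∀ y, |g y| ≤ T) (hg0 : ∀ y, y ∉ Ico α β → g y = 0) (hv : varQ α β g = 0) :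
    g =ᵐ[mu] fun y => avQ α β g * ind α β y := by
  have hL : 0 < β - α := by linarith
  have h1 : ∫ y in Ico α β, (g y - avQ α β g) ^ 2 = 0 := by
    unfold varQ at hv
    have e : avQ α β (fun y => (g y - avQ α β g) ^ 2) = (∫ y in Ico α β, (g y - avQ α β g) ^ 2) / (β - α) := rfl
    rw [e, div_eq_zero_iff] at hv
    rcases hv with h | h
    · exact h
    · linarith
  have i1 : IntegrableOn (fun y => (g y - avQ α β g) ^ 2) (Ico α β) volume := by
    apply integrableOn_bdd (f := fun y => (g y - avQ α β g) ^ 2) ((hg.sub_const _).pow_const 2) (C := (T + T) ^ 2)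
    intro y
    show |(g y - avQ α β g) ^ 2| ≤ (T + T) ^ 2
    rw [abs_pow]
    gcongr
    exact (abs_sub _ _).trans (add_le_add (hgb y) (abs_avQ_le hαβ hg hgb))
  rw [integral_eq_zero_iff_of_nonneg (fun y => sq_nonneg _) i1, ← restrict_mu hα hβ] at h1
  have h2 := (ae_restrict_iff' measurableSet_Ico).1 h1
  filter_upwards [h2] with y hy
  by_cases hyQ : y ∈ Ico α β
  · have h3 := hy hyQ
    simp only [Pi.zero_apply] at h3
    have h4 : g y - avQ α β g = 0 := by
      exact pow_eq_zero_iff (two_ne_zero) |>.1 h3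
    have : ind α β y = 1 := by unfold ind; exact indicator_of_mem hyQ _
    rw [this]; linarith
  · have : ind α β y = 0 := by unfold ind; exact indicator_of_notMem hyQ _
    rw [this, hg0 y hyQ, mul_zero]

lemma MIso.trans_ne_le (σ τ : MIso mu mu) :
    mu {x | (σ.trans τ).f x ≠ x} ≤ mu {x | σ.f x ≠ x} + mu {x | τ.f x ≠ x} := by
  refine (measure_mono ?_).trans (measure_union_le _ _)
  intro x hx
  by_cases h1 : σ.f x = x
  · right
    intro h2
    apply hx
    show τ.f (σ.f x) = x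
    rw [h1, h2]
  · left; exact h1

lemma MIso.trans_id_off {Q : Set ℝ} (σ τ : MIso mu mu) (h1 : ∀ᵐ x ∂mu, x ∉ Q → σ.f x = x)
    (h2 : ∀ᵐ x ∂mu, x ∉ Q → τ.f x = x) : ∀ᵐ x ∂mu, x ∉ Q → (σ.trans τ).f x = x := by
  filter_upwards [h1, h2] with x a1 a2 hx
  show τ.f (σ.f x) = x
  rw [a1 hx, a2 hx]

lemma comp_zero_off {Q : Set ℝ} {g : ℝ → ℝ} (hg0 : ∀ y, y ∉ Q → g y = 0) (σ : MIso mu mu)
    (h1 : ∀ x, x ∉ Q → σ.f x = x) : ∀ y, y ∉ Q → g (σ.f y) = 0 := by
  intro y hy
  rw [h1 y hy]; exact hg0 y hy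

/-- small moves make the maximal function integrable -/
theorem region_small {α β T : ℝ} (hα : -1 ≤ α) (hαβ : α < β) (hβ : β ≤ 1) (hT : 0 < T) {g : ℝ → ℝ}
    (hg : Measurable g) (hgb : ∀ y, |g y| ≤ T) (hg0 : ∀ y, y ∉ Ico α β → g y = 0) {ε : ℝ} (hε : 0 < ε) :
    ∃ ω : MIso mu mu, (∀ᵐ x ∂mu, x ∉ Ico α β → ω.f x = x) ∧ mu {x | ω.f x ≠ x} ≤ ENNReal.ofReal ε ∧
      NN (fun x => g (ω.f x)) < ∞ := by
  have hindtop : NN (ind α β) < ∞ := (IsStep_ind α β).prop.nn
  rcases (varQ_nonneg hαβ g).eq_or_lt with hv | hv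
  · refine ⟨MIso.refl mu, Eventually.of_forall fun x _ => rfl, ?_, ?_⟩
    · have : {x | (MIso.refl mu).f x ≠ x} = ∅ := by
        ext x; simp [MIso.refl]
      rw [this]; simp
    · have h1 := eq_of_varQ_zero hα hαβ hβ hg hgb hg0 hv.symm
      have h2 : NN (fun x => g ((MIso.refl mu).f x)) = NN (fun y => avQ α β g * ind α β y) := NN_congr h1
      rw [h2, NN_const_mul]
      exact ENNReal.mul_lt_top enorm_lt_top hindtop
  · set γ := varQ α β g with hγ
    obtain ⟨ρ, hρ, H⟩ := CellSys.RS1 (one_ne_zero (α := ℝ≥0∞))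
    obtain ⟨θ, d, a1, a2, a3, a4, _, _, a7, a8⟩ := params hT hv (le_refl 0) (show 0 < ε / 4 by positivity) hρ
    obtain ⟨σ₀, h₀, b1, b2, b3, b4, b5, b6⟩ := base_small hα hαβ hβ hT hg hgb a3 (show 0 < ε / 4 by positivity)
    have b4' : ∀ᵐ x ∂mu, x ∉ Ico α β → σ₀.f x = x := Eventually.of_forall b4
    set B : ℝ≥0∞ := (ENNReal.ofReal (2 * T) * 1 + ENNReal.ofReal θ * NN h₀
        + ENNReal.ofReal (θ * T + 2 * d) * NN (ind α β) + ENNReal.ofReal (ε / 4)) + NN h₀ with hBdef
    have hB : B ≠ ∞ := by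
      have := b1.prop.nn.ne
      have := hindtop.ne
      rw [hBdef]
      simp only [ne_eq, ENNReal.add_eq_top, ENNReal.mul_eq_top, ENNReal.ofReal_ne_top]
      tauto
    obtain ⟨d', hd'0, hd'⟩ := cont hα hαβ hβ hT hv hB (show 0 < ε / 4 by positivity)
    obtain ⟨σ₁, h₁, c1, c2, c3, c4, c5, c6, c7⟩ := one_step' hα hαβ hβ hT H a1 a2 a7 hv a8
      (g := fun x => g (σ₀.f x)) (hg.comp σ₀.mf.measurable) (fun y => hgb _)
      (by rw [varQ_comp_MIso hα hβ σ₀ b4' hg]) b1 b2 b3 b5 (lt_min a3 hd'0)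
      (min_le_left d d') (show 0 < ε / 4 by positivity)
    have c4' : ∀ᵐ x ∂mu, x ∉ Ico α β → σ₁.f x = x := Eventually.of_forall c4
    have hg1 : Measurable fun x => g (σ₀.f x) := hg.comp σ₀.mf.measurable
    have hNN1 : NN h₁ ≤ B := by
      have hk1 : NN h₁ ≤ NN (fun y => h₁ y - h₀ y) + NN h₀ := by
        have := NN_add_le (c1.integrable.sub b1.integrable) b1.integrable
        refine le_trans (le_of_eq ?_) this
        congr 1; funext y; simp
      exact hk1.trans (add_le_add c7 (le_refl _))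
    obtain ⟨ω, w1, w2, w3⟩ := hd' (fun x => g (σ₀.f (σ₁.f x))) h₁ (hg1.comp σ₁.mf.measurable)
      (fun y => hgb _) (comp_zero_off (g := fun x => g (σ₀.f x)) (comp_zero_off hg0 σ₀ b4) σ₁ c4)
      (by
        have e1 := varQ_comp_MIso hα hβ σ₁ c4' hg1
        rw [e1, varQ_comp_MIso hα hβ σ₀ b4' hg]) c1 c2 c3
      (by
        filter_upwards [c5] with x hx hxQ
        exact (hx hxQ).trans (min_le_right _ _)) hNN1
    refine ⟨ω.trans (σ₁.trans σ₀), ω.trans_id_off _ w1 (σ₁.trans_id_off _ c4' b4'), ?_, ?_⟩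
    · refine (MIso.trans_ne_le _ _).trans ?_
      calc _ ≤ ENNReal.ofReal (ε / 4) + (ENNReal.ofReal (θ * (β - α) + ε / 4) + ENNReal.ofReal (ε / 4)) := by
            refine add_le_add w2 ((MIso.trans_ne_le _ _).trans (add_le_add c6 b6))
        _ = ENNReal.ofReal (ε / 4 + ((θ * (β - α) + ε / 4) + ε / 4)) := by
            have : 0 ≤ θ * (β - α) := mul_nonneg a1.le (by linarith)
            rw [← ENNReal.ofReal_add (by positivity) (by positivity),
              ← ENNReal.ofReal_add (by positivity) (by positivity)]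
        _ ≤ ENNReal.ofReal ε := by
            apply ENNReal.ofReal_le_ofReal
            have : θ * (β - α) ≤ θ * 2 := by
              apply mul_le_mul_of_nonneg_left _ a1.le; linarith
            linarith
    · refine lt_of_le_of_lt w3 ?_
      exact ENNReal.add_lt_top.2 ⟨c1.prop.nn, ENNReal.ofReal_lt_top⟩

/-- free moves give a quantitative bound -/
theorem region_free {η : ℝ} (hη : 0 < η) (hη1 : η < 1) :
    ∃ C : ℝ≥0∞, C < ∞ ∧ ∀ (α β T : ℝ), -(1 / 8) ≤ α → α < β → β ≤ 1 / 8 → 0 < T → ∀ g : ℝ → ℝ,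
      Measurable g → (∀ y, |g y| ≤ T) → (∀ y, y ∉ Ico α β → g y = 0) → ∀ ε : ℝ, 0 < ε →
      ∃ ω : MIso mu mu, (∀ᵐ x ∂mu, x ∉ Ico α β → ω.f x = x) ∧
        NN (fun x => g (ω.f x)) ≤ C * ENNReal.ofReal (T * (β - α))
          + C * ENNReal.ofReal (|∫ y in Ico α β, g y| * (β - α) ^ (-η)) + ENNReal.ofReal ε := by
  obtain ⟨C₁, hC₁, hC⟩ := NN_ind_le hη hη1
  refine ⟨2 * CR + C₁, ENNReal.add_lt_top.2 ⟨ENNReal.mul_lt_top (by simp) CR_lt_top, hC₁⟩, ?_⟩
  intro α β T hα hαβ hβ hT g hg hgb hg0 ε hε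
  have hα1 : -1 ≤ α := by linarith
  have hβ1 : β ≤ 1 := by linarith
  have hL : 0 < β - α := by linarith
  have hindtop : NN (ind α β) < ∞ := (IsStep_ind α β).prop.nn
  have hmean : ENNReal.ofReal |avQ α β g| * NN (ind α β)
      ≤ C₁ * ENNReal.ofReal (|∫ y in Ico α β, g y| * (β - α) ^ (-η)) := by
    calc _ ≤ ENNReal.ofReal |avQ α β g| * (C₁ * ENNReal.ofReal ((β - α) ^ (1 - η))) := by
          gcongr
          exact hC α β hαβ.le hα hβ
      _ = C₁ * (ENNReal.ofReal |avQ α β g| * ENNReal.ofReal ((β - α) ^ (1 - η))) := by ring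
      _ = C₁ * ENNReal.ofReal (|∫ y in Ico α β, g y| * (β - α) ^ (-η)) := by
          rw [← ENNReal.ofReal_mul (abs_nonneg _)]
          congr 2
          unfold avQ
          rw [abs_div, abs_of_pos hL, show (1 - η : ℝ) = 1 + (-η) by ring, Real.rpow_add hL, Real.rpow_one]
          field_simp
  rcases (varQ_nonneg hαβ g).eq_or_lt with hv | hv
  · refine ⟨MIso.refl mu, Eventually.of_forall fun x _ => rfl, ?_⟩
    have h1 := eq_of_varQ_zero hα1 hαβ hβ1 hg hgb hg0 hv.symm
    have h2 : NN (fun x => g ((MIso.refl mu).f x)) = NN (fun y => avQ α β g * ind α β y) := NN_congr h1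
    rw [h2, NN_const_mul]
    have e1 : ‖avQ α β g‖ₑ = ENNReal.ofReal |avQ α β g| := by
      rw [← ofReal_norm, Real.norm_eq_abs]
    rw [e1]
    refine hmean.trans ?_
    calc _ ≤ (2 * CR + C₁) * ENNReal.ofReal (|∫ y in Ico α β, g y| * (β - α) ^ (-η)) := by
          gcongr; exact le_add_self
      _ ≤ _ := by
          rw [add_assoc]
          refine le_trans le_self_add le_add_self
  · set γ := varQ α β g with hγ
    set B : ℝ≥0∞ := ENNReal.ofReal (2 * T) * (CR * ENNReal.ofReal (β - α))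
        + ENNReal.ofReal (|avQ α β g| + 1) * NN (ind α β) + ENNReal.ofReal ε with hBdef
    have hB : B ≠ ∞ := by
      have := CR_lt_top.ne
      have := hindtop.ne
      rw [hBdef]
      simp only [ne_eq, ENNReal.add_eq_top, ENNReal.mul_eq_top, ENNReal.ofReal_ne_top]
      tauto
    obtain ⟨d, hd0, hd⟩ := cont hα1 hαβ hβ1 hT hv hB (show 0 < ε / 3 by positivity)
    set κ := ε / 3 / ((NN (ind α β)).toReal + 1) with hκ
    have hκ0 : 0 < κ := by
      have : 0 ≤ (NN (ind α β)).toReal := ENNReal.toReal_nonneg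
      positivity
    set δ := min d (min 1 κ) with hδ
    have hδ0 : 0 < δ := lt_min hd0 (lt_min one_pos hκ0)
    have hδd : δ ≤ d := min_le_left _ _
    have hδ1 : δ ≤ 1 := (min_le_right _ _).trans (min_le_left _ _)
    have hδκ : δ ≤ κ := (min_le_right _ _).trans (min_le_right _ _)
    obtain ⟨σ, h, b1, b2, b3, b4, b5, b6⟩ := base_free hα hαβ hβ hT hg hgb hδ0 (show 0 < ε / 3 by positivity)
    have b4' : ∀ᵐ x ∂mu, x ∉ Ico α β → σ.f x = x := Eventually.of_forall b4
    obtain ⟨ω, w1, w2, w3⟩ := hd (fun x => g (σ.f x)) h (hg.comp σ.mf.measurable) (fun y => hgb _)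
      (comp_zero_off hg0 σ b4) (by rw [varQ_comp_MIso hα1 hβ1 σ b4' hg]) b1 b2 b3
      (by
        filter_upwards [b5] with x hx hxQ
        exact (hx hxQ).trans hδd)
      (b6.trans (by
        rw [hBdef]
        gcongr
        linarith))
    refine ⟨ω.trans σ, ω.trans_id_off _ w1 b4', ?_⟩
    have hδind : ENNReal.ofReal δ * NN (ind α β) ≤ ENNReal.ofReal (ε / 3) := by
      calc _ ≤ ENNReal.ofReal κ * ENNReal.ofReal ((NN (ind α β)).toReal + 1) := by
            gcongr
            exact le_ofReal_of_toReal_le hindtop.ne (by linarith)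
        _ = ENNReal.ofReal (ε / 3) := by
            have : 0 ≤ (NN (ind α β)).toReal := ENNReal.toReal_nonneg
            rw [← ENNReal.ofReal_mul hκ0.le, hκ]
            congr 1
            field_simp
    have hε3 : ENNReal.ofReal ε = ENNReal.ofReal (ε / 3) + ENNReal.ofReal (ε / 3) + ENNReal.ofReal (ε / 3) := by
      rw [← ENNReal.ofReal_add (by positivity) (by positivity),
        ← ENNReal.ofReal_add (by positivity) (by positivity)]
      congr 1; ring
    have h2T : ENNReal.ofReal (2 * T) * (CR * ENNReal.ofReal (β - α)) = 2 * CR * ENNReal.ofReal (T * (β - α)) := by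
      rw [ENNReal.ofReal_mul (by norm_num), ENNReal.ofReal_mul hT.le]
      have : ENNReal.ofReal 2 = 2 := by simp
      rw [this]; ring
    calc NN (fun x => g ((ω.trans σ).f x)) ≤ NN h + ENNReal.ofReal (ε / 3) := w3
      _ ≤ (ENNReal.ofReal (2 * T) * (CR * ENNReal.ofReal (β - α))
        + (ENNReal.ofReal |avQ α β g| + ENNReal.ofReal δ) * NN (ind α β) + ENNReal.ofReal (ε / 3))
          + ENNReal.ofReal (ε / 3) := by
          gcongr
          rw [← ENNReal.ofReal_add (abs_nonneg _) hδ0.le]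
          exact b6
      _ = 2 * CR * ENNReal.ofReal (T * (β - α)) + ENNReal.ofReal |avQ α β g| * NN (ind α β)
          + (ENNReal.ofReal δ * NN (ind α β) + ENNReal.ofReal (ε / 3) + ENNReal.ofReal (ε / 3)) := by
          rw [h2T]; ring
      _ ≤ (2 * CR + C₁) * ENNReal.ofReal (T * (β - α))
          + (2 * CR + C₁) * ENNReal.ofReal (|∫ y in Ico α β, g y| * (β - α) ^ (-η)) + ENNReal.ofReal ε := by
          rw [hε3]
          refine add_le_add (add_le_add ?_ ?_) ?_
          · gcongr; exact le_self_add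
          · refine hmean.trans ?_
            gcongr; exact le_add_self
          · gcongr

end Pool.Agent.MP_f3eb7e
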