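import Pool.Agent.Lib.MP_f3eb7e_an.Rand6

set_option autoImplicit false

open MeasureTheory Set Filter Topology
open scoped ENNReal

namespace Pool.Agent.MP_f3eb7e

/-! ### BVle calculus -/

lemma BVle.add {f g : ℝ → ℝ} {V W : ℝ} (hf : BVle f V) (hg : BVle g W)
    (i1 : Integrable f mu) (i2 : Integrable g mu) : BVle (fun x => f x + g x) (V + W) := by
  intro k K hk hK M hM
  have e : ∀ y, (f y + g y) * k y = f y * k y + g y * k y := by intro y; ring
  simp_rw [e]
  rw [integral_add (integrable_mul_continuous i1 hk) (integrable_mul_continuous i2 hk)]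
  calc _ ≤ |∫ y, f y * k y ∂mu| + |∫ y, g y * k y ∂mu| := abs_add_le _ _
    _ ≤ V * M + W * M := add_le_add (hf k K hk hK M hM) (hg k K hk hK M hM)
    _ = (V + W) * M := by ring

lemma BVle.const_mul {f : ℝ → ℝ} {V : ℝ} (hf : BVle f V) (c : ℝ) :
    BVle (fun x => c * f x) (|c| * V) := by
  intro k K hk hK M hM
  have e : ∀ y, (c * f y) * k y = c * (f y * k y) := by intro y; ring
  simp_rw [e]
  rw [integral_const_mul, abs_mul, mul_assoc]
  exact mul_le_mul_of_nonneg_left (hf k K hk hK M hM) (abs_nonneg _)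

lemma BVle.mono {f : ℝ → ℝ} {V W : ℝ} (hf : BVle f V) (h : V ≤ W) : BVle f W := by
  intro k K hk hK M hM
  refine (hf k K hk hK M hM).trans ?_
  have hM0 : 0 ≤ M := (abs_nonneg _).trans (hM 0 (by constructor <;> norm_num))
  gcongr

/-- indicator of an interval, as a real function -/
noncomputable def ind (a b : ℝ) : ℝ → ℝ := (Ico a b).indicator (fun _ => 1)

lemma measurable_ind (a b : ℝ) : Measurable (ind a b) :=
  measurable_const.indicator measurableSet_Ico

lemma ind_nonneg (a b y : ℝ) : 0 ≤ ind a b y := by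
  unfold ind indicator; split_ifs <;> norm_num

lemma abs_ind_le (a b y : ℝ) : |ind a b y| ≤ 1 := by
  unfold ind indicator; split_ifs <;> simp

lemma integrable_ind (a b : ℝ) : Integrable (ind a b) mu :=
  integrable_mu_of_bdd (measurable_ind a b) (abs_ind_le a b)

lemma integral_ind_mul (a b : ℝ) (k : ℝ → ℝ) :
    ∫ y, ind a b y * k y ∂mu = ∫ y in Ico (max a (-1)) (min b 1), k y := by
  have e : ∀ y, ind a b y * k y = (Ico a b).indicator k y := by
    intro y; unfold ind indicator; split_ifs <;> simp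
  simp_rw [e]
  unfold mu
  rw [setIntegral_indicator measurableSet_Ico]
  apply setIntegral_congr_set
  have h1 : ∀ᵐ x : ℝ, x ≠ 1 := by
    have : volume ({1} : Set ℝ) = 0 := by simp
    exact compl_mem_ae_iff.2 this
  filter_upwards [h1] with x hx
  apply propext
  show x ∈ Icc (-1 : ℝ) 1 ∩ Ico a b ↔ x ∈ Ico (max a (-1)) (min b 1)
  simp only [mem_inter_iff, mem_Icc, mem_Ico, max_le_iff, lt_min_iff]
  constructor
  · rintro ⟨⟨h1, h2⟩, h3, h4⟩
    exact ⟨⟨h3, h1⟩, h4, lt_of_le_of_ne h2 hx⟩
  · rintro ⟨⟨h3, h1⟩, h4, h2⟩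
    exact ⟨⟨h1, h2.le⟩, h3, h4⟩

lemma BVle_ind (a b : ℝ) : BVle (ind a b) 2 := by
  intro k K hk hK M hM
  have hM0 : 0 ≤ M := (abs_nonneg _).trans (hM 0 (by constructor <;> norm_num))
  rw [integral_ind_mul]
  rcases le_total (max a (-1)) (min b 1) with h | h
  · rw [integral_Ico_eq_integral_Ioc, ← intervalIntegral.integral_of_le h,
      intervalIntegral.integral_eq_sub_of_hasDerivAt (fun y _ => hK y) (hk.intervalIntegrable _ _)]
    have h1 : max a (-1) ∈ Icc (-1 : ℝ) 1 := ⟨le_max_right _ _, h.trans (min_le_right _ _)⟩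
    have h2 : min b 1 ∈ Icc (-1 : ℝ) 1 := ⟨(le_max_right _ _).trans h, min_le_right _ _⟩
    exact (abs_sub _ _).trans (by linarith [hM _ h1, hM _ h2])
  · rw [Ico_eq_empty (not_lt.2 h)]
    simp; positivity

/-! ### step functions -/

/-- the space of step functions -/
def IsStep (h : ℝ → ℝ) : Prop :=
  h ∈ Submodule.span ℝ {g : ℝ → ℝ | ∃ a b : ℝ, g = ind a b}

lemma IsStep_ind (a b : ℝ) : IsStep (ind a b) := Submodule.subset_span ⟨a, b, rfl⟩

lemma IsStep.add {f g : ℝ → ℝ} (hf : IsStep f) (hg : IsStep g) : IsStep (fun x => f x + g x) :=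
  Submodule.add_mem _ hf hg

lemma IsStep.sub {f g : ℝ → ℝ} (hf : IsStep f) (hg : IsStep g) : IsStep (fun x => f x - g x) :=
  Submodule.sub_mem _ hf hg

lemma IsStep.const_mul {f : ℝ → ℝ} (hf : IsStep f) (c : ℝ) : IsStep (fun x => c * f x) :=
  Submodule.smul_mem _ c hf

lemma IsStep.sum {ι : Type*} (s : Finset ι) {f : ι → ℝ → ℝ} (hf : ∀ i ∈ s, IsStep (f i)) :
    IsStep (fun x => ∑ i ∈ s, f i x) := by
  have : (fun x => ∑ i ∈ s, f i x) = ∑ i ∈ s, f i := by funext x; simp
  rw [this]
  exact Submodule.sum_mem _ hf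

lemma ind_inter (a b c d : ℝ) (y : ℝ) : ind a b y * ind c d y = ind (max a c) (min b d) y := by
  unfold ind indicator
  by_cases h1 : y ∈ Ico a b <;> by_cases h2 : y ∈ Ico c d
  · have : y ∈ Ico (max a c) (min b d) := ⟨max_le h1.1 h2.1, lt_min h1.2 h2.2⟩
    simp [h1, h2, this]
  · have : y ∉ Ico (max a c) (min b d) := fun h =>
      h2 ⟨(le_max_right _ _).trans h.1, h.2.trans_le (min_le_right _ _)⟩
    simp [h1, h2, this]
  · have : y ∉ Ico (max a c) (min b d) := fun h =>
      h1 ⟨(le_max_left _ _).trans h.1, h.2.trans_le (min_le_left _ _)⟩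
    simp [h1, h2, this]
  · have : y ∉ Ico (max a c) (min b d) := fun h =>
      h1 ⟨(le_max_left _ _).trans h.1, h.2.trans_le (min_le_left _ _)⟩
    simp [h1, h2, this]

/-- structural properties of step functions -/
structure StepProp (h : ℝ → ℝ) : Prop where
  meas : Measurable h
  bdd : ∃ C, ∀ y, |h y| ≤ C
  fin : ∃ E : Finset ℝ, ∀ x y, x ≤ y → (∀ e ∈ E, ¬ (x < e ∧ e ≤ y)) → h x = h y
  bv : ∃ V, 0 ≤ V ∧ ∀ a b, BVle (fun y => ind a b y * h y) V
  nn : NN h < ∞

lemma IsStep.prop {h : ℝ → ℝ} (hh : IsStep h) : StepProp h := by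
  classical
  unfold IsStep at hh
  induction hh using Submodule.span_induction with
  | mem g hg =>
    obtain ⟨a, b, rfl⟩ := hg
    refine ⟨measurable_ind a b, ⟨1, abs_ind_le a b⟩, ⟨{a, b}, ?_⟩, ⟨2, by norm_num, ?_⟩, ?_⟩
    · intro x y hxy hE
      have ha := hE a (by simp)
      have hb := hE b (by simp)
      have : x ∈ Ico a b ↔ y ∈ Ico a b := by
        constructor
        · rintro ⟨h1, h2⟩
          refine ⟨h1.trans hxy, ?_⟩
          by_contra h3
          exact hb ⟨h2, not_lt.1 h3⟩
        · rintro ⟨h1, h2⟩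
          refine ⟨?_, hxy.trans_lt h2⟩
          by_contra h3
          exact ha ⟨not_le.1 h3, h1⟩
      unfold ind indicator
      simp only [this]
    · intro c d
      have : (fun y => ind c d y * ind a b y) = ind (max c a) (min d b) := by
        funext y; exact ind_inter c d a b y
      rw [this]
      exact BVle_ind _ _
    · refine (NN_le_of_BVle (integrable_ind a b) (BVle_ind a b) (by norm_num)).trans_lt ?_
      exact ENNReal.mul_lt_top ENNReal.ofReal_lt_top G1_lt_top
  | zero =>
    refine ⟨measurable_const, ⟨0, by simp⟩, ⟨∅, by simp⟩, ⟨0, le_refl _, ?_⟩, ?_⟩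
    · intro a b k K hk hK M hM
      simp
    · have : (0 : ℝ → ℝ) = fun _ => 0 := rfl
      rw [this, NN_zero]; simp
  | add f g _ _ hf hg =>
    obtain ⟨C1, hC1⟩ := hf.bdd
    obtain ⟨C2, hC2⟩ := hg.bdd
    obtain ⟨E1, hE1⟩ := hf.fin
    obtain ⟨E2, hE2⟩ := hg.fin
    obtain ⟨V1, hV10, hV1⟩ := hf.bv
    obtain ⟨V2, hV20, hV2⟩ := hg.bv
    refine ⟨hf.meas.add hg.meas, ⟨C1 + C2, fun y => ?_⟩, ⟨E1 ∪ E2, ?_⟩, ⟨V1 + V2, by positivity, ?_⟩, ?_⟩
    · exact (abs_add_le _ _).trans (add_le_add (hC1 y) (hC2 y))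
    · intro x y hxy hE
      show f x + g x = f y + g y
      rw [hE1 x y hxy fun e he => hE e (Finset.mem_union_left _ he),
        hE2 x y hxy fun e he => hE e (Finset.mem_union_right _ he)]
    · intro a b
      have i1 : Integrable (fun y => ind a b y * f y) mu := by
        refine integrable_mu_of_bdd ((measurable_ind a b).mul hf.meas) (C := C1) fun y => ?_
        rw [abs_mul]
        calc |ind a b y| * |f y| ≤ 1 * C1 := mul_le_mul (abs_ind_le a b y) (hC1 y) (abs_nonneg _) (by norm_num)
          _ = C1 := one_mul _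
      have i2 : Integrable (fun y => ind a b y * g y) mu := by
        refine integrable_mu_of_bdd ((measurable_ind a b).mul hg.meas) (C := C2) fun y => ?_
        rw [abs_mul]
        calc |ind a b y| * |g y| ≤ 1 * C2 := mul_le_mul (abs_ind_le a b y) (hC2 y) (abs_nonneg _) (by norm_num)
          _ = C2 := one_mul _
      have := (hV1 a b).add (hV2 a b) i1 i2
      refine (show BVle (fun y => ind a b y * (f + g) y) (V1 + V2) from ?_)
      have e : (fun y => ind a b y * (f + g) y) = fun y => ind a b y * f y + ind a b y * g y := by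
        funext y; simp only [Pi.add_apply]; ring
      rw [e]; exact this
    · refine (NN_add_le (integrable_mu_of_bdd hf.meas hC1) (integrable_mu_of_bdd hg.meas hC2)).trans_lt ?_
      exact ENNReal.add_lt_top.2 ⟨hf.nn, hg.nn⟩
  | smul c f _ hf =>
    obtain ⟨C1, hC1⟩ := hf.bdd
    obtain ⟨E1, hE1⟩ := hf.fin
    obtain ⟨V1, hV10, hV1⟩ := hf.bv
    refine ⟨hf.meas.const_smul c, ⟨|c| * C1, fun y => ?_⟩, ⟨E1, ?_⟩, ⟨|c| * V1, by positivity, ?_⟩, ?_⟩
    · show |c * f y| ≤ _
      rw [abs_mul]
      exact mul_le_mul_of_nonneg_left (hC1 y) (abs_nonneg _)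
    · intro x y hxy hE
      show c * f x = c * f y
      rw [hE1 x y hxy hE]
    · intro a b
      have e : (fun y => ind a b y * (c • f) y) = fun y => c * (ind a b y * f y) := by
        funext y; simp only [Pi.smul_apply, smul_eq_mul]; ring
      rw [e]
      exact (hV1 a b).const_mul c
    · have : (c • f) = fun x => c * f x := rfl
      rw [this, NN_const_mul]
      exact ENNReal.mul_lt_top enorm_lt_top hf.nn

lemma IsStep.integrable {h : ℝ → ℝ} (hh : IsStep h) : Integrable h mu := by
  obtain ⟨C, hC⟩ := hh.prop.bdd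
  exact integrable_mu_of_bdd hh.prop.meas hC

/-! ### cell patterns are step functions -/

lemma IsStep_cf_hv {a ℓ : ℝ} (hℓ : 0 < ℓ) (P u : ℝ) : IsStep (cf a ℓ (hv P) u) := by
  set v := Int.fract u with hvdef
  have hv0 : 0 ≤ v := Int.fract_nonneg u
  have hv1 : v < 1 := Int.fract_lt_one u
  set b := a + ℓ * (1 - v) with hb
  have hab : a ≤ b := by rw [hb]; nlinarith
  have hbe : b ≤ a + ℓ := by rw [hb]; nlinarith
  have hfr : ∀ y, Int.fract ((y - a) / ℓ + u) = Int.fract ((y - a) / ℓ + v) := by
    intro y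
    rw [hvdef, Int.fract, Int.fract, Int.fract]
    have : (y - a) / ℓ + (u - (⌊u⌋ : ℝ)) = ((y - a) / ℓ + u) - (⌊u⌋ : ℝ) := by ring
    rw [this, Int.floor_sub_intCast]
    push_cast
    ring
  have e : cf a ℓ (hv P) u = fun y => ind (max a (a + ℓ * (P - v))) b y
      + ind (max b (a + ℓ * (P + 1 - v))) (a + ℓ) y := by
    funext y
    unfold cf
    by_cases hy : y ∈ Ico a (a + ℓ)
    · rw [indicator_of_mem hy, hfr]
      by_cases hyb : y < b
      · have hq0 : 0 ≤ (y - a) / ℓ := div_nonneg (by linarith [hy.1]) hℓ.le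
        have hq1 : (y - a) / ℓ < 1 - v := by
          rw [div_lt_iff₀ hℓ]; rw [hb] at hyb; linarith
        rw [Int.fract_eq_self.2 ⟨by linarith, by linarith⟩]
        have h2 : ind (max b (a + ℓ * (P + 1 - v))) (a + ℓ) y = 0 := by
          unfold ind
          apply indicator_of_notMem
          intro h
          have := (le_max_left _ _).trans h.1
          linarith
        rw [h2, add_zero]
        unfold hv ind indicator
        have : P ≤ (y - a) / ℓ + v ↔ y ∈ Ico (max a (a + ℓ * (P - v))) b := by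
          rw [mem_Ico, max_le_iff]
          have : P ≤ (y - a) / ℓ + v ↔ a + ℓ * (P - v) ≤ y := by
            rw [← sub_le_iff_le_add, le_div_iff₀ hℓ]
            constructor <;> intro h <;> linarith
          rw [this]
          constructor
          · intro h; exact ⟨⟨hy.1, h⟩, hyb⟩
          · intro h; exact h.1.2
        simp only [this]
      · have hyb' : b ≤ y := not_lt.1 hyb
        have hq0 : 1 - v ≤ (y - a) / ℓ := by
          rw [le_div_iff₀ hℓ]; rw [hb] at hyb'; linarith
        have hq1 : (y - a) / ℓ < 1 := by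
          rw [div_lt_one hℓ]; linarith [hy.2]
        rw [← Int.fract_sub_one, Int.fract_eq_self.2 ⟨by linarith, by linarith⟩]
        have h1 : ind (max a (a + ℓ * (P - v))) b y = 0 := by
          unfold ind
          apply indicator_of_notMem
          intro h
          exact absurd h.2 hyb
        rw [h1, zero_add]
        unfold hv ind indicator
        have : P ≤ (y - a) / ℓ + v - 1 ↔ y ∈ Ico (max b (a + ℓ * (P + 1 - v))) (a + ℓ) := by
          rw [mem_Ico, max_le_iff]
          have : P ≤ (y - a) / ℓ + v - 1 ↔ a + ℓ * (P + 1 - v) ≤ y := by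
            have e1 : (P ≤ (y - a) / ℓ + v - 1) ↔ P + 1 - v ≤ (y - a) / ℓ := by
              constructor <;> intro h <;> linarith
            rw [e1, le_div_iff₀ hℓ]
            constructor <;> intro h <;> linarith
          rw [this]
          constructor
          · intro h; exact ⟨⟨hyb', h⟩, hy.2⟩
          · intro h; exact h.1.2
        simp only [this]
    · rw [indicator_of_notMem hy]
      have h1 : ind (max a (a + ℓ * (P - v))) b y = 0 := by
        unfold ind
        apply indicator_of_notMem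
        intro h
        exact hy ⟨(le_max_left _ _).trans h.1, h.2.trans_le hbe⟩
      have h2 : ind (max b (a + ℓ * (P + 1 - v))) (a + ℓ) y = 0 := by
        unfold ind
        apply indicator_of_notMem
        intro h
        exact hy ⟨hab.trans ((le_max_left _ _).trans h.1), h.2⟩
      rw [h1, h2, add_zero]
  rw [e]
  exact (IsStep_ind _ _).add (IsStep_ind _ _)

lemma IsStep_cf_const {a ℓ : ℝ} (c u : ℝ) : IsStep (cf a ℓ (fun _ => c) u) := by
  have e : cf a ℓ (fun _ => c) u = fun y => c * ind a (a + ℓ) y := by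
    funext y; unfold cf ind indicator; split_ifs <;> simp
  rw [e]
  exact (IsStep_ind _ _).const_mul c

end Pool.Agent.MP_f3eb7e
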