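import Pool.Agent.Lib.MP_f3eb7e_an.DensLem

set_option autoImplicit false

open MeasureTheory Set Filter Topology
open scoped ENNReal

namespace Pool.Agent.MP_f3eb7e

/-! ### normalised patterns -/

section Xi

variable (α β : ℝ) (N : ℝ → ℕ) (r : ℕ) (T δ : ℝ) (g : ℝ → ℝ)

/-- mean of the pattern -/
noncomputable def mm : ℝ := ∫ y in Ico α β, (-T + δ * (N y : ℝ)) * g y

/-- the quantile pattern -/
noncomputable def qq (t : ℝ) : ℝ := -T + δ * (ngp (Pv α β N g) r t : ℝ)

/-- the normalised centered pattern -/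
noncomputable def xi (t : ℝ) : ℝ := (qq α β N r T δ g t - mm α β N T δ g) / (2 * T)

variable {α β N r T δ g}

lemma measurable_qq : Measurable (qq α β N r T δ g) := by
  unfold qq
  exact measurable_const.add (((measurable_of_countable _).comp (measurable_ngp _ _)).const_mul δ)

lemma measurable_xi : Measurable (xi α β N r T δ g) := by
  unfold xi
  exact (measurable_qq.sub_const _).div_const _

lemma qq_bdd (hT : 0 < T) (hδ0 : 0 ≤ δ) (hδr : δ * r ≤ 2 * T) (t : ℝ) : |qq α β N r T δ g t| ≤ T := by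
  unfold qq
  have h1 : (ngp (Pv α β N g) r t : ℝ) ≤ r := by exact_mod_cast ngp_le _ _ _
  have h2 : (0 : ℝ) ≤ (ngp (Pv α β N g) r t : ℝ) := by positivity
  have h3 : δ * (ngp (Pv α β N g) r t : ℝ) ≤ δ * r := by gcongr
  have h4 : 0 ≤ δ * (ngp (Pv α β N g) r t : ℝ) := by positivity
  rw [abs_le]; constructor <;> linarith

lemma FN_bdd (hT : 0 < T) (hδ0 : 0 ≤ δ) (hδr : δ * r ≤ 2 * T) (hr : ∀ y, N y ≤ r) (y : ℝ) :
    |-T + δ * (N y : ℝ)| ≤ T := by
  have h1 : (N y : ℝ) ≤ r := by exact_mod_cast hr y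
  have h2 : (0 : ℝ) ≤ (N y : ℝ) := by positivity
  have h3 : δ * (N y : ℝ) ≤ δ * r := by gcongr
  have h4 : 0 ≤ δ * (N y : ℝ) := by positivity
  rw [abs_le]; constructor <;> linarith

variable (hN : Measurable N) (hg : Dens α β g) (hr : ∀ y, N y ≤ r)

include hN hg hr in
lemma integral_qq : ∫ s in (0 : ℝ)..1, qq α β N r T δ g s = mm α β N T δ g := by
  exact law_eq hN hg hr (fun n => -T + δ * (n : ℝ))

include hN hg hr in
lemma mm_bdd (hT : 0 < T) (hδ0 : 0 ≤ δ) (hδr : δ * r ≤ 2 * T) : |mm α β N T δ g| ≤ T := by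
  rw [← integral_qq hN hg hr]
  have := intervalIntegral.norm_integral_le_of_norm_le_const (a := 0) (b := 1) (C := T)
    (f := qq α β N r T δ g) (fun x _ => by rw [Real.norm_eq_abs]; exact qq_bdd hT hδ0 hδr x)
  simpa using this

include hN hg hr in
lemma xi_bdd (hT : 0 < T) (hδ0 : 0 ≤ δ) (hδr : δ * r ≤ 2 * T) (t : ℝ) : |xi α β N r T δ g t| ≤ 1 := by
  unfold xi
  rw [abs_div, abs_of_pos (by linarith : 0 < 2 * T), div_le_one (by linarith)]
  have h1 := qq_bdd (α := α) (β := β) (N := N) (g := g) hT hδ0 hδr t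
  have h2 := mm_bdd hN hg hr hT hδ0 hδr
  exact (abs_sub _ _).trans (by linarith)

lemma ii_bdd {f : ℝ → ℝ} (hf : Measurable f) {C : ℝ} (hC : ∀ t, |f t| ≤ C) (c d : ℝ) :
    IntervalIntegrable f volume c d := by
  have := ii_bdd_mul hf hC (continuous_const (y := (1 : ℝ))) c d
  simpa using this

include hN hg hr in
lemma xi_mean (hT : 0 < T) (hδ0 : 0 ≤ δ) (hδr : δ * r ≤ 2 * T) : ∫ s in (0 : ℝ)..1, xi α β N r T δ g s = 0 := by
  unfold xi
  rw [intervalIntegral.integral_div, intervalIntegral.integral_sub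
    (ii_bdd measurable_qq (fun t => qq_bdd hT hδ0 hδr t) 0 1) (by simp), integral_qq hN hg hr]
  simp

include hN hg hr in
lemma xi_reg (hT : 0 < T) (hδ0 : 0 ≤ δ) (hδr : δ * r ≤ 2 * T) : RegP (xi α β N r T δ g) 6 := by
  have e : xi α β N r T δ g = fun t => (-T - mm α β N T δ g) / (2 * T)
      + (δ / (2 * T)) * (ngp (Pv α β N g) r t : ℝ) := by
    funext t; unfold xi qq; ring
  rw [e]
  refine (RegP_affine _ _ (by positivity) _ _).mono ?_
  have h1 : |(-T - mm α β N T δ g) / (2 * T)| ≤ 1 := by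
    rw [abs_div, abs_of_pos (by linarith : 0 < 2 * T), div_le_one (by linarith)]
    refine (abs_sub _ _).trans ?_
    rw [abs_neg, abs_of_pos hT]
    linarith [mm_bdd hN hg hr hT hδ0 hδr]
  have h2 : δ / (2 * T) * r ≤ 1 := by
    rw [div_mul_eq_mul_div, div_le_one (by linarith)]; exact hδr
  linarith

include hN hg hr in
/-- regularity of the unnormalised centered pattern -/
lemma qm_reg (hT : 0 < T) (hδ0 : 0 ≤ δ) (hδr : δ * r ≤ 2 * T) :
    RegP (fun t => qq α β N r T δ g t - mm α β N T δ g) (8 * T) := by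
  have e : (fun t => qq α β N r T δ g t - mm α β N T δ g) = fun t => (-T - mm α β N T δ g)
      + δ * (ngp (Pv α β N g) r t : ℝ) := by
    funext t; unfold qq; ring
  rw [e]
  refine (RegP_affine _ _ hδ0 _ _).mono ?_
  have h1 : |(-T - mm α β N T δ g)| ≤ 2 * T := by
    refine (abs_sub _ _).trans ?_
    rw [abs_neg, abs_of_pos hT]
    linarith [mm_bdd hN hg hr hT hδ0 hδr]
  linarith

include hN hg hr in
lemma qm_bdd (hT : 0 < T) (hδ0 : 0 ≤ δ) (hδr : δ * r ≤ 2 * T) (t : ℝ) :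
    |qq α β N r T δ g t - mm α β N T δ g| ≤ 2 * T := by
  have h1 := qq_bdd (α := α) (β := β) (N := N) (g := g) hT hδ0 hδr t
  have h2 := mm_bdd hN hg hr hT hδ0 hδr
  exact (abs_sub _ _).trans (by linarith)

include hN hg hr in
lemma xi_var (hT : 0 < T) (hδ0 : 0 ≤ δ) (hδr : δ * r ≤ 2 * T) {c W : ℝ}
    (hW : ∫ y in Ico α β, ((-T + δ * (N y : ℝ)) - c) ^ 2 * g y ≤ W) :
    ∫ s in (0 : ℝ)..1, xi α β N r T δ g s ^ 2 ≤ W / (4 * T ^ 2) := by
  have h1 : ∫ s in (0 : ℝ)..1, (qq α β N r T δ g s - c) ^ 2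
      = ∫ y in Ico α β, ((-T + δ * (N y : ℝ)) - c) ^ 2 * g y :=
    law_eq hN hg hr (fun n => ((-T + δ * (n : ℝ)) - c) ^ 2)
  set m := mm α β N T δ g with hm
  have i1 : IntervalIntegrable (qq α β N r T δ g) volume 0 1 :=
    ii_bdd measurable_qq (fun t => qq_bdd hT hδ0 hδr t) 0 1
  have i2 : IntervalIntegrable (fun s => (qq α β N r T δ g s - m) ^ 2) volume 0 1 := by
    refine ii_bdd (f := fun s => (qq α β N r T δ g s - m) ^ 2) ((measurable_qq.sub_const _).pow_const 2) (C := (2 * T) ^ 2) (fun t => ?_) 0 1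
    show |(qq α β N r T δ g t - m) ^ 2| ≤ (2 * T) ^ 2
    rw [abs_pow]
    gcongr
    exact qm_bdd hN hg hr hT hδ0 hδr t
  have h2 : ∫ s in (0 : ℝ)..1, (qq α β N r T δ g s - c) ^ 2
      = (∫ s in (0 : ℝ)..1, (qq α β N r T δ g s - m) ^ 2) + (m - c) ^ 2 := by
    have e : ∀ s, (qq α β N r T δ g s - c) ^ 2 = (qq α β N r T δ g s - m) ^ 2
        + (2 * (m - c) * (qq α β N r T δ g s) + ((m - c) ^ 2 - 2 * (m - c) * m)) := by intro s; ring
    simp_rw [e]
    have i3 : IntervalIntegrable (fun s => 2 * (m - c) * (qq α β N r T δ g s)) volume 0 1 := i1.const_mul _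
    have i4 : IntervalIntegrable (fun s => 2 * (m - c) * (qq α β N r T δ g s)
      + ((m - c) ^ 2 - 2 * (m - c) * m)) volume 0 1 := i3.add (by simp)
    rw [intervalIntegral.integral_add i2 i4, intervalIntegral.integral_add i3 (by simp),
      intervalIntegral.integral_const_mul, integral_qq hN hg hr, ← hm]
    simp
  have h3 : ∫ s in (0 : ℝ)..1, xi α β N r T δ g s ^ 2
      = (∫ s in (0 : ℝ)..1, (qq α β N r T δ g s - m) ^ 2) / (4 * T ^ 2) := by
    rw [← intervalIntegral.integral_div]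
    congr 1; funext s
    unfold xi
    rw [← hm, div_pow]; ring
  rw [h3]
  gcongr
  have := sq_nonneg (m - c)
  linarith

include hN hg hr in
lemma xi_var_one (hT : 0 < T) (hδ0 : 0 ≤ δ) (hδr : δ * r ≤ 2 * T) :
    ∫ s in (0 : ℝ)..1, xi α β N r T δ g s ^ 2 ≤ 1 := by
  have h1 : ∀ s, |xi α β N r T δ g s ^ 2| ≤ 1 := by
    intro s
    rw [abs_pow]
    exact pow_le_one₀ (abs_nonneg _) (xi_bdd hN hg hr hT hδ0 hδr s)
  have := intervalIntegral.norm_integral_le_of_norm_le_const (a := 0) (b := 1) (C := 1)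
    (f := fun s => xi α β N r T δ g s ^ 2) (fun x _ => by rw [Real.norm_eq_abs]; exact h1 x)
  have h2 := (le_abs_self _).trans (by simpa using this)
  exact h2

end Xi

section Sys

variable {α β T δ : ℝ} {J : ℕ} {N : ℝ → ℕ} {r : ℕ} {g : Fin J → ℝ → ℝ}

/-- the cell system attached to a family of densities, with the patterns on `B` removed -/
theorem exists_sys (hα : -1 ≤ α) (hαβ : α < β) (hβ : β ≤ 1) (hJ : 0 < J) (hN : Measurable N)
    (hr : ∀ y, N y ≤ r) (hg : ∀ i, Dens α β (g i)) (hT : 0 < T) (hδ0 : 0 ≤ δ) (hδr : δ * r ≤ 2 * T)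
    (B : Finset (Fin J)) {ρ : ℝ} (hρ : 0 ≤ ρ)
    (hvar : ∀ i, i ∉ B → ∫ s in (0 : ℝ)..1, xi α β N r T δ (g i) s ^ 2 ≤ ρ) :
    ∃ S : CellSys (Fin J), S.ρ = ρ ∧ S.ℓ = cl α β J ∧ (∀ i, S.a i = ca α β J i) ∧
      ∀ (u : Fin J → ℝ) (y : ℝ), Gr α β J N r g T δ u y
        = 2 * T * S.psi u y
          + ∑ i ∈ B, cf (ca α β J i) (cl α β J)
            (fun t => qq α β N r T δ (g i) t - mm α β N T δ (g i)) (u i) y
          + ∑ i, ind (ca α β J i) (ca α β J i + cl α β J) y * mm α β N T δ (g i) := by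
  classical
  refine ⟨{ ℓ := cl α β J
            a := ca α β J
            ξ := fun i => if i ∈ B then fun _ => 0 else xi α β N r T δ (g i)
            ρ := ρ
            hℓ := cl_pos hαβ hJ
            ha := fun i => hα.trans (le_ca hαβ hJ i)
            hb := fun i => (ca_add_le hαβ hJ i).trans hβ
            disj := cell_disj hαβ hJ
            mξ := fun i => by
              split_ifs
              · exact measurable_const
              · exact measurable_xi
            bξ := fun i t => by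
              split_ifs
              · simp
              · exact xi_bdd hN (hg i) hr hT hδ0 hδr t
            mean := fun i => by
              split_ifs
              · simp
              · exact xi_mean hN (hg i) hr hT hδ0 hδr
            hρ := hρ
            var := fun i => by
              split_ifs with h
              · simpa using hρ
              · exact hvar i h
            reg := fun i => by
              split_ifs
              · exact (RegP_const 0).mono (by simp)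
              · exact xi_reg hN (hg i) hr hT hδ0 hδr }, rfl, rfl, fun i => rfl, ?_⟩
  intro u y
  unfold Gr CellSys.psi
  rw [Finset.mul_sum]
  have hB : ∑ i ∈ B, cf (ca α β J i) (cl α β J)
            (fun t => qq α β N r T δ (g i) t - mm α β N T δ (g i)) (u i) y
      = ∑ i, if i ∈ B then cf (ca α β J i) (cl α β J)
            (fun t => qq α β N r T δ (g i) t - mm α β N T δ (g i)) (u i) y else 0 := by
    rw [← Finset.sum_filter]
    congr 1
    ext i; simp
  rw [hB, ← Finset.sum_add_distrib, ← Finset.sum_add_distrib]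
  refine Finset.sum_congr rfl fun i _ => ?_
  simp only
  by_cases hy : y ∈ Ico (ca α β J i) (ca α β J i + cl α β J)
  · unfold cf ind
    simp only [indicator_of_mem hy]
    by_cases hi : i ∈ B
    · simp only [if_pos hi]
      unfold qq; ring
    · simp only [if_neg hi]
      unfold xi qq
      field_simp
      ring
  · unfold cf ind
    simp only [indicator_of_notMem hy]
    split_ifs <;> ring

/-- the total contribution of few tiny cells is small -/
theorem NN_bad_cells {T' : ℝ} (hT : 0 < T') (M : ℕ) {ε : ℝ≥0∞} (hε : ε ≠ 0) :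
    ∃ ℓ₀ : ℝ, 0 < ℓ₀ ∧ ∀ (α β T δ : ℝ) (J : ℕ) (N : ℝ → ℕ) (r : ℕ) (g : Fin J → ℝ → ℝ)
      (B : Finset (Fin J)) (u : Fin J → ℝ), T = T' → -1 ≤ α → α < β → β ≤ 1 → 0 < J → Measurable N →
      (∀ y, N y ≤ r) → (∀ i, Dens α β (g i)) → 0 ≤ δ → δ * r ≤ 2 * T → B.card ≤ M → cl α β J ≤ ℓ₀ →
      NN (fun y => ∑ i ∈ B, cf (ca α β J i) (cl α β J)
            (fun t => qq α β N r T δ (g i) t - mm α β N T δ (g i)) (u i) y) ≤ ε := by
  set ε' : ℝ≥0∞ := ε / (M + 1) with hε'
  have hε'0 : ε' ≠ 0 := by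
    rw [hε']
    exact (ENNReal.div_pos hε (by exact_mod_cast ENNReal.natCast_ne_top (M + 1))).ne'
  obtain ⟨ℓ₀, hℓ₀, H⟩ := tiny (V := 2 * (8 * T')) (B := 2 * T') (by positivity) hε'0
  refine ⟨ℓ₀, hℓ₀, ?_⟩
  intro α β T δ J N r g B u hTT hα hαβ hβ hJ hN hr hg hδ0 hδr hB hcl
  subst hTT
  have hc := cl_pos hαβ hJ
  have mqm : ∀ i, Measurable fun t => qq α β N r T δ (g i) t - mm α β N T δ (g i) := fun i =>
    measurable_qq.sub_const _
  have bqm := fun i => qm_bdd (T := T) (δ := δ) hN (hg i) hr hT hδ0 hδr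
  refine (NN_finset_sum_le B _ fun i _ => integrable_mu_of_bdd (measurable_cf (mqm i) (u i))
    (abs_cf_le (bqm i) (u i))).trans ?_
  have hone : ∀ i, NN (fun y => cf (ca α β J i) (cl α β J)
            (fun t => qq α β N r T δ (g i) t - mm α β N T δ (g i)) (u i) y) ≤ ε' := by
    intro i
    apply H (ca α β J i) (ca α β J i + cl α β J) _ (by linarith) (measurable_cf (mqm i) (u i))
      (abs_cf_le (bqm i) (u i))
    · intro y hy
      unfold cf
      exact indicator_of_notMem (fun h => hy ⟨h.1, h.2.le⟩) _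
    · exact BVle_cf hc (hα.trans (le_ca hαβ hJ i)) ((ca_add_le hαβ hJ i).trans hβ)
        (qm_reg hN (hg i) hr hT hδ0 hδr) (mqm i) (bqm i) (u i)
  calc ∑ i ∈ B, NN (fun y => cf (ca α β J i) (cl α β J)
            (fun t => qq α β N r T δ (g i) t - mm α β N T δ (g i)) (u i) y)
      ≤ ∑ _i ∈ B, ε' := Finset.sum_le_sum fun i _ => hone i
    _ = B.card * ε' := by rw [Finset.sum_const, nsmul_eq_mul]
    _ ≤ (M + 1) * ε' := by
        gcongr
        exact (by exact_mod_cast hB : (B.card : ℝ≥0∞) ≤ M).trans le_self_add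
    _ = ε := by
        rw [hε']
        apply ENNReal.mul_div_cancel
        · simp
        · exact_mod_cast ENNReal.natCast_ne_top (M + 1)

/-- realisation of a pattern by a rearrangement -/
theorem realise (hα : -1 ≤ α) (hαβ : α < β) (hβ : β ≤ 1) (hJ : 0 < J) (hN : Measurable N)
    (hr : ∀ y, N y ≤ r) (hg : ∀ i, Dens α β (g i)) (hsum : ∀ y ∈ Ico α β, ∑ i, cl α β J * g i y = 1)
    {θ : ℝ} (hθ0 : 0 ≤ θ) (hθ : θ ≤ 1)
    (hlow : ∀ i, ∀ y ∈ Ico (ca α β J i) (ca α β J i + cl α β J), (1 - θ) / cl α β J ≤ g i y)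
    (T δ : ℝ) (u : Fin J → ℝ) (v : Fin J → ℕ) {b : ℝ}
    (hb : ∑ i, ∫ y in Ico (ca α β J i) (ca α β J i + cl α β J), (if N y ≠ v i then (1 : ℝ) else 0) ≤ b) :
    ∃ σ : MIso mu mu, (∀ x, x ∉ Ico α β → σ.f x = x) ∧
      (∀ᵐ x ∂mu, x ∈ Ico α β → -T + δ * (N (σ.f x) : ℝ) = Gr α β J N r g T δ u x) ∧
      mu {x | σ.f x ≠ x} ≤ ENNReal.ofReal (θ * (β - α) + 2 * b) := by
  obtain ⟨σ, h1, h2⟩ := rearrange N (NG α β J N r g u) hN (measurable_NG hN u)
    (NG_law hα hαβ hβ hJ hN hr hg hsum u)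
  refine ⟨σ, ?_, ?_, ?_⟩
  · intro x hx
    exact h2 x (NG_off u hx).symm
  · filter_upwards [h1] with x hx hxQ
    rw [hx, Gr_eq hαβ hJ T δ u hxQ]
  · refine (measure_mono ?_).trans (NG_ne_measure hα hαβ hβ hJ hN hr hg hθ0 hθ hlow u v hb)
    intro x hx hx'
    exact hx (h2 x hx')

end Sys

end Pool.Agent.MP_f3eb7e
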