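import Pool.Agent.Lib.MP_f3eb7e_an.Region

set_option autoImplicit false

open MeasureTheory Set Filter Topology
open scoped ENNReal

namespace Pool.Agent.MP_f3eb7e

/-! ### good thresholds -/

lemma exists_threshold {p : ℝ} (hp : 1 < p) {F : ℝ → ℝ}
    (hM : ∫⁻ t in Ioi (0 : ℝ), ENNReal.ofReal (t ^ (p - 2) * |F t|) < ∞) :
    ∃ C : ℝ, 0 < C ∧ ∀ k : ℕ, ∃ t ∈ Icc ((2 : ℝ) ^ k) (2 ^ (k + 1)), |F t| * ((2 : ℝ) ^ k) ^ (p - 1) ≤ C := by
  set I := (∫⁻ t in Ioi (0 : ℝ), ENNReal.ofReal (t ^ (p - 2) * |F t|)).toReal with hI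
  have hI0 : 0 ≤ I := ENNReal.toReal_nonneg
  refine ⟨2 * (I + 1), by positivity, ?_⟩
  intro k
  by_contra hcon
  push Not at hcon
  have h2k : (0 : ℝ) < 2 ^ k := by positivity
  have hlow : ∀ t ∈ Icc ((2 : ℝ) ^ k) (2 ^ (k + 1)), (I + 1) / 2 ^ k ≤ t ^ (p - 2) * |F t| := by
    intro t ht
    have ht0 : 0 < t := h2k.trans_le ht.1
    have h1 := hcon t ht
    have h2 : t ^ (p - 2) = t ^ (p - 1) / t := by
      rw [show p - 2 = (p - 1) - 1 by ring, Real.rpow_sub_one ht0.ne']
    have h3 : ((2 : ℝ) ^ k) ^ (p - 1) ≤ t ^ (p - 1) :=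
      Real.rpow_le_rpow h2k.le ht.1 (by linarith)
    have h4 : 2 * (I + 1) ≤ t ^ (p - 1) * |F t| := by
      calc 2 * (I + 1) ≤ |F t| * ((2 : ℝ) ^ k) ^ (p - 1) := h1.le
        _ ≤ |F t| * t ^ (p - 1) := by gcongr
        _ = _ := mul_comm _ _
    rw [h2, div_mul_eq_mul_div, div_le_div_iff₀ h2k ht0]
    have h5 : t ≤ 2 * 2 ^ k := by
      have := ht.2
      rw [pow_succ] at this; linarith
    calc (I + 1) * t ≤ (I + 1) * (2 * 2 ^ k) := by gcongr
      _ = (2 * (I + 1)) * 2 ^ k := by ring
      _ ≤ t ^ (p - 1) * |F t| * 2 ^ k := by gcongr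
  have hle : ENNReal.ofReal (I + 1) ≤ ∫⁻ t in Ioi (0 : ℝ), ENNReal.ofReal (t ^ (p - 2) * |F t|) := by
    calc ENNReal.ofReal (I + 1) = ∫⁻ _t in Icc ((2 : ℝ) ^ k) (2 ^ (k + 1)), ENNReal.ofReal ((I + 1) / 2 ^ k) := by
          rw [setLIntegral_const, Real.volume_Icc, ← ENNReal.ofReal_mul (by positivity)]
          congr 1
          rw [pow_succ]
          field_simp
          ring
      _ ≤ ∫⁻ t in Icc ((2 : ℝ) ^ k) (2 ^ (k + 1)), ENNReal.ofReal (t ^ (p - 2) * |F t|) := by
          apply setLIntegral_mono' measurableSet_Icc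
          intro t ht
          exact ENNReal.ofReal_le_ofReal (hlow t ht)
      _ ≤ _ := by
          apply lintegral_mono_set
          intro t ht
          exact h2k.trans_le ht.1
  have h6 := ENNReal.toReal_mono hM.ne hle
  rw [ENNReal.toReal_ofReal (by positivity)] at h6
  linarith

/-! ### labels -/

/-- label of the piece containing a point -/
noncomputable def lb (A : ℕ → Set ℝ) (x : ℝ) : ℕ :=
  open Classical in if h : ∃ k, x ∈ A k then Nat.find h + 1 else 0

lemma lb_eq_zero_iff {A : ℕ → Set ℝ} {x : ℝ} : lb A x = 0 ↔ ∀ k, x ∉ A k := by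
  classical
  unfold lb
  split_ifs with h
  · constructor
    · intro h'; exact h'.elim
    · intro h'; obtain ⟨k, hk⟩ := h; exact absurd hk (h' k)
  · simp only [true_iff]
    intro k hk; exact h ⟨k, hk⟩

lemma lb_eq_succ_iff {A : ℕ → Set ℝ} (hd : Pairwise (Function.onFun Disjoint A)) {x : ℝ} {k : ℕ} :
    lb A x = k + 1 ↔ x ∈ A k := by
  classical
  have huniq : ∀ i j, x ∈ A i → x ∈ A j → i = j := by
    intro i j hi hj
    by_contra hne
    exact Set.disjoint_left.1 (hd hne) hi hj
  unfold lb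
  split_ifs with h
  · constructor
    · intro h'
      have : Nat.find h = k := by omega
      rw [← this]; exact Nat.find_spec h
    · intro h'
      have := huniq _ _ (Nat.find_spec h) h'
      omega
  · constructor
    · intro h'; exact h'.elim
    · intro h'; exact absurd ⟨k, h'⟩ h

lemma measurable_lb {A : ℕ → Set ℝ} (hd : Pairwise (Function.onFun Disjoint A))
    (hA : ∀ k, MeasurableSet (A k)) : Measurable (lb A) := by
  apply measurable_to_countable'
  intro k
  rcases k with _ | k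
  · have : lb A ⁻¹' {0} = (⋃ k, A k)ᶜ := by
      ext x
      simp only [mem_preimage, mem_singleton_iff, lb_eq_zero_iff, mem_compl_iff, mem_iUnion, not_exists]
    rw [this]
    exact (MeasurableSet.iUnion hA).compl
  · have : lb A ⁻¹' {k + 1} = A k := by
      ext x
      simp only [mem_preimage, mem_singleton_iff, lb_eq_succ_iff hd]
    rw [this]; exact hA k

/-! ### restriction of isomorphisms and gluing -/

lemma MIso.symm_id_off {Q : Set ℝ} (ω : MIso mu mu)
    (h : ∀ᵐ x ∂mu, x ∉ Q → ω.f x = x) : ∀ᵐ x ∂mu, x ∉ Q → ω.symm.f x = x := by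
  filter_upwards [h, ω.gf] with x h1 h2 hx
  have h3 := h1 hx
  rw [h3] at h2
  exact h2

lemma MIso.restr {Q : Set ℝ} (hQ : MeasurableSet Q) (ω : MIso mu mu)
    (h : ∀ᵐ x ∂mu, x ∉ Q → ω.f x = x) :
    ∃ e : MIso (mu.restrict Q) (mu.restrict Q), e.f = ω.f := by
  have key : ∀ τ : MIso mu mu, (∀ᵐ x ∂mu, x ∉ Q → τ.f x = x) →
      MeasurePreserving τ.f (mu.restrict Q) (mu.restrict Q) := by
    intro τ hτ
    have h1 := τ.mf.restrict_preimage hQ
    have h2 : mu.restrict (τ.f ⁻¹' Q) = mu.restrict Q := by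
      apply Measure.restrict_congr_set
      filter_upwards [τ.mem_iff_of_id_off hτ] with x hx
      exact propext hx
    rwa [h2] at h1
  exact ⟨⟨ω.f, ω.g, key ω h, key ω.symm (ω.symm_id_off h), ae_restrict_of_ae ω.gf,
    ae_restrict_of_ae ω.fg⟩, rfl⟩

/-- gluing isomorphisms supported on disjoint pieces -/
lemma MIso.glueFamily {A : ℕ → Set ℝ} (hd : Pairwise (Function.onFun Disjoint A))
    (hA : ∀ k, MeasurableSet (A k)) (τ : ℕ → MIso mu mu)
    (hτ : ∀ k, ∀ᵐ x ∂mu, x ∉ A k → (τ k).f x = x) :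
    ∃ E : MIso mu mu, (∀ k x, x ∈ A k → E.f x = (τ k).f x) ∧ (∀ x, (∀ k, x ∉ A k) → E.f x = x) := by
  have hm := measurable_lb hd hA
  have hex : ∀ k : ℕ, ∃ e : MIso (mu.restrict {x | lb A x = k}) (mu.restrict {x | lb A x = k}),
      (k = 0 → ∀ x, e.f x = x) ∧ (∀ j, k = j + 1 → e.f = (τ j).f) := by
    intro k
    rcases k with _ | k
    · exact ⟨MIso.refl _, fun _ x => rfl, fun j hj => by omega⟩
    · have hset : {x | lb A x = k + 1} = A k := by
        ext x; simp only [mem_ofPred_eq, lb_eq_succ_iff hd]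
      rw [hset]
      obtain ⟨e, he⟩ := (τ k).restr (hA k) (hτ k)
      refine ⟨e, fun h => by omega, fun j hj => ?_⟩
      have : k = j := by omega
      subst this; exact he
  choose e he0 he1 using hex
  obtain ⟨E, hE, _⟩ := MIso.glue (lb A) (lb A) hm hm e
  refine ⟨E, ?_, ?_⟩
  · intro k x hx
    rw [hE x]
    exact congrFun (he1 (lb A x) k ((lb_eq_succ_iff hd).2 hx)) x
  · intro x hx
    rw [hE x]
    exact he0 (lb A x) (lb_eq_zero_iff.2 hx) x

/-! ### countable partitions -/

lemma NN_le_tsum_of_partition {A : ℕ → Set ℝ} (hd : Pairwise (Function.onFun Disjoint A))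
    (hA : ∀ k, MeasurableSet (A k)) (hcov : ∀ᵐ x ∂mu, ∃ k, x ∈ A k) {G : ℝ → ℝ} (hG : Integrable G mu) :
    NN G ≤ ∑' k, NN ((A k).indicator G) := by
  set P : ℕ → ℝ → ℝ := fun n x => ∑ k ∈ Finset.range n, (A k).indicator G x with hP
  have huniq : ∀ x i j, x ∈ A i → x ∈ A j → i = j := by
    intro x i j hi hj
    by_contra hne
    exact Set.disjoint_left.1 (hd hne) hi hj
  have hint : ∀ k, Integrable ((A k).indicator G) mu := fun k => hG.indicator (hA k)
  have hval : ∀ x k, x ∈ A k → ∀ n, P n x = if k < n then G x else 0 := by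
    intro x k hx n
    simp only [hP]
    split_ifs with hk
    · rw [Finset.sum_eq_single k]
      · exact indicator_of_mem hx _
      · intro j _ hj
        exact indicator_of_notMem (fun h => hj (huniq x j k h hx)) _
      · intro h; exact absurd (Finset.mem_range.2 hk) h
    · apply Finset.sum_eq_zero
      intro j hj
      rw [Finset.mem_range] at hj
      apply indicator_of_notMem
      intro h
      have := huniq x j k h hx
      omega
  have hcoef : ∀ k, Tendsto (fun n => coef (P n) k) atTop (𝓝 (coef G k)) := by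
    intro k
    obtain ⟨C, hC⟩ := exists_bound_of_continuous (continuous_phi k)
    unfold coef
    refine tendsto_integral_of_dominated_convergence (fun x => |G x| * C) ?_ (hG.abs.mul_const C) ?_ ?_
    · intro n
      have h1 : Integrable (P n) mu := integrable_finsetSum _ fun i _ => hint i
      exact (integrable_mul_continuous h1 (continuous_phi k)).aestronglyMeasurable
    · intro n
      filter_upwards [hC, hcov] with x hx hx2
      obtain ⟨j, hj⟩ := hx2
      rw [norm_mul]
      refine mul_le_mul ?_ hx (norm_nonneg _) (abs_nonneg _)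
      rw [hval x j hj n, Real.norm_eq_abs]
      split_ifs
      · exact le_refl _
      · rw [abs_zero]; exact abs_nonneg _
    · filter_upwards [hcov] with x hx
      obtain ⟨j, hj⟩ := hx
      apply tendsto_const_nhds.congr'
      filter_upwards [eventually_gt_atTop j] with n hn
      rw [hval x j hj n, if_pos hn]
  refine (NN_le_liminf hcoef).trans ?_
  have hb : ∀ n, NN (P n) ≤ ∑' k, NN ((A k).indicator G) := by
    intro n
    refine (NN_finset_sum_le (Finset.range n) (fun k => (A k).indicator G) (fun k _ => hint k)).trans ?_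
    exact ENNReal.sum_le_tsum _
  refine (liminf_le_liminf (Eventually.of_forall hb)).trans ?_
  rw [liminf_const]

end Pool.Agent.MP_f3eb7e
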