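import Pool.Agent.Lib.MP_f3eb7e_an.Step

set_option autoImplicit false

open MeasureTheory Set Filter Topology
open scoped ENNReal

namespace Pool.Agent.MP_f3eb7e

/-- choosing small parameters -/
lemma small_rpow' {C : ℝ≥0∞} (hC : C ≠ ∞) {δ : ℝ≥0∞} (hδ : δ ≠ 0) {p : ℝ} (hp : 0 < p) :
    ∃ η : ℝ, 0 < η ∧ ∀ t : ℝ, t ≤ η → C * (ENNReal.ofReal t) ^ p ≤ δ := by
  have h : Tendsto (fun t : ℝ => C * (ENNReal.ofReal t) ^ p) (𝓝 0) (𝓝 0) := by
    have h1 : Tendsto (fun t : ℝ => (ENNReal.ofReal t) ^ p) (𝓝 0) (𝓝 0) := by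
      have : Continuous fun t : ℝ => (ENNReal.ofReal t) ^ p :=
        ENNReal.continuous_rpow_const.comp ENNReal.continuous_ofReal
      have h2 := this.tendsto 0
      simpa [ENNReal.zero_rpow_of_pos hp] using h2
    have h2 := ENNReal.Tendsto.const_mul h1 (Or.inr hC)
    simpa using h2
  have h3 : ∀ᶠ t : ℝ in 𝓝 0, C * (ENNReal.ofReal t) ^ p ≤ δ :=
    h (Iic_mem_nhds (pos_iff_ne_zero.2 hδ))
  rw [Metric.eventually_nhds_iff] at h3
  obtain ⟨η, hη, hball⟩ := h3
  refine ⟨η / 2, by positivity, fun t ht => ?_⟩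
  rcases le_total t 0 with h0 | h0
  · rw [ENNReal.ofReal_of_nonpos h0, ENNReal.zero_rpow_of_pos hp, mul_zero]; exact zero_le
  · apply hball
    rw [Real.dist_eq, sub_zero, abs_of_nonneg h0]
    linarith

/-- far estimate for a function supported in a short interval -/
lemma enorm_Sn_far {f : ℝ → ℝ} {B : ℝ} (hf : Measurable f) (hB : ∀ y, |f y| ≤ B) {a b d : ℝ}
    (hsupp : ∀ y, y ∉ Icc a b → f y = 0) (hd : 0 < d) {x : ℝ} (hx : x ∈ Ioo (-1 : ℝ) 1)
    (hxf : x ∉ Ioo (a - d) (b + d)) (n : ℕ) :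
    ‖Sn n f x‖ₑ ≤ ENNReal.ofReal (3 * B * gw x / d) * ∫⁻ y in Icc a b, ENNReal.ofReal (gw y) ∂mu := by
  have hB0 : 0 ≤ B := (abs_nonneg _).trans (hB 0)
  have hg := gw_nonneg x
  rw [Sn_eq_integral_ker n (integrable_mu_of_bdd hf hB)]
  refine (enorm_integral_le_lintegral_enorm _).trans ?_
  rw [← lintegral_const_mul _ measurable_gw.ennreal_ofReal, ← lintegral_indicator measurableSet_Icc]
  apply lintegral_mono_ae
  filter_upwards [ae_mem_Ioo] with y hy
  by_cases hyab : y ∈ Icc a b
  · rw [indicator_of_mem hyab, ← ENNReal.ofReal_mul (by positivity), ← ofReal_norm]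
    apply ENNReal.ofReal_le_ofReal
    rw [norm_mul, Real.norm_eq_abs, Real.norm_eq_abs]
    have hxy : d ≤ |x - y| := by
      rw [mem_Ioo, not_and_or, not_lt, not_lt] at hxf
      rcases hxf with h | h
      · rw [abs_sub_comm]
        exact (by linarith [hyab.1] : d ≤ y - x).trans (le_abs_self _)
      · exact (by linarith [hyab.2] : d ≤ x - y).trans (le_abs_self _)
    have hne : x ≠ y := by
      intro h; rw [h, sub_self, abs_zero] at hxy; linarith
    have hk := abs_ker_le n hx hy hne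
    have hgy := gw_nonneg y
    calc |f y| * |ker (Finset.range n) x y| ≤ B * (3 * gw x * gw y / |x - y|) := by
          gcongr
          exact hB y
      _ ≤ B * (3 * gw x * gw y / d) := by gcongr
      _ = 3 * B * gw x / d * gw y := by ring
  · rw [hsupp y hyab, zero_mul, enorm_zero]
    exact zero_le

lemma mu_Icc_le (a b : ℝ) : mu (Icc a b) ≤ ENNReal.ofReal (b - a) := by
  rw [← Real.volume_Icc]
  exact Measure.restrict_apply_le _ _

/-- functions of bounded variation supported on tiny intervals have tiny maximal function -/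
theorem tiny {V B : ℝ} (hV0 : 0 ≤ V) {ε : ℝ≥0∞} (hε : ε ≠ 0) :
    ∃ ℓ₀ : ℝ, 0 < ℓ₀ ∧ ∀ (a b : ℝ) (f : ℝ → ℝ), b - a ≤ ℓ₀ → Measurable f →
      (∀ y, |f y| ≤ B) → (∀ y, y ∉ Icc a b → f y = 0) → BVle f V → NN f ≤ ε := by
  have hε2 : ε / 2 ≠ 0 := by simpa using hε
  have hG : G2 ^ (1 / 2 : ℝ) ≠ ∞ := (ENNReal.rpow_lt_top_of_nonneg (by norm_num) G2_lt_top.ne).ne
  obtain ⟨η, hη, H⟩ := small_rpow' (C := ENNReal.ofReal (10 * V) * G2 ^ (1 / 2 : ℝ))
    (ENNReal.mul_ne_top ENNReal.ofReal_ne_top hG) hε2 (p := 1 / 2) (by norm_num)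
  set d := η / 3 with hd
  have hd0 : 0 < d := by positivity
  obtain ⟨η', hη', H'⟩ := small_rpow' (C := ENNReal.ofReal (3 * B / d) * G1 * G2 ^ (1 / 2 : ℝ))
    (ENNReal.mul_ne_top (ENNReal.mul_ne_top ENNReal.ofReal_ne_top G1_lt_top.ne) hG) hε2
    (p := 1 / 2) (by norm_num)
  refine ⟨min d η', lt_min hd0 hη', ?_⟩
  intro a b f hab hf hB hsupp hV
  have hB0 : 0 ≤ B := (abs_nonneg _).trans (hB 0)
  have hfi := integrable_mu_of_bdd hf hB
  set E : Set ℝ := Ioo (a - d) (b + d) with hE
  have hmE : MeasurableSet E := measurableSet_Ioo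
  set I := ∫⁻ y in Icc a b, ENNReal.ofReal (gw y) ∂mu with hI
  have hIle : I ≤ (ENNReal.ofReal η') ^ (1 / 2 : ℝ) * G2 ^ (1 / 2 : ℝ) := by
    refine (lintegral_gw_le _).trans ?_
    gcongr
    refine (mu_Icc_le a b).trans (ENNReal.ofReal_le_ofReal (hab.trans (min_le_right _ _)))
  unfold NN
  rw [← lintegral_add_compl _ hmE]
  have p1 : ∫⁻ x in E, Smax f x ∂mu ≤ ε / 2 := by
    have h1 : ∀ᵐ x ∂(mu.restrict E), Smax f x ≤ ENNReal.ofReal (10 * V) * ENNReal.ofReal (gw x) := by
      filter_upwards [ae_restrict_of_ae ae_mem_Ioo] with x hx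
      apply iSup_le
      intro n
      rw [← ENNReal.ofReal_mul (by positivity), ← ofReal_norm]
      apply ENNReal.ofReal_le_ofReal
      rw [Real.norm_eq_abs]
      refine (abs_Sn_le_of_BVle hfi hV n hx).trans (le_of_eq (by ring))
    refine (lintegral_mono_ae h1).trans ?_
    rw [lintegral_const_mul _ measurable_gw.ennreal_ofReal]
    refine le_trans ?_ (H η (le_refl _))
    rw [mul_assoc]
    gcongr
    refine (lintegral_gw_le _).trans ?_
    rw [mul_comm]
    gcongr
    calc mu E ≤ mu (Icc (a - d) (b + d)) := measure_mono Ioo_subset_Icc_self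
      _ ≤ ENNReal.ofReal ((b + d) - (a - d)) := mu_Icc_le _ _
      _ ≤ ENNReal.ofReal η := by
          apply ENNReal.ofReal_le_ofReal
          have := hab.trans (min_le_left _ _)
          rw [hd] at *
          linarith
  have p2 : ∫⁻ x in Eᶜ, Smax f x ∂mu ≤ ε / 2 := by
    have h1 : ∀ᵐ x ∂(mu.restrict Eᶜ), Smax f x
        ≤ ENNReal.ofReal (gw x) * (ENNReal.ofReal (3 * B / d) * I) := by
      filter_upwards [ae_restrict_of_ae ae_mem_Ioo, ae_restrict_mem hmE.compl] with x hx hx2
      apply iSup_le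
      intro n
      refine (enorm_Sn_far hf hB hsupp hd0 hx hx2 n).trans (le_of_eq ?_)
      rw [← mul_assoc, ← ENNReal.ofReal_mul (gw_nonneg x)]
      congr 2; ring
    refine (lintegral_mono_ae h1).trans ?_
    rw [lintegral_mul_const _ measurable_gw.ennreal_ofReal]
    have h2 : ∫⁻ x in Eᶜ, ENNReal.ofReal (gw x) ∂mu ≤ G1 := setLIntegral_le_lintegral _ _
    refine le_trans ?_ (H' η' (le_refl _))
    calc (∫⁻ x in Eᶜ, ENNReal.ofReal (gw x) ∂mu) * (ENNReal.ofReal (3 * B / d) * I)
        ≤ G1 * (ENNReal.ofReal (3 * B / d) * ((ENNReal.ofReal η') ^ (1 / 2 : ℝ) * G2 ^ (1 / 2 : ℝ))) := by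
          gcongr
      _ = ENNReal.ofReal (3 * B / d) * G1 * G2 ^ (1 / 2 : ℝ) * (ENNReal.ofReal η') ^ (1 / 2 : ℝ) := by ring
  calc _ ≤ ε / 2 + ε / 2 := add_le_add p1 p2
    _ = ε := ENNReal.add_halves ε

/-- auxiliary weight for the indicator estimate -/
noncomputable def wgt (η t : ℝ) : ℝ≥0∞ := (Ioc (0 : ℝ) 2).indicator (fun t => ENNReal.ofReal (t ^ (η - 1))) t

lemma measurable_wgt (η : ℝ) : Measurable (wgt η) := by
  unfold wgt
  apply Measurable.indicator _ measurableSet_Ioc
  exact (measurable_id.pow_const _).ennreal_ofReal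

lemma lintegral_wgt_lt_top {η : ℝ} (hη : 0 < η) : ∫⁻ t, wgt η t < ∞ := by
  unfold wgt
  rw [lintegral_indicator measurableSet_Ioc]
  have h := intervalIntegral.intervalIntegrable_rpow' (a := 0) (b := 2) (r := η - 1) (by linarith)
  rw [intervalIntegrable_iff, uIoc_of_le (by norm_num)] at h
  exact h.lintegral_lt_top

/-- the maximal function of the indicator of an interior interval -/
theorem NN_ind_le {η : ℝ} (hη : 0 < η) (hη1 : η < 1) :
    ∃ C : ℝ≥0∞, C < ∞ ∧ ∀ α β : ℝ, α ≤ β → -(1 / 8) ≤ α → β ≤ 1 / 8 →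
      NN (ind α β) ≤ C * ENNReal.ofReal ((β - α) ^ (1 - η)) := by
  set c := ∫⁻ t, wgt η t with hc
  have hctop : c < ∞ := lintegral_wgt_lt_top hη
  refine ⟨60 * G1 + 40 * c + 40 * c + 40, ?_, ?_⟩
  · have h1 : 60 * G1 < ∞ := ENNReal.mul_lt_top (by norm_num) G1_lt_top
    have h2 : 40 * c < ∞ := ENNReal.mul_lt_top (by norm_num) hctop
    exact ENNReal.add_lt_top.2 ⟨ENNReal.add_lt_top.2 ⟨ENNReal.add_lt_top.2 ⟨h1, h2⟩, h2⟩, by norm_num⟩
  intro α β hαβ hα8 hβ8
  set L := β - α with hL
  have hL0 : 0 ≤ L := by rw [hL]; linarith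
  have hL1 : L ≤ 1 / 4 := by rw [hL]; linarith
  set Lη : ℝ := L ^ (1 - η) with hLη
  have hLη0 : 0 ≤ Lη := Real.rpow_nonneg hL0 _
  -- integral of gw over the interval
  have hI : ∫⁻ y in Icc α β, ENNReal.ofReal (gw y) ∂mu ≤ ENNReal.ofReal (2 * L) := by
    have h1 : ∀ᵐ y ∂(mu.restrict (Icc α β)), ENNReal.ofReal (gw y) ≤ ENNReal.ofReal 2 := by
      filter_upwards [ae_restrict_mem measurableSet_Icc] with y hy
      apply ENNReal.ofReal_le_ofReal
      exact gw_le_two (by rw [abs_le]; exact ⟨by linarith [hy.1], by linarith [hy.2]⟩)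
    refine (lintegral_mono_ae h1).trans ?_
    rw [lintegral_const, Measure.restrict_apply_univ, ENNReal.ofReal_mul (by norm_num)]
    gcongr
    exact mu_Icc_le _ _
  have hpt : ∀ x ∈ Ioo (-1 : ℝ) 1, ∀ n, ‖Sn n (ind α β) x‖ₑ ≤
      40 * (Icc α β).indicator (fun _ => 1) x
        + ENNReal.ofReal Lη * (60 * ENNReal.ofReal (gw x) + (40 * wgt η (α - x) + 40 * wgt η (x - β))) := by
    intro x hx n
    have hbv : ‖Sn n (ind α β) x‖ₑ ≤ ENNReal.ofReal (20 * gw x) := by
      rw [← ofReal_norm]
      apply ENNReal.ofReal_le_ofReal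
      rw [Real.norm_eq_abs]
      exact (abs_Sn_le_of_BVle (integrable_ind α β) (BVle_ind α β) n hx).trans (le_of_eq (by ring))
    have hg0 := gw_nonneg x
    by_cases hxQ : x ∈ Icc α β
    · rw [indicator_of_mem hxQ]
      refine le_trans ?_ le_self_add
      refine hbv.trans ?_
      have hg2 : gw x ≤ 2 := gw_le_two (by rw [abs_le]; exact ⟨by linarith [hxQ.1], by linarith [hxQ.2]⟩)
      calc ENNReal.ofReal (20 * gw x) ≤ ENNReal.ofReal 40 := ENNReal.ofReal_le_ofReal (by linarith)
        _ = 40 * 1 := by norm_num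
    · rw [indicator_of_notMem hxQ, mul_zero, zero_add]
      -- the distance
      obtain ⟨d, hd0, hxd, hd2, hdw⟩ : ∃ d : ℝ, 0 < d ∧ x ∉ Ioo (α - d) (β + d) ∧
          (1 / 2 < |x| → 3 / 8 ≤ d) ∧
          ENNReal.ofReal (d ^ (η - 1)) ≤ wgt η (α - x) + wgt η (x - β) := by
        rw [mem_Icc, not_and_or, not_le, not_le] at hxQ
        rcases hxQ with h | h
        · refine ⟨α - x, by linarith, ?_, ?_, ?_⟩
          · intro h'; linarith [h'.1]
          · intro h'
            have : x < 0 ∨ 0 ≤ x := lt_or_ge x 0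
            rcases this with h0 | h0
            · rw [abs_of_neg h0] at h'; linarith
            · rw [abs_of_nonneg h0] at h'; linarith
          · have : wgt η (α - x) = ENNReal.ofReal ((α - x) ^ (η - 1)) := by
              unfold wgt
              rw [indicator_of_mem]
              exact ⟨by linarith, by linarith [hx.1]⟩
            rw [this]; exact le_self_add
        · refine ⟨x - β, by linarith, ?_, ?_, ?_⟩
          · intro h'; linarith [h'.2]
          · intro h'
            have : x < 0 ∨ 0 ≤ x := lt_or_ge x 0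
            rcases this with h0 | h0
            · rw [abs_of_neg h0] at h'; linarith
            · rw [abs_of_nonneg h0] at h'; linarith
          · have : wgt η (x - β) = ENNReal.ofReal ((x - β) ^ (η - 1)) := by
              unfold wgt
              rw [indicator_of_mem]
              exact ⟨by linarith, by linarith [hx.2]⟩
            rw [this]; exact le_add_self
      have hsupp : ∀ y, y ∉ Icc α β → ind α β y = 0 := by
        intro y hy
        unfold ind
        exact indicator_of_notMem (fun h => hy ⟨h.1, h.2.le⟩) _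
      have hfar := enorm_Sn_far (measurable_ind α β) (abs_ind_le α β) hsupp hd0 hx hxd n
      have hfar2 : ‖Sn n (ind α β) x‖ₑ ≤ ENNReal.ofReal (gw x * (6 * (L / d))) := by
        refine hfar.trans ((mul_le_mul' (le_refl _) hI).trans ?_)
        rw [← ENNReal.ofReal_mul (by positivity)]
        apply ENNReal.ofReal_le_ofReal
        apply le_of_eq; field_simp; ring
      -- combine
      have hcomb : ‖Sn n (ind α β) x‖ₑ ≤ ENNReal.ofReal (gw x * (20 * (L / d) ^ (1 - η))) := by
        rcases le_total 1 (L / d) with h1 | h1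
        · refine hbv.trans (ENNReal.ofReal_le_ofReal ?_)
          have : 1 ≤ (L / d) ^ (1 - η) := Real.one_le_rpow h1 (by linarith)
          nlinarith
        · refine hfar2.trans (ENNReal.ofReal_le_ofReal ?_)
          have h0 : 0 ≤ L / d := by positivity
          have : L / d ≤ (L / d) ^ (1 - η) := by
            rcases eq_or_lt_of_le h0 with h00 | h00
            · rw [← h00]; exact Real.rpow_nonneg (le_refl _) _
            · calc L / d = (L / d) ^ (1 : ℝ) := (Real.rpow_one _).symm
                _ ≤ (L / d) ^ (1 - η) :=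
                  Real.rpow_le_rpow_of_exponent_ge h00 h1 (by linarith)
          apply mul_le_mul_of_nonneg_left _ hg0
          nlinarith
      have hdr : (L / d) ^ (1 - η) = Lη * d ^ (η - 1) := by
        rw [Real.div_rpow hL0 hd0.le, hLη, div_eq_mul_inv, ← Real.rpow_neg hd0.le]
        congr 2; ring
      rw [hdr] at hcomb
      refine hcomb.trans ?_
      have hdp : 0 ≤ d ^ (η - 1) := Real.rpow_nonneg hd0.le _
      by_cases hx2 : 1 / 2 < |x|
      · have hd3 := hd2 hx2
        have hd4 : d ^ (η - 1) ≤ 3 := by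
          calc d ^ (η - 1) ≤ (3 / 8 : ℝ) ^ (η - 1) :=
                Real.rpow_le_rpow_of_nonpos (by norm_num) hd3 (by linarith)
            _ ≤ (3 / 8 : ℝ) ^ (-1 : ℝ) :=
                Real.rpow_le_rpow_of_exponent_ge (by norm_num) (by norm_num) (by linarith)
            _ ≤ 3 := by rw [Real.rpow_neg_one]; norm_num
        calc ENNReal.ofReal (gw x * (20 * (Lη * d ^ (η - 1))))
            ≤ ENNReal.ofReal (Lη * (60 * gw x)) := by
              apply ENNReal.ofReal_le_ofReal
              have : gw x * (20 * (Lη * d ^ (η - 1))) = Lη * (20 * gw x * d ^ (η - 1)) := by ring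
              rw [this]
              refine mul_le_mul_of_nonneg_left ?_ hLη0
              nlinarith
          _ = ENNReal.ofReal Lη * (60 * ENNReal.ofReal (gw x)) := by
              rw [ENNReal.ofReal_mul hLη0, ENNReal.ofReal_mul (by norm_num)]
              norm_num
          _ ≤ _ := by
              gcongr
              exact le_self_add
      · have hg2 : gw x ≤ 2 := gw_le_two (not_lt.1 hx2)
        calc ENNReal.ofReal (gw x * (20 * (Lη * d ^ (η - 1))))
            ≤ ENNReal.ofReal (Lη * (40 * d ^ (η - 1))) := by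
              apply ENNReal.ofReal_le_ofReal
              have : gw x * (20 * (Lη * d ^ (η - 1))) = Lη * (gw x * 20 * d ^ (η - 1)) := by ring
              rw [this]
              gcongr
              linarith
          _ = ENNReal.ofReal Lη * (40 * ENNReal.ofReal (d ^ (η - 1))) := by
              rw [ENNReal.ofReal_mul hLη0, ENNReal.ofReal_mul (by norm_num)]
              norm_num
          _ ≤ ENNReal.ofReal Lη * (40 * (wgt η (α - x) + wgt η (x - β))) := by gcongr
          _ ≤ _ := by
              gcongr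
              rw [mul_add]
              exact le_add_self
  refine (NN_le_of_forall hpt).trans ?_
  have m1 : Measurable fun x => ENNReal.ofReal (gw x) := measurable_gw.ennreal_ofReal
  have m2 : Measurable fun x => wgt η (α - x) := (measurable_wgt η).comp (by fun_prop)
  have m3 : Measurable fun x => wgt η (x - β) := (measurable_wgt η).comp (by fun_prop)
  have m4 : Measurable fun x => 40 * (Icc α β).indicator (fun _ => (1 : ℝ≥0∞)) x :=
    (measurable_const.indicator measurableSet_Icc).const_mul _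
  rw [lintegral_add_left m4, lintegral_const_mul _ (measurable_const.indicator measurableSet_Icc),
    lintegral_const_mul _ (by fun_prop), lintegral_add_left (by fun_prop),
    lintegral_const_mul _ m1, lintegral_add_left (by fun_prop), lintegral_const_mul _ m2,
    lintegral_const_mul _ m3, lintegral_indicator_const measurableSet_Icc]
  have b2 : ∫⁻ x, wgt η (α - x) ∂mu ≤ c := by
    calc ∫⁻ x, wgt η (α - x) ∂mu ≤ ∫⁻ x, wgt η (α - x) := by
          unfold mu; exact setLIntegral_le_lintegral _ _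
      _ = c := by rw [hc]; exact lintegral_sub_left_eq_self _ α
  have b3 : ∫⁻ x, wgt η (x - β) ∂mu ≤ c := by
    calc ∫⁻ x, wgt η (x - β) ∂mu ≤ ∫⁻ x, wgt η (x - β) := by
          unfold mu; exact setLIntegral_le_lintegral _ _
      _ = c := by rw [hc]; exact lintegral_sub_right_eq_self _ β
  have b4 : (1 : ℝ≥0∞) * mu (Icc α β) ≤ ENNReal.ofReal Lη := by
    rw [one_mul]
    refine (mu_Icc_le _ _).trans (ENNReal.ofReal_le_ofReal ?_)
    rw [← hL, hLη]
    rcases eq_or_lt_of_le hL0 with h00 | h00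
    · rw [← h00]; exact Real.rpow_nonneg (le_refl _) _
    · calc L = L ^ (1 : ℝ) := (Real.rpow_one _).symm
        _ ≤ L ^ (1 - η) := Real.rpow_le_rpow_of_exponent_ge h00 (by linarith) (by linarith)
  have b1 : ∫⁻ x, ENNReal.ofReal (gw x) ∂mu = G1 := rfl
  rw [b1]
  calc 40 * (1 * mu (Icc α β)) + ENNReal.ofReal Lη * (60 * G1 +
        (40 * ∫⁻ x, wgt η (α - x) ∂mu + 40 * ∫⁻ x, wgt η (x - β) ∂mu))
      ≤ 40 * ENNReal.ofReal Lη + ENNReal.ofReal Lη * (60 * G1 + (40 * c + 40 * c)) := by gcongr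
    _ = (60 * G1 + 40 * c + 40 * c + 40) * ENNReal.ofReal Lη := by ring

end Pool.Agent.MP_f3eb7e
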