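import Pool.Agent.Lib.MP_f3eb7e_an.Main2
import Pool.Agent.Lib.MP_f3eb7e_an.Defs

set_option autoImplicit false

open MeasureTheory Set Filter Topology
open scoped ENNReal

namespace Pool.Agent.MP_f3eb7e

/-! ### from almost everywhere isomorphisms to genuine equivalences -/

section Upgrade

variable (e : MIso mu mu)

/-- good points -/
def goodSet : Set ℝ :=
  {x | x ∈ Icc (-1 : ℝ) 1 ∧ e.g (e.f x) = x ∧ e.f (e.g x) = x}

/-- points whose whole orbit is good -/
def core : Set ℝ := {x | ∀ n : ℕ, e.f^[n] x ∈ goodSet e ∧ e.g^[n] x ∈ goodSet e}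

lemma measurableSet_goodSet : MeasurableSet (goodSet e) := by
  have h1 : MeasurableSet {x | e.g (e.f x) = x} :=
    measurableSet_eq_fun (e.mg.measurable.comp e.mf.measurable) measurable_id
  have h2 : MeasurableSet {x | e.f (e.g x) = x} :=
    measurableSet_eq_fun (e.mf.measurable.comp e.mg.measurable) measurable_id
  exact measurableSet_Icc.inter (h1.inter h2)

lemma measurableSet_core : MeasurableSet (core e) := by
  have : core e = ⋂ n : ℕ, ((e.f^[n]) ⁻¹' goodSet e ∩ (e.g^[n]) ⁻¹' goodSet e) := by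
    ext x; simp only [core, mem_ofPred_eq, mem_iInter, mem_inter_iff, mem_preimage]
  rw [this]
  exact MeasurableSet.iInter fun n =>
    ((e.mf.measurable.iterate n) (measurableSet_goodSet e)).inter
      ((e.mg.measurable.iterate n) (measurableSet_goodSet e))

lemma ae_goodSet : ∀ᵐ x ∂mu, x ∈ goodSet e := by
  filter_upwards [ae_mem_Icc, e.gf, e.fg] with x h1 h2 h3
  exact ⟨h1, h2, h3⟩

lemma ae_core : ∀ᵐ x ∂mu, x ∈ core e := by
  have h1 : ∀ n : ℕ, ∀ᵐ x ∂mu, e.f^[n] x ∈ goodSet e := fun n =>
    (e.mf.iterate n).quasiMeasurePreserving.ae (ae_goodSet e)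
  have h2 : ∀ n : ℕ, ∀ᵐ x ∂mu, e.g^[n] x ∈ goodSet e := fun n =>
    (e.mg.iterate n).quasiMeasurePreserving.ae (ae_goodSet e)
  filter_upwards [ae_all_iff.2 h1, ae_all_iff.2 h2] with x a1 a2 n
  exact ⟨a1 n, a2 n⟩

variable {e}

lemma core_good {x : ℝ} (hx : x ∈ core e) : x ∈ goodSet e := (hx 0).1

lemma core_f {x : ℝ} (hx : x ∈ core e) : e.f x ∈ core e := by
  intro n
  constructor
  · exact (hx (n + 1)).1
  · rcases n with _ | n
    · exact (hx 1).1
    · rw [Function.iterate_succ_apply, (core_good hx).2.1]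
      exact (hx n).2

lemma core_g {x : ℝ} (hx : x ∈ core e) : e.g x ∈ core e := by
  intro n
  constructor
  · rcases n with _ | n
    · exact (hx 1).2
    · rw [Function.iterate_succ_apply, (core_good hx).2.2]
      exact (hx n).1
  · exact (hx (n + 1)).2

variable (e)

open Classical in
/-- the corrected map -/
noncomputable def upf (x : ℝ) : ℝ := if x ∈ core e then e.f x else x

open Classical in
/-- the corrected inverse -/
noncomputable def upg (x : ℝ) : ℝ := if x ∈ core e then e.g x else x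

lemma measurable_upf : Measurable (upf e) := by
  classical
  exact Measurable.ite (measurableSet_core e) e.mf.measurable measurable_id

lemma measurable_upg : Measurable (upg e) := by
  classical
  exact Measurable.ite (measurableSet_core e) e.mg.measurable measurable_id

lemma upf_mem {x : ℝ} (hx : x ∈ Icc (-1 : ℝ) 1) : upf e x ∈ Icc (-1 : ℝ) 1 := by
  unfold upf
  split_ifs with h
  · exact (core_good (core_f h)).1
  · exact hx

lemma upg_mem {x : ℝ} (hx : x ∈ Icc (-1 : ℝ) 1) : upg e x ∈ Icc (-1 : ℝ) 1 := by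
  unfold upg
  split_ifs with h
  · exact (core_good (core_g h)).1
  · exact hx

lemma upg_upf (x : ℝ) : upg e (upf e x) = x := by
  unfold upg upf
  by_cases h : x ∈ core e
  · rw [if_pos h, if_pos (core_f h)]; exact (core_good h).2.1
  · rw [if_neg h, if_neg h]

lemma upf_upg (x : ℝ) : upf e (upg e x) = x := by
  unfold upg upf
  by_cases h : x ∈ core e
  · rw [if_pos h, if_pos (core_g h)]; exact (core_good h).2.2
  · rw [if_neg h, if_neg h]

lemma upf_ae : ∀ᵐ x ∂mu, upf e x = e.f x := by
  filter_upwards [ae_core e] with x hx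
  unfold upf; rw [if_pos hx]

lemma upf_mp : MeasurePreserving (upf e) mu mu := by
  refine ⟨measurable_upf e, ?_⟩
  rw [Measure.map_congr (upf_ae e), e.mf.map_eq]

/-- the genuine equivalence -/
noncomputable def upEquiv : S ≃ᵐ S where
  toFun x := ⟨upf e x, upf_mem e x.2⟩
  invFun x := ⟨upg e x, upg_mem e x.2⟩
  left_inv x := by
    apply Subtype.ext
    exact upg_upf e x
  right_inv x := by
    apply Subtype.ext
    exact upf_upg e x
  measurable_toFun := ((measurable_upf e).comp measurable_subtype_coe).subtype_mk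
  measurable_invFun := ((measurable_upg e).comp measurable_subtype_coe).subtype_mk

lemma upEquiv_coe (x : S) : ((upEquiv e x : S) : ℝ) = upf e x := rfl

lemma val_mp : MeasurePreserving (Subtype.val : S → ℝ) lebS mu :=
  measurePreserving_subtype_coe measurableSet_Icc

lemma val_emb : MeasurableEmbedding (Subtype.val : S → ℝ) :=
  MeasurableEmbedding.subtype_coe measurableSet_Icc

lemma upEquiv_mp : MeasurePreserving (upEquiv e) lebS lebS := by
  refine ⟨(upEquiv e).measurable, ?_⟩
  ext E hE
  rw [Measure.map_apply (upEquiv e).measurable hE]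
  have hE' : MeasurableSet (Subtype.val '' E) := val_emb.measurableSet_image.2 hE
  have h1 : E = Subtype.val ⁻¹' (Subtype.val '' E) :=
    (preimage_image_eq E Subtype.val_injective).symm
  have h2 : (upEquiv e) ⁻¹' E = Subtype.val ⁻¹' ((upf e) ⁻¹' (Subtype.val '' E)) := by
    conv_lhs => rw [h1]
    rfl
  rw [h2, val_mp.measure_preimage ((measurable_upf e) hE').nullMeasurableSet,
    (upf_mp e).measure_preimage hE'.nullMeasurableSet]
  conv_rhs => rw [h1]
  rw [val_mp.measure_preimage hE'.nullMeasurableSet]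

lemma upEquiv_ne : lebS {x : S | upEquiv e x ≠ x} ≤ mu {x | e.f x ≠ x} := by
  have h1 : {x : S | upEquiv e x ≠ x} = Subtype.val ⁻¹' {x : ℝ | upf e x ≠ x} := by
    ext x
    simp only [mem_ofPred_eq, mem_preimage]
    rw [not_iff_not, Subtype.ext_iff, upEquiv_coe]
  have hm : MeasurableSet {x : ℝ | upf e x ≠ x} :=
    (measurableSet_eq_fun (measurable_upf e) measurable_id).compl
  rw [h1, val_mp.measure_preimage hm.nullMeasurableSet]
  apply measure_mono
  intro x hx h
  apply hx
  unfold upf
  split_ifs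
  · exact h
  · rfl

end Upgrade

/-! ### transfer between `S` and the line -/

lemma integral_S (φ : ℝ → ℝ) : ∫ x : S, φ x ∂lebS = ∫ x, φ x ∂mu :=
  val_mp.integral_comp val_emb φ

lemma legendreP_eq (n : ℕ) (x : ℝ) : legendreP n x = legP n x := by
  induction n using Nat.strong_induction_on with
  | _ n ih =>
    match n with
    | 0 => rfl
    | 1 => rfl
    | (n + 2) =>
      unfold legendreP legP
      rw [ih (n + 1) (by omega), ih n (by omega)]

/-- partial sums agree -/
lemma partialSum_eq {f : S → ℝ} {F : ℝ → ℝ} (h : ∀ᵐ x : S ∂lebS, f x = F x) (n : ℕ) (x : S) :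
    partialSum n f x = Sn (n + 1) F x := by
  unfold partialSum Sn
  refine Finset.sum_congr rfl fun k _ => ?_
  unfold legendreCoeff coef
  have h1 : ∫ y : S, f y * legendreP k y ∂lebS = ∫ y, F y * legP k y ∂mu := by
    rw [← integral_S (fun y => F y * legP k y)]
    apply integral_congr_ae
    filter_upwards [h] with y hy
    rw [hy, legendreP_eq]
  have h2 : ∫ y, F y * phi k y ∂mu = √((k : ℝ) + 1 / 2) * ∫ y, F y * legP k y ∂mu := by
    rw [← integral_const_mul]
    congr 1; funext y
    unfold phi; ring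
  rw [h1, h2, legendreP_eq]
  unfold phi
  have h3 : √((k : ℝ) + 1 / 2) * √((k : ℝ) + 1 / 2) = (k : ℝ) + 1 / 2 := Real.mul_self_sqrt (by positivity)
  calc _ = (√((k : ℝ) + 1 / 2) * √((k : ℝ) + 1 / 2)) * (∫ y, F y * legP k y ∂mu) * legP k x := by rw [h3]
    _ = _ := by ring

lemma lintegral_maximalFn_le {f : S → ℝ} {F : ℝ → ℝ} (h : ∀ᵐ x : S ∂lebS, f x = F x) :
    ∫⁻ x : S, maximalFn f x ∂lebS ≤ NN F := by
  unfold NN
  have h1 : ∫⁻ x, Smax F x ∂mu = ∫⁻ x : S, Smax F x ∂lebS := by
    rw [← val_mp.lintegral_comp (measurable_Smax F)]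
  rw [h1]
  apply lintegral_mono
  intro x
  unfold maximalFn Smax
  apply iSup_le
  intro n
  rw [partialSum_eq h]
  exact le_iSup (fun n => ‖Sn n F (x : ℝ)‖ₑ) (n + 1)

lemma Omega_symm {ε : ℝ} {ω : S ≃ᵐ S} (h : ω ∈ Omega ε) : ω.symm ∈ Omega ε := by
  obtain ⟨h1, h2⟩ := h
  refine ⟨h1.symm ω, ?_⟩
  have hm : MeasurableSet {x : S | ω.symm x ≠ x} :=
    (measurableSet_eq_fun ω.symm.measurable measurable_id).compl
  rw [← h1.measure_preimage hm.nullMeasurableSet]
  refine le_trans (le_of_eq ?_) h2
  congr 1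
  ext x
  simp only [mem_preimage, mem_ofPred_eq, MeasurableEquiv.symm_apply_apply]
  exact ⟨Ne.symm, Ne.symm⟩

/-- **Theorem.** `M^p ⊆ RH_0(A)` for every `p > 1`. -/
theorem classM_subset {p : ℝ} (hp : 1 < p) : classM p ⊆ RH0 classA := by
  intro f hf ε hε
  obtain ⟨hfi, hM⟩ := hf
  -- measurable representative extended to the line
  set f₀ : S → ℝ := hfi.1.mk f with hf₀
  have mf₀ : Measurable f₀ := hfi.1.stronglyMeasurable_mk.measurable
  have hff : ∀ᵐ x : S ∂lebS, f x = f₀ x := hfi.1.ae_eq_mk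
  set F : ℝ → ℝ := Function.extend Subtype.val f₀ 0 with hF
  have mF : Measurable F := val_emb.measurable_extend mf₀ measurable_const
  have hFv : ∀ x : S, F x = f₀ x := fun x => Subtype.val_injective.extend_apply f₀ 0 x
  have hfF : ∀ᵐ x : S ∂lebS, f x = F x := by
    filter_upwards [hff] with x hx
    rw [hx, hFv]
  have hFi : Integrable F mu := by
    rw [← val_mp.integrable_comp_emb val_emb]
    refine hfi.congr ?_
    filter_upwards [hfF] with x hx
    exact hx
  have hFt : ∀ t : ℝ, Ft F t = ∫ x : S, (if t < |f x| then f x else 0) ∂lebS := by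
    intro t
    unfold Ft
    rw [← integral_S (fun x => if t < |F x| then F x else 0)]
    apply integral_congr_ae
    filter_upwards [hfF] with x hx
    rw [hx]
  obtain ⟨e, he1, he2⟩ := main_mu hp mF hFi (by simp_rw [hFt]; exact hM) hε
  set ω := upEquiv e with hω
  have hωO : ω ∈ Omega ε := ⟨upEquiv_mp e, (upEquiv_ne e).trans he1⟩
  have hcomp : ∀ᵐ x : S ∂lebS, f (ω x) = F (e.f x) := by
    have h1 := (upEquiv_mp e).quasiMeasurePreserving.ae hfF
    have h2 := val_mp.quasiMeasurePreserving.ae (upf_ae e)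
    filter_upwards [h1, h2] with x a1 a2
    rw [a1, upEquiv_coe, a2]
  refine ⟨fun x => f (ω x), ⟨?_, ?_⟩, ω.symm, Omega_symm hωO, ?_⟩
  · exact ((upEquiv_mp e).integrable_comp hfi.1).2 hfi
  · exact lt_of_le_of_lt (lintegral_maximalFn_le (F := fun x => F (e.f x)) hcomp) he2
  · funext x
    simp

end Pool.Agent.MP_f3eb7e
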